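import Mathlib

set_option autoImplicit false

namespace Pool.Agent.Lib.MP_040728_al

open Filter Topology

theorem taylor3 (b : ℝ) : ∃ C δ : ℝ, 0 < C ∧ 0 < δ ∧ ∀ w : ℝ, |w| ≤ δ →
    |(1 + w) ^ b - (1 + b * w + b * (b - 1) / 2 * w ^ 2)| ≤ C * |w| ^ 3 := by
  have h := (Real.one_add_rpow_hasFPowerSeriesAt_zero (a := b)).isBigO_sub_partialSum_pow 3
  obtain ⟨C, hC, h⟩ := h.exists_pos
  rw [Asymptotics.IsBigOWith_def, Metric.eventually_nhds_iff] at h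
  obtain ⟨δ, hδ, h⟩ := h
  refine ⟨C, δ / 2, hC, by positivity, fun w hw => ?_⟩
  have h1 := @h w (by rw [dist_zero_right, Real.norm_eq_abs]; linarith)
  have h2 : Ring.choose b 2 = b * (b - 1) / 2 := by
    rw [Ring.choose_eq_smul]
    simp [descPochhammer_succ_right, Polynomial.smeval_mul, Polynomial.smeval_sub]
    ring
  have h3 : (binomialSeries ℝ b).partialSum 3 w = 1 + b * w + b * (b - 1) / 2 * w ^ 2 := by
    simp only [FormalMultilinearSeries.partialSum, Finset.sum_range_succ, Finset.range_zero,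
      Finset.sum_empty, binomialSeries_apply]
    simp [h2, pow_two]
  rw [h3] at h1
  simpa using h1

/-- The second order term of `‖1 + s‖ ^ p`. -/
noncomputable def kap (p : ℝ) (s : ℂ) : ℝ := p / 2 * (‖s‖ ^ 2 - (2 - p) * s.re ^ 2)

theorem re_sq_le (s : ℂ) : s.re ^ 2 ≤ ‖s‖ ^ 2 := by
  have := Complex.abs_re_le_norm s
  rw [← sq_abs]
  exact pow_le_pow_left₀ (abs_nonneg _) this 2

theorem kap_ge {p : ℝ} (h1 : 1 < p) (h2 : p ≤ 2) (s : ℂ) : p * (p - 1) / 2 * ‖s‖ ^ 2 ≤ kap p s := by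
  have := re_sq_le s
  unfold kap
  have h3 : (2 - p) * s.re ^ 2 ≤ (2 - p) * ‖s‖ ^ 2 := mul_le_mul_of_nonneg_left this (by linarith)
  nlinarith

theorem kap_smul (p t : ℝ) (s : ℂ) : kap p ((t : ℂ) * s) = t ^ 2 * kap p s := by
  simp only [kap, norm_mul, Complex.norm_real, Real.norm_eq_abs, mul_pow, sq_abs,
    Complex.re_ofReal_mul]
  ring

theorem kap_neg (p : ℝ) (s : ℂ) : kap p (-s) = kap p s := by simp [kap]

theorem kap_par (p : ℝ) (s r : ℂ) : kap p (s + r) + kap p (s - r) = 2 * kap p s + 2 * kap p r := by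
  have := parallelogram_law_with_norm ℝ s r
  simp only [kap, Complex.add_re, Complex.sub_re]
  have e : ‖s + r‖ ^ 2 + ‖s - r‖ ^ 2 = 2 * ‖s‖ ^ 2 + 2 * ‖r‖ ^ 2 := by nlinarith
  linear_combination (p / 2) * e

theorem expand {p : ℝ} (h1 : 1 < p) (h2 : p ≤ 2) {η : ℝ} (hη : 0 < η) :
    ∃ δ : ℝ, 0 < δ ∧ δ ≤ 1 ∧ ∀ s : ℂ, ‖s‖ ≤ δ →
      |‖1 + s‖ ^ p - 1 - p * s.re - kap p s| ≤ η * ‖s‖ ^ 2 := by
  obtain ⟨C, δ, hC, hδ, h⟩ := taylor3 (p / 2)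
  refine ⟨min 1 (min (δ / 3) (η / (27 * C + 1))), by positivity, min_le_left _ _, fun s hs => ?_⟩
  have s1 : ‖s‖ ≤ 1 := hs.trans (min_le_left _ _)
  have s2 : ‖s‖ ≤ δ / 3 := hs.trans ((min_le_right _ _).trans (min_le_left _ _))
  have s3 : ‖s‖ ≤ η / (27 * C + 1) := hs.trans ((min_le_right _ _).trans (min_le_right _ _))
  have n0 := norm_nonneg s
  have r1 := abs_le.mp (Complex.abs_re_le_norm s)
  set w := 2 * s.re + ‖s‖ ^ 2 with hw
  have w1 : |w| ≤ 3 * ‖s‖ := by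
    rw [abs_le]; constructor <;> nlinarith
  have e1 : ‖1 + s‖ ^ 2 = 1 + w := by
    rw [Complex.sq_norm, Complex.normSq_add, hw, Complex.sq_norm]
    simp
    ring
  have e2 : ‖1 + s‖ ^ p = (1 + w) ^ (p / 2) := by
    rw [← e1, ← Real.rpow_natCast, ← Real.rpow_mul (norm_nonneg _)]
    congr 1; push_cast; ring
  have h3 := h w (by linarith)
  have h4 : |w| ^ 3 ≤ (3 * ‖s‖) ^ 3 := pow_le_pow_left₀ (abs_nonneg _) w1 3
  have h5 : C * |w| ^ 3 ≤ C * (3 * ‖s‖) ^ 3 := mul_le_mul_of_nonneg_left h4 hC.le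
  have e3 : ‖1 + s‖ ^ p - 1 - p * s.re - kap p s =
      ((1 + w) ^ (p / 2) - (1 + p / 2 * w + p / 2 * (p / 2 - 1) / 2 * w ^ 2)) +
        p / 2 * (p / 2 - 1) / 2 * (4 * s.re * ‖s‖ ^ 2 + ‖s‖ ^ 4) := by
    rw [e2, hw, kap]; ring
  have h6 : |p / 2 * (p / 2 - 1) / 2 * (4 * s.re * ‖s‖ ^ 2 + ‖s‖ ^ 4)| ≤ ‖s‖ ^ 3 := by
    rw [abs_mul]
    have a1 : |p / 2 * (p / 2 - 1) / 2| ≤ 1 / 8 := by
      rw [abs_le]; constructor <;> nlinarith [sq_nonneg (p - 1)]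
    have a2 : |4 * s.re * ‖s‖ ^ 2 + ‖s‖ ^ 4| ≤ 5 * ‖s‖ ^ 3 := by
      have b1 : ‖s‖ ^ 4 ≤ ‖s‖ ^ 3 := by
        have : ‖s‖ ^ 4 = ‖s‖ ^ 3 * ‖s‖ := by ring
        rw [this]; exact mul_le_of_le_one_right (by positivity) s1
      have b2 : 0 ≤ ‖s‖ ^ 4 := by positivity
      have b3 : s.re * ‖s‖ ^ 2 ≤ ‖s‖ * ‖s‖ ^ 2 := mul_le_mul_of_nonneg_right r1.2 (by positivity)
      have b4 : -‖s‖ * ‖s‖ ^ 2 ≤ s.re * ‖s‖ ^ 2 := mul_le_mul_of_nonneg_right r1.1 (by positivity)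
      rw [abs_le]; constructor <;> nlinarith
    have a3 : 0 ≤ ‖s‖ ^ 3 := by positivity
    calc _ ≤ 1 / 8 * (5 * ‖s‖ ^ 3) := mul_le_mul a1 a2 (abs_nonneg _) (by norm_num)
      _ ≤ _ := by linarith
  rw [e3]
  refine (abs_add_le _ _).trans ?_
  have h7 : (27 * C + 1) * ‖s‖ ≤ η := by
    rw [le_div_iff₀ (by positivity)] at s3; linarith
  have h8 : (27 * C + 1) * ‖s‖ * ‖s‖ ^ 2 ≤ η * ‖s‖ ^ 2 := mul_le_mul_of_nonneg_right h7 (by positivity)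
  nlinarith

/-- Symmetric second difference. -/
noncomputable def Hh (p : ℝ) (a b : ℂ) : ℝ := ‖a + b‖ ^ p + ‖a - b‖ ^ p - 2 * ‖a‖ ^ p

/-- One sided convexity defect. -/
noncomputable def Gg (p θ : ℝ) (a b : ℂ) : ℝ :=
  ‖a + b‖ ^ p - ‖a‖ ^ p - (‖a + (θ : ℂ) * b‖ ^ p - ‖a‖ ^ p) / θ

theorem Gg_ge {p θ : ℝ} (h1 : 1 < p) (h2 : p ≤ 2) (t0 : 0 < θ) (t1 : θ < 1) (a b : ℂ) {ρ : ℝ}
    (hρ : 0 < ρ) (hab : ‖a‖ + ‖b‖ ≤ ρ) :
    p * (p - 1) / 2 * (1 - θ) * ρ ^ (p - 2) * ‖b‖ ^ 2 ≤ Gg p θ a b := by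
  set c := p * (p - 1) / 2 * ρ ^ (p - 2) with hc
  let ψ : ℝ → ℝ := fun r => r ^ p - c * r ^ 2
  have hcont : ContinuousOn ψ (Set.Icc 0 ρ) :=
    ((continuous_id.rpow_const (fun _ => Or.inr (by linarith))).sub
      (continuous_const.mul (continuous_pow 2))).continuousOn
  have hd1 : ∀ x ∈ interior (Set.Icc 0 ρ),
      HasDerivWithinAt ψ (p * x ^ (p - 1) - c * (2 * x)) (interior (Set.Icc 0 ρ)) x := by
    intro x hx
    rw [interior_Icc] at hx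
    have a1 := Real.hasDerivAt_rpow_const (x := x) (p := p) (Or.inl hx.1.ne')
    have a2 := (hasDerivAt_pow 2 x).const_mul c
    have := a1.sub a2
    simp only [Nat.cast_ofNat, Nat.add_one_sub_one, pow_one] at this
    exact this.hasDerivWithinAt
  have hle : ∀ x, 0 < x → x ≤ ρ → ρ ^ (p - 2) ≤ x ^ (p - 2) := fun x hx hxρ =>
    Real.rpow_le_rpow_of_nonpos hx hxρ (by linarith)
  have hconv : ConvexOn ℝ (Set.Icc 0 ρ) ψ := by
    refine convexOn_of_hasDerivWithinAt2_nonneg (convex_Icc _ _) hcont hd1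
      (f'' := fun x => p * ((p - 1) * x ^ (p - 1 - 1)) - c * 2) ?_ ?_
    · intro x hx
      rw [interior_Icc] at hx
      have a1 := (Real.hasDerivAt_rpow_const (x := x) (p := p - 1) (Or.inl hx.1.ne')).const_mul p
      have a2 := ((hasDerivAt_id x).const_mul 2).const_mul c
      have := a1.sub a2
      simp only [mul_one] at this
      exact this.hasDerivWithinAt
    · intro x hx
      rw [interior_Icc] at hx
      have a1 := hle x hx.1 hx.2.le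
      have a2 : p - 1 - 1 = p - 2 := by ring
      rw [a2, hc]
      have a3 : 0 ≤ p * (p - 1) := by nlinarith
      nlinarith
  have hmono : MonotoneOn ψ (Set.Icc 0 ρ) := by
    refine monotoneOn_of_hasDerivWithinAt_nonneg (convex_Icc _ _) hcont hd1 ?_
    intro x hx
    rw [interior_Icc] at hx
    have a1 := hle x hx.1 hx.2.le
    have a2 : x ^ (p - 1) = x ^ (p - 2) * x := by
      rw [← Real.rpow_add_one hx.1.ne']; congr 1; ring
    have a3 : 0 < ρ ^ (p - 2) := Real.rpow_pos_of_pos hρ _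
    rw [a2, hc]
    have a4 : (p - 1) * ρ ^ (p - 2) ≤ x ^ (p - 2) := by nlinarith
    have a5 : 0 ≤ p * x := by nlinarith [hx.1]
    nlinarith
  have na := norm_nonneg a
  have nb := norm_nonneg b
  have nab := norm_add_le a b
  have nab0 := norm_nonneg (a + b)
  have e0 : a + (θ : ℂ) * b = ((1 - θ : ℝ) : ℂ) * a + (θ : ℂ) * (a + b) := by push_cast; ring
  have l1 : ‖a + (θ : ℂ) * b‖ ≤ (1 - θ) * ‖a‖ + θ * ‖a + b‖ := by
    rw [e0]
    refine (norm_add_le _ _).trans (le_of_eq ?_)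
    rw [norm_mul, norm_mul, Complex.norm_real, Complex.norm_real, Real.norm_eq_abs,
      Real.norm_eq_abs, abs_of_pos t0, abs_of_pos (by linarith)]
  have m1 : (1 - θ) * ‖a‖ + θ * ‖a + b‖ ≤ ρ := by nlinarith
  have l2 := hmono ⟨norm_nonneg _, l1.trans m1⟩ ⟨by nlinarith, m1⟩ l1
  have l3 := hconv.2 (show ‖a‖ ∈ Set.Icc 0 ρ from ⟨na, by linarith⟩)
    (show ‖a + b‖ ∈ Set.Icc 0 ρ from ⟨nab0, by linarith⟩)
    (show 0 ≤ 1 - θ by linarith) t0.le (by ring)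
  simp only [smul_eq_mul] at l3
  have l4 := l2.trans l3
  have e1 : ‖a + (θ : ℂ) * b‖ ^ 2 = (1 - θ) * ‖a‖ ^ 2 + θ * ‖a + b‖ ^ 2 - θ * (1 - θ) * ‖b‖ ^ 2 := by
    simp only [Complex.sq_norm, Complex.normSq_apply, Complex.add_re, Complex.add_im,
      Complex.re_ofReal_mul, Complex.im_ofReal_mul]
    ring
  simp only [ψ] at l4
  rw [e1] at l4
  unfold Gg
  have : (‖a + (θ : ℂ) * b‖ ^ p - ‖a‖ ^ p) / θ ≤ ‖a + b‖ ^ p - ‖a‖ ^ p - c * (1 - θ) * ‖b‖ ^ 2 := by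
    rw [div_le_iff₀ t0]; nlinarith
  have e2 : p * (p - 1) / 2 * (1 - θ) * ρ ^ (p - 2) * ‖b‖ ^ 2 = c * (1 - θ) * ‖b‖ ^ 2 := by
    rw [hc]; ring
  linarith

end Pool.Agent.Lib.MP_040728_al
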