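import Mathlib
import Pool.Agent.Lib.MP_040728_al.Point

set_option autoImplicit false

namespace Pool.Agent.Lib.MP_040728_al

open Filter Topology Finset

theorem Gg_nonneg {p θ : ℝ} (h1 : 1 < p) (h2 : p ≤ 2) (t0 : 0 < θ) (t1 : θ < 1) (a b : ℂ) :
    0 ≤ Gg p θ a b := by
  refine le_trans ?_ (Gg_ge h1 h2 t0 t1 a b (ρ := ‖a‖ + ‖b‖ + 1) (by positivity) (by linarith))
  have : 0 < p - 1 := by linarith
  have : 0 < 1 - θ := by linarith
  positivity

theorem norm_scale {p : ℝ} {a : ℂ} (ha : a ≠ 0) (b : ℂ) :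
    ‖a + b‖ ^ p = ‖a‖ ^ p * ‖1 + b / a‖ ^ p := by
  rw [← Real.mul_rpow (norm_nonneg _) (norm_nonneg _), ← norm_mul]
  congr 2; field_simp

theorem Hh_scale {p : ℝ} {a : ℂ} (ha : a ≠ 0) (t : ℝ) (b : ℂ) :
    Hh p a ((t : ℂ) * b) = ‖a‖ ^ p * Hh p 1 ((t : ℂ) * (b / a)) := by
  unfold Hh
  rw [norm_scale ha, sub_eq_add_neg a, norm_scale ha, neg_div, ← sub_eq_add_neg, mul_div_assoc]
  simp only [norm_one, Real.one_rpow]
  ring

theorem Gg_scale {p θ : ℝ} {a : ℂ} (ha : a ≠ 0) (t : ℝ) (b : ℂ) :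
    Gg p θ a ((t : ℂ) * b) = ‖a‖ ^ p * Gg p θ 1 ((t : ℂ) * (b / a)) := by
  unfold Gg
  rw [norm_scale ha, norm_scale ha ((θ : ℂ) * _), mul_div_assoc, mul_div_assoc, mul_div_assoc]
  simp only [norm_one, Real.one_rpow]
  ring

theorem Hh_le {p : ℝ} (h1 : 1 < p) (a b : ℂ) {ρ : ℝ} (h : ‖a‖ + ‖b‖ ≤ ρ) :
    Hh p a b ≤ 2 * ρ ^ p := by
  have a1 : ‖a + b‖ ^ p ≤ ρ ^ p :=
    Real.rpow_le_rpow (norm_nonneg _) ((norm_add_le _ _).trans h) (by linarith)
  have a2 : ‖a - b‖ ^ p ≤ ρ ^ p :=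
    Real.rpow_le_rpow (norm_nonneg _) ((norm_sub_le _ _).trans h) (by linarith)
  have a3 : 0 ≤ ‖a‖ ^ p := by positivity
  unfold Hh; linarith

theorem exists_big {p : ℝ} (h2 : p < 2) {c : ℝ} (hc : 0 < c) : ∃ K : ℝ, 1 ≤ K ∧ K ^ (p - 2) ≤ c := by
  have h := tendsto_rpow_neg_atTop (y := 2 - p) (by linarith)
  have h3 := (h.eventually (ge_mem_nhds hc)).and (eventually_ge_atTop 1)
  obtain ⟨K, k1, k2⟩ := h3.exists
  exact ⟨K, k2, by rwa [show p - 2 = -(2 - p) by ring]⟩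

theorem rpow_split {p x : ℝ} (hx : 0 < x) : x ^ p = x ^ (p - 2) * x ^ 2 := by
  rw [← Real.rpow_natCast, ← Real.rpow_add hx]; congr 1; push_cast; ring

/-- The pointwise window inequality. -/
def PW (p η θ l δ : ℝ) (L : ℕ) : Prop :=
  ∀ (a u v : ℂ) (t0 t1 t2 : ℝ), 0 < t0 → 0 < t1 → 0 < t2 → t1 ≤ δ * l ^ L * t0 →
    t2 ≤ δ * l ^ L * t0 →
    ∑ i ∈ range L, (Hh p a (((t0 * l ^ i : ℝ) : ℂ) * (u + v)) +
        Hh p a (((t0 * l ^ i : ℝ) : ℂ) * (u - v))) / (t0 * l ^ i) ^ 2 ≤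
      4 * L * (1 + η) * (Gg p θ a ((t1 : ℂ) * u) / t1 ^ 2 + Gg p θ a ((t2 : ℂ) * v) / t2 ^ 2)

theorem pw_two {η : ℝ} (hη : 0 < η) : PW 2 η (η / (1 + η)) 1 1 1 := by
  intro a u v t0 t1 t2 h0 h1 h2 _ _
  have hθ : η / (1 + η) ≠ 0 := by positivity
  have eH : ∀ b : ℂ, Hh 2 a b = 2 * ‖b‖ ^ 2 := by
    intro b
    have := parallelogram_law_with_norm ℝ a b
    simp only [Hh, Real.rpow_ofNat]
    nlinarith
  have eG : ∀ (θ : ℝ) (b : ℂ), θ ≠ 0 → Gg 2 θ a b = (1 - θ) * ‖b‖ ^ 2 := by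
    intro θ b hθ
    simp only [Gg, Real.rpow_ofNat, Complex.sq_norm, Complex.normSq_apply, Complex.add_re,
      Complex.add_im, Complex.re_ofReal_mul, Complex.im_ofReal_mul]
    field_simp
    ring
  have := parallelogram_law_with_norm ℝ u v
  simp only [range_one, sum_singleton, eH, eG _ _ hθ, norm_mul, Complex.norm_real, Real.norm_eq_abs,
    mul_pow, sq_abs, pow_zero, mul_one, Nat.cast_one]
  apply le_of_eq
  field_simp
  nlinarith

theorem pw_lt_two {p : ℝ} (h1 : 1 < p) (h2 : p < 2) {η : ℝ} (hη : 0 < η) :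
    ∃ (θ l δ : ℝ) (L : ℕ), 0 < θ ∧ θ < 1 ∧ 0 < l ∧ l ≤ 1 ∧ 0 < δ ∧ 0 < L ∧ PW p η θ l δ L := by
  set k0 := p * (p - 1) / 2 with hk0
  have k0p : 0 < k0 := by have : 0 < p - 1 := by linarith
                          positivity
  set ε := η / (5 + 3 * η) with hε
  have εp : 0 < ε := by positivity
  have εe : ε * (5 + 3 * η) = η := by rw [hε]; field_simp
  have ε3 : ε < 1 / 3 := by nlinarith
  obtain ⟨d0, d0p, d01, hexp⟩ := expand h1 h2.le (η := ε * k0) (by positivity)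
  have hE : ∀ s : ℂ, ‖s‖ ≤ d0 → |‖1 + s‖ ^ p - 1 - p * s.re - kap p s| ≤ ε * kap p s := by
    intro s hs
    have := kap_ge h1 h2.le s
    refine (hexp s hs).trans ?_
    rw [mul_assoc]
    exact mul_le_mul_of_nonneg_left this εp.le
  have kapn : ∀ s, 0 ≤ kap p s := fun s => le_trans (by positivity) (kap_ge h1 h2.le s)
  have hsm : ∀ s : ℂ, ‖s‖ ≤ d0 → Hh p 1 s ≤ (2 + 2 * ε) * kap p s := by
    intro s hs
    have a1 := abs_le.mp (hE s hs)
    have a2 := abs_le.mp (hE (-s) (by rwa [norm_neg]))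
    rw [kap_neg, Complex.neg_re, ← sub_eq_add_neg] at a2
    simp only [Hh, norm_one, Real.one_rpow]
    linarith [a1.2, a2.2]
  have gsm : ∀ s : ℂ, ‖s‖ ≤ d0 → (1 - 3 * ε) * kap p s ≤ Gg p ε 1 s := by
    intro s hs
    have a1 := abs_le.mp (hE s hs)
    have a2 := abs_le.mp (hE ((ε : ℂ) * s) (by
      rw [norm_mul, Complex.norm_real, Real.norm_eq_abs, abs_of_pos εp]
      nlinarith [norm_nonneg s]))
    rw [kap_smul, Complex.re_ofReal_mul] at a2
    simp only [Gg, norm_one, Real.one_rpow]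
    have a3 : (‖1 + (ε : ℂ) * s‖ ^ p - 1) / ε ≤ p * s.re + 2 * ε * kap p s - ε * kap p s * (1 - ε) := by
      rw [div_le_iff₀ εp]; nlinarith [a2.2]
    have := kapn s
    nlinarith [a1.1, mul_nonneg (mul_nonneg εp.le this) (by linarith : 0 ≤ 1 - ε)]
  obtain ⟨K, K1, hK⟩ := exists_big h2 (c := k0 / 4) (by positivity)
  have hbig : ∀ s : ℂ, K ≤ ‖s‖ → Hh p 1 s ≤ (2 + 2 * ε) * kap p s := by
    intro s hs
    have sp : 0 < ‖s‖ := by linarith
    have a1 := Hh_le h1 1 s (ρ := 2 * ‖s‖) (by rw [norm_one]; linarith)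
    rw [rpow_split (by positivity)] at a1
    have a2 : (2 * ‖s‖) ^ (p - 2) ≤ K ^ (p - 2) :=
      Real.rpow_le_rpow_of_nonpos (by linarith) (by linarith) (by linarith)
    have a3 := kap_ge h1 h2.le s
    have a4 : (2 * ‖s‖) ^ (p - 2) * (2 * ‖s‖) ^ 2 ≤ k0 / 4 * (2 * ‖s‖) ^ 2 :=
      mul_le_mul_of_nonneg_right (a2.trans hK) (by positivity)
    have := kapn s
    nlinarith
  set C1 := 2 * (1 + 1 / d0) ^ 2 / k0 with hC1
  have C1p : 0 < C1 := by positivity
  have hmid : ∀ s : ℂ, d0 < ‖s‖ → Hh p 1 s ≤ C1 * kap p s := by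
    intro s hs
    have b1 : 1 ≤ ‖s‖ / d0 := by rw [le_div_iff₀ d0p]; linarith
    have a1 := Hh_le h1 1 s (ρ := (1 + 1 / d0) * ‖s‖) (by
      rw [norm_one, add_mul, one_mul, one_div_mul_eq_div]; linarith)
    have b2 : 1 ≤ (1 + 1 / d0) * ‖s‖ := by
      rw [add_mul, one_mul, one_div_mul_eq_div]; linarith [norm_nonneg s]
    have a2 : ((1 + 1 / d0) * ‖s‖) ^ p ≤ ((1 + 1 / d0) * ‖s‖) ^ (2 : ℝ) :=
      Real.rpow_le_rpow_of_exponent_le b2 h2.le
    rw [Real.rpow_ofNat] at a2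
    have a3 := mul_le_mul_of_nonneg_left (kap_ge h1 h2.le s) C1p.le
    have a4 : C1 * (p * (p - 1) / 2 * ‖s‖ ^ 2) = 2 * ((1 + 1 / d0) * ‖s‖) ^ 2 := by
      rw [← hk0, hC1]; field_simp
    linarith
  set l := d0 / K with hl
  have lp : 0 < l := by positivity
  have l1 : l ≤ 1 := by rw [hl, div_le_one (by linarith)]; linarith
  obtain ⟨L, hL⟩ := exists_nat_gt (C1 / (2 * ε))
  have Lp : (0 : ℝ) < L := lt_trans (by positivity) hL
  have hL' : C1 ≤ 2 * ε * L := by rw [div_lt_iff₀ (by positivity)] at hL; linarith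
  have hwin : ∀ (w : ℂ) (t0 : ℝ), 0 < t0 →
      ∑ i ∈ range L, Hh p 1 (((t0 * l ^ i : ℝ) : ℂ) * w) / (t0 * l ^ i) ^ 2 ≤
        L * (2 + 4 * ε) * kap p w := by
    intro w t0 h0
    have tn : ∀ i : ℕ, ‖((t0 * l ^ i : ℝ) : ℂ) * w‖ = t0 * l ^ i * ‖w‖ := by
      intro i
      rw [norm_mul, Complex.norm_real, Real.norm_eq_abs, abs_of_pos (by positivity)]
    let bad : ℕ → Prop := fun i => d0 < t0 * l ^ i * ‖w‖ ∧ t0 * l ^ i * ‖w‖ < K
    have a1 : ∀ i ∈ range L, Hh p 1 (((t0 * l ^ i : ℝ) : ℂ) * w) / (t0 * l ^ i) ^ 2 ≤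
        (2 + 2 * ε) * kap p w + if bad i then C1 * kap p w else 0 := by
      intro i _
      have tp : 0 < (t0 * l ^ i) ^ 2 := by positivity
      have kw := kapn w
      rw [div_le_iff₀ tp]
      split_ifs with hb
      · have := hmid _ (by rw [tn]; exact hb.1)
        rw [kap_smul] at this
        linarith [mul_nonneg kw tp.le, mul_nonneg εp.le (mul_nonneg kw tp.le)]
      · have : Hh p 1 (((t0 * l ^ i : ℝ) : ℂ) * w) ≤
            (2 + 2 * ε) * kap p (((t0 * l ^ i : ℝ) : ℂ) * w) := by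
          by_cases hb1 : d0 < t0 * l ^ i * ‖w‖
          · exact hbig _ (by rw [tn]; by_contra hc; exact hb ⟨hb1, not_le.mp hc⟩)
          · exact hsm _ (by rw [tn]; exact not_lt.mp hb1)
        rw [kap_smul] at this
        linarith
    have a2 : ((range L).filter bad).card ≤ 1 := by
      have key : ∀ i j, i < j → bad i → bad j → False := by
        intro i j hij bi bj
        have c1 : l ^ j ≤ l ^ (i + 1) := pow_le_pow_of_le_one lp.le l1 hij
        have c2 : t0 * l ^ j * ‖w‖ ≤ t0 * l ^ (i + 1) * ‖w‖ := by gcongr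
        have c3 : t0 * l ^ (i + 1) * ‖w‖ = l * (t0 * l ^ i * ‖w‖) := by ring
        have c4 : l * (t0 * l ^ i * ‖w‖) < l * K := mul_lt_mul_of_pos_left bi.2 lp
        have c5 : l * K = d0 := by rw [hl]; field_simp
        linarith [bj.1]
      rw [card_le_one]
      intro i hi j hj
      by_contra hne
      rcases lt_or_gt_of_ne hne with h | h
      · exact key i j h (mem_filter.mp hi).2 (mem_filter.mp hj).2
      · exact key j i h (mem_filter.mp hj).2 (mem_filter.mp hi).2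
    refine (sum_le_sum a1).trans ?_
    rw [sum_add_distrib, sum_const, card_range, ← sum_filter, sum_const, nsmul_eq_mul, nsmul_eq_mul]
    have a3 : (((range L).filter bad).card : ℝ) ≤ 1 := by exact_mod_cast a2
    have kw := kapn w
    have a4 : (((range L).filter bad).card : ℝ) * (C1 * kap p w) ≤ 2 * ε * L * kap p w := by
      calc _ ≤ 1 * (C1 * kap p w) := mul_le_mul_of_nonneg_right a3 (by positivity)
        _ ≤ _ := by rw [one_mul]; exact mul_le_mul_of_nonneg_right hL' kw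
    linarith
  obtain ⟨K', K'1, hK'⟩ := exists_big h2 (c := k0 * (1 - ε) / 9) (by
    have : 0 < 1 - ε := by linarith
    positivity)
  refine ⟨ε, l, min d0 (1 / (K' * (1 / d0 + 1))), L, εp, by linarith, lp, l1, by positivity,
    by exact_mod_cast Lp, ?_⟩
  set δ := min d0 (1 / (K' * (1 / d0 + 1))) with hδ
  have δp : 0 < δ := by positivity
  intro a u v t0 t1 t2 h0 p1 p2 q1 q2
  have tn : ∀ (t : ℝ) (w : ℂ), 0 < t → ‖(t : ℂ) * w‖ = t * ‖w‖ := by
    intro t w ht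
    rw [norm_mul, Complex.norm_real, Real.norm_eq_abs, abs_of_pos ht]
  by_cases hA : t1 * ‖u‖ ≤ d0 * ‖a‖ ∧ t2 * ‖v‖ ≤ d0 * ‖a‖
  · by_cases ha : a = 0
    · subst ha
      rw [norm_zero, mul_zero] at hA
      have hu : u = 0 := by
        rw [← norm_le_zero_iff]; by_contra hc; linarith [hA.1, mul_pos p1 (not_le.mp hc)]
      have hv : v = 0 := by
        rw [← norm_le_zero_iff]; by_contra hc; linarith [hA.2, mul_pos p2 (not_le.mp hc)]
      subst hu hv
      have : p ≠ 0 := by linarith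
      simp [Hh, Gg, Real.zero_rpow this]
    · have an : 0 < ‖a‖ := norm_pos_iff.mpr ha
      have ap : 0 < ‖a‖ ^ p := by positivity
      simp only [Hh_scale ha, Gg_scale ha, add_div u v, sub_div u v]
      have b1 := gsm ((t1 : ℂ) * (u / a)) (by
        rw [tn _ _ p1, norm_div, ← mul_div_assoc, div_le_iff₀ an]; exact hA.1)
      have b2 := gsm ((t2 : ℂ) * (v / a)) (by
        rw [tn _ _ p2, norm_div, ← mul_div_assoc, div_le_iff₀ an]; exact hA.2)
      rw [kap_smul] at b1 b2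
      have b3 : (1 - 3 * ε) * kap p (u / a) ≤ Gg p ε 1 ((t1 : ℂ) * (u / a)) / t1 ^ 2 := by
        rw [le_div_iff₀ (by positivity)]; linarith
      have b4 : (1 - 3 * ε) * kap p (v / a) ≤ Gg p ε 1 ((t2 : ℂ) * (v / a)) / t2 ^ 2 := by
        rw [le_div_iff₀ (by positivity)]; linarith
      have b5 := hwin (u / a + v / a) t0 h0
      have b6 := hwin (u / a - v / a) t0 h0
      have b7 := kap_par p (u / a) (v / a)
      have e1 : ∑ i ∈ range L, (‖a‖ ^ p * Hh p 1 (((t0 * l ^ i : ℝ) : ℂ) * (u / a + v / a)) +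
          ‖a‖ ^ p * Hh p 1 (((t0 * l ^ i : ℝ) : ℂ) * (u / a - v / a))) / (t0 * l ^ i) ^ 2 =
          ‖a‖ ^ p * (∑ i ∈ range L, Hh p 1 (((t0 * l ^ i : ℝ) : ℂ) * (u / a + v / a)) / (t0 * l ^ i) ^ 2
            + ∑ i ∈ range L, Hh p 1 (((t0 * l ^ i : ℝ) : ℂ) * (u / a - v / a)) / (t0 * l ^ i) ^ 2) := by
        rw [← sum_add_distrib, mul_sum]
        exact sum_congr rfl (fun i _ => by ring)
      rw [e1, mul_div_assoc, mul_div_assoc, ← mul_add, mul_left_comm]
      refine mul_le_mul_of_nonneg_left ?_ ap.le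
      have ku := kapn (u / a)
      have kv := kapn (v / a)
      have c0 : (1 + η) * (1 - 3 * ε) = 1 + 2 * ε := by linear_combination (-1 : ℝ) * εe
      calc _ ≤ L * (2 + 4 * ε) * (2 * kap p (u / a) + 2 * kap p (v / a)) := by
            rw [← b7]; linarith
        _ = 4 * L * (1 + η) * ((1 - 3 * ε) * kap p (u / a) + (1 - 3 * ε) * kap p (v / a)) := by
            linear_combination (-4 * (L : ℝ) * (kap p (u / a) + kap p (v / a))) * c0
        _ ≤ _ := mul_le_mul_of_nonneg_left (add_le_add b3 b4) (by positivity)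
  · set m := max ‖u‖ ‖v‖ with hm
    set τ := max t1 t2 with hτ
    have τp : 0 < τ := lt_max_of_lt_left p1
    have um : ‖u‖ ≤ m := le_max_left _ _
    have vm : ‖v‖ ≤ m := le_max_right _ _
    have m0 : 0 ≤ m := (norm_nonneg u).trans um
    have hB : d0 * ‖a‖ < τ * m := by
      rw [not_and_or, not_le, not_le] at hA
      rcases hA with h | h
      · exact h.trans_le (mul_le_mul (le_max_left _ _) um (norm_nonneg _) τp.le)
      · exact h.trans_le (mul_le_mul (le_max_right _ _) vm (norm_nonneg _) τp.le)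
    have τm : 0 < τ * m := lt_of_le_of_lt (by positivity) hB
    have mp : 0 < m := (pos_iff_pos_of_mul_pos τm).mp τp
    set ρ := (1 / d0 + 1) * (τ * m) with hρ
    have ρp : 0 < ρ := by positivity
    have aρ : ‖a‖ ≤ 1 / d0 * (τ * m) := by
      rw [one_div_mul_eq_div, le_div_iff₀ d0p]; linarith
    set c := k0 * (1 - ε) * ρ ^ (p - 2) * m ^ 2 with hc
    have one : ∀ (t : ℝ) (w : ℂ), 0 < t → t ≤ τ → ‖w‖ = m → c ≤ Gg p ε a ((t : ℂ) * w) / t ^ 2 := by
      intro t w ht htτ hw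
      have := Gg_ge h1 h2.le εp (by linarith) a ((t : ℂ) * w) ρp (by
        rw [tn _ _ ht, hw, hρ]; linarith [mul_le_mul_of_nonneg_right htτ m0])
      rw [tn _ _ ht, hw] at this
      rw [le_div_iff₀ (by positivity), hc, hk0]
      linarith
    have g1 : 0 ≤ Gg p ε a ((t1 : ℂ) * u) / t1 ^ 2 :=
      div_nonneg (Gg_nonneg h1 h2.le εp (by linarith) _ _) (by positivity)
    have g2 : 0 ≤ Gg p ε a ((t2 : ℂ) * v) / t2 ^ 2 :=
      div_nonneg (Gg_nonneg h1 h2.le εp (by linarith) _ _) (by positivity)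
    have hR : c ≤ Gg p ε a ((t1 : ℂ) * u) / t1 ^ 2 + Gg p ε a ((t2 : ℂ) * v) / t2 ^ 2 := by
      rcases max_choice ‖u‖ ‖v‖ with h | h
      · have := one t1 u p1 (le_max_left _ _) h.symm; linarith
      · have := one t2 v p2 (le_max_right _ _) h.symm; linarith
    have cp : 0 ≤ c := by
      have : 0 < 1 - ε := by linarith
      positivity
    have term : ∀ (t : ℝ) (w : ℂ), 0 < t → τ ≤ δ * t → ‖w‖ ≤ 2 * m →
        Hh p a ((t : ℂ) * w) ≤ 2 * c * t ^ 2 := by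
      intro t w ht hτt hw
      have d1 : δ ≤ d0 := min_le_left _ _
      have d2 : δ ≤ 1 / (K' * (1 / d0 + 1)) := min_le_right _ _
      have d3 : ‖a‖ ≤ t * m := by
        have : τ * m ≤ d0 * (t * m) := by
          linarith [mul_le_mul_of_nonneg_right (hτt.trans (mul_le_mul_of_nonneg_right d1 ht.le)) m0]
        have := hB.le.trans this
        exact le_of_mul_le_mul_left this d0p
      have d4 := Hh_le h1 a ((t : ℂ) * w) (ρ := 3 * (t * m)) (by
        rw [tn _ _ ht]; linarith [mul_le_mul_of_nonneg_left hw ht.le])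
      rw [rpow_split (by positivity)] at d4
      have d5 : K' * ρ ≤ 3 * (t * m) := by
        have e1 : τ ≤ 1 / (K' * (1 / d0 + 1)) * t := hτt.trans (mul_le_mul_of_nonneg_right d2 ht.le)
        rw [one_div_mul_eq_div, le_div_iff₀ (by positivity)] at e1
        have e2 := mul_le_mul_of_nonneg_right e1 m0
        have e3 : 0 ≤ t * m := by positivity
        rw [hρ]; linarith
      have d6 : (3 * (t * m)) ^ (p - 2) ≤ (K' * ρ) ^ (p - 2) :=
        Real.rpow_le_rpow_of_nonpos (by positivity) d5 (by linarith)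
      rw [Real.mul_rpow (by linarith) ρp.le] at d6
      have d7 : K' ^ (p - 2) * ρ ^ (p - 2) ≤ k0 * (1 - ε) / 9 * ρ ^ (p - 2) :=
        mul_le_mul_of_nonneg_right hK' (by positivity)
      have d8 := mul_le_mul_of_nonneg_right (d6.trans d7) (by positivity : 0 ≤ (3 * (t * m)) ^ 2)
      have d9 : k0 * (1 - ε) / 9 * ρ ^ (p - 2) * (3 * (t * m)) ^ 2 = c * t ^ 2 := by rw [hc]; ring
      linarith
    have a1 : ∀ i ∈ range L, (Hh p a (((t0 * l ^ i : ℝ) : ℂ) * (u + v)) +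
        Hh p a (((t0 * l ^ i : ℝ) : ℂ) * (u - v))) / (t0 * l ^ i) ^ 2 ≤ 4 * c := by
      intro i hi
      have tp : 0 < t0 * l ^ i := by positivity
      have c1 : l ^ L ≤ l ^ i := pow_le_pow_of_le_one lp.le l1 (mem_range.mp hi).le
      have c2 : δ * l ^ L * t0 ≤ δ * (t0 * l ^ i) := by
        rw [mul_assoc, mul_comm (l ^ L)]; gcongr
      have c3 : τ ≤ δ * (t0 * l ^ i) := max_le (q1.trans c2) (q2.trans c2)
      have c4 := term _ (u + v) tp c3 ((norm_add_le _ _).trans (by linarith))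
      have c5 := term _ (u - v) tp c3 ((norm_sub_le _ _).trans (by linarith))
      rw [div_le_iff₀ (by positivity)]
      linarith
    refine (sum_le_sum a1).trans ?_
    rw [sum_const, card_range, nsmul_eq_mul]
    have := mul_le_mul_of_nonneg_left hR (by positivity : 0 ≤ 4 * (L : ℝ) * (1 + η))
    linarith [mul_nonneg (mul_nonneg Lp.le hη.le) cp]

theorem pw_exists {p : ℝ} (h1 : 1 < p) (h2 : p ≤ 2) {η : ℝ} (hη : 0 < η) :
    ∃ (θ l δ : ℝ) (L : ℕ), 0 < θ ∧ θ < 1 ∧ 0 < l ∧ l ≤ 1 ∧ 0 < δ ∧ 0 < L ∧ PW p η θ l δ L := by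
  rcases h2.lt_or_eq with h | rfl
  · exact pw_lt_two h1 h hη
  · exact ⟨η / (1 + η), 1, 1, 1, by positivity, by rw [div_lt_one (by positivity)]; linarith,
      one_pos, le_rfl, one_pos, one_pos, pw_two hη⟩

theorem pw_lower {p : ℝ} (h1 : 1 < p) (h2 : p ≤ 2) {ε : ℝ} (hε : 0 < ε) :
    ∃ C : ℝ, 0 < C ∧ ∀ (a u : ℂ) (t : ℝ), 0 < t → t ≤ 1 →
      ‖u‖ ^ p ≤ ε ^ p * ‖a‖ ^ p + C * (Gg p (1 / 2) a ((t : ℂ) * u) / t ^ 2) := by
  set c := p * (p - 1) / 2 * (1 - 1 / 2) * (1 / ε + 1) ^ (p - 2) with hc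
  have cp : 0 < c := by
    have : 0 < p - 1 := by linarith
    positivity
  refine ⟨1 / c, by positivity, fun a u t ht t1 => ?_⟩
  have g0 : 0 ≤ Gg p (1 / 2) a ((t : ℂ) * u) / t ^ 2 :=
    div_nonneg (Gg_nonneg h1 h2 (by norm_num) (by norm_num) _ _) (by positivity)
  by_cases h : ‖u‖ ≤ ε * ‖a‖
  · have := Real.rpow_le_rpow (norm_nonneg _) h (by linarith : 0 ≤ p)
    rw [Real.mul_rpow hε.le (norm_nonneg _)] at this
    have : 0 ≤ 1 / c * (Gg p (1 / 2) a ((t : ℂ) * u) / t ^ 2) := by positivity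
    linarith
  · have h' := not_le.mp h
    have up : 0 < ‖u‖ := lt_of_le_of_lt (by positivity) h'
    have tn : ‖(t : ℂ) * u‖ = t * ‖u‖ := by
      rw [norm_mul, Complex.norm_real, Real.norm_eq_abs, abs_of_pos ht]
    have a1 := Gg_ge h1 h2 (θ := 1 / 2) (by norm_num) (by norm_num) a ((t : ℂ) * u)
      (ρ := (1 / ε + 1) * ‖u‖) (by positivity) (by
        have : ‖a‖ ≤ 1 / ε * ‖u‖ := by rw [one_div_mul_eq_div, le_div_iff₀ hε]; linarith
        rw [tn]; nlinarith)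
    rw [tn, Real.mul_rpow (by positivity) up.le] at a1
    have a2 : c * ‖u‖ ^ p ≤ Gg p (1 / 2) a ((t : ℂ) * u) / t ^ 2 := by
      rw [le_div_iff₀ (by positivity), rpow_split up, hc]
      linarith
    have a3 : ‖u‖ ^ p ≤ 1 / c * (Gg p (1 / 2) a ((t : ℂ) * u) / t ^ 2) := by
      rw [one_div_mul_eq_div, le_div_iff₀ cp]; linarith
    have : 0 ≤ ε ^ p * ‖a‖ ^ p := by positivity
    linarith

end Pool.Agent.Lib.MP_040728_al
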