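import Mathlib
import Pool.Agent.Lib.MP_040728_al.Point2

set_option autoImplicit false

namespace Pool.Agent.Lib.MP_040728_al

open Filter Topology Finset MeasureTheory

section defs
variable {V : Type*} [SeminormedAddCommGroup V] [NormedSpace ℂ V]

/-- Symmetric second difference of the `p`-th power of the norm. -/
noncomputable def HV (p : ℝ) (a b : V) : ℝ := ‖a + b‖ ^ p + ‖a - b‖ ^ p - 2 * ‖a‖ ^ p

/-- One sided convexity defect of the `p`-th power of the norm. -/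
noncomputable def GV (p θ : ℝ) (a b : V) : ℝ :=
  ‖a + b‖ ^ p - ‖a‖ ^ p - (‖a + (θ : ℂ) • b‖ ^ p - ‖a‖ ^ p) / θ

variable (V) in
/-- The window inequality in a space. -/
def PWV (p η θ l δ : ℝ) (L : ℕ) : Prop :=
  ∀ (a u v : V) (t0 t1 t2 : ℝ), 0 < t0 → 0 < t1 → 0 < t2 → t1 ≤ δ * l ^ L * t0 →
    t2 ≤ δ * l ^ L * t0 →
    ∑ i ∈ range L, (HV p a (((t0 * l ^ i : ℝ) : ℂ) • (u + v)) +
        HV p a (((t0 * l ^ i : ℝ) : ℂ) • (u - v))) / (t0 * l ^ i) ^ 2 ≤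
      4 * L * (1 + η) * (GV p θ a ((t1 : ℂ) • u) / t1 ^ 2 + GV p θ a ((t2 : ℂ) • v) / t2 ^ 2)

variable (V) in
/-- The lower inequality in a space. -/
def LowV (p ε C : ℝ) : Prop :=
  ∀ (a u : V) (t : ℝ), 0 < t → t ≤ 1 →
    ‖u‖ ^ p ≤ ε ^ p * ‖a‖ ^ p + C * (GV p (1 / 2) a ((t : ℂ) • u) / t ^ 2)

variable (V) in
/-- Both inequalities. -/
def Good (p : ℝ) : Prop :=
  (∀ η : ℝ, 0 < η → ∃ (θ l δ : ℝ) (L : ℕ), 0 < θ ∧ θ < 1 ∧ 0 < l ∧ l ≤ 1 ∧ 0 < δ ∧ 0 < L ∧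
    PWV V p η θ l δ L) ∧ ∀ ε : ℝ, 0 < ε → ∃ C : ℝ, 0 < C ∧ LowV V p ε C

end defs

section lp
variable {X : Type*} [MeasurableSpace X] {μ : Measure X} {p : ENNReal} [Fact (1 ≤ p)]

omit [Fact (1 ≤ p)] in
theorem int_norm (h0 : p ≠ 0) (ht : p ≠ ⊤) (f : Lp ℂ p μ) (g : X → ℂ) (h : f =ᵐ[μ] g) :
    Integrable (fun x => ‖g x‖ ^ p.toReal) μ ∧ ∫ x, ‖g x‖ ^ p.toReal ∂μ = ‖f‖ ^ p.toReal := by
  have e : (fun x => ‖f x‖ ^ p.toReal) =ᵐ[μ] fun x => ‖g x‖ ^ p.toReal := by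
    filter_upwards [h] with x hx; rw [hx]
  refine ⟨((Lp.memLp f).integrable_norm_rpow h0 ht).congr e, ?_⟩
  have pp : p.toReal ≠ 0 := ENNReal.toReal_ne_zero.mpr ⟨h0, ht⟩
  have n0 : 0 ≤ ∫ x, ‖f x‖ ^ p.toReal ∂μ := integral_nonneg (fun x => by positivity)
  rw [← integral_congr_ae e, Lp.norm_def, (Lp.memLp f).eLpNorm_eq_integral_rpow_norm h0 ht,
    ENNReal.toReal_ofReal (by positivity), Real.rpow_inv_rpow n0 pp]

theorem int_H (h0 : p ≠ 0) (ht : p ≠ ⊤) (a b : Lp ℂ p μ) (g : X → ℂ) (h : b =ᵐ[μ] g) :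
    Integrable (fun x => Hh p.toReal (a x) (g x)) μ ∧
      ∫ x, Hh p.toReal (a x) (g x) ∂μ = HV p.toReal a b := by
  obtain ⟨i1, e1⟩ := int_norm h0 ht (a + b) (fun x => a x + g x) (by
    filter_upwards [h, Lp.coeFn_add a b] with x hx hy; rw [hy, Pi.add_apply, hx])
  obtain ⟨i2, e2⟩ := int_norm h0 ht (a - b) (fun x => a x - g x) (by
    filter_upwards [h, Lp.coeFn_sub a b] with x hx hy; rw [hy, Pi.sub_apply, hx])
  obtain ⟨i3, e3⟩ := int_norm h0 ht a (fun x => a x) (EventuallyEq.refl _ _)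
  refine ⟨(i1.add i2).sub (i3.const_mul 2), ?_⟩
  unfold Hh HV
  rw [integral_sub (i1.fun_add i2) (i3.const_mul 2), integral_add i1 i2, integral_const_mul, e1, e2, e3]

theorem int_G (h0 : p ≠ 0) (ht : p ≠ ⊤) (θ : ℝ) (a b : Lp ℂ p μ) (g : X → ℂ) (h : b =ᵐ[μ] g) :
    Integrable (fun x => Gg p.toReal θ (a x) (g x)) μ ∧
      ∫ x, Gg p.toReal θ (a x) (g x) ∂μ = GV p.toReal θ a b := by
  obtain ⟨i1, e1⟩ := int_norm h0 ht (a + b) (fun x => a x + g x) (by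
    filter_upwards [h, Lp.coeFn_add a b] with x hx hy; rw [hy, Pi.add_apply, hx])
  obtain ⟨i2, e2⟩ := int_norm h0 ht (a + (θ : ℂ) • b) (fun x => a x + (θ : ℂ) * g x) (by
    filter_upwards [h, Lp.coeFn_add a ((θ : ℂ) • b), Lp.coeFn_smul (θ : ℂ) b] with x hx hy hz
    rw [hy, Pi.add_apply, hz, Pi.smul_apply, hx, smul_eq_mul])
  obtain ⟨i3, e3⟩ := int_norm h0 ht a (fun x => a x) (EventuallyEq.refl _ _)
  refine ⟨(i1.sub i3).sub ((i2.sub i3).div_const θ), ?_⟩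
  unfold Gg GV
  rw [integral_sub (i1.sub' i3) ((i2.sub' i3).div_const θ), integral_sub i1 i3, integral_div,
    integral_sub i2 i3, e1, e2, e3]

omit [Fact (1 ≤ p)] in
theorem smul_ae (c : ℂ) (u : Lp ℂ p μ) : (c • u : Lp ℂ p μ) =ᵐ[μ] fun x => c * u x := by
  filter_upwards [Lp.coeFn_smul c u] with x hx
  rw [hx, Pi.smul_apply, smul_eq_mul]

theorem good_Lp (h1 : 1 < p) (h2 : p ≤ 2) : Good (Lp ℂ p μ) p.toReal := by
  have h0 : p ≠ 0 := (lt_trans zero_lt_one h1).ne'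
  have ht : p ≠ ⊤ := (lt_of_le_of_lt h2 ENNReal.ofNat_lt_top).ne
  have r1 : 1 < p.toReal := by
    rw [← ENNReal.toReal_one]; exact (ENNReal.toReal_lt_toReal ENNReal.one_ne_top ht).mpr h1
  have r2 : p.toReal ≤ 2 := by
    have := ENNReal.toReal_mono ENNReal.ofNat_ne_top h2
    simpa using this
  constructor
  · intro η hη
    obtain ⟨θ, l, δ, L, a1, a2, a3, a4, a5, a6, h⟩ := pw_exists r1 r2 hη
    refine ⟨θ, l, δ, L, a1, a2, a3, a4, a5, a6, fun a u v t0 t1 t2 b0 b1 b2 b3 b4 => ?_⟩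
    have c1 := fun c : ℂ => int_H h0 ht a (c • (u + v)) (fun x => c * (u x + v x)) (by
      filter_upwards [smul_ae c (u + v), Lp.coeFn_add u v] with x hx hy
      rw [hx, hy, Pi.add_apply])
    have c2 := fun c : ℂ => int_H h0 ht a (c • (u - v)) (fun x => c * (u x - v x)) (by
      filter_upwards [smul_ae c (u - v), Lp.coeFn_sub u v] with x hx hy
      rw [hx, hy, Pi.sub_apply])
    obtain ⟨i3, e3⟩ := int_G h0 ht θ a _ _ (smul_ae (t1 : ℂ) u)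
    obtain ⟨i4, e4⟩ := int_G h0 ht θ a _ _ (smul_ae (t2 : ℂ) v)
    have i5 : ∀ i ∈ range L, Integrable (fun x =>
        (Hh p.toReal (a x) (((t0 * l ^ i : ℝ) : ℂ) * (u x + v x)) +
          Hh p.toReal (a x) (((t0 * l ^ i : ℝ) : ℂ) * (u x - v x))) / (t0 * l ^ i) ^ 2) μ :=
      fun i _ => ((c1 _).1.add (c2 _).1).div_const _
    have key := integral_mono (integrable_finsetSum _ i5)
      (((i3.div_const (t1 ^ 2)).add (i4.div_const (t2 ^ 2))).const_mul (4 * L * (1 + η)))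
      (fun x => h (a x) (u x) (v x) t0 t1 t2 b0 b1 b2 b3 b4)
    rw [integral_finsetSum _ i5, integral_const_mul] at key
    simp only [Pi.add_apply] at key
    rw [integral_add (i3.div_const _) (i4.div_const _), integral_div, integral_div, e3, e4] at key
    refine le_trans (le_of_eq (sum_congr rfl (fun i _ => ?_))) key
    rw [integral_div, integral_add (c1 _).1 (c2 _).1, (c1 _).2, (c2 _).2]
  · intro ε hε
    obtain ⟨C, hC, h⟩ := pw_lower r1 r2 hε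
    refine ⟨C, hC, fun a u t b0 b1 => ?_⟩
    obtain ⟨i1, e1⟩ := int_norm h0 ht u (fun x => u x) (EventuallyEq.refl _ _)
    obtain ⟨i2, e2⟩ := int_norm h0 ht a (fun x => a x) (EventuallyEq.refl _ _)
    obtain ⟨i3, e3⟩ := int_G h0 ht (1 / 2) a _ _ (smul_ae (t : ℂ) u)
    have key := integral_mono i1 ((i2.const_mul (ε ^ p.toReal)).add
      ((i3.div_const (t ^ 2)).const_mul C)) (fun x => h (a x) (u x) t b0 b1)
    simp only [Pi.add_apply] at key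
    rwa [integral_add (i2.const_mul _) ((i3.div_const _).const_mul _), integral_const_mul,
      integral_const_mul, integral_div, e1, e2, e3] at key

end lp

theorem le_of_eps {x y : ℝ} (K : ℝ) (h : ∀ ε : ℝ, 0 < ε → x ≤ y + K * ε) : x ≤ y := by
  have : Tendsto (fun ε : ℝ => y + K * ε) (𝓝[>] 0) (𝓝 (y + K * 0)) :=
    ((continuous_const.add (continuous_const.mul continuous_id)).tendsto 0).mono_left
      nhdsWithin_le_nhds
  rw [mul_zero, add_zero] at this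
  exact ge_of_tendsto this (eventually_mem_nhdsWithin.mono (fun ε hε => h ε hε))

section transfer
variable {W V : Type*} [SeminormedAddCommGroup W] [NormedSpace ℂ W]
  [SeminormedAddCommGroup V] [NormedSpace ℂ V]

theorem good_sub {p : ℝ} (h : Good W p) (Y : Submodule ℂ W) : Good Y p := by
  constructor
  · intro η hη
    obtain ⟨θ, l, δ, L, a1, a2, a3, a4, a5, a6, h⟩ := h.1 η hη
    exact ⟨θ, l, δ, L, a1, a2, a3, a4, a5, a6, fun a u v => h a u v⟩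
  · intro ε hε
    obtain ⟨C, hC, h⟩ := h.2 ε hε
    exact ⟨C, hC, fun a u => h a u⟩

theorem good_quot {p : ℝ} (hp : 0 < p) (h : Good W p) (q : W →ₗ[ℂ] V) (hq : ∀ w, ‖q w‖ ≤ ‖w‖)
    (hl : ∀ (v : V) (ε : ℝ), 0 < ε → ∃ w, q w = v ∧ ‖w‖ < ‖v‖ + ε) : Good V p := by
  have hq' : ∀ w, ‖q w‖ ^ p ≤ ‖w‖ ^ p := fun w => Real.rpow_le_rpow (norm_nonneg _) (hq w) hp.le
  have hl' : ∀ (v : V) (ε : ℝ), 0 < ε → ∃ w, q w = v ∧ ‖w‖ ^ p ≤ ‖v‖ ^ p + ε := by
    intro v ε hε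
    have c : ContinuousAt (fun r : ℝ => r ^ p) ‖v‖ := Real.continuousAt_rpow_const _ _ (Or.inr hp.le)
    obtain ⟨d, dp, hd⟩ := Metric.continuousAt_iff.mp c ε hε
    obtain ⟨w, rfl, hw⟩ := hl v d dp
    refine ⟨w, rfl, ?_⟩
    have := hd (x := ‖w‖) (by rw [Real.dist_eq, abs_lt]; constructor <;> linarith [hq w])
    rw [Real.dist_eq, abs_lt] at this
    linarith [this.2]
  have lH : ∀ (a b : W) (ε : ℝ), ‖a‖ ^ p ≤ ‖q a‖ ^ p + ε → HV p (q a) (q b) ≤ HV p a b + 2 * ε := by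
    intro a b ε ha
    have c1 := hq' (a + b)
    have c2 := hq' (a - b)
    rw [map_add] at c1
    rw [map_sub] at c2
    unfold HV; linarith
  have lG : ∀ (a : W) (ε θ t : ℝ) (u : V), 0 < ε → 0 < θ → 0 < t → ‖a‖ ^ p ≤ ‖q a‖ ^ p + ε →
      ∃ w, q w = u ∧ GV p θ a ((t : ℂ) • w) ≤ GV p θ (q a) ((t : ℂ) • u) + (1 + 1 / θ) * ε := by
    intro a ε θ t u hε hθ ht ha
    obtain ⟨z, hz, hz'⟩ := hl' (q a + (t : ℂ) • u) ε hε
    have tn : (t : ℂ) ≠ 0 := by exact_mod_cast ht.ne'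
    have e1 : q ((t : ℂ)⁻¹ • (z - a)) = u := by
      rw [map_smul, map_sub, hz, add_sub_cancel_left, smul_smul, inv_mul_cancel₀ tn, one_smul]
    refine ⟨(t : ℂ)⁻¹ • (z - a), e1, ?_⟩
    have c1 := hq' (a + (θ : ℂ) • (t : ℂ) • (t : ℂ)⁻¹ • (z - a))
    rw [map_add, map_smul, map_smul, e1] at c1
    have c2 := hq' a
    have e2 : a + (t : ℂ) • (t : ℂ)⁻¹ • (z - a) = z := by
      rw [smul_smul, mul_inv_cancel₀ tn, one_smul, add_sub_cancel]
    unfold GV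
    rw [e2]
    have c3 : (‖q a + (θ : ℂ) • (t : ℂ) • u‖ ^ p - ‖q a‖ ^ p - ε) / θ ≤
        (‖a + (θ : ℂ) • (t : ℂ) • (t : ℂ)⁻¹ • (z - a)‖ ^ p - ‖a‖ ^ p) / θ :=
      div_le_div_of_nonneg_right (by linarith) hθ.le
    rw [sub_div _ ε] at c3
    have e3 : (1 + 1 / θ) * ε = ε + ε / θ := by ring
    linarith
  constructor
  · intro η hη
    obtain ⟨θ, l, δ, L, a1, a2, a3, a4, a5, a6, h⟩ := h.1 η hη
    refine ⟨θ, l, δ, L, a1, a2, a3, a4, a5, a6, fun a u v t0 t1 t2 b0 b1 b2 b3 b4 => ?_⟩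
    refine le_of_eps (∑ i ∈ range L, 4 / (t0 * l ^ i) ^ 2 +
      4 * L * (1 + η) * ((1 + 1 / θ) / t1 ^ 2 + (1 + 1 / θ) / t2 ^ 2)) (fun ε hε => ?_)
    obtain ⟨a', rfl, ha⟩ := hl' a ε hε
    obtain ⟨u', rfl, hu⟩ := lG a' ε θ t1 u hε a1 b1 ha
    obtain ⟨v', rfl, hv⟩ := lG a' ε θ t2 v hε a1 b2 ha
    have key := h a' u' v' t0 t1 t2 b0 b1 b2 b3 b4
    have c1 : ∑ i ∈ range L, (HV p (q a') (((t0 * l ^ i : ℝ) : ℂ) • (q u' + q v')) +
        HV p (q a') (((t0 * l ^ i : ℝ) : ℂ) • (q u' - q v'))) / (t0 * l ^ i) ^ 2 ≤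
        ∑ i ∈ range L, ((HV p a' (((t0 * l ^ i : ℝ) : ℂ) • (u' + v')) +
          HV p a' (((t0 * l ^ i : ℝ) : ℂ) • (u' - v'))) / (t0 * l ^ i) ^ 2 +
            4 / (t0 * l ^ i) ^ 2 * ε) := by
      refine sum_le_sum (fun i _ => ?_)
      have d1 := lH a' (((t0 * l ^ i : ℝ) : ℂ) • (u' + v')) ε ha
      have d2 := lH a' (((t0 * l ^ i : ℝ) : ℂ) • (u' - v')) ε ha
      rw [map_smul, map_add] at d1
      rw [map_smul, map_sub] at d2
      rw [div_mul_eq_mul_div, ← add_div]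
      exact div_le_div_of_nonneg_right (by linarith) (by positivity)
    rw [sum_add_distrib, ← sum_mul] at c1
    have c2 := div_le_div_of_nonneg_right hu (by positivity : 0 ≤ t1 ^ 2)
    have c3 := div_le_div_of_nonneg_right hv (by positivity : 0 ≤ t2 ^ 2)
    have c4 := mul_le_mul_of_nonneg_left (add_le_add c2 c3) (by positivity : 0 ≤ 4 * (L : ℝ) * (1 + η))
    refine (c1.trans (add_le_add_left (key.trans c4) _)).trans (le_of_eq ?_)
    ring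
  · intro ε hε
    obtain ⟨C, hC, h⟩ := h.2 ε hε
    refine ⟨C, hC, fun a u t b0 b1 => ?_⟩
    refine le_of_eps (ε ^ p + C * (3 / t ^ 2)) (fun e he => ?_)
    obtain ⟨a', rfl, ha⟩ := hl' a e he
    obtain ⟨u', rfl, hu⟩ := lG a' e (1 / 2) t u he (by norm_num) b0 ha
    have key := h a' u' t b0 b1
    have c2 := mul_le_mul_of_nonneg_left
      (div_le_div_of_nonneg_right hu (by positivity : 0 ≤ t ^ 2)) hC.le
    have c3 := mul_le_mul_of_nonneg_left ha (by positivity : 0 ≤ ε ^ p)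
    refine ((hq' u').trans (key.trans (add_le_add c3 c2))).trans (le_of_eq ?_)
    ring

end transfer

theorem good_pspace {X : Type*} [MeasurableSpace X] {μ : Measure X} {p : ENNReal} [Fact (1 ≤ p)]
    (h1 : 1 < p) (h2 : p ≤ 2) (Y : Submodule ℂ (Lp ℂ p μ)) (Z : Submodule ℂ Y) :
    Good (Y ⧸ Z) p.toReal := by
  have ht : p ≠ ⊤ := (lt_of_le_of_lt h2 ENNReal.ofNat_lt_top).ne
  refine good_quot (ENNReal.toReal_pos (lt_trans zero_lt_one h1).ne' ht)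
    (good_sub (good_Lp h1 h2) Y) Z.mkQ (fun w => Submodule.Quotient.norm_mk_le Z w) ?_
  intro v ε hε
  exact Submodule.Quotient.norm_mk_lt v hε

end Pool.Agent.Lib.MP_040728_al
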