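import Mathlib
import Pool.Agent.Lib.MP_040728_al.Transfer

set_option autoImplicit false

namespace Pool.Agent.Lib.MP_040728_al

open Filter Topology Finset
open scoped InnerProductSpace

theorem exists_ultra : ∃ W : Ultrafilter (ℕ × ℕ),
    (∀ f : ℕ → ℕ → ℝ, (∀ k, Tendsto (f k) atTop (𝓝 0)) →
      Tendsto (fun i : ℕ × ℕ => f i.1 i.2) W (𝓝 0)) ∧ Tendsto Prod.fst (W : Filter (ℕ × ℕ)) atTop := by
  have : NeBot ((atTop : Filter ℕ).curry (atTop : Filter ℕ)) := by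
    rw [← frequently_true_iff_neBot, frequently_curry_iff]
    exact Frequently.of_forall (fun _ => Frequently.of_forall (fun _ => trivial))
  refine ⟨Ultrafilter.of ((atTop : Filter ℕ).curry (atTop : Filter ℕ)), fun f hf => ?_, ?_⟩
  · refine Tendsto.mono_left ?_ (Ultrafilter.of_le _)
    intro s hs
    rw [Filter.mem_map, mem_curry_iff]
    exact Eventually.of_forall (fun k => hf k hs)
  · exact (tendsto_fst.mono_left curry_le_prod).mono_left (Ultrafilter.of_le _)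

/-- The properties of the limit functional. -/
structure Lim {H : Type*} [NormedAddCommGroup H] [NormedSpace ℂ H] (Ψ : H → ℝ) (M m : ℝ) :
    Prop where
  pos : 0 < m
  low : ∀ x, Ψ 0 ≤ Ψ x
  upp : ∀ x, Ψ x ≤ Ψ 0 + M * ‖x‖ ^ 2
  win : ∀ η : ℝ, 0 < η → ∃ (l δ : ℝ) (L : ℕ), 0 < l ∧ l ≤ 1 ∧ 0 < δ ∧ 0 < L ∧
    ∀ (x y : H) (t0 t1 t2 : ℝ), 0 < t0 → 0 < t1 → 0 < t2 → t1 ≤ δ * l ^ L * t0 →
      t2 ≤ δ * l ^ L * t0 →
      ∑ i ∈ range L, ((Ψ (((t0 * l ^ i : ℝ) : ℂ) • (x + y)) +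
          Ψ (-(((t0 * l ^ i : ℝ) : ℂ) • (x + y))) - 2 * Ψ 0) +
        (Ψ (((t0 * l ^ i : ℝ) : ℂ) • (x - y)) +
          Ψ (-(((t0 * l ^ i : ℝ) : ℂ) • (x - y))) - 2 * Ψ 0)) / (t0 * l ^ i) ^ 2 ≤
      4 * L * (1 + η) * ((Ψ ((t1 : ℂ) • x) - Ψ 0) / t1 ^ 2 + (Ψ ((t2 : ℂ) • y) - Ψ 0) / t2 ^ 2)
  sph : ∀ x : H, ‖x‖ = 1 → ∀ t : ℝ, 0 < t → t ≤ 1 → m ≤ (Ψ ((t : ℂ) • x) - Ψ 0) / t ^ 2

theorem exists_lim {E H V : Type*} [NormedAddCommGroup E] [InnerProductSpace ℂ E] [CompleteSpace E]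
    [NormedAddCommGroup H] [NormedSpace ℂ H] [SeminormedAddCommGroup V] [NormedSpace ℂ V]
    {p : ℝ} (h1 : 1 < p) (h2 : p ≤ 2) (hV : Good V p) (T : E →L[ℂ] V) {c : ℝ} (hc : 0 < c)
    (hT : ∀ v, c * ‖v‖ ≤ ‖T v‖) (ι : ℕ → H →L[ℂ] E) (hι : ∀ n x, ‖ι n x‖ = ‖x‖)
    (hw : ∀ w x, Tendsto (fun n => ⟪w, ι n x⟫_ℂ) atTop (𝓝 0)) :
    ∃ (Ψ : H → ℝ) (M m : ℝ), Lim Ψ M m ∧ ∀ x y : H,
      (∀ e, Tendsto (fun n => ‖T (e + ι n x)‖ - ‖T (e + ι n y)‖) atTop (𝓝 0)) → Ψ x = Ψ y := by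
  have p0 : 0 < p := by linarith
  set D := ‖T‖ ^ p with hD
  have D0 : 0 ≤ D := by positivity
  let Φ : E → ℝ := fun v => ‖T v‖ ^ p - (D + 1) * ‖v‖ ^ 2
  have hΦ : ∀ v, Φ v ≤ D - ‖v‖ ^ 2 := by
    intro v
    have a1 : ‖T v‖ ^ p ≤ D * ‖v‖ ^ p := by
      rw [hD, ← Real.mul_rpow (norm_nonneg _) (norm_nonneg _)]
      exact Real.rpow_le_rpow (norm_nonneg _) (T.le_opNorm v) p0.le
    have a2 : ‖v‖ ^ p ≤ 1 + ‖v‖ ^ 2 := by
      rcases le_total ‖v‖ 1 with h | h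
      · have := Real.rpow_le_one (norm_nonneg v) h p0.le
        nlinarith [sq_nonneg ‖v‖]
      · have := Real.rpow_le_rpow_of_exponent_le h h2
        rw [Real.rpow_ofNat] at this
        linarith
    have := mul_le_mul_of_nonneg_left a2 D0
    simp only [Φ]; linarith
  have bdd : BddAbove (Set.range Φ) := ⟨D, by
    rintro _ ⟨v, rfl⟩; linarith [hΦ v, sq_nonneg ‖v‖]⟩
  set σ := sSup (Set.range Φ) with hσ
  have leσ : ∀ v, Φ v ≤ σ := fun v => le_csSup bdd ⟨v, rfl⟩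
  have σ0 : 0 ≤ σ := by
    have := leσ 0
    simpa [Φ, Real.zero_rpow p0.ne'] using this
  obtain ⟨u, -, hu, hu'⟩ := exists_seq_tendsto_sSup (Set.range_nonempty Φ) bdd
  choose e he using hu'
  obtain ⟨W, W1, W2⟩ := exists_ultra
  have hΦe : Tendsto (fun i : ℕ × ℕ => Φ (e i.1)) W (𝓝 σ) := by
    simp only [he]; exact hu.comp W2
  have ebd : ∀ᶠ i : ℕ × ℕ in W, ‖e i.1‖ ≤ D + 2 := by
    filter_upwards [hΦe.eventually (lt_mem_nhds (show (-1 : ℝ) < σ by linarith))] with i hi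
    have := hΦ (e i.1)
    nlinarith [sq_nonneg (‖e i.1‖ - 1)]
  have exν : ∀ x : H, ∃ r, Tendsto (fun i : ℕ × ℕ => ‖T (e i.1 + ι i.2 x)‖) W (𝓝 r) := by
    intro x
    obtain ⟨r, -, hr⟩ := (isCompact_Icc (a := (0 : ℝ)) (b := ‖T‖ * (D + 2 + ‖x‖))).ultrafilter_le_nhds
      (W.map (fun i : ℕ × ℕ => ‖T (e i.1 + ι i.2 x)‖)) (by
        rw [Ultrafilter.coe_map, le_principal_iff, Filter.mem_map]
        filter_upwards [ebd] with i hi
        refine ⟨norm_nonneg _, (T.le_opNorm _).trans ?_⟩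
        refine mul_le_mul_of_nonneg_left ((norm_add_le _ _).trans ?_) (norm_nonneg _)
        rw [hι]; linarith)
    exact ⟨r, hr⟩
  choose ν hν using exν
  have ν0 : ∀ x, 0 ≤ ν x := fun x => ge_of_tendsto' (hν x) (fun i => norm_nonneg _)
  let Ψ : H → ℝ := fun x => ν x ^ p
  have hΨ : ∀ x, Tendsto (fun i : ℕ × ℕ => ‖T (e i.1) + T (ι i.2 x)‖ ^ p) W (𝓝 (Ψ x)) := by
    intro x
    simp only [← map_add]
    exact (hν x).rpow_const (Or.inr p0.le)
  have hΨ0 : Tendsto (fun i : ℕ × ℕ => ‖T (e i.1)‖ ^ p) W (𝓝 (Ψ 0)) := by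
    simpa using hΨ 0
  have hre : ∀ (w : ℕ → E) (x : H),
      Tendsto (fun i : ℕ × ℕ => (⟪w i.1, ι i.2 x⟫_ℂ).re) W (𝓝 0) := by
    intro w x
    refine W1 (fun k n => (⟪w k, ι n x⟫_ℂ).re) (fun k => ?_)
    exact (Complex.continuous_re.tendsto 0).comp (hw (w k) x)
  have low : ∀ x, Ψ 0 ≤ Ψ x := by
    intro x
    refine Real.rpow_le_rpow (ν0 0) ?_ p0.le
    choose φ φ1 φ2 using fun k => exists_dual_vector'' ℂ (T (e k))
    let w : ℕ → E := fun k => (InnerProductSpace.toDual ℂ E).symm ((φ k).comp T)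
    have a1 := (hν x).sub (hre w x)
    rw [sub_zero] at a1
    refine le_of_tendsto_of_tendsto' (hν 0) a1 (fun i => ?_)
    have b1 : ⟪w i.1, ι i.2 x⟫_ℂ = φ i.1 (T (ι i.2 x)) := by
      simp [w, InnerProductSpace.toDual_symm_apply]
    have b2 : (φ i.1 (T (e i.1 + ι i.2 x))).re ≤ ‖T (e i.1 + ι i.2 x)‖ :=
      (Complex.re_le_norm _).trans (((φ i.1).le_opNorm _).trans
        (mul_le_of_le_one_left (norm_nonneg _) (φ1 _)))
    rw [map_add, map_add, φ2, Complex.add_re, ← map_add] at b2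
    rw [b1, map_zero, add_zero]
    simp only [Complex.coe_algebraMap, Complex.ofReal_re] at b2
    linarith
  have tH : ∀ x, Tendsto (fun i : ℕ × ℕ => HV p (T (e i.1)) (T (ι i.2 x))) W
      (𝓝 (Ψ x + Ψ (-x) - 2 * Ψ 0)) := by
    intro x
    have := ((hΨ x).add (hΨ (-x))).sub (hΨ0.const_mul 2)
    simpa only [HV, map_neg, ← sub_eq_add_neg] using this
  have tG : ∀ (θ : ℝ) x, Tendsto (fun i : ℕ × ℕ => GV p θ (T (e i.1)) (T (ι i.2 x))) W
      (𝓝 (Ψ x - Ψ 0 - (Ψ ((θ : ℂ) • x) - Ψ 0) / θ)) := by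
    intro θ x
    have := ((hΨ x).sub hΨ0).sub (((hΨ ((θ : ℂ) • x)).sub hΨ0).div_const θ)
    simpa only [GV, map_smul] using this
  have gle : ∀ (θ t : ℝ) x, 0 < θ → (Ψ x - Ψ 0 - (Ψ ((θ : ℂ) • x) - Ψ 0) / θ) / t ^ 2 ≤
      (Ψ x - Ψ 0) / t ^ 2 := by
    intro θ t x hθ
    have := div_nonneg (sub_nonneg.mpr (low ((θ : ℂ) • x))) hθ.le
    exact div_le_div_of_nonneg_right (by linarith) (by positivity)
  obtain ⟨C, hC, hlow⟩ := hV.2 (c / (2 * (ν 0 + 1))) (by have := ν0 0; positivity)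
  refine ⟨Ψ, D + 1, (c ^ p - (c / 2) ^ p) / C, ⟨?_, low, ?_, ?_, ?_⟩, ?_⟩
  · have := Real.rpow_lt_rpow (by positivity) (half_lt_self hc) p0
    exact div_pos (by linarith) hC
  · intro x
    have a1 := (((tendsto_const_nhds (x := σ)).sub hΦe).add hΨ0).add
      ((((hre e x).const_mul 2).add (tendsto_const_nhds (x := ‖x‖ ^ 2))).const_mul (D + 1))
    simp only [sub_self, zero_add, mul_zero] at a1
    refine le_of_tendsto_of_tendsto' (hΨ x) a1 (fun i => ?_)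
    have b1 := leσ (e i.1 + ι i.2 x)
    have b2 := norm_add_sq (𝕜 := ℂ) (e i.1) (ι i.2 x)
    rw [hι, RCLike.re_to_complex] at b2
    simp only [Φ, map_add, b2] at b1 ⊢
    linarith
  · intro η hη
    obtain ⟨θ, l, δ, L, a1, a2, a3, a4, a5, a6, h⟩ := hV.1 η hη
    refine ⟨l, δ, L, a3, a4, a5, a6, fun x y t0 t1 t2 b0 b1 b2 b3 b4 => ?_⟩
    have c1 := tendsto_finsetSum (range L) (fun i _ =>
      ((tH (((t0 * l ^ i : ℝ) : ℂ) • (x + y))).add (tH (((t0 * l ^ i : ℝ) : ℂ) • (x - y)))).div_const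
        ((t0 * l ^ i) ^ 2))
    have c2 := (((tG θ ((t1 : ℂ) • x)).div_const (t1 ^ 2)).add
      ((tG θ ((t2 : ℂ) • y)).div_const (t2 ^ 2))).const_mul (4 * L * (1 + η))
    refine (le_of_tendsto_of_tendsto' c1 c2 (fun i => ?_)).trans ?_
    · simp only [map_smul, map_add, map_sub]
      exact h _ _ _ t0 t1 t2 b0 b1 b2 b3 b4
    · exact mul_le_mul_of_nonneg_left (add_le_add (gle _ _ _ a1) (gle _ _ _ a1)) (by positivity)
  · intro x hx t b0 b1
    have c2 := (hΨ0.const_mul ((c / (2 * (ν 0 + 1))) ^ p)).add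
      (((tG (1 / 2) ((t : ℂ) • x)).div_const (t ^ 2)).const_mul C)
    have c3 := ge_of_tendsto' (b := c ^ p) c2 (fun i => by
      have d1 := hT (ι i.2 x)
      rw [hι, hx, mul_one] at d1
      refine (Real.rpow_le_rpow hc.le d1 p0.le).trans ?_
      simp only [map_smul]
      exact hlow _ _ t b0 b1)
    have c4 := mul_le_mul_of_nonneg_left (gle (1 / 2) t ((t : ℂ) • x) (by norm_num)) hC.le
    have n0 := ν0 0
    have c5 : (c / (2 * (ν 0 + 1))) ^ p * Ψ 0 ≤ (c / 2) ^ p := by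
      simp only [Ψ]
      rw [← Real.mul_rpow (by positivity) n0]
      refine Real.rpow_le_rpow (by positivity) ?_ p0.le
      rw [div_mul_eq_mul_div, div_le_div_iff₀ (by positivity) (by positivity)]
      nlinarith
    rw [div_le_iff₀' hC]
    linarith
  · intro x y hxy
    have a1 := W1 (fun k n => ‖T (e k + ι n x)‖ - ‖T (e k + ι n y)‖) (fun k => hxy (e k))
    have a2 := tendsto_nhds_unique ((hν x).sub (hν y)) a1
    simp only [Ψ, sub_eq_zero.mp a2]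

theorem exists_quad {H : Type*} [NormedAddCommGroup H] [NormedSpace ℂ H] {Ψ : H → ℝ} {M m : ℝ}
    (h : Lim Ψ M m) : ∃ S : H → ℝ, (∀ x y, S (x + y) + S (x - y) = 2 * S x + 2 * S y) ∧
      (∀ x, 0 ≤ S x ∧ S x ≤ M * ‖x‖ ^ 2) ∧ (∀ x, ‖x‖ = 1 → m ≤ S x) ∧
      ∀ x y : H, (∀ t : ℝ, Ψ ((t : ℂ) • x) = Ψ ((t : ℂ) • y)) → S x = S y := by
  let s : H → ℝ → ℝ := fun x t => (Ψ ((t : ℂ) • x) - Ψ 0) / t ^ 2
  have s0 : ∀ x t, 0 ≤ s x t := fun x t => div_nonneg (sub_nonneg.mpr (h.low _)) (by positivity)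
  have s1 : ∀ x, ∀ᶠ t in 𝓝[>] (0 : ℝ), s x t ≤ M * ‖x‖ ^ 2 := by
    intro x
    filter_upwards [self_mem_nhdsWithin] with t (ht : 0 < t)
    have := h.upp ((t : ℂ) • x)
    rw [norm_smul, Complex.norm_real, Real.norm_eq_abs, mul_pow, sq_abs] at this
    simp only [s]
    rw [div_le_iff₀ (by positivity)]; linarith
  have bd : ∀ x, IsBoundedUnder (· ≥ ·) (𝓝[>] (0 : ℝ)) (s x) :=
    fun x => isBoundedUnder_of ⟨0, s0 x⟩
  have cb : ∀ x, IsCoboundedUnder (· ≥ ·) (𝓝[>] (0 : ℝ)) (s x) :=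
    fun x => isCoboundedUnder_ge_of_eventually_le _ (s1 x)
  let S : H → ℝ := fun x => liminf (s x) (𝓝[>] (0 : ℝ))
  have ev : ∀ x (ε : ℝ), 0 < ε → ∀ᶠ t in 𝓝[>] (0 : ℝ), S x - ε < s x t :=
    fun x ε hε => eventually_lt_of_lt_liminf (by simp only [S]; linarith) (bd x)
  have fr : ∀ x (ε : ℝ), 0 < ε → ∃ᶠ t in 𝓝[>] (0 : ℝ), s x t < S x + ε :=
    fun x ε hε => frequently_lt_of_liminf_lt (cb x) (by simp only [S]; linarith)
  have S0 : ∀ x, 0 ≤ S x := fun x => le_liminf_of_le (cb x) (Eventually.of_forall (s0 x))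
  have S1 : ∀ x, S x ≤ M * ‖x‖ ^ 2 := fun x => liminf_le_of_frequently_le (s1 x).frequently (bd x)
  have Sz : S 0 = 0 := le_antisymm (by simpa using S1 0) (S0 0)
  have key : ∀ x y, S (x + y) + S (-(x + y)) + S (x - y) + S (-(x - y)) ≤ 4 * (S x + S y) := by
    intro x y
    refine le_of_eps (4 * (S x + S y)) (fun η hη => ?_)
    obtain ⟨l, δ, L, a3, a4, a5, a6, hw⟩ := h.win η hη
    refine le_of_eps (4 + 8 * (1 + η)) (fun ε hε => ?_)
    have b1 := ((ev (x + y) ε hε).and (ev (-(x + y)) ε hε)).and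
      ((ev (x - y) ε hε).and (ev (-(x - y)) ε hε))
    obtain ⟨t0, (b0 : 0 < t0), ht0⟩ := mem_nhdsGT_iff_exists_Ioc_subset.mp b1
    have b2 : ∀ᶠ t in 𝓝[>] (0 : ℝ), t ∈ Set.Ioc 0 (δ * l ^ L * t0) := Ioc_mem_nhdsGT (by positivity)
    obtain ⟨t1, c1, c2, c3⟩ := ((fr x ε hε).and_eventually b2).exists
    obtain ⟨t2, d1, d2, d3⟩ := ((fr y ε hε).and_eventually b2).exists
    have k := hw x y t0 t1 t2 b0 c2 d2 c3 d3
    have k2 := card_nsmul_le_sum (range L) _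
      (S (x + y) + S (-(x + y)) + S (x - y) + S (-(x - y)) - 4 * ε) (fun i _ => show _ ≤
        ((Ψ (((t0 * l ^ i : ℝ) : ℂ) • (x + y)) +
          Ψ (-(((t0 * l ^ i : ℝ) : ℂ) • (x + y))) - 2 * Ψ 0) +
        (Ψ (((t0 * l ^ i : ℝ) : ℂ) • (x - y)) +
          Ψ (-(((t0 * l ^ i : ℝ) : ℂ) • (x - y))) - 2 * Ψ 0)) / (t0 * l ^ i) ^ 2 from by
        obtain ⟨⟨e1, e2⟩, e3, e4⟩ := ht0 (show t0 * l ^ i ∈ Set.Ioc 0 t0 from
          ⟨by positivity, mul_le_of_le_one_right b0.le (pow_le_one₀ a3.le a4)⟩)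
        simp only [s, smul_neg] at e1 e2 e3 e4
        refine le_trans ?_ ((add_le_add (add_le_add e1.le e2.le) (add_le_add e3.le e4.le)).trans
          (le_of_eq (by ring)))
        linarith)
    rw [card_range, nsmul_eq_mul] at k2
    have Lp : (0 : ℝ) < L := by exact_mod_cast a6
    have k3 := (k2.trans k).trans (mul_le_mul_of_nonneg_left (add_le_add c1.le d1.le) (by positivity))
    rw [show 4 * (L : ℝ) * (1 + η) * (S x + ε + (S y + ε)) =
      L * (4 * (1 + η) * (S x + ε + (S y + ε))) by ring] at k3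
    have k4 := le_of_mul_le_mul_left k3 Lp
    linarith
  have ev1 : ∀ x, S (-x) ≤ S x := fun x => by
    have := key x 0
    simp only [add_zero, sub_zero, Sz] at this
    linarith
  have even : ∀ x, S (-x) = S x := fun x => le_antisymm (ev1 x) (by simpa using ev1 (-x))
  have half : ∀ x y, S (x + y) + S (x - y) ≤ 2 * S x + 2 * S y := fun x y => by
    have := key x y
    rw [even, even] at this
    linarith
  have dbl : ∀ x, 4 * S x ≤ S (x + x) := by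
    intro x
    refine le_of_eps 5 (fun ε hε => ?_)
    have a1 : Tendsto (fun t : ℝ => 2 * t) (𝓝[>] 0) (𝓝[>] 0) := by
      refine tendsto_nhdsWithin_iff.mpr ⟨?_, ?_⟩
      · simpa using ((continuous_const_mul (2 : ℝ)).tendsto 0).mono_left nhdsWithin_le_nhds
      · filter_upwards [self_mem_nhdsWithin] with t (ht : 0 < t)
        exact mul_pos two_pos ht
    obtain ⟨t, c1, c2, (c3 : 0 < t)⟩ := ((fr (x + x) ε hε).and_eventually
      ((a1.eventually (ev x ε hε)).and self_mem_nhdsWithin)).exists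
    have e1 : s (x + x) t = 4 * s x (2 * t) := by
      have : (t : ℂ) • (x + x) = ((2 * t : ℝ) : ℂ) • x := by
        rw [← two_smul ℂ x, smul_smul]; push_cast; rw [mul_comm]
      simp only [s, this]
      field_simp
      ring
    linarith
  refine ⟨S, fun x y => le_antisymm (half x y) ?_, fun x => ⟨S0 x, S1 x⟩, fun x hx => ?_,
    fun x y hxy => by simp only [S, s, hxy]⟩
  · have a1 := half (x + y) (x - y)
    rw [show x + y + (x - y) = x + x by abel, show x + y - (x - y) = y + y by abel] at a1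
    linarith [dbl x, dbl y]
  · refine le_liminf_of_le (cb x) ?_
    filter_upwards [Ioc_mem_nhdsGT (zero_lt_one' ℝ)] with t ht
    exact h.sph x hx t ht.1 ht.2

theorem exists_bilin {H : Type*} [NormedAddCommGroup H] [NormedSpace ℝ H] {S : H → ℝ} {M m : ℝ}
    (par : ∀ x y, S (x + y) + S (x - y) = 2 * S x + 2 * S y)
    (bd : ∀ x, 0 ≤ S x ∧ S x ≤ M * ‖x‖ ^ 2) (sph : ∀ x, ‖x‖ = 1 → m ≤ S x) :
    ∃ B : H →L[ℝ] H →L[ℝ] ℝ, (∀ x, m * ‖x‖ * ‖x‖ ≤ B x x) ∧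
      ∀ x y, B x y = (S (x + y) - S (x - y)) / 4 := by
  have Sz : S 0 = 0 := le_antisymm (by simpa using (bd 0).2) (bd 0).1
  have even : ∀ x, S (-x) = S x := fun x => by
    have := par 0 x
    rw [zero_add, zero_sub, Sz] at this
    linarith
  let b : H → H → ℝ := fun x y => (S (x + y) - S (x - y)) / 4
  have symm : ∀ x y, b x y = b y x := fun x y => by
    simp only [b]
    rw [add_comm, ← even (x - y), neg_sub]
  have badd : ∀ x z y, b (x + z) y = b x y + b z y := by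
    intro x z y
    have a1 := par (x + y) z
    have a2 := par (z + y) x
    have a3 := par (x - y) z
    have a4 := par (z - y) x
    have a5 := even (x + y - z)
    have a6 := even (z + y - x)
    rw [show -(x + y - z) = z - y - x by abel] at a5
    rw [show -(z + y - x) = x - y - z by abel] at a6
    rw [show x + y + z = x + z + y by abel] at a1
    rw [show z + y + x = x + z + y by abel] at a2
    rw [show x - y + z = x + z - y by abel] at a3
    rw [show z - y + x = x + z - y by abel] at a4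
    simp only [b]
    linarith
  have bb : ∀ x y, |b x y| ≤ |M| * (‖x‖ + ‖y‖) ^ 2 / 4 := by
    intro x y
    have a1 : ∀ z, ‖z‖ ≤ ‖x‖ + ‖y‖ → S z ≤ |M| * (‖x‖ + ‖y‖) ^ 2 := fun z hz =>
      (bd z).2.trans (mul_le_mul (le_abs_self M) (pow_le_pow_left₀ (norm_nonneg _) hz 2)
        (by positivity) (abs_nonneg _))
    have a2 := a1 _ (norm_add_le x y)
    have a3 := a1 _ (norm_sub_le x y)
    simp only [b]
    rw [abs_le]
    constructor <;> linarith [(bd (x + y)).1, (bd (x - y)).1]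
  have bsm : ∀ (r : ℝ) x y, b (r • x) y = r • b x y := by
    intro r x y
    let f : H →+ ℝ := AddMonoidHom.mk' (fun x => b x y) (fun x z => badd x z y)
    have hf : Continuous f := by
      refine f.continuous_of_isBounded_nhds_zero (Metric.ball_mem_nhds 0 one_pos) ?_
      refine (Metric.isBounded_closedBall (x := (0 : ℝ)) (r := |M| * (1 + ‖y‖) ^ 2 / 4)).subset ?_
      rintro _ ⟨z, hz, rfl⟩
      rw [mem_ball_zero_iff] at hz
      rw [mem_closedBall_zero_iff, Real.norm_eq_abs]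
      refine (bb z y).trans ?_
      gcongr
    exact map_real_smul f hf r x
  let B0 : H →ₗ[ℝ] H →ₗ[ℝ] ℝ := LinearMap.mk₂ ℝ b badd bsm
    (fun x y z => by rw [symm, badd, symm y, symm z]) (fun r x y => by rw [symm, bsm, symm y])
  have unit : ∀ x : H, x ≠ 0 → ∃ x' : H, ‖x'‖ = 1 ∧ x = ‖x‖ • x' := fun x hx =>
    ⟨‖x‖⁻¹ • x, by rw [norm_smul, norm_inv, norm_norm, inv_mul_cancel₀ (norm_ne_zero_iff.mpr hx)],
      by rw [smul_smul, mul_inv_cancel₀ (norm_ne_zero_iff.mpr hx), one_smul]⟩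
  have hB : ∀ x y, ‖B0 x y‖ ≤ |M| * ‖x‖ * ‖y‖ := by
    intro x y
    by_cases hx : x = 0
    · simp [hx]
    by_cases hy : y = 0
    · simp [hy]
    obtain ⟨x', hx', ex⟩ := unit x hx
    obtain ⟨y', hy', ey⟩ := unit y hy
    have a1 := bb x' y'
    rw [hx', hy'] at a1
    have a2 : B0 x y = ‖x‖ * ‖y‖ * b x' y' := by
      conv_lhs => rw [ex, ey]
      rw [map_smul, map_smul, LinearMap.smul_apply, smul_eq_mul, smul_eq_mul]
      simp only [B0, LinearMap.mk₂_apply]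
      ring
    rw [a2, Real.norm_eq_abs, abs_mul, abs_of_nonneg (by positivity : 0 ≤ ‖x‖ * ‖y‖)]
    have := mul_le_mul_of_nonneg_left a1 (by positivity : 0 ≤ ‖x‖ * ‖y‖)
    linarith
  refine ⟨B0.mkContinuous₂ |M| hB, fun x => ?_, fun x y => rfl⟩
  rw [LinearMap.mkContinuous₂_apply]
  by_cases hx : x = 0
  · simp [hx]
  obtain ⟨x', hx', ex⟩ := unit x hx
  have a2 : B0 x x = ‖x‖ * ‖x‖ * b x' x' := by
    conv_lhs => rw [ex]
    rw [map_smul, map_smul, LinearMap.smul_apply, smul_eq_mul, smul_eq_mul]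
    simp only [B0, LinearMap.mk₂_apply]
    ring
  have a3 : b x' x' = S x' := by
    have := par x' x'
    simp only [b]
    rw [sub_self, Sz] at this ⊢
    linarith
  rw [a2, a3]
  have := mul_le_mul_of_nonneg_left (sph x' hx') (by positivity : 0 ≤ ‖x‖ * ‖x‖)
  linarith

end Pool.Agent.Lib.MP_040728_al
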