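import Mathlib
import Pool.Agent.Lib.MP_040728_al.Core

set_option autoImplicit false

namespace Pool.Agent.Lib.MP_040728_al

open Filter Topology Finset
open scoped InnerProductSpace

section ops
variable {I K : Type*} [NormedAddCommGroup K] [NormedSpace ℂ K]

omit [NormedSpace ℂ K] in
theorem hasSum_sq (v : lp (fun _ : I => K) 2) : HasSum (fun i => ‖v i‖ ^ 2) (‖v‖ ^ 2) := by
  simpa using lp.hasSum_norm (p := 2) (by simp) v

theorem exists_op (F : lp (fun _ : I => K) 2 → I → K) {C : ℝ} (hC : 0 ≤ C)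
    (hadd : ∀ v w i, F (v + w) i = F v i + F w i) (hsm : ∀ (c : ℂ) v i, F (c • v) i = c • F v i)
    (hb : ∀ v (s : Finset I), ∑ i ∈ s, ‖F v i‖ ^ 2 ≤ (C * ‖v‖) ^ 2) :
    ∃ P : lp (fun _ : I => K) 2 →L[ℂ] lp (fun _ : I => K) 2, ‖P‖ ≤ C ∧ ∀ v i, P v i = F v i := by
  have hm : ∀ v, Memℓp (F v) 2 := fun v =>
    memℓp_gen' (C := (C * ‖v‖) ^ 2) (fun s => by simpa using hb v s)
  let P0 : lp (fun _ : I => K) 2 →ₗ[ℂ] lp (fun _ : I => K) 2 :=
    { toFun := fun v => ⟨F v, hm v⟩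
      map_add' := fun v w => lp.ext (funext (hadd v w))
      map_smul' := fun c v => lp.ext (funext (hsm c v)) }
  have hP : ∀ v, ‖P0 v‖ ≤ C * ‖v‖ := fun v =>
    lp.norm_le_of_forall_sum_le (by simp) (by positivity) (fun s => by
      have := hb v s
      simp only [ENNReal.toReal_ofNat, Real.rpow_ofNat]
      exact this)
  exact ⟨P0.mkContinuous C hP, LinearMap.mkContinuous_norm_le _ hC _, fun v i => rfl⟩

theorem exists_rep {G : Type*} [Group G] (ρ : G →* Equiv.Perm I) (U : G → I → K →L[ℂ] K) {C : ℝ}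
    (hC : 0 ≤ C) (hU : ∀ g i, ‖U g i‖ ≤ C) (h1 : ∀ i, U 1 i = 1)
    (hm : ∀ g h i, U (g * h) i = U g i * U h (ρ g⁻¹ i)) :
    ∃ π : G →* (lp (fun _ : I => K) 2 →L[ℂ] lp (fun _ : I => K) 2), (∀ g, ‖π g‖ ≤ C) ∧
      ∀ g v i, π g v i = U g i (v (ρ g⁻¹ i)) := by
  have := fun g => exists_op (fun v i => U g i (v (ρ g⁻¹ i))) hC
    (fun v w i => by rw [lp.coeFn_add, Pi.add_apply, map_add])
    (fun c v i => by simp) (fun v s => by
      have a1 : ∑ i ∈ s, ‖v (ρ g⁻¹ i)‖ ^ 2 ≤ ‖v‖ ^ 2 :=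
        sum_le_hasSum s (fun i _ => by positivity) ((ρ g⁻¹).hasSum_iff.mpr (hasSum_sq v))
      rw [mul_pow]
      refine le_trans ?_ (mul_le_mul_of_nonneg_left a1 (by positivity))
      rw [mul_sum]
      refine sum_le_sum (fun i _ => ?_)
      rw [← mul_pow]
      exact pow_le_pow_left₀ (norm_nonneg _) ((U g i).le_of_opNorm_le (hU g i) _) 2)
  choose P hP1 hP2 using this
  refine ⟨⟨⟨P, ?_⟩, fun g h => ?_⟩, hP1, hP2⟩
  · refine ContinuousLinearMap.ext (fun v => lp.ext (funext (fun i => ?_)))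
    simp [hP2, h1]
  · refine ContinuousLinearMap.ext (fun v => lp.ext (funext (fun i => ?_)))
    simp [hP2, hm]

theorem exists_induced {Γ : Type*} [Group Γ] (A : Subgroup Γ) [DecidableEq (Γ ⧸ A)]
    (σ : A →* (K →L[ℂ] K)) {C : ℝ} (hC : 0 ≤ C) (hσ : ∀ a, ‖σ a‖ ≤ C) (q0 : Γ ⧸ A) :
    ∃ π : Γ →* (lp (fun _ : Γ ⧸ A => K) 2 →L[ℂ] lp (fun _ : Γ ⧸ A => K) 2), (∀ g, ‖π g‖ ≤ C) ∧
      ∀ a : A, ∃ γ : Γ, ∀ v : K, π γ (lp.single 2 q0 v) = lp.single 2 q0 (σ a v) := by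
  have mem : ∀ (γ : Γ) (q : Γ ⧸ A), (q.out)⁻¹ * (γ * (γ⁻¹ • q).out) ∈ A := by
    intro γ q
    rw [← QuotientGroup.eq, ← smul_eq_mul, MulAction.Quotient.coe_smul_out, smul_inv_smul,
      QuotientGroup.out_eq']
  let c : Γ → Γ ⧸ A → A := fun γ q => ⟨_, mem γ q⟩
  obtain ⟨π, h1, h2⟩ := exists_rep (MulAction.toPermHom Γ (Γ ⧸ A)) (fun γ q => σ (c γ q)) hC
    (fun _ _ => hσ _) (fun q => by
      have : c 1 q = 1 := Subtype.ext (by simp [c])
      rw [this, map_one]) (fun g h q => by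
      rw [← map_mul]
      congr 1
      apply Subtype.ext
      simp [c, mul_smul, mul_assoc])
  refine ⟨π, h1, fun a => ⟨q0.out * a * (q0.out)⁻¹, fun v => lp.ext (funext (fun q => ?_))⟩⟩
  have e1 : (q0.out * a * (q0.out)⁻¹)⁻¹ • q0 = q0 := by
    rw [← MulAction.Quotient.coe_smul_out, smul_eq_mul]
    conv_rhs => rw [← QuotientGroup.out_eq' q0]
    rw [QuotientGroup.eq]
    simp [mul_assoc]
  rw [h2, MulAction.toPermHom_apply, MulAction.toPerm_apply]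
  by_cases hq : q = q0
  · subst hq
    rw [e1, lp.single_apply_self, lp.single_apply_self]
    congr 2
    apply Subtype.ext
    simp only [c, e1]
    group
  · rw [lp.single_apply_ne _ _ _ hq, lp.single_apply_ne, map_zero]
    intro h
    exact hq (MulAction.injective _ (h.trans e1.symm))

omit [NormedSpace ℂ K] in
theorem tendsto_norm_apply (v : lp (fun _ : ℕ => K) 2) : Tendsto (fun n => ‖v n‖) atTop (𝓝 0) := by
  have := (hasSum_sq v).summable.tendsto_atTop_zero.sqrt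
  simpa using this

end ops

/-- The isometrisability hypothesis. -/
def Iso (p : ENNReal) [Fact (1 ≤ p)] (Γ : Type) [Group Γ] : Prop :=
  ∀ (H : Type) [NormedAddCommGroup H] [InnerProductSpace ℂ H] [CompleteSpace H]
    (π : Γ →* (H →L[ℂ] H)ˣ),
    (∃ C : ℝ, ∀ g : Γ, ‖((π g : (H →L[ℂ] H)ˣ) : H →L[ℂ] H)‖ ≤ C) →
    ∃ (X : Type) (_ : MeasurableSpace X) (μ : MeasureTheory.Measure X)
      (Y : Submodule ℂ (MeasureTheory.Lp ℂ p μ)) (Z : Submodule ℂ Y)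
      (T : H ≃L[ℂ] (↥Y ⧸ Z)),
      IsClosed (Y : Set (MeasureTheory.Lp ℂ p μ)) ∧ IsClosed (Z : Set Y) ∧
      ∀ (g : Γ) (v : H),
        ‖T (((π g : (H →L[ℂ] H)ˣ) : H →L[ℂ] H) v)‖ = ‖T v‖

theorem inv_quad {p : ENNReal} [Fact (1 ≤ p)] (h1 : 1 < p) (h2 : p ≤ 2) {Γ Λ : Type} [Group Γ]
    [Group Λ] (A : Subgroup Γ) (φ : A →* (ℕ → Λ)) (hφ : ∀ n g, ∃ a, φ a = Pi.mulSingle n g)
    (hiso : Iso p Γ) {H : Type} [NormedAddCommGroup H] [InnerProductSpace ℂ H] [CompleteSpace H]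
    (π : Λ →* (H →L[ℂ] H)) {C : ℝ} (hπ : ∀ g, ‖π g‖ ≤ C) :
    ∃ (S : H → ℝ) (M m : ℝ), 0 < m ∧ (∀ x y, S (x + y) + S (x - y) = 2 * S x + 2 * S y) ∧
      (∀ x, 0 ≤ S x ∧ S x ≤ M * ‖x‖ ^ 2) ∧ (∀ x, ‖x‖ = 1 → m ≤ S x) ∧ ∀ g x, S (π g x) = S x := by
  classical
  have hC : 0 ≤ C := (norm_nonneg _).trans (hπ 1)
  have ht : p ≠ ⊤ := (lt_of_le_of_lt h2 ENNReal.ofNat_lt_top).ne
  have r1 : 1 < p.toReal := by
    rw [← ENNReal.toReal_one]; exact (ENNReal.toReal_lt_toReal ENNReal.one_ne_top ht).mpr h1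
  have r2 : p.toReal ≤ 2 := by
    have := ENNReal.toReal_mono ENNReal.ofNat_ne_top h2
    simpa using this
  obtain ⟨σ, σ1, σ2⟩ := exists_rep (1 : A →* Equiv.Perm ℕ) (fun a n => π (φ a n)) hC
    (fun _ _ => hπ _) (fun n => by simp) (fun a b n => by simp)
  simp only [MonoidHom.one_apply, Equiv.Perm.coe_one, id_eq] at σ2
  obtain ⟨R, R1, R2⟩ := exists_induced A σ hC σ1 ((1 : Γ) : Γ ⧸ A)
  obtain ⟨V, _, _, hV, T, hT⟩ : ∃ (V : Type) (_ : SeminormedAddCommGroup V) (_ : NormedSpace ℂ V),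
      Good V p.toReal ∧ ∃ T : lp (fun _ : Γ ⧸ A => lp (fun _ : ℕ => H) 2) 2 ≃L[ℂ] V,
        ∀ g v, ‖T (R g v)‖ = ‖T v‖ := by
    obtain ⟨X, _, μ, Y, Z, T, -, -, hT⟩ := hiso _ R.toHomUnits ⟨C, R1⟩
    exact ⟨↥Y ⧸ Z, _, _, good_pspace h1 h2 Y Z, T, hT⟩
  let T0 : lp (fun _ : ℕ => H) 2 →L[ℂ] V := (T : _ →L[ℂ] _).comp
    (lp.singleContinuousLinearMap ℂ (fun _ : Γ ⧸ A => lp (fun _ : ℕ => H) 2) 2 ((1 : Γ) : Γ ⧸ A))
  have T0e : ∀ v, T0 v = T (lp.single 2 ((1 : Γ) : Γ ⧸ A) v) := fun v => rfl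
  have inv : ∀ a v, ‖T0 (σ a v)‖ = ‖T0 v‖ := by
    intro a v
    obtain ⟨γ, hγ⟩ := R2 a
    rw [T0e, T0e, ← hγ, hT]
  set D := ‖T.symm.toContinuousLinearMap‖ with hD
  have low : ∀ v, 1 / (D + 1) * ‖v‖ ≤ ‖T0 v‖ := by
    intro v
    have := T.symm.toContinuousLinearMap.le_opNorm (T0 v)
    rw [T0e, ContinuousLinearEquiv.coe_coe, T.symm_apply_apply, lp.norm_single (by simp), ← T0e,
      ← hD] at this
    rw [one_div_mul_eq_div, div_le_iff₀ (by positivity)]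
    nlinarith [norm_nonneg (T0 v)]
  let ι : ℕ → H →L[ℂ] lp (fun _ : ℕ => H) 2 := lp.singleContinuousLinearMap ℂ (fun _ : ℕ => H) 2
  have ιe : ∀ n x, ι n x = lp.single 2 n x := fun _ _ => rfl
  obtain ⟨Ψ, M, m, hL, hinv⟩ := exists_lim r1 r2 hV T0 (by positivity) low ι
    (fun n x => by rw [ιe, lp.norm_single (by simp)]) (fun w x => by
      simp only [ιe, lp.inner_single_right]
      refine squeeze_zero_norm (fun n => norm_inner_le_norm _ _) ?_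
      simpa using (tendsto_norm_apply w).mul_const ‖x‖)
  obtain ⟨S, s1, s2, s3, s4⟩ := exists_quad hL
  refine ⟨S, M, m, hL.pos, s1, s2, s3, fun g x => s4 _ _ (fun t => ?_)⟩
  rw [← map_smul]
  refine hinv _ _ (fun e => ?_)
  generalize (t : ℂ) • x = y
  refine squeeze_zero_norm (a := fun n => ‖T0‖ * ((C + 1) * ‖e n‖)) (fun n => ?_) ?_
  · obtain ⟨a, ha⟩ := hφ n g
    have e1 : σ a (e + ι n y) = e + ι n (π g y) + ι n (π g (e n) - e n) := by
      refine lp.ext (funext (fun k => ?_))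
      simp only [σ2, ha, ιe, lp.coeFn_add, Pi.add_apply]
      by_cases hk : k = n
      · subst hk
        simp only [Pi.mulSingle_eq_same, lp.single_apply_self, map_add]
        abel
      · simp [Pi.mulSingle_eq_of_ne hk, Pi.single_eq_of_ne hk]
    rw [← inv a (e + ι n y), e1, map_add T0 (e + _)]
    refine (abs_norm_sub_norm_le _ _).trans ?_
    rw [sub_add_cancel_left, norm_neg]
    refine (T0.le_opNorm _).trans (mul_le_mul_of_nonneg_left ?_ (norm_nonneg _))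
    rw [ιe, lp.norm_single (by simp)]
    refine (norm_sub_le _ _).trans ?_
    linarith [(π g).le_of_opNorm_le (hπ g) (e n)]
  · simpa using ((tendsto_norm_apply e).const_mul (C + 1)).const_mul ‖T0‖

end Pool.Agent.Lib.MP_040728_al
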