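import Mathlib
import Pool.Agent.Lib.MP_040728_al.Rep

set_option autoImplicit false

namespace Pool.Agent.Lib.MP_040728_al

open Filter Topology Finset
open scoped InnerProductSpace

theorem schur {I : Type*} (k : I → I → ℂ) {C : ℝ} (hC : 0 < C)
    (hr : ∀ x, Summable (fun y => ‖k x y‖) ∧ ∑' y, ‖k x y‖ ≤ C)
    (hc : ∀ y, Summable (fun x => ‖k x y‖) ∧ ∑' x, ‖k x y‖ ≤ C) :
    ∃ P : lp (fun _ : I => ℂ) 2 →L[ℂ] lp (fun _ : I => ℂ) 2, ‖P‖ ≤ C ∧
      ∀ v x, HasSum (fun y => k x y * v y) (P v x) := by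
  have s1 : ∀ (v : lp (fun _ : I => ℂ) 2) x, Summable (fun y => ‖k x y‖ * ‖v y‖) := fun v x =>
    Summable.of_nonneg_of_le (fun y => by positivity)
      (fun y => mul_le_mul_of_nonneg_left (lp.norm_apply_le_norm (by simp) v y) (norm_nonneg _))
      ((hr x).1.mul_right ‖v‖)
  have s2 : ∀ (v : lp (fun _ : I => ℂ) 2) x, Summable (fun y => k x y * v y) := fun v x =>
    Summable.of_norm (by simpa using s1 v x)
  have s3 : ∀ (v : lp (fun _ : I => ℂ) 2) x, Summable (fun y => ‖k x y‖ * ‖v y‖ ^ 2) := fun v x =>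
    Summable.of_nonneg_of_le (fun y => by positivity)
      (fun y => mul_le_mul_of_nonneg_left (pow_le_pow_left₀ (norm_nonneg _)
        (lp.norm_apply_le_norm (by simp) v y) 2) (norm_nonneg _))
      ((hr x).1.mul_right (‖v‖ ^ 2))
  have cs : ∀ (v : lp (fun _ : I => ℂ) 2) x,
      ‖∑' y, k x y * v y‖ ^ 2 ≤ C * ∑' y, ‖k x y‖ * ‖v y‖ ^ 2 := by
    intro v x
    have a1 : ‖∑' y, k x y * v y‖ ≤ ∑' y, ‖k x y‖ * ‖v y‖ := by
      simpa using norm_tsum_le_tsum_norm (f := fun y => k x y * v y) (by simpa using s1 v x)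
    refine (pow_le_pow_left₀ (norm_nonneg _) a1 2).trans ?_
    set a := ∑' y, ‖k x y‖ * ‖v y‖ with ha
    have a0 : 0 ≤ a := tsum_nonneg (fun y => by positivity)
    have a2 := ((s1 v x).hasSum.mul_left (2 * a * C))
    have a3 := ((hr x).1.hasSum.mul_left (a ^ 2)).add ((s3 v x).hasSum.mul_left (C ^ 2))
    have a4 := hasSum_le (fun y => by
      nlinarith [mul_nonneg (norm_nonneg (k x y)) (sq_nonneg (a - C * ‖v y‖))]) a2 a3
    have a5 := mul_le_mul_of_nonneg_left (hr x).2 (sq_nonneg a)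
    rw [← ha] at a4
    refine le_of_mul_le_mul_left ?_ hC
    linarith
  obtain ⟨P, h1, h2⟩ := exists_op (fun v x => ∑' y, k x y * v y) hC.le
    (fun v w x => by
      rw [← (s2 v x).tsum_add (s2 w x)]
      simp only [lp.coeFn_add, Pi.add_apply, mul_add])
    (fun c v x => by
      rw [smul_eq_mul, ← tsum_mul_left]
      simp only [lp.coeFn_smul, Pi.smul_apply, smul_eq_mul, mul_left_comm])
    (fun v s => by
      refine (sum_le_sum (fun x _ => cs v x)).trans ?_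
      rw [← mul_sum, mul_pow, pow_two C, mul_assoc]
      refine mul_le_mul_of_nonneg_left ?_ hC.le
      refine hasSum_le (fun y => ?_) (hasSum_sum (fun x (_ : x ∈ s) => (s3 v x).hasSum))
        ((hasSum_sq v).mul_left C)
      rw [← sum_mul]
      exact mul_le_mul_of_nonneg_right
        (((hc y).1.sum_le_tsum s (fun _ _ => norm_nonneg _)).trans (hc y).2) (by positivity))
  exact ⟨P, h1, fun v x => by rw [h2]; exact (s2 v x).hasSum⟩

theorem graph {K H : Type*} [NormedAddCommGroup K] [InnerProductSpace ℝ K] [CompleteSpace K]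
    [NormedAddCommGroup H] [NormedSpace ℝ H] (B : H →L[ℝ] H →L[ℝ] ℝ) {m : ℝ} (hm : 0 < m)
    (hB : ∀ x, m * ‖x‖ * ‖x‖ ≤ B x x) (j1 j2 : K →L[ℝ] H) (hj : ∀ x, ‖j1 x‖ = ‖x‖) :
    ∃ T : K →L[ℝ] K, ∀ ξ η, (∀ ζ, B (j1 ξ + j2 η) (j1 ζ) = 0) ↔ ξ = T η := by
  have co : IsCoercive (B.bilinearComp j1 j1) := ⟨m, hm, fun x => by
    rw [← hj x]; exact hB (j1 x)⟩
  let P := InnerProductSpace.continuousLinearMapOfBilin (B.bilinearComp j2 j1)
  have e1 : ∀ ξ η ζ, B (j1 ξ + j2 η) (j1 ζ) = ⟪co.continuousLinearEquivOfBilin ξ + P η, ζ⟫_ℝ := by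
    intro ξ η ζ
    rw [inner_add_left, co.continuousLinearEquivOfBilin_apply,
      InnerProductSpace.continuousLinearMapOfBilin_apply, map_add]
    rfl
  refine ⟨-(co.continuousLinearEquivOfBilin.symm.toContinuousLinearMap.comp P), fun ξ η => ?_⟩
  simp only [e1, neg_apply, ContinuousLinearMap.comp_apply,
    ContinuousLinearEquiv.coe_coe]
  rw [← map_neg, ContinuousLinearEquiv.eq_symm_apply, eq_neg_iff_add_eq_zero]
  exact ⟨fun h => inner_self_eq_zero.mp (h _), fun h ζ => by rw [h, inner_zero_left]⟩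

theorem mem_two_real {I : Type*} [DecidableEq I] (r : lp (fun _ : I => ℂ) 2 →L[ℝ] ℝ) :
    Memℓp (fun g : I => r (lp.single 2 g 1)) 2 := by
  refine (lp.memℓp ((InnerProductSpace.toDual ℝ _).symm r)).mono' (fun g => ?_)
  rw [← InnerProductSpace.toDual_symm_apply, lp.inner_single_right]
  simpa using norm_inner_le_norm (𝕜 := ℝ) (((InnerProductSpace.toDual ℝ _).symm r) g) (1 : ℂ)

theorem mem_two {I : Type*} [DecidableEq I] (r : lp (fun _ : I => ℂ) 2 →L[ℝ] ℂ) :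
    Memℓp (fun g : I => r (lp.single 2 g 1)) 2 :=
  ((mem_two_real (Complex.reCLM.comp r)).norm.add (mem_two_real (Complex.imCLM.comp r)).norm).mono
    (fun _ => Complex.norm_le_abs_re_add_abs_im _)

theorem mem_two_comp {I : Type*} {f : I → ℂ} (h : Memℓp f 2) (e : I ≃ I) :
    Memℓp (fun i => f (e i)) 2 :=
  memℓp_gen (e.summable_iff.mpr (h.summable (by simp)))

theorem mem_two_of_summable {I : Type*} {f : I → ℂ} (h : Summable (fun i => ‖f i‖)) : Memℓp f 2 :=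
  (memℓp_gen (p := 1) (by simpa using h)).of_exponent_ge (by norm_num)

theorem bf {Λ : Type} [Group Λ]
    (hU : ∀ (π : Λ →* (WithLp 2 (lp (fun _ : Λ => ℂ) 2 × lp (fun _ : Λ => ℂ) 2) →L[ℂ]
      WithLp 2 (lp (fun _ : Λ => ℂ) 2 × lp (fun _ : Λ => ℂ) 2))) (C : ℝ), (∀ g, ‖π g‖ ≤ C) →
      ∃ (S : WithLp 2 (lp (fun _ : Λ => ℂ) 2 × lp (fun _ : Λ => ℂ) 2) → ℝ) (M m : ℝ), 0 < m ∧
        (∀ x y, S (x + y) + S (x - y) = 2 * S x + 2 * S y) ∧
        (∀ x, 0 ≤ S x ∧ S x ≤ M * ‖x‖ ^ 2) ∧ (∀ x, ‖x‖ = 1 → m ≤ S x) ∧ ∀ g x, S (π g x) = S x)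
    (f : Λ → ℂ) (g₁ g₂ : Λ → Λ → ℂ) (hf : ∀ x y, f (x⁻¹ * y) = g₁ x y + g₂ x y) {C₁ C₂ : ℝ}
    (h₁ : ∀ x, Summable (fun y => ‖g₁ x y‖) ∧ ∑' y, ‖g₁ x y‖ ≤ C₁)
    (h₂ : ∀ y, Summable (fun x => ‖g₂ x y‖) ∧ ∑' x, ‖g₂ x y‖ ≤ C₂) : Memℓp f 2 := by
  classical
  set C := 2 * |C₁| + 2 * |C₂| + 1 with hC
  have Cp : 0 < C := by positivity
  let d : Λ → Λ → Λ → ℂ := fun g x y => g₁ x (g * y) - g₁ (g⁻¹ * x) y
  have d2 : ∀ g x y, d g x y = g₂ (g⁻¹ * x) y - g₂ x (g * y) := by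
    intro g x y
    have a1 := hf x (g * y)
    have a2 := hf (g⁻¹ * x) y
    rw [mul_inv_rev, inv_inv, mul_assoc, a1] at a2
    simp only [d]
    linear_combination a2
  have two : ∀ (u v : Λ → ℂ) (c : ℝ), (Summable (fun y => ‖u y‖) ∧ ∑' y, ‖u y‖ ≤ c) →
      (Summable (fun y => ‖v y‖) ∧ ∑' y, ‖v y‖ ≤ c) →
      Summable (fun y => ‖u y - v y‖) ∧ ∑' y, ‖u y - v y‖ ≤ 2 * |c| := by
    intro u v c hu hv
    have s := Summable.of_nonneg_of_le (fun y => norm_nonneg _) (fun y => norm_sub_le (u y) (v y))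
      (hu.1.add hv.1)
    refine ⟨s, (hasSum_le (fun y => norm_sub_le (u y) (v y)) s.hasSum
      (hu.1.hasSum.add hv.1.hasSum)).trans ?_⟩
    linarith [hu.2, hv.2, le_abs_self c]
  have sh : ∀ (u : Λ → ℂ) (c : ℝ) (g : Λ), (Summable (fun y => ‖u y‖) ∧ ∑' y, ‖u y‖ ≤ c) →
      Summable (fun y => ‖u (g * y)‖) ∧ ∑' y, ‖u (g * y)‖ ≤ c := fun u c g hu =>
    ⟨(Equiv.mulLeft g).summable_iff.mpr hu.1,
      ((Equiv.mulLeft g).tsum_eq (fun y => ‖u y‖)).trans_le hu.2⟩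
  have := fun g => schur (d g) Cp
    (fun x => by
      have := two _ _ C₁ (sh (g₁ x) C₁ g (h₁ x)) (h₁ (g⁻¹ * x))
      exact ⟨this.1, this.2.trans (by linarith [abs_nonneg C₂])⟩)
    (fun y => by
      have := two _ _ C₂ (sh (fun x => g₂ x y) C₂ g⁻¹ (h₂ y)) (h₂ (g * y))
      simp only [d2]
      exact ⟨this.1, this.2.trans (by linarith [abs_nonneg C₁])⟩)
  choose D D1 D2 using this
  obtain ⟨l, l1, l2⟩ := exists_rep (K := ℂ) (MulAction.toPermHom Λ Λ) (fun _ _ => 1) zero_le_one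
    (fun _ _ => ContinuousLinearMap.norm_id_le) (fun _ => rfl) (fun _ _ _ => (mul_one _).symm)
  simp only [MulAction.toPermHom_apply, MulAction.toPerm_apply, smul_eq_mul,
    one_apply_eq_self] at l2
  have Dm : ∀ g h v, D (g * h) v = l g (D h v) + D g (l h v) := by
    intro g h v
    refine lp.ext (funext (fun x => ?_))
    rw [lp.coeFn_add, Pi.add_apply, l2]
    have a1 := (Equiv.mulLeft h).hasSum_iff.mpr (D2 g (l h v) x)
    refine (D2 (g * h) v x).unique ?_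
    convert (D2 h v (g⁻¹ * x)).add a1 using 2 with y
    simp only [d, Function.comp_apply, Equiv.coe_mulLeft, l2, inv_mul_cancel_left, mul_inv_rev,
      mul_assoc]
    ring
  have D0 : ∀ v, D 1 v = 0 := by
    intro v
    have := Dm 1 1 v
    simpa using this
  let e := WithLp.prodContinuousLinearEquiv 2 ℂ (lp (fun _ : Λ => ℂ) 2) (lp (fun _ : Λ => ℂ) 2)
  let P := fun g => e.symm.toContinuousLinearMap.comp
    ((((l g).coprod (D g)).prod ((l g).comp (ContinuousLinearMap.snd ℂ _ _))).comp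
      e.toContinuousLinearMap)
  have Pe : ∀ g x, P g x = WithLp.toLp 2 (l g x.fst + D g x.snd, l g x.snd) := fun g x => rfl
  obtain ⟨S, M, m, hm, s1, s2, s3, s4⟩ := hU ⟨⟨P, by
      refine ContinuousLinearMap.ext (fun x => ?_)
      rw [Pe, D0]
      simp
      rfl⟩, fun g h => by
      refine ContinuousLinearMap.ext (fun x => ?_)
      rw [mul_apply_eq_comp, Pe, Pe, Pe, Dm]
      simp [add_assoc]⟩ (C + 2) (fun g => by
      refine ContinuousLinearMap.opNorm_le_bound _ (by positivity) (fun x => ?_)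
      change ‖P g x‖ ≤ _
      have a1 := WithLp.norm_fst_le _ x
      have a2 := WithLp.norm_snd_le _ x
      have a3 := (l g).le_of_opNorm_le (l1 g) x.fst
      have a4 := (l g).le_of_opNorm_le (l1 g) x.snd
      have a5 := (D g).le_of_opNorm_le (D1 g) x.snd
      have a6 := mul_le_mul_of_nonneg_left a2 Cp.le
      have a7 : P g x = WithLp.toLp 2 (l g x.fst + D g x.snd, 0) + WithLp.toLp 2 (0, l g x.snd) := by
        rw [Pe, ← WithLp.toLp_add]; simp
      rw [a7]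
      refine (norm_add_le _ _).trans ?_
      rw [WithLp.norm_toLp_fst, WithLp.norm_toLp_snd]
      linarith [norm_add_le (l g x.fst) (D g x.snd)])
  change ∀ g x, S (P g x) = S x at s4
  obtain ⟨B, B1, B2⟩ := exists_bilin s1 s2 s3
  have B3 : ∀ g x y, B (P g x) (P g y) = B x y := by
    intro g x y
    rw [B2, B2, ← map_add, ← map_sub, s4, s4]
  let e' := WithLp.prodContinuousLinearEquiv 2 ℝ (lp (fun _ : Λ => ℂ) 2) (lp (fun _ : Λ => ℂ) 2)
  obtain ⟨T, hT⟩ := graph B hm B1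
    (e'.symm.toContinuousLinearMap.comp (ContinuousLinearMap.inl ℝ _ _))
    (e'.symm.toContinuousLinearMap.comp (ContinuousLinearMap.inr ℝ _ _))
    (fun x => WithLp.norm_toLp_fst _ _ _ x)
  have hT' : ∀ ξ η, (∀ ζ, B (WithLp.toLp 2 (ξ, η)) (WithLp.toLp 2 (ζ, 0)) = 0) ↔ ξ = T η := by
    intro ξ η
    rw [← hT]
    have : WithLp.toLp 2 (ξ, η) = WithLp.toLp 2 (ξ, 0) + WithLp.toLp 2 (0, η) := by
      rw [← WithLp.toLp_add]; simp
    rw [this]
    rfl
  have key : ∀ g η, l g (T η) + D g η = T (l g η) := by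
    intro g η
    refine (hT' _ _).mp (fun ζ => ?_)
    have := B3 g (WithLp.toLp 2 (T η, η)) (WithLp.toLp 2 (l g⁻¹ ζ, 0))
    rw [(hT' _ _).mpr rfl, Pe, Pe] at this
    simpa [← mul_apply_eq_comp, ← map_mul] using this
  have fin : ∀ g, f g = (T (lp.single 2 1 1)) g⁻¹ + g₁ 1 g + g₂ g⁻¹ 1 - (T (lp.single 2 g 1)) 1 := by
    intro g
    have a1 := congrArg (fun v : lp (fun _ : Λ => ℂ) 2 => v 1) (key g (lp.single 2 1 1))
    have a2 : l g (lp.single 2 1 1) = lp.single 2 g 1 := by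
      refine lp.ext (funext (fun x => ?_))
      simp [l2, Pi.single_apply, inv_mul_eq_one, eq_comm]
    have a3 : D g (lp.single 2 1 1) 1 = d g 1 1 := by
      refine (D2 g _ 1).unique ?_
      convert hasSum_ite_eq (1 : Λ) (d g 1 1) using 2 with y
      by_cases hy : y = 1 <;> simp [hy]
    simp only [lp.coeFn_add, Pi.add_apply, l2, a2, a3, d, mul_one] at a1
    have a4 := hf g⁻¹ 1
    rw [inv_inv, mul_one] at a4
    linear_combination a4 - a1
  rw [funext fin]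
  exact (((mem_two_comp (lp.memℓp (T (lp.single 2 1 1))) (Equiv.inv Λ)).add
    (mem_two_of_summable (h₁ 1).1)).add
    (mem_two_comp (mem_two_of_summable (h₂ 1).1) (Equiv.inv Λ))).sub
    (mem_two ((lp.evalCLM ℝ (fun _ : Λ => ℂ) 2 1).comp T))

end Pool.Agent.Lib.MP_040728_al
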