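import Mathlib

set_option autoImplicit false

namespace Pool.Agent.Lib.MP_040728_al.Forest

open Finset
open scoped ENNReal Classical

variable {Γ : Type} [Group Γ]

/-- One non-backtracking step along directed edges satisfying `P`. -/
noncomputable def step (S : Finset Γ) (P : Γ × Γ → Prop) (m : Γ → Γ → ℂ) :
    (Γ × Γ → ℂ) →ₗ[ℂ] (Γ × Γ → ℂ) where
  toFun f e := ∑ s ∈ S, if e.2 ≠ s⁻¹ ∧ P (e.1 * s⁻¹, s) ∧ P e then m e.2 s * f (e.1 * s⁻¹, s) else 0
  map_add' f g := by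
    funext e
    simp only [Pi.add_apply, ← sum_add_distrib]
    refine sum_congr rfl (fun s _ => ?_)
    split_ifs <;> ring
  map_smul' c f := by
    funext e
    simp only [Pi.smul_apply, smul_eq_mul, RingHom.id_apply, mul_sum]
    refine sum_congr rfl (fun s _ => ?_)
    split_ifs <;> ring

theorem step_apply (S : Finset Γ) (P : Γ × Γ → Prop) (m : Γ → Γ → ℂ) (f : Γ × Γ → ℂ) (e : Γ × Γ) :
    step S P m f e =
      ∑ s ∈ S, if e.2 ≠ s⁻¹ ∧ P (e.1 * s⁻¹, s) ∧ P e then m e.2 s * f (e.1 * s⁻¹, s) else 0 := rfl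

/-- The levelled Green operator, one level. -/
noncomputable def grnAt (S : Finset Γ) (P : Γ × Γ → Prop) (m : ℕ → Γ → Γ → ℂ) :
    ℕ → ((ℕ → Γ × Γ → ℂ) →ₗ[ℂ] (Γ × Γ → ℂ))
  | 0 => LinearMap.proj 0
  | j + 1 => LinearMap.proj (j + 1) + step S P (m j) ∘ₗ grnAt S P m j

/-- The inverse of the Green operator, one level. -/
noncomputable def cutAt (S : Finset Γ) (P : Γ × Γ → Prop) (m : ℕ → Γ → Γ → ℂ) :
    ℕ → ((ℕ → Γ × Γ → ℂ) →ₗ[ℂ] (Γ × Γ → ℂ))
  | 0 => LinearMap.proj 0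
  | j + 1 => LinearMap.proj (j + 1) -
      step S P (m j) ∘ₗ LinearMap.proj (R := ℂ) (φ := fun _ : ℕ => Γ × Γ → ℂ) j

section basic
variable (S : Finset Γ) (P : Γ × Γ → Prop) (m : ℕ → Γ → Γ → ℂ) (a : ℕ → Γ × Γ → ℂ)

theorem grn_zero : grnAt S P m 0 a = a 0 := rfl
theorem grn_succ (j : ℕ) : grnAt S P m (j + 1) a = a (j + 1) + step S P (m j) (grnAt S P m j a) := rfl
theorem cut_zero : cutAt S P m 0 a = a 0 := rfl
theorem cut_succ (j : ℕ) : cutAt S P m (j + 1) a = a (j + 1) - step S P (m j) (a j) := rfl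

theorem grn_cut (j : ℕ) : grnAt S P m j (fun i => cutAt S P m i a) = a j := by
  induction j with
  | zero => rfl
  | succ j ih => rw [grn_succ, ih, cut_succ, sub_add_cancel]

theorem cut_grn (j : ℕ) : cutAt S P m j (fun i => grnAt S P m i a) = a j := by
  cases j with
  | zero => rfl
  | succ j => rw [cut_succ, grn_succ, add_sub_cancel_right]

end basic

/-- Left translation of a function of directed edges. -/
def sh {α : Type} (g : Γ) (f : Γ × Γ → α) : Γ × Γ → α := fun e => f (g⁻¹ * e.1, e.2)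

theorem step_sh (S : Finset Γ) (P : Γ × Γ → Prop) (m : Γ → Γ → ℂ) (f : Γ × Γ → ℂ) (g : Γ) :
    step S (sh g P) m (sh g f) = sh g (step S P m f) := by
  funext e
  simp only [step_apply, sh, mul_assoc]

theorem cut_sh (S : Finset Γ) (P : Γ × Γ → Prop) (m : ℕ → Γ → Γ → ℂ) (a : ℕ → Γ × Γ → ℂ) (g : Γ)
    (j : ℕ) : cutAt S (sh g P) m j (fun i => sh g (a i)) = sh g (cutAt S P m j a) := by
  cases j with
  | zero => rfl
  | succ j => rw [cut_succ, cut_succ, step_sh]; rfl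

theorem grn_sh (S : Finset Γ) (P : Γ × Γ → Prop) (m : ℕ → Γ → Γ → ℂ) (a : ℕ → Γ × Γ → ℂ) (g : Γ)
    (j : ℕ) : grnAt S (sh g P) m j (fun i => sh g (a i)) = sh g (grnAt S P m j a) := by
  induction j with
  | zero => rfl
  | succ j ih => rw [grn_succ, grn_succ, ih, step_sh]; rfl

/-- The squared norm. -/
noncomputable def nn {I : Type} (f : I → ℂ) : ℝ≥0∞ := ∑' e, ‖f e‖ₑ ^ 2

theorem nn_add {I : Type} (f g : I → ℂ) : nn (f + g) ≤ 2 * nn f + 2 * nn g := by
  unfold nn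
  rw [← ENNReal.tsum_mul_left, ← ENNReal.tsum_mul_left, ← ENNReal.tsum_add]
  refine ENNReal.tsum_le_tsum (fun e => ?_)
  have a1 : ‖f e + g e‖₊ ^ 2 ≤ 2 * ‖f e‖₊ ^ 2 + 2 * ‖g e‖₊ ^ 2 := by
    have b1 := norm_add_le (f e) (g e)
    have b2 : ‖f e + g e‖ ^ 2 ≤ 2 * ‖f e‖ ^ 2 + 2 * ‖g e‖ ^ 2 := by
      nlinarith [norm_nonneg (f e + g e), norm_nonneg (f e), norm_nonneg (g e),
        sq_nonneg (‖f e‖ - ‖g e‖)]
    exact_mod_cast b2
  simp only [Pi.add_apply, enorm_eq_nnnorm]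
  exact_mod_cast a1

theorem nn_neg {I : Type} (f : I → ℂ) : nn (-f) = nn f := by simp [nn]

theorem nn_sh (g : Γ) (f : Γ × Γ → ℂ) : nn (sh g f) = nn f :=
  (Equiv.prodCongr (Equiv.mulLeft g⁻¹) (Equiv.refl Γ)).tsum_eq (fun e => ‖f e‖ₑ ^ 2)

theorem step_bound (S : Finset Γ) (P : Γ × Γ → Prop) (m : Γ → Γ → ℂ) (f : Γ × Γ → ℂ) (R : ℕ)
    (hm : ∀ t s, ‖m t s‖ ≤ 1 / 2) (hP : ∀ x t t', P (x, t) → P (x, t') → t = t')
    (hR : ∀ e : Γ × Γ, (S.filter (fun s => (e.2 ≠ s⁻¹ ∧ P (e.1 * s⁻¹, s) ∧ P e) ∧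
      f (e.1 * s⁻¹, s) ≠ 0)).card ≤ R) :
    4 * nn (step S P m f) ≤ R * nn f := by
  have a1 : ∀ e : Γ × Γ, 4 * ‖step S P m f e‖ₑ ^ 2 ≤
      R * ∑' s : Γ, (if P e then 1 else 0) * ‖f (e.1 * s⁻¹, s)‖ₑ ^ 2 := by
    intro e
    set T := S.filter (fun s => (e.2 ≠ s⁻¹ ∧ P (e.1 * s⁻¹, s) ∧ P e) ∧ f (e.1 * s⁻¹, s) ≠ 0) with hT
    have b1 : step S P m f e = ∑ s ∈ T, m e.2 s * f (e.1 * s⁻¹, s) := by
      rw [step_apply, hT, sum_filter]
      refine sum_congr rfl (fun s _ => ?_)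
      by_cases h1 : e.2 ≠ s⁻¹ ∧ P (e.1 * s⁻¹, s) ∧ P e
      · by_cases h2 : f (e.1 * s⁻¹, s) = 0
        · simp [h2]
        · rw [if_pos h1, if_pos ⟨h1, h2⟩]
      · rw [if_neg h1, if_neg (fun h => h1 h.1)]
    have b2 : 2 * ‖step S P m f e‖ ≤ ∑ s ∈ T, ‖f (e.1 * s⁻¹, s)‖ := by
      rw [b1]
      refine le_trans (mul_le_mul_of_nonneg_left (norm_sum_le _ _) zero_le_two) ?_
      rw [mul_sum]
      refine sum_le_sum (fun s _ => ?_)
      rw [norm_mul]
      nlinarith [hm e.2 s, norm_nonneg (f (e.1 * s⁻¹, s))]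
    have b3 : 4 * ‖step S P m f e‖ ^ 2 ≤ R * ∑ s ∈ T, ‖f (e.1 * s⁻¹, s)‖ ^ 2 := by
      have c1 := sq_sum_le_card_mul_sum_sq (s := T) (f := fun s => ‖f (e.1 * s⁻¹, s)‖)
      have c2 : (T.card : ℝ) ≤ R := by exact_mod_cast hR e
      have c3 : 0 ≤ ∑ s ∈ T, ‖f (e.1 * s⁻¹, s)‖ ^ 2 := sum_nonneg (fun s _ => by positivity)
      have c4 := pow_le_pow_left₀ (by positivity) b2 2
      nlinarith
    have b4 : 4 * ‖step S P m f e‖ₑ ^ 2 ≤ R * ∑ s ∈ T, ‖f (e.1 * s⁻¹, s)‖ₑ ^ 2 := by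
      have c1 : 4 * ‖step S P m f e‖₊ ^ 2 ≤ R * ∑ s ∈ T, ‖f (e.1 * s⁻¹, s)‖₊ ^ 2 := by
        rw [← NNReal.coe_le_coe]; push_cast; exact b3
      simp only [enorm_eq_nnnorm]
      exact_mod_cast c1
    refine b4.trans (mul_le_mul_right ?_ _)
    refine le_trans (sum_le_sum (fun s hs => ?_)) (ENNReal.sum_le_tsum T)
    rw [if_pos (mem_filter.mp hs).2.1.2.2, one_mul]
  unfold nn
  rw [← ENNReal.tsum_mul_left]
  refine (ENNReal.tsum_le_tsum a1).trans ?_
  rw [ENNReal.tsum_mul_left]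
  refine mul_le_mul_right ?_ _
  rw [ENNReal.tsum_prod']
  have a2 : ∀ x : Γ, ∑' t : Γ, ∑' s : Γ, (if P (x, t) then 1 else 0) * ‖f (x * s⁻¹, s)‖ₑ ^ 2 ≤
      ∑' s : Γ, ‖f (x * s⁻¹, s)‖ₑ ^ 2 := by
    intro x
    simp only [ENNReal.tsum_mul_left, ENNReal.tsum_mul_right]
    refine mul_le_of_le_one_left' ?_
    by_cases h : ∃ t, P (x, t)
    · obtain ⟨t, ht⟩ := h
      rw [tsum_eq_single t (fun t' h' => if_neg (fun h2 => h' (hP x t' t h2 ht))), if_pos ht]
    · push Not at h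
      simp [h]
  refine (ENNReal.tsum_le_tsum a2).trans (le_of_eq ?_)
  rw [ENNReal.tsum_comm, ENNReal.tsum_prod', ENNReal.tsum_comm (f := fun x s => ‖f (x, s)‖ₑ ^ 2)]
  exact tsum_congr (fun s => (Equiv.mulRight s⁻¹).tsum_eq (fun x => ‖f (x, s)‖ₑ ^ 2))

theorem geo (z d : ℕ → ℝ≥0∞) (h : ∀ j, 2 * z (j + 1) ≤ z j + 4 * d j) :
    ∑' j, z j ≤ 2 * z 0 + 4 * ∑' j, d j := by
  have a1 : ∀ J, ∑ j ∈ range J, z j + 2 * z J ≤ 2 * z 0 + 4 * ∑ j ∈ range J, d j := by
    intro J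
    induction J with
    | zero => simp
    | succ J ih =>
      rw [sum_range_succ, sum_range_succ, mul_add, ← add_assoc]
      calc ∑ j ∈ range J, z j + z J + 2 * z (J + 1) ≤ ∑ j ∈ range J, z j + z J + (z J + 4 * d J) :=
            add_le_add_right (h J) _
        _ = (∑ j ∈ range J, z j + 2 * z J) + 4 * d J := by ring
        _ ≤ _ := add_le_add_left ih _
  rw [ENNReal.tsum_eq_iSup_nat]
  refine iSup_le (fun J => (le_self_add.trans (a1 J)).trans ?_)
  exact add_le_add_right (mul_le_mul_right (ENNReal.sum_le_tsum _) _) _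

/-- An orientation of the open edges with at most one edge leaving each vertex. -/
structure Ori (S : Finset Γ) (o u : Γ × Γ → Prop) : Prop where
  mem : ∀ x s, o (x, s) → s ∈ S
  sym : ∀ x s, o (x, s) → o (x * s, s⁻¹)
  sub : ∀ e, u e → o e
  one : ∀ x t t', u (x, t) → u (x, t') → t = t'
  tot : ∀ x s, o (x, s) → ¬ u (x, s) → u (x * s, s⁻¹)

theorem Ori.shift {S : Finset Γ} {o u : Γ × Γ → Prop} (h : Ori S o u) (g : Γ) :
    Ori S (sh g o) (sh g u) :=
  ⟨fun _ _ a => h.mem _ _ a, fun x s a => by simpa [sh, mul_assoc] using h.sym _ _ a,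
    fun _ a => h.sub _ a, fun _ _ _ a b => h.one _ _ _ a b,
    fun x s a b => by simpa [sh, mul_assoc] using h.tot _ _ a b⟩

theorem Ori.pred {S : Finset Γ} {o u : Γ × Γ → Prop} (h : Ori S o u) {x t s : Γ} (h1 : t ≠ s⁻¹)
    (h2 : o (x * s⁻¹, s)) (h3 : u (x, t)) : u (x * s⁻¹, s) := by
  by_contra h4
  have := h.tot _ _ h2 h4
  rw [inv_mul_cancel_right] at this
  exact h1 (h.one _ _ _ h3 this)

theorem rep_bound {S : Finset Γ} {o u u' : Γ × Γ → Prop} (h : Ori S o u) (h' : Ori S o u')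
    (m : ℕ → Γ → Γ → ℂ) (hm : ∀ j t s, ‖m j t s‖ ≤ 1 / 2) (a : ℕ → Γ × Γ → ℂ) :
    ∑' j, nn (grnAt S u m j (fun i => cutAt S u' m i a)) ≤ (8 * S.card + 2) * ∑' j, nn (a j) := by
  set z : ℕ → Γ × Γ → ℂ := fun j => grnAt S u m j (fun i => cutAt S u' m i a) - a j with hz
  set d : ℕ → Γ × Γ → ℂ := fun j => step S u (m j) (a j) + -step S u' (m j) (a j) with hd
  have z0 : z 0 = 0 := by simp [hz, grn_zero, cut_zero]
  have z1 : ∀ j, z (j + 1) = step S u (m j) (z j) + d j := by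
    intro j
    simp only [hz, hd, grn_succ, cut_succ, map_sub]
    abel
  have z2 : ∀ j e, u e → u' e → z j e = 0 := by
    intro j
    induction j with
    | zero => intro e _ _; rw [z0]; rfl
    | succ j ih =>
      rintro ⟨x, t⟩ b1 b2
      have c1 : step S u (m j) (z j) (x, t) = 0 := by
        rw [step_apply]
        refine sum_eq_zero (fun s _ => ?_)
        split_ifs with c
        · rw [ih _ c.2.1 (h'.pred c.1 (h.sub _ c.2.1) b2), mul_zero]
        · rfl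
      have c2 : step S u (m j) (a j) (x, t) = step S u' (m j) (a j) (x, t) := by
        rw [step_apply, step_apply]
        refine sum_congr rfl (fun s _ => if_congr ⟨fun c => ⟨c.1, h'.pred c.1 (h.sub _ c.2.1) b2, b2⟩,
          fun c => ⟨c.1, h.pred c.1 (h'.sub _ c.2.1) b1, b1⟩⟩ rfl rfl)
      rw [z1]
      simp [hd, c1, c2]
  have z3 : ∀ j, 4 * nn (step S u (m j) (z j)) ≤ nn (z j) := by
    intro j
    have := step_bound S u (m j) (z j) 1 (hm j) h.one (fun e => by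
      rw [card_le_one]
      intro s hs s' hs'
      have c1 := (mem_filter.mp hs).2
      have c2 := (mem_filter.mp hs').2
      have d1 := h'.tot _ _ (h.sub _ c1.1.2.1) (fun c => c1.2 (z2 j _ c1.1.2.1 c))
      have d2 := h'.tot _ _ (h.sub _ c2.1.2.1) (fun c => c2.2 (z2 j _ c2.1.2.1 c))
      rw [inv_mul_cancel_right] at d1 d2
      exact inv_injective (h'.one _ _ _ d1 d2))
    simpa using this
  have z4 : ∀ j, nn (d j) ≤ S.card * nn (a j) := by
    intro j
    have c1 := step_bound S u (m j) (a j) S.card (hm j) h.one (fun e => card_filter_le _ _)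
    have c2 := step_bound S u' (m j) (a j) S.card (hm j) h'.one (fun e => card_filter_le _ _)
    have c3 := nn_add (step S u (m j) (a j)) (-step S u' (m j) (a j))
    rw [nn_neg] at c3
    refine (ENNReal.mul_le_mul_iff_right (a := 2) (by norm_num) (by norm_num)).mp ?_
    calc 2 * nn (d j) ≤ 2 * (2 * nn (step S u (m j) (a j)) + 2 * nn (step S u' (m j) (a j))) :=
          mul_le_mul_right c3 _
      _ = 4 * nn (step S u (m j) (a j)) + 4 * nn (step S u' (m j) (a j)) := by ring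
      _ ≤ S.card * nn (a j) + S.card * nn (a j) := add_le_add c1 c2
      _ = _ := by ring
  have z5 := geo (fun j => nn (z j)) (fun j => S.card * nn (a j)) (fun j => by
    rw [z1]
    calc 2 * nn (step S u (m j) (z j) + d j) ≤ 2 * (2 * nn (step S u (m j) (z j)) + 2 * nn (d j)) :=
          mul_le_mul_right (nn_add _ _) _
      _ = 4 * nn (step S u (m j) (z j)) + 4 * nn (d j) := by ring
      _ ≤ _ := add_le_add (z3 j) (mul_le_mul_right (z4 j) _))
  have z6 : nn (z 0) = 0 := by rw [z0]; simp [nn]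
  simp only [z6, mul_zero, zero_add, ENNReal.tsum_mul_left] at z5
  have z7 : ∀ j, nn (grnAt S u m j (fun i => cutAt S u' m i a)) ≤ 2 * nn (z j) + 2 * nn (a j) := by
    intro j
    have := nn_add (z j) (a j)
    simpa [hz] using this
  refine (ENNReal.tsum_le_tsum z7).trans ?_
  rw [ENNReal.tsum_add, ENNReal.tsum_mul_left, ENNReal.tsum_mul_left]
  refine (add_le_add_left (mul_le_mul_right z5 _) _).trans (le_of_eq ?_)
  ring

theorem delta_bound {S : Finset Γ} {u : Γ × Γ → Prop} (h : ∀ x t t', u (x, t) → u (x, t') → t = t')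
    (m : ℕ → Γ → Γ → ℂ) (hm : ∀ j t s, ‖m j t s‖ ≤ 1 / 2) (e0 : Γ × Γ) :
    ∑' j, nn (grnAt S u m j (Pi.single 0 (Pi.single e0 1))) ≤ 2 := by
  set z : ℕ → Γ × Γ → ℂ := fun j => grnAt S u m j (Pi.single 0 (Pi.single e0 1)) with hz
  have z1 : ∀ j, z (j + 1) = step S u (m j) (z j) := by
    intro j
    simp [hz, grn_succ]
  have z2 : ∀ j, ∀ e e', z j e ≠ 0 → z j e' ≠ 0 → e = e' := by
    intro j
    induction j with
    | zero =>
      intro e e' b1 b2
      simp only [hz, grn_zero, Pi.single_eq_same] at b1 b2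
      have c : ∀ e, (Pi.single e0 (1 : ℂ) : Γ × Γ → ℂ) e ≠ 0 → e = e0 := fun e b => by
        by_contra c; exact b (Pi.single_eq_of_ne c _)
      rw [c e b1, c e' b2]
    | succ j ih =>
      rintro ⟨x, t⟩ ⟨x', t'⟩ b1 b2
      rw [z1, step_apply] at b1 b2
      obtain ⟨s, -, c1⟩ := exists_ne_zero_of_sum_ne_zero b1
      obtain ⟨s', -, c2⟩ := exists_ne_zero_of_sum_ne_zero b2
      split_ifs at c1 c2 with d1 d2 d3
      · have := ih _ _ (right_ne_zero_of_mul c1) (right_ne_zero_of_mul c2)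
        simp only [Prod.mk.injEq] at this
        obtain ⟨e1, rfl⟩ := this
        obtain rfl := mul_right_cancel e1
        rw [h _ _ _ d1.2.2 d2.2.2]
      all_goals simp at c1 c2
  have z3 := geo (fun j => nn (z j)) (fun _ => 0) (fun j => by
    have := step_bound S u (m j) (z j) 1 (hm j) h (fun e => by
      rw [card_le_one]
      intro s hs s' hs'
      exact (Prod.mk.inj (z2 j _ _ (mem_filter.mp hs).2.2 (mem_filter.mp hs').2.2)).2)
    rw [z1, mul_zero, add_zero]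
    refine le_trans (mul_le_mul_left (by norm_num) _) (this.trans (by simp)))
  have z4 : nn (z 0) = 1 := by
    simp only [hz, grn_zero, Pi.single_eq_same, nn]
    rw [tsum_eq_single e0 (fun e he => by simp [Pi.single_eq_of_ne he])]
    simp
  simpa [z4] using z3

theorem full_bound {S : Finset Γ} {o u : Γ × Γ → Prop} (h : Ori S o u)
    (m : ℕ → Γ → Γ → ℂ) (hm : ∀ j t s, ‖m j t s‖ ≤ 1 / 2) (a : ℕ → Γ × Γ → ℂ) (M : ℝ)
    (hM : ∀ j e, ‖grnAt S u m j a e‖ ≤ M) (j : ℕ) (e : Γ × Γ) :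
    ‖grnAt S o m j a e‖ ≤ (2 + S.card) * M := by
  have M0 : 0 ≤ M := (norm_nonneg _).trans (hM 0 e)
  have n0 : (0 : ℝ) ≤ S.card := Nat.cast_nonneg _
  have a1 : ∀ j e, u e → grnAt S o m j a e = grnAt S u m j a e := by
    intro j
    induction j with
    | zero => intro e _; rfl
    | succ j ih =>
      rintro ⟨x, t⟩ b
      simp only [grn_succ, Pi.add_apply, step_apply]
      congr 1
      refine sum_congr rfl (fun s _ => ?_)
      by_cases c : t ≠ s⁻¹ ∧ u (x * s⁻¹, s) ∧ u (x, t)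
      · rw [if_pos c, if_pos ⟨c.1, h.sub _ c.2.1, h.sub _ b⟩, ih _ c.2.1]
      · rw [if_neg c, if_neg (fun c' => c ⟨c'.1, h.pred c'.1 c'.2.1 b, b⟩)]
  induction j generalizing e with
  | zero => exact (hM 0 e).trans (by nlinarith)
  | succ j ih =>
    by_cases b : u e
    · rw [a1 _ _ b]; exact (hM _ e).trans (by nlinarith)
    have b1 : ‖a (j + 1) e‖ ≤ M := by
      have := hM (j + 1) e
      simpa [grn_succ, step_apply, b] using this
    have b2 : ‖step S o (m j) (grnAt S o m j a) e‖ ≤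
        ∑ s ∈ S, (M / 2 + if u (e.1, s⁻¹) then (2 + S.card) * M / 2 else 0) := by
      rw [step_apply]
      refine (norm_sum_le _ _).trans (sum_le_sum (fun s _ => ?_))
      have c0 : 0 ≤ if u (e.1, s⁻¹) then (2 + S.card) * M / 2 else 0 := by
        split_ifs <;> positivity
      by_cases c : e.2 ≠ s⁻¹ ∧ o (e.1 * s⁻¹, s) ∧ o e
      · rw [if_pos c, norm_mul]
        by_cases c1 : u (e.1 * s⁻¹, s)
        · rw [a1 _ _ c1]
          nlinarith [hM j (e.1 * s⁻¹, s), hm j e.2 s, norm_nonneg (m j e.2 s),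
            norm_nonneg (grnAt S u m j a (e.1 * s⁻¹, s))]
        · have c2 := h.tot _ _ c.2.1 c1
          rw [inv_mul_cancel_right] at c2
          rw [if_pos c2]
          nlinarith [ih (e.1 * s⁻¹, s), hm j e.2 s, norm_nonneg (m j e.2 s),
            norm_nonneg (grnAt S o m j a (e.1 * s⁻¹, s))]
      · rw [if_neg c, norm_zero]; positivity
    have b3 : ((S.filter (fun s => u (e.1, s⁻¹))).card : ℝ) ≤ 1 := by
      exact_mod_cast card_le_one.mpr (fun s hs s' hs' =>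
        inv_injective (h.one _ _ _ (mem_filter.mp hs).2 (mem_filter.mp hs').2))
    rw [sum_add_distrib, ← sum_filter, sum_const, sum_const, nsmul_eq_mul, nsmul_eq_mul] at b2
    rw [grn_succ, Pi.add_apply]
    refine (norm_add_le _ _).trans ?_
    have b4 : 0 ≤ (2 + S.card) * M / 2 := by positivity
    nlinarith

end Pool.Agent.Lib.MP_040728_al.Forest
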