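import Mathlib
import Pool.Agent.Lib.MP_040728_al.FFib
import Pool.Agent.Lib.MP_040728_al.Rep

set_option autoImplicit false

namespace Pool.Agent.Lib.MP_040728_al.Dix

open Finset Forest
open scoped ENNReal Classical

variable {Γ : Type} [Group Γ] {I : Type} [Fintype I]

/-- One weighted step from the edges entering a vertex to the edges leaving it. -/
noncomputable def nx (c : I → Γ) (W : I → I → ℝ) : (Γ × I → ℂ) →ₗ[ℂ] (Γ × I → ℂ) where
  toFun f e := ∑ s, (W e.2 s : ℂ) * f (e.1 * (c s)⁻¹, s)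
  map_add' f g := by
    funext e
    simp only [Pi.add_apply, mul_add, sum_add_distrib]
  map_smul' c f := by
    funext e
    simp only [Pi.smul_apply, smul_eq_mul, RingHom.id_apply, mul_sum, mul_left_comm]

theorem nx_apply (c : I → Γ) (W : I → I → ℝ) (f : Γ × I → ℂ) (e : Γ × I) :
    nx c W f e = ∑ s, (W e.2 s : ℂ) * f (e.1 * (c s)⁻¹, s) := rfl

/-- The step, cut off outside `P`. -/
noncomputable def st (c : I → Γ) (W : I → I → ℝ) (P : Γ × I → Prop) :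
    (Γ × I → ℂ) →ₗ[ℂ] (Γ × I → ℂ) where
  toFun f e := if P e then nx c W f e else 0
  map_add' f g := by
    funext e
    simp only [Pi.add_apply, map_add]
    split_ifs <;> simp
  map_smul' c f := by
    funext e
    simp only [Pi.smul_apply, map_smul, RingHom.id_apply]
    split_ifs <;> simp

theorem st_apply (c : I → Γ) (W : I → I → ℝ) (P : Γ × I → Prop) (f : Γ × I → ℂ) (e : Γ × I) :
    st c W P f e = if P e then nx c W f e else 0 := rfl

/-- The levelled Green operator, one level. -/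
noncomputable def grn (γ : ℕ → I → Γ) (Ω : ℕ → I → I → ℝ) (U : ℕ → Γ × I → Prop) :
    ℕ → ((ℕ → Γ × I → ℂ) →ₗ[ℂ] (Γ × I → ℂ))
  | 0 => LinearMap.proj 0
  | j + 1 => LinearMap.proj (j + 1) + st (γ j) (Ω j) (U (j + 1)) ∘ₗ grn γ Ω U j

/-- The inverse of the Green operator, one level. -/
noncomputable def cut (γ : ℕ → I → Γ) (Ω : ℕ → I → I → ℝ) (U : ℕ → Γ × I → Prop) :
    ℕ → ((ℕ → Γ × I → ℂ) →ₗ[ℂ] (Γ × I → ℂ))
  | 0 => LinearMap.proj 0
  | j + 1 => LinearMap.proj (j + 1) - st (γ j) (Ω j) (U (j + 1)) ∘ₗ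
      LinearMap.proj (R := ℂ) (φ := fun _ : ℕ => Γ × I → ℂ) j

/-- Left translation. -/
def tr {α : Type} (g : Γ) (f : Γ × I → α) : Γ × I → α := fun e => f (g⁻¹ * e.1, e.2)

/-- Left translation on all levels. -/
def trL (g : Γ) : (ℕ → Γ × I → ℂ) →ₗ[ℂ] (ℕ → Γ × I → ℂ) where
  toFun a j := tr g (a j)
  map_add' _ _ := rfl
  map_smul' _ _ := rfl

/-- The representation on levelled functions. -/
noncomputable def rep (γ : ℕ → I → Γ) (Ω : ℕ → I → I → ℝ) (U : ℕ → Γ × I → Prop) (g : Γ) :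
    (ℕ → Γ × I → ℂ) →ₗ[ℂ] (ℕ → Γ × I → ℂ) :=
  LinearMap.pi (grn γ Ω U) ∘ₗ trL g ∘ₗ LinearMap.pi (cut γ Ω U)

section basic
variable (γ : ℕ → I → Γ) (Ω : ℕ → I → I → ℝ) (U : ℕ → Γ × I → Prop) (a : ℕ → Γ × I → ℂ)

theorem grn_zero : grn γ Ω U 0 a = a 0 := rfl
theorem grn_succ (j : ℕ) :
    grn γ Ω U (j + 1) a = a (j + 1) + st (γ j) (Ω j) (U (j + 1)) (grn γ Ω U j a) := rfl
theorem cut_zero : cut γ Ω U 0 a = a 0 := rfl
theorem cut_succ (j : ℕ) :
    cut γ Ω U (j + 1) a = a (j + 1) - st (γ j) (Ω j) (U (j + 1)) (a j) := rfl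

theorem rep_apply (g : Γ) (j : ℕ) :
    rep γ Ω U g a j = grn γ Ω U j (fun i => tr g (cut γ Ω U i a)) := rfl

theorem grn_cut (j : ℕ) : grn γ Ω U j (fun i => cut γ Ω U i a) = a j := by
  induction j with
  | zero => rfl
  | succ j ih => rw [grn_succ, ih, cut_succ, sub_add_cancel]

theorem cut_grn (j : ℕ) : cut γ Ω U j (fun i => grn γ Ω U i a) = a j := by
  cases j with
  | zero => rfl
  | succ j => rw [cut_succ, grn_succ, add_sub_cancel_right]

theorem rep_grn (g : Γ) (j : ℕ) :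
    rep γ Ω U g (fun i => grn γ Ω U i a) j = grn γ Ω U j (fun i => tr g (a i)) := by
  simp only [rep_apply, cut_grn]

theorem rep_one : rep γ Ω U 1 a = a := by
  funext j
  rw [rep_apply, ← grn_cut γ Ω U a j]
  congr 1
  funext i e
  simp [tr]

theorem rep_mul (g h : Γ) : rep γ Ω U (g * h) a = rep γ Ω U g (rep γ Ω U h a) := by
  funext j
  rw [show rep γ Ω U h a = fun i => grn γ Ω U i (fun i => tr h (cut γ Ω U i a)) from rfl,
    rep_grn, rep_apply]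
  congr 1
  funext i e
  simp [tr, mul_assoc]

end basic

theorem nx_tr (c : I → Γ) (W : I → I → ℝ) (f : Γ × I → ℂ) (g : Γ) :
    nx c W (tr g f) = tr g (nx c W f) := by
  funext e
  simp only [nx_apply, tr, mul_assoc]

theorem st_tr (c : I → Γ) (W : I → I → ℝ) (P : Γ × I → Prop) (f : Γ × I → ℂ) (g : Γ) :
    st c W (tr g P) (tr g f) = tr g (st c W P f) := by
  funext e
  simp only [st_apply, nx_tr]
  rfl

theorem cut_tr (γ : ℕ → I → Γ) (Ω : ℕ → I → I → ℝ) (U : ℕ → Γ × I → Prop) (a : ℕ → Γ × I → ℂ)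
    (g : Γ) (j : ℕ) :
    cut γ Ω (fun i => tr g (U i)) j (fun i => tr g (a i)) = tr g (cut γ Ω U j a) := by
  cases j with
  | zero => rfl
  | succ j => rw [cut_succ, cut_succ, st_tr]; rfl

omit [Fintype I] in
theorem nn_tr (g : Γ) (f : Γ × I → ℂ) : nn (tr g f) = nn f :=
  (Equiv.prodCongr (Equiv.mulLeft g⁻¹) (Equiv.refl I)).tsum_eq (fun e => ‖f e‖ₑ ^ 2)

theorem st_bound (c : I → Γ) (W : I → I → ℝ) (P : Γ × I → Prop) (f : Γ × I → ℂ) (k R : ℕ)
    (h : ∀ y, k * ∑ t ∈ univ.filter (fun t => P (y, t)), ‖∑ s, (W t s : ℂ) * f (y * (c s)⁻¹, s)‖ ^ 2 ≤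
      R * ∑ s, ‖f (y * (c s)⁻¹, s)‖ ^ 2) : k * nn (st c W P f) ≤ R * nn f := by
  have a1 : ∀ y, k * ∑ t, ‖st c W P f (y, t)‖ₑ ^ 2 ≤ R * ∑ s, ‖f (y * (c s)⁻¹, s)‖ₑ ^ 2 := by
    intro y
    have b1 : k * ∑ t, ‖st c W P f (y, t)‖₊ ^ 2 ≤ R * ∑ s, ‖f (y * (c s)⁻¹, s)‖₊ ^ 2 := by
      rw [← NNReal.coe_le_coe]
      push_cast
      refine le_trans (le_of_eq ?_) (h y)
      rw [sum_filter]
      congr 1
      refine sum_congr rfl (fun t _ => ?_)
      rw [st_apply]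
      split_ifs <;> simp [nx_apply]
    simp only [enorm_eq_nnnorm]
    exact_mod_cast b1
  unfold nn
  rw [ENNReal.tsum_prod', ENNReal.tsum_prod', ← ENNReal.tsum_mul_left]
  simp only [tsum_fintype]
  refine (ENNReal.tsum_le_tsum a1).trans (le_of_eq ?_)
  rw [ENNReal.tsum_mul_left]
  congr 1
  rw [Summable.tsum_finsetSum (fun _ _ => ENNReal.summable),
    Summable.tsum_finsetSum (fun _ _ => ENNReal.summable)]
  exact sum_congr rfl (fun s _ => (Equiv.mulRight (c s)⁻¹).tsum_eq (fun x => ‖f (x, s)‖ₑ ^ 2))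

theorem pair_bound (γ : ℕ → I → Γ) (Ω : ℕ → I → I → ℝ) (U U' : ℕ → Γ × I → Prop) (R : ℕ)
    (h : ∀ j y t s, U (j + 1) (y, t) → U j (y * (γ j s)⁻¹, s))
    (h' : ∀ j y t s, U' (j + 1) (y, t) → U' j (y * (γ j s)⁻¹, s))
    (hf : ∀ j (x : I → ℂ), ∑ t, ‖∑ s, (Ω j t s : ℂ) * x s‖ ^ 2 ≤ R * ∑ s, ‖x s‖ ^ 2)
    (hs : ∀ j y (x : I → ℂ), (∀ s, U' j (y * (γ j s)⁻¹, s) → x s = 0) →
      4 * ∑ t ∈ univ.filter (fun t => U (j + 1) (y, t)), ‖∑ s, (Ω j t s : ℂ) * x s‖ ^ 2 ≤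
        ∑ s, ‖x s‖ ^ 2) (a : ℕ → Γ × I → ℂ) :
    ∑' j, nn (grn γ Ω U j (fun i => cut γ Ω U' i a)) ≤ (32 * R + 2) * ∑' j, nn (a j) := by
  set z : ℕ → Γ × I → ℂ := fun j => grn γ Ω U j (fun i => cut γ Ω U' i a) - a j with hz
  set d : ℕ → Γ × I → ℂ := fun j => st (γ j) (Ω j) (U (j + 1)) (a j) +
    -st (γ j) (Ω j) (U' (j + 1)) (a j) with hd
  have z0 : z 0 = 0 := by simp [hz, grn_zero, cut_zero]
  have z1 : ∀ j, z (j + 1) = st (γ j) (Ω j) (U (j + 1)) (z j) + d j := by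
    intro j
    simp only [hz, hd, grn_succ, cut_succ, map_sub]
    abel
  have z2 : ∀ j e, U j e → U' j e → z j e = 0 := by
    intro j
    induction j with
    | zero => intro e _ _; rw [z0]; rfl
    | succ j ih =>
      rintro ⟨x, t⟩ b1 b2
      have c1 : nx (γ j) (Ω j) (z j) (x, t) = 0 := by
        rw [nx_apply]
        exact sum_eq_zero (fun s _ => by rw [ih _ (h _ _ _ s b1) (h' _ _ _ s b2), mul_zero])
      rw [z1]
      simp [hd, st_apply, b1, b2, c1]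
  have z3 : ∀ j, 4 * nn (st (γ j) (Ω j) (U (j + 1)) (z j)) ≤ nn (z j) := by
    intro j
    have := st_bound (γ j) (Ω j) (U (j + 1)) (z j) 4 1 (fun y => by
      by_cases c : ∃ t, U (j + 1) (y, t)
      · obtain ⟨t, ht⟩ := c
        simpa using hs j y (fun s => z j (y * (γ j s)⁻¹, s)) (fun s e => z2 j _ (h _ _ _ s ht) e)
      · rw [filter_eq_empty_iff.mpr (fun t _ e => c ⟨t, e⟩), sum_empty, mul_zero]
        positivity)
    simpa using this
  have z8 : ∀ j (P : Γ × I → Prop), nn (st (γ j) (Ω j) P (a j)) ≤ R * nn (a j) := by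
    intro j P
    have := st_bound (γ j) (Ω j) P (a j) 1 R (fun y => by
      rw [Nat.cast_one, one_mul]
      exact (sum_le_sum_of_subset_of_nonneg (filter_subset _ _) (fun _ _ _ => by positivity)).trans
        (hf j _))
    simpa using this
  have z4 : ∀ j, nn (d j) ≤ 4 * R * nn (a j) := by
    intro j
    have c3 := nn_add (st (γ j) (Ω j) (U (j + 1)) (a j)) (-st (γ j) (Ω j) (U' (j + 1)) (a j))
    rw [nn_neg] at c3
    refine c3.trans ((add_le_add (mul_le_mul_right (z8 j _) _) (mul_le_mul_right (z8 j _) _)).trans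
      (le_of_eq ?_))
    ring
  have z5 := geo (fun j => nn (z j)) (fun j => 4 * R * nn (a j)) (fun j => by
    rw [z1]
    calc 2 * nn (st (γ j) (Ω j) (U (j + 1)) (z j) + d j) ≤
          2 * (2 * nn (st (γ j) (Ω j) (U (j + 1)) (z j)) + 2 * nn (d j)) :=
          mul_le_mul_right (nn_add _ _) _
      _ = 4 * nn (st (γ j) (Ω j) (U (j + 1)) (z j)) + 4 * nn (d j) := by ring
      _ ≤ _ := add_le_add (z3 j) (mul_le_mul_right (z4 j) _))
  have z6 : nn (z 0) = 0 := by rw [z0]; simp [nn]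
  simp only [z6, mul_zero, zero_add, ENNReal.tsum_mul_left] at z5
  have z7 : ∀ j, nn (grn γ Ω U j (fun i => cut γ Ω U' i a)) ≤ 2 * nn (z j) + 2 * nn (a j) := by
    intro j
    have := nn_add (z j) (a j)
    simpa [hz] using this
  refine (ENNReal.tsum_le_tsum z7).trans ?_
  rw [ENNReal.tsum_add, ENNReal.tsum_mul_left, ENNReal.tsum_mul_left]
  refine (add_le_add_left (mul_le_mul_right z5 _) _).trans (le_of_eq ?_)
  ring

theorem rep_bound (γ : ℕ → I → Γ) (Ω : ℕ → I → I → ℝ) (U : ℕ → Γ × I → Prop) (R : ℕ)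
    (h : ∀ j y t s, U (j + 1) (y, t) → U j (y * (γ j s)⁻¹, s))
    (hf : ∀ j (x : I → ℂ), ∑ t, ‖∑ s, (Ω j t s : ℂ) * x s‖ ^ 2 ≤ R * ∑ s, ‖x s‖ ^ 2)
    (hs : ∀ j y y' (x : I → ℂ), (∀ s, U j (y' * (γ j s)⁻¹, s) → x s = 0) →
      4 * ∑ t ∈ univ.filter (fun t => U (j + 1) (y, t)), ‖∑ s, (Ω j t s : ℂ) * x s‖ ^ 2 ≤
        ∑ s, ‖x s‖ ^ 2) (g : Γ) (a : ℕ → Γ × I → ℂ) :
    ∑' j, nn (rep γ Ω U g a j) ≤ (32 * R + 2) * ∑' j, nn (a j) := by
  have := pair_bound γ Ω U (fun i => tr g (U i)) R h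
    (fun j y t s e => by simpa [tr, mul_assoc] using h j _ t s e) hf
    (fun j y x e => hs j y (g⁻¹ * y) x (fun s c => e s (by simpa [tr, mul_assoc] using c)))
    (fun i => tr g (a i))
  simpa only [cut_tr, nn_tr, rep_apply] using this

theorem nn_lp {X : Type} (v : lp (fun _ : X => ℂ) 2) : nn v = ENNReal.ofReal (‖v‖ ^ 2) := by
  rw [← (hasSum_sq v).tsum_eq, ENNReal.ofReal_tsum_of_nonneg (fun _ => by positivity)
    (hasSum_sq v).summable]
  refine tsum_congr (fun e => ?_)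
  rw [ENNReal.ofReal_pow (norm_nonneg _), ofReal_norm]

theorem lift {X : Type} (Φ : Γ → ((X → ℂ) →ₗ[ℂ] (X → ℂ))) (C : ℕ) (h1 : ∀ f, Φ 1 f = f)
    (h2 : ∀ g h f, Φ (g * h) f = Φ g (Φ h f)) (hb : ∀ g f, nn (Φ g f) ≤ C * nn f) :
    ∃ π : Γ →* (lp (fun _ : X => ℂ) 2 →L[ℂ] lp (fun _ : X => ℂ) 2), (∀ g, ‖π g‖ ≤ √C) ∧
      ∀ g v, (π g v : X → ℂ) = Φ g v := by
  have := fun g => exists_op (I := X) (K := ℂ) (fun v => Φ g v) (Real.sqrt_nonneg C)
    (fun v w i => by rw [lp.coeFn_add, map_add, Pi.add_apply])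
    (fun c v i => by rw [lp.coeFn_smul, map_smul, Pi.smul_apply]) (fun v s => by
      have a1 := (ENNReal.sum_le_tsum s).trans (hb g v)
      rw [nn_lp, ← ENNReal.ofReal_natCast, ← ENNReal.ofReal_mul (by positivity)] at a1
      rw [mul_pow, Real.sq_sqrt (by positivity), ← ENNReal.ofReal_le_ofReal_iff (by positivity),
        ENNReal.ofReal_sum_of_nonneg (fun _ _ => by positivity)]
      refine le_trans (le_of_eq (sum_congr rfl (fun e _ => ?_))) a1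
      rw [ENNReal.ofReal_pow (norm_nonneg _), ofReal_norm])
  choose P hP1 hP2 using this
  have hP3 : ∀ g v, (P g v : X → ℂ) = Φ g v := fun g v => funext (hP2 g v)
  refine ⟨⟨⟨P, ?_⟩, fun g h => ?_⟩, hP1, hP3⟩
  · exact ContinuousLinearMap.ext (fun v => lp.ext (by rw [hP3, h1]; rfl))
  · exact ContinuousLinearMap.ext (fun v => lp.ext (by
      rw [mul_apply_eq_comp, hP3, hP3, hP3, h2]))

end Pool.Agent.Lib.MP_040728_al.Dix
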