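import Mathlib
import Pool.Agent.Lib.MP_040728_al.Transfer

set_option autoImplicit false

namespace Pool.Agent.Lib.MP_040728_al.Tree

open MeasureTheory

theorem pt_sq {r : ℝ} (h1 : 1 ≤ r) (h2 : r ≤ 2) (a b : ℂ) :
    ‖a + b‖ ^ r + ‖a - b‖ ^ r ≤ 2 * (‖a‖ ^ r + ‖b‖ ^ r) := by
  have e : ∀ c : ℂ, ‖c‖ ^ r = (‖c‖ ^ 2) ^ (r / 2) := by
    intro c
    rw [← Real.rpow_natCast, ← Real.rpow_mul (norm_nonneg _)]
    congr 1; push_cast; ring
  have a1 := (Real.concaveOn_rpow (p := r / 2) (by linarith) (by linarith)).2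
    (show ‖a + b‖ ^ 2 ∈ Set.Ici (0 : ℝ) by simp) (show ‖a - b‖ ^ 2 ∈ Set.Ici (0 : ℝ) by simp)
    (show (0 : ℝ) ≤ 1 / 2 by norm_num) (show (0 : ℝ) ≤ 1 / 2 by norm_num) (by norm_num)
  have a2 : (1 / 2 : ℝ) • ‖a + b‖ ^ 2 + (1 / 2 : ℝ) • ‖a - b‖ ^ 2 = ‖a‖ ^ 2 + ‖b‖ ^ 2 := by
    have := parallelogram_law_with_norm ℂ a b
    simp only [smul_eq_mul]
    nlinarith
  rw [a2] at a1
  have a3 := Real.rpow_add_le_add_rpow (p := r / 2) (a := ‖a‖ ^ 2) (b := ‖b‖ ^ 2) (by positivity)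
    (by positivity) (by linarith) (by linarith)
  simp only [smul_eq_mul] at a1
  rw [e, e, e a, e b]
  linarith

theorem nonsq {X : Type*} [MeasurableSpace X] {μ : Measure X} {p : ENNReal} [Fact (1 ≤ p)]
    (h1 : 1 < p) (h2 : p ≤ 2) (Y : Submodule ℂ (Lp ℂ p μ)) (Z : Submodule ℂ Y) (a b : Y ⧸ Z)
    (hab : ‖b‖ = ‖a‖) : ‖a + b‖ + ‖a - b‖ ≤ 2 * 2 ^ p.toReal⁻¹ * ‖a‖ := by
  have h0 : p ≠ 0 := (lt_trans zero_lt_one h1).ne'
  have ht : p ≠ ⊤ := (lt_of_le_of_lt h2 ENNReal.ofNat_lt_top).ne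
  have r1 : 1 < p.toReal := by
    rw [← ENNReal.toReal_one]; exact (ENNReal.toReal_lt_toReal ENNReal.one_ne_top ht).mpr h1
  have r2 : p.toReal ≤ 2 := by
    have := ENNReal.toReal_mono ENNReal.ofNat_ne_top h2
    simpa using this
  have key : ∀ (x y : Lp ℂ p μ) (c : ℝ), ‖x‖ ≤ c → ‖y‖ ≤ c →
      ‖x + y‖ + ‖x - y‖ ≤ 2 * 2 ^ p.toReal⁻¹ * c := by
    intro x y c hx hy
    have c0 : 0 ≤ c := (norm_nonneg _).trans hx
    obtain ⟨i1, e1⟩ := int_norm h0 ht (x + y) (fun t => x t + y t) (Lp.coeFn_add x y)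
    obtain ⟨i2, e2⟩ := int_norm h0 ht (x - y) (fun t => x t - y t) (Lp.coeFn_sub x y)
    obtain ⟨i3, e3⟩ := int_norm h0 ht x (fun t => x t) (Filter.EventuallyEq.refl _ _)
    obtain ⟨i4, e4⟩ := int_norm h0 ht y (fun t => y t) (Filter.EventuallyEq.refl _ _)
    have a1 := integral_mono (i1.add i2) ((i3.add i4).const_mul 2)
      (fun t => pt_sq r1.le r2 (x t) (y t))
    simp only [Pi.add_apply] at a1
    rw [integral_add i1 i2, integral_const_mul, integral_add i3 i4, e1, e2, e3, e4] at a1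
    have a2 := (convexOn_rpow r1.le).2 (show ‖x + y‖ ∈ Set.Ici (0 : ℝ) by simp)
      (show ‖x - y‖ ∈ Set.Ici (0 : ℝ) by simp)
      (show (0 : ℝ) ≤ 1 / 2 by norm_num) (show (0 : ℝ) ≤ 1 / 2 by norm_num) (by norm_num)
    simp only [smul_eq_mul] at a2
    have a3 := Real.rpow_le_rpow (norm_nonneg _) hx (by linarith : 0 ≤ p.toReal)
    have a4 := Real.rpow_le_rpow (norm_nonneg _) hy (by linarith : 0 ≤ p.toReal)
    have a5 : (1 / 2 * ‖x + y‖ + 1 / 2 * ‖x - y‖) ^ p.toReal ≤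
        (2 ^ p.toReal⁻¹ * c) ^ p.toReal := by
      rw [Real.mul_rpow (by positivity) c0, Real.rpow_inv_rpow (by norm_num) (by linarith)]
      linarith
    have a6 := (Real.rpow_le_rpow_iff (by positivity) (by positivity) (by linarith)).mp a5
    linarith
  refine le_of_eps (2 * 2 ^ p.toReal⁻¹) (fun ε hε => ?_)
  obtain ⟨x, rfl, hx⟩ := Submodule.Quotient.norm_mk_lt a hε
  obtain ⟨y, rfl, hy⟩ := Submodule.Quotient.norm_mk_lt b hε
  rw [hab] at hy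
  have a1 := key x y _ hx.le hy.le
  have a2 := Submodule.Quotient.norm_mk_le Z (x + y)
  have a3 := Submodule.Quotient.norm_mk_le Z (x - y)
  rw [Submodule.Quotient.mk_add] at a2
  rw [Submodule.Quotient.mk_sub] at a3
  change _ ≤ ‖(x : Lp ℂ p μ) + y‖ at a2
  change _ ≤ ‖(x : Lp ℂ p μ) - y‖ at a3
  linarith

end Pool.Agent.Lib.MP_040728_al.Tree
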