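import Mathlib
import Pool.Agent.Lib.MP_040728_al.TreeSq

set_option autoImplicit false

namespace Pool.Agent.Lib.MP_040728_al.Forest

open Finset MeasureTheory
open scoped Classical

theorem walsh (k : ℕ) : ∃ (T : Type) (_ : Fintype T) (ε : T → T → ℤ), Fintype.card T = 2 ^ k ∧
    (∀ t s, ε t s = 1 ∨ ε t s = -1) ∧ ∀ (V : Type) [AddCommGroup V] (P : V → ℝ),
      (∀ a b, P (a + b) + P (a - b) ≤ 2 * (P a + P b)) → ∀ v : T → V,
        ∑ t, P (∑ s, ε t s • v s) ≤ 2 ^ k * ∑ s, P (v s) := by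
  induction k with
  | zero => exact ⟨Unit, inferInstance, fun _ _ => 1, rfl, fun _ _ => Or.inl rfl, by simp⟩
  | succ k ih =>
    obtain ⟨T, _, ε, h1, h2, h3⟩ := ih
    refine ⟨Bool × T, inferInstance, fun t s => if t.1 && s.1 then -ε t.2 s.2 else ε t.2 s.2,
      by simp [h1, pow_succ, mul_comm], fun t s => ?_, fun V _ P hP v => ?_⟩
    · dsimp only
      split_ifs
      · rcases h2 t.2 s.2 with h | h <;> simp [h]
      · exact h2 _ _
    · simp only [Fintype.sum_prod_type, Fintype.sum_bool, Bool.and_true, Bool.and_false,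
        Bool.false_eq_true, if_false, if_true, neg_smul, sum_neg_distrib]
      have a1 := h3 V P hP (fun s => v (true, s))
      have a2 := h3 V P hP (fun s => v (false, s))
      have a3 := sum_le_sum (s := univ) (fun t _ =>
        hP (∑ s, ε t s • v (false, s)) (∑ s, ε t s • v (true, s)))
      rw [sum_add_distrib, ← mul_sum, sum_add_distrib] at a3
      simp only [neg_add_eq_sub, add_comm (∑ s, ε _ s • v (true, s))]
      rw [pow_succ]
      linarith

theorem hadamard {Γ : Type} (S : Finset Γ) : ∃ ε : Γ → Γ → ℤ,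
    (∀ t s, ε t s = 1 ∨ ε t s = -1) ∧ ∀ (V : Type) [AddCommGroup V] (P : V → ℝ), (∀ a, 0 ≤ P a) →
      P 0 = 0 → (∀ a b, P (a + b) + P (a - b) ≤ 2 * (P a + P b)) → ∀ v : Γ → V,
        ∑ t ∈ S, P (∑ s ∈ S, ε t s • v s) ≤ 2 * S.card * ∑ s ∈ S, P (v s) := by
  rcases S.eq_empty_or_nonempty with rfl | hS
  · exact ⟨fun _ _ => 1, fun _ _ => Or.inl rfl, by simp⟩
  obtain ⟨T, _, ε, h1, h2, h3⟩ := walsh (Nat.log 2 S.card + 1)
  have a1 : Fintype.card S ≤ Fintype.card T := by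
    rw [h1, Fintype.card_coe]; exact (Nat.lt_pow_succ_log_self (by norm_num) _).le
  have a2 : (2 : ℝ) ^ (Nat.log 2 S.card + 1) ≤ 2 * S.card := by
    have := Nat.pow_log_le_self 2 hS.card_pos.ne'
    rw [pow_succ, mul_comm]
    exact_mod_cast Nat.mul_le_mul_left 2 this
  obtain ⟨ι⟩ := Function.Embedding.nonempty_of_card_le a1
  refine ⟨fun t s => if h : t ∈ S ∧ s ∈ S then ε (ι ⟨t, h.1⟩) (ι ⟨s, h.2⟩) else 1, fun t s => ?_,
    fun V _ P p0 p1 hP v => ?_⟩
  · dsimp only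
    split_ifs
    exacts [h2 _ _, Or.inl rfl]
  · let w : T → V := Function.extend ι (fun s => v s) 0
    have b0 : ∀ s, w (ι s) = v s := fun s => ι.injective.extend_apply _ _ s
    have b1 : ∀ {M : Type} [AddCommMonoid M] (F : T → V → M), (∀ t, F t 0 = 0) →
        ∑ t, F t (w t) = ∑ s : S, F (ι s) (v s) := by
      intro M _ F hF
      rw [← sum_subset (subset_univ (univ.map ι)) (fun t _ ht => by
        rw [show w t = 0 from Function.extend_apply' _ _ _ (by simpa using ht), hF]), sum_map]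
      simp only [b0]
    have b2 := h3 V P hP w
    rw [b1 (fun _ a => P a) (fun _ => p1)] at b2
    have b3 : ∑ t : S, P (∑ s, ε (ι t) s • w s) ≤ ∑ t, P (∑ s, ε t s • w s) := by
      rw [← sum_map univ ι (fun t => P (∑ s, ε t s • w s))]
      exact sum_le_sum_of_subset_of_nonneg (subset_univ _) (fun _ _ _ => p0 _)
    have b4 : 0 ≤ ∑ s : S, P (v s) := sum_nonneg (fun _ _ => p0 _)
    rw [← sum_coe_sort S, ← sum_coe_sort S (fun s => P (v s))]
    refine le_trans (le_of_eq (sum_congr rfl (fun t _ => ?_)))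
      (b3.trans (b2.trans (mul_le_mul_of_nonneg_right a2 b4)))
    rw [b1 (fun s a => ε (ι t) s • a) (fun _ => smul_zero _), ← sum_coe_sort S]
    simp

theorem exists_sign {Γ : Type} (S : Finset Γ) (q : Γ → Γ → ℝ) : ∃ r : Γ → ℤ,
    (∀ s, r s = 1 ∨ r s = -1) ∧ ∑ s ∈ S, q s s ≤ ∑ s ∈ S, ∑ s' ∈ S, (r s * r s' : ℝ) * q s s' := by
  induction S using Finset.induction_on with
  | empty => exact ⟨fun _ => 1, fun _ => Or.inl rfl, by simp⟩
  | insert a S ha ih =>
    obtain ⟨r, h1, h2⟩ := ih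
    obtain ⟨c, c1, c2⟩ : ∃ c : ℤ, (c = 1 ∨ c = -1) ∧
        0 ≤ (c : ℝ) * ∑ s ∈ S, (r s : ℝ) * (q a s + q s a) := by
      rcases le_total 0 (∑ s ∈ S, (r s : ℝ) * (q a s + q s a)) with h | h
      · exact ⟨1, Or.inl rfl, by simpa using h⟩
      · exact ⟨-1, Or.inr rfl, by simpa using h⟩
    refine ⟨Function.update r a c, fun s => ?_, ?_⟩
    · by_cases h : s = a
      · rw [h, Function.update_self]; exact c1
      · rw [Function.update_of_ne h]; exact h1 s
    · have b1 : ∀ s ∈ S, Function.update r a c s = r s :=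
        fun s hs => Function.update_of_ne (fun h : s = a => ha (h ▸ hs)) _ _
      have b2 : (c * c : ℝ) = 1 := by rcases c1 with h | h <;> simp [h]
      simp only [sum_insert ha, Function.update_self, sum_add_distrib]
      rw [b2, sum_congr rfl (fun s hs => by rw [b1 s hs] :
          ∀ s ∈ S, ((c : ℝ) * (Function.update r a c s : ℤ)) * q a s = (c * r s) * q a s),
        sum_congr rfl (fun s hs => by rw [b1 s hs] :
          ∀ s ∈ S, (((Function.update r a c s : ℤ) : ℝ) * c) * q s a = (r s * c) * q s a),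
        sum_congr rfl (fun s hs => sum_congr rfl (fun s' hs' => by rw [b1 s hs, b1 s' hs']) :
          ∀ s ∈ S, ∑ s' ∈ S, (((Function.update r a c s : ℤ) : ℝ) * (Function.update r a c s' : ℤ)) *
            q s s' = ∑ s' ∈ S, (r s * r s' : ℝ) * q s s')]
      have b3 : (c : ℝ) * ∑ s ∈ S, (r s : ℝ) * (q a s + q s a) =
          ∑ s ∈ S, (c * r s : ℝ) * q a s + ∑ s ∈ S, (r s * c : ℝ) * q s a := by
        rw [mul_sum, ← sum_add_distrib]
        exact sum_congr rfl (fun s _ => by ring)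
      linarith

theorem clarkson {X : Type*} [MeasurableSpace X] {μ : Measure X} {p : ENNReal} [Fact (1 ≤ p)]
    (h2 : p ≤ 2) (Y : Submodule ℂ (Lp ℂ p μ)) (Z : Submodule ℂ Y) (a b : Y ⧸ Z) :
    ‖a + b‖ ^ p.toReal + ‖a - b‖ ^ p.toReal ≤ 2 * (‖a‖ ^ p.toReal + ‖b‖ ^ p.toReal) := by
  have h1 : 1 ≤ p := Fact.out
  have h0 : p ≠ 0 := (lt_of_lt_of_le zero_lt_one h1).ne'
  have ht : p ≠ ⊤ := (lt_of_le_of_lt h2 ENNReal.ofNat_lt_top).ne
  have r1 : 1 ≤ p.toReal := by
    rw [← ENNReal.toReal_one]; exact ENNReal.toReal_mono ht h1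
  have r0 : 0 ≤ p.toReal := by linarith
  have r2 : p.toReal ≤ 2 := by
    have := ENNReal.toReal_mono ENNReal.ofNat_ne_top h2
    simpa using this
  have key : ∀ x y : Lp ℂ p μ,
      ‖x + y‖ ^ p.toReal + ‖x - y‖ ^ p.toReal ≤ 2 * (‖x‖ ^ p.toReal + ‖y‖ ^ p.toReal) := by
    intro x y
    obtain ⟨i1, e1⟩ := int_norm h0 ht (x + y) (fun t => x t + y t) (Lp.coeFn_add x y)
    obtain ⟨i2, e2⟩ := int_norm h0 ht (x - y) (fun t => x t - y t) (Lp.coeFn_sub x y)
    obtain ⟨i3, e3⟩ := int_norm h0 ht x (fun t => x t) (Filter.EventuallyEq.refl _ _)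
    obtain ⟨i4, e4⟩ := int_norm h0 ht y (fun t => y t) (Filter.EventuallyEq.refl _ _)
    have a1 := integral_mono (i1.add i2) ((i3.add i4).const_mul 2)
      (fun t => Tree.pt_sq r1 r2 (x t) (y t))
    simp only [Pi.add_apply] at a1
    rwa [integral_add i1 i2, integral_const_mul, integral_add i3 i4, e1, e2, e3, e4] at a1
  have hl : ∀ (v : Y ⧸ Z) (ε : ℝ), 0 < ε →
      ∃ w : Y, Submodule.Quotient.mk w = v ∧ ‖w‖ ^ p.toReal ≤ ‖v‖ ^ p.toReal + ε := by
    intro v ε hε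
    have c : ContinuousAt (fun r : ℝ => r ^ p.toReal) ‖v‖ :=
      Real.continuousAt_rpow_const _ _ (Or.inr r0)
    obtain ⟨d, dp, hd⟩ := Metric.continuousAt_iff.mp c ε hε
    obtain ⟨w, rfl, hw⟩ := Submodule.Quotient.norm_mk_lt v dp
    refine ⟨w, rfl, ?_⟩
    have := hd (x := ‖w‖) (by
      rw [Real.dist_eq, abs_lt]; constructor <;> linarith [Submodule.Quotient.norm_mk_le Z w])
    rw [Real.dist_eq, abs_lt] at this
    linarith [this.2]
  refine le_of_eps 4 (fun ε hε => ?_)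
  obtain ⟨x, rfl, hx⟩ := hl a ε hε
  obtain ⟨y, rfl, hy⟩ := hl b ε hε
  have a1 := key x y
  have a2 := Real.rpow_le_rpow (norm_nonneg _) (Submodule.Quotient.norm_mk_le Z (x + y)) r0
  have a3 := Real.rpow_le_rpow (norm_nonneg _) (Submodule.Quotient.norm_mk_le Z (x - y)) r0
  rw [Submodule.Quotient.mk_add] at a2
  rw [Submodule.Quotient.mk_sub] at a3
  change _ ≤ ‖(x : Lp ℂ p μ) + y‖ ^ _ at a2
  change _ ≤ ‖(x : Lp ℂ p μ) - y‖ ^ _ at a3
  change ‖(x : Lp ℂ p μ)‖ ^ _ ≤ _ at hx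
  change ‖(y : Lp ℂ p μ)‖ ^ _ ≤ _ at hy
  refine (add_le_add a2 a3).trans (a1.trans ?_)
  refine (mul_le_mul_of_nonneg_left (add_le_add hx hy) zero_le_two).trans (le_of_eq ?_)
  ring

end Pool.Agent.Lib.MP_040728_al.Forest
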