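import Mathlib
import Pool.Agent.Lib.MP_040728_al.DRep
import Pool.Agent.Lib.MP_040728_al.FHad

set_option autoImplicit false

namespace Pool.Agent.Lib.MP_040728_al.Dix

open Finset Forest
open scoped ENNReal Classical InnerProductSpace

theorem gram {H I : Type*} [AddCommGroup H] [Module ℝ H] [Fintype I] (B : H →ₗ[ℝ] H →ₗ[ℝ] ℝ)
    (hs : ∀ x y, B x y = B y x) (h0 : ∀ x, 0 ≤ B x x) (Z : I → I → ℝ) {R : ℝ}
    (hZ : ∀ x : I → ℝ, ∑ t, (∑ s, Z t s * x s) ^ 2 ≤ R * ∑ s, x s ^ 2) (v : I → H) :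
    ∑ t, B (∑ s, Z t s • v s) (∑ s, Z t s • v s) ≤ R * ∑ s, B (v s) (v s) := by
  have ex : ∀ c : I → ℝ, B (∑ s, c s • v s) (∑ s, c s • v s) =
      ∑ s, ∑ s', c s * c s' * B (v s) (v s') := fun c => by
    simp only [map_sum, map_smul, LinearMap.sum_apply, LinearMap.smul_apply, smul_eq_mul, mul_sum]
    rw [sum_comm]
    exact sum_congr rfl (fun s _ => sum_congr rfl (fun s' _ => by ring))
  have hp : (Matrix.of (fun s s' => B (v s) (v s'))).PosSemidef := by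
    refine Matrix.PosSemidef.of_dotProduct_mulVec_nonneg ?_ (fun x => ?_)
    · ext s s'
      simp [hs (v s') (v s)]
    · have := h0 (∑ s, x s • v s)
      rw [ex] at this
      refine this.trans_eq ?_
      simp only [dotProduct, Matrix.mulVec, star_trivial, Matrix.of_apply, mul_sum]
      exact sum_congr rfl (fun s _ => sum_congr rfl (fun s' _ => by ring))
  obtain ⟨k, u, hu⟩ := Matrix.posSemidef_iff_eq_sum_vecMulVec.mp hp
  have e1 : ∀ s s', B (v s) (v s') = ∑ i, u i s * u i s' := fun s s' => by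
    have := congrFun (congrFun hu s) s'
    simpa [Matrix.sum_apply, Matrix.vecMulVec_apply] using this
  have e2 : ∀ t, B (∑ s, Z t s • v s) (∑ s, Z t s • v s) = ∑ i, (∑ s, Z t s * u i s) ^ 2 := by
    intro t
    rw [ex]
    simp only [pow_two, sum_mul_sum]
    simp only [e1, mul_sum]
    conv_rhs => rw [sum_comm]
    refine sum_congr rfl (fun s _ => ?_)
    rw [sum_comm]
    exact sum_congr rfl (fun i _ => sum_congr rfl (fun s' _ => by ring))
  simp only [e2, e1]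
  rw [sum_comm, sum_comm (f := fun s i => u i s * u i s), mul_sum]
  exact sum_le_sum (fun i _ => by simpa only [pow_two] using hZ (u i))

theorem cplx {I : Type*} [Fintype I] (W : I → ℝ) (x : I → ℂ) :
    ‖∑ s, (W s : ℂ) * x s‖ ^ 2 = (∑ s, W s * (x s).re) ^ 2 + (∑ s, W s * (x s).im) ^ 2 := by
  rw [Complex.sq_norm, Complex.normSq_apply]
  simp [pow_two]

theorem cplx_le {I : Type*} [Fintype I] (T : Finset I) (Z : I → I → ℝ) (w : ℝ) {k R : ℝ}
    (x : I → ℂ)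
    (h1 : k * ∑ t ∈ T, (∑ s, Z t s * (x s).re) ^ 2 ≤ R * ∑ s, (x s).re ^ 2)
    (h2 : k * ∑ t ∈ T, (∑ s, Z t s * (x s).im) ^ 2 ≤ R * ∑ s, (x s).im ^ 2) :
    k * ∑ t ∈ T, ‖∑ s, ((w * Z t s : ℝ) : ℂ) * x s‖ ^ 2 ≤ w ^ 2 * R * ∑ s, ‖x s‖ ^ 2 := by
  have e1 : ∑ s, ‖x s‖ ^ 2 = ∑ s, (x s).re ^ 2 + ∑ s, (x s).im ^ 2 := by
    rw [← sum_add_distrib]
    exact sum_congr rfl (fun s _ => by rw [Complex.sq_norm, Complex.normSq_apply]; ring)
  simp only [cplx, mul_assoc, ← mul_sum, mul_pow, sum_add_distrib]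
  rw [e1]
  nlinarith [sq_nonneg w]

theorem sign_rows {H : Type*} {I : Type} [NormedAddCommGroup H] [InnerProductSpace ℂ H] [Fintype I]
    (Y : I → I → ℝ) (hY : ∀ t s, Y t s = 1 ∨ Y t s = -1) (T : Finset I) (u : I → H) :
    ∃ χ : I → ℝ, (∀ s, χ s = 1 ∨ χ s = -1) ∧
      T.card * ∑ s, ‖u s‖ ^ 2 ≤ ∑ t ∈ T, ‖∑ s, ((Y t s * χ s : ℝ) : ℂ) • u s‖ ^ 2 := by
  obtain ⟨r, h1, h2⟩ := exists_sign (univ : Finset I)
    (fun s s' => ∑ t ∈ T, Y t s * Y t s' * (⟪u s, u s'⟫_ℂ).re)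
  refine ⟨fun s => r s, fun s => by rcases h1 s with h | h <;> simp [h], ?_⟩
  have e1 : ∀ c : I → ℝ, ‖∑ s, (c s : ℂ) • u s‖ ^ 2 =
      ∑ s, ∑ s', c s * c s' * (⟪u s, u s'⟫_ℂ).re := fun c => by
    rw [← inner_self_eq_norm_sq (𝕜 := ℂ), sum_inner]
    simp only [inner_sum, inner_smul_left, inner_smul_right, Complex.conj_ofReal, map_sum]
    refine sum_congr rfl (fun s _ => sum_congr rfl (fun s' _ => ?_))
    simp; ring
  refine le_trans (le_of_eq ?_) (h2.trans (le_of_eq ?_))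
  · rw [mul_sum]
    refine sum_congr rfl (fun s _ => ?_)
    have : ∀ t ∈ T, Y t s * Y t s * (⟪u s, u s⟫_ℂ).re = ‖u s‖ ^ 2 := fun t _ => by
      rw [← inner_self_eq_norm_sq (𝕜 := ℂ)]
      rcases hY t s with h | h <;> simp [h]
    rw [sum_congr rfl this, sum_const, nsmul_eq_mul]
  · simp only [e1, mul_sum]
    conv_rhs => rw [sum_comm]
    refine sum_congr rfl (fun s _ => ?_)
    rw [sum_comm]
    exact sum_congr rfl (fun t _ => sum_congr rfl (fun s' _ => by ring))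

variable {Γ : Type} [Group Γ] {I : Type} [Fintype I]

/-- The test vectors. -/
noncomputable def ch {H : Type*} [NormedAddCommGroup H] [NormedSpace ℂ H] (π : Γ →* (H →L[ℂ] H))
    (γ : ℕ → I → Γ) (Z : ℕ → I → I → ℝ) (v : I → H) : ℕ → I → H
  | 0 => fun s => π (γ 0 s)⁻¹ (v s)
  | j + 1 => fun t => π (γ (j + 1) t)⁻¹ (∑ s, (Z j t s : ℂ) • ch π γ Z v j s)

theorem exists_chain {H : Type*} [NormedAddCommGroup H] [InnerProductSpace ℂ H]
    (π : Γ →* (H →L[ℂ] H)) (hπ : ∀ g v, ‖π g v‖ = ‖v‖) (γ : ℕ → I → Γ) (Y : I → I → ℝ)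
    (hY : ∀ t s, Y t s = 1 ∨ Y t s = -1) (T : ℕ → Finset I) (v : I → H) :
    ∃ χ : ℕ → I → ℝ, (∀ j s, χ j s = 1 ∨ χ j s = -1) ∧ ∀ j,
      (T (j + 1)).card * ∑ s, ‖ch π γ (fun j t s => Y t s * χ j s) v j s‖ ^ 2 ≤
        ∑ t ∈ T (j + 1), ‖ch π γ (fun j t s => Y t s * χ j s) v (j + 1) t‖ ^ 2 := by
  choose F f1 f2 using fun (j : ℕ) (u : I → H) => sign_rows Y hY (T (j + 1)) u
  let w : ℕ → I → H := fun j => Nat.rec (fun s => π (γ 0 s)⁻¹ (v s))
    (fun j u t => π (γ (j + 1) t)⁻¹ (∑ s, ((Y t s * F j u s : ℝ) : ℂ) • u s)) j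
  have e : ∀ j, ch π γ (fun j t s => Y t s * F j (w j) s) v j = w j := by
    intro j
    induction j with
    | zero => rfl
    | succ j ih => simp only [ch, ih]; rfl
  refine ⟨fun j => F j (w j), fun j => f1 j _, fun j => ?_⟩
  rw [e, e]
  refine (f2 j (w j)).trans (le_of_eq (sum_congr rfl (fun t _ => ?_)))
  exact (congrArg (· ^ 2) (hπ _ _)).symm

theorem exists_lam (Γ : Type) [Group Γ] (I : Type) :
    ∃ L : Γ →* (lp (fun _ : Γ × I => ℂ) 2 →L[ℂ] lp (fun _ : Γ × I => ℂ) 2),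
      (∀ g v, (L g v : Γ × I → ℂ) = tr g v) ∧ (∀ g u v, ⟪L g⁻¹ u, v⟫_ℂ = ⟪u, L g v⟫_ℂ) ∧
        ∀ g v, ‖L g v‖ = ‖v‖ := by
  obtain ⟨L, -, h⟩ := lift (Γ := Γ) (X := Γ × I)
    (fun g => ⟨⟨tr g, fun _ _ => rfl⟩, fun _ _ => rfl⟩) 1
    (fun f => by funext e; simp [tr]) (fun g h f => by funext e; simp [tr, mul_assoc])
    (fun g f => by simpa using (nn_tr g f).le)
  have h' : ∀ g v, (L g v : Γ × I → ℂ) = tr g v := h
  refine ⟨L, h', fun g u v => ?_, fun g v => ?_⟩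
  · rw [lp.inner_eq_tsum, lp.inner_eq_tsum, h', h',
      ← (Equiv.prodCongr (Equiv.mulLeft g⁻¹) (Equiv.refl I)).tsum_eq]
    exact tsum_congr (fun e => by simp [tr, Prod.map])
  · have := nn_lp (L g v)
    rw [h', nn_tr, nn_lp, ENNReal.ofReal_eq_ofReal_iff (by positivity) (by positivity)] at this
    exact (pow_left_inj₀ (norm_nonneg _) (norm_nonneg _) two_ne_zero).mp this.symm

/-- The uncut iterated step. -/
noncomputable def full (γ : ℕ → I → Γ) (Ω : ℕ → I → I → ℝ) (f : Γ × I → ℂ) : ℕ → Γ × I → ℂ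
  | 0 => f
  | j + 1 => nx (γ j) (Ω j) (full γ Ω f j)

theorem full_tr (γ : ℕ → I → Γ) (Ω : ℕ → I → I → ℝ) (f : Γ × I → ℂ) (g : Γ) (j : ℕ) :
    full γ Ω (tr g f) j = tr g (full γ Ω f j) := by
  induction j with
  | zero => rfl
  | succ j ih => simp only [full, ih, nx_tr]

theorem grn_full (γ : ℕ → I → Γ) (Ω : ℕ → I → I → ℝ) (U : ℕ → Γ × I → Prop)
    (h : ∀ j y t s, U (j + 1) (y, t) → U j (y * (γ j s)⁻¹, s)) (f : Γ × I → ℂ) (j : ℕ) :
    ∀ e, U j e → grn γ Ω U j (Pi.single 0 f) e = full γ Ω f j e := by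
  induction j with
  | zero => intro e _; simp [grn_zero, full]
  | succ j ih =>
    rintro ⟨y, t⟩ e
    rw [grn_succ, Pi.single_eq_of_ne (Nat.succ_ne_zero j), zero_add, st_apply, if_pos e, full,
      nx_apply, nx_apply]
    exact sum_congr rfl (fun s _ => by rw [ih _ (h _ _ _ s e)])

theorem full_pair {L : Γ →* (lp (fun _ : Γ × I => ℂ) 2 →L[ℂ] lp (fun _ : Γ × I => ℂ) 2)}
    (l1 : ∀ g v, (L g v : Γ × I → ℂ) = tr g v) (l2 : ∀ g u v, ⟪L g⁻¹ u, v⟫_ℂ = ⟪u, L g v⟫_ℂ)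
    (γ : ℕ → I → Γ) (Z : ℕ → I → I → ℝ) (w : ℝ) (P : I → Prop) (j : ℕ) :
    ∀ (t : I) (f : lp (fun _ : Γ × I => ℂ) 2), (∀ x s, P s → f (x, s) = 0) →
      full γ (fun j t s => w * Z j t s) f j ((γ j t)⁻¹, t) = (w : ℂ) ^ j *
        ⟪ch L γ Z (fun s => if P s then 0 else lp.single 2 (1, s) 1) j t, f⟫_ℂ := by
  induction j with
  | zero =>
    intro t f hf
    simp only [full, ch, l2, pow_zero, one_mul]
    split_ifs with c
    · rw [hf _ _ c, inner_zero_left]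
    · simp [lp.inner_single_left, l1, tr]
  | succ j ih =>
    intro t f hf
    simp only [full, ch, l2, nx_apply, sum_inner, inner_smul_left, Complex.conj_ofReal, mul_sum]
    refine sum_congr rfl (fun s _ => ?_)
    have := ih s (L (γ (j + 1) t) f) (fun x s' c => by rw [l1]; exact hf _ _ c)
    rw [l1, full_tr] at this
    simp only [tr] at this
    rw [this]
    push_cast
    ring

theorem ch_supp {L : Γ →* (lp (fun _ : Γ × I => ℂ) 2 →L[ℂ] lp (fun _ : Γ × I => ℂ) 2)}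
    (l1 : ∀ g v, (L g v : Γ × I → ℂ) = tr g v) (γ : ℕ → I → Γ) (Z : ℕ → I → I → ℝ) (P : I → Prop)
    (j : ℕ) : ∀ t x s, P s →
      ch L γ Z (fun s => if P s then 0 else lp.single 2 (1, s) 1) j t (x, s) = 0 := by
  induction j with
  | zero =>
    intro t x s c
    simp only [ch, l1, tr]
    split_ifs with d
    · rfl
    · exact lp.single_apply_ne _ _ _ (fun e => d ((Prod.mk.inj e).2 ▸ c))
  | succ j ih =>
    intro t x s c
    simp only [ch, l1, tr, lp.coeFn_sum, Finset.sum_apply, lp.coeFn_smul, Pi.smul_apply]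
    exact sum_eq_zero (fun s' _ => by rw [ih _ _ _ c, smul_zero])

theorem ch_grn {L : Γ →* (lp (fun _ : Γ × I => ℂ) 2 →L[ℂ] lp (fun _ : Γ × I => ℂ) 2)}
    (l1 : ∀ g v, (L g v : Γ × I → ℂ) = tr g v) (γ : ℕ → I → Γ) (Z Ω : ℕ → I → I → ℝ)
    (U : ℕ → Γ × I → Prop) (h : ∀ j y t s, U (j + 1) (y, t) → U j (y * (γ j s)⁻¹, s))
    {X : Type} (π : Γ →* (lp (fun _ : X => ℂ) 2 →L[ℂ] lp (fun _ : X => ℂ) 2))
    (ι : ℕ → Γ × I → X) (hι : ∀ j e j' e', ι j e = ι j' e' → j = j' ∧ e = e')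
    (hπ : ∀ g v, (fun j e => π g v (ι j e)) = rep γ Ω U g (fun j e => v (ι j e))) (j : ℕ) :
    ∀ t, (fun i e => ch π γ Z (fun s => if U 0 (1, s) then 0 else lp.single 2 (ι 0 (1, s)) 1) j t
      (ι i e)) = fun i => grn γ Ω U i (Pi.single 0
        ⇑(ch L γ Z (fun s => if U 0 (1, s) then 0 else lp.single 2 (1, s) 1) j t)) := by
  have key : ∀ (g : Γ) (v : lp (fun _ : X => ℂ) 2) (u : lp (fun _ : Γ × I => ℂ) 2),
      (fun i e => v (ι i e)) = (fun i => grn γ Ω U i (Pi.single 0 u)) →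
      (fun i e => π g v (ι i e)) = fun i => grn γ Ω U i (Pi.single 0 (L g u)) := by
    intro g v u e
    rw [hπ, e]
    funext i
    rw [rep_grn, l1]
    congr 1
    funext k
    by_cases c : k = 0
    · subst c; simp
    · simp only [Pi.single_eq_of_ne c]; rfl
  induction j with
  | zero =>
    intro t
    refine key _ _ _ ?_
    by_cases c : U 0 (1, t)
    · simp only [if_pos c]
      funext i e
      rw [show (Pi.single 0 ⇑(0 : lp (fun _ : Γ × I => ℂ) 2) : ℕ → Γ × I → ℂ) = 0 from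
        Pi.single_zero 0, map_zero]
      rfl
    · simp only [if_neg c]
      funext i
      induction i with
      | zero =>
        funext e
        simp only [grn_zero, Pi.single_eq_same]
        by_cases d : e = (1, t)
        · subst d; simp
        · rw [lp.single_apply_ne _ _ _ d, lp.single_apply_ne _ _ _ (fun e' => d (hι _ _ _ _ e').2)]
      | succ i ih =>
        funext e
        rw [lp.single_apply_ne _ _ _ (fun e' => Nat.succ_ne_zero i (hι _ _ _ _ e').1), grn_succ,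
          Pi.single_eq_of_ne (Nat.succ_ne_zero i), zero_add, st_apply, ← ih]
        split_ifs with d
        · rw [nx_apply]
          refine (sum_eq_zero (fun s _ => ?_)).symm
          rw [lp.single_apply_ne, mul_zero]
          intro e'
          obtain ⟨rfl, e2⟩ := hι _ _ _ _ e'
          exact c (e2 ▸ h 0 e.1 e.2 s d)
        · rfl
  | succ j ih =>
    intro t
    refine key _ _ _ ?_
    funext i e
    have e1 : ∀ (c : I → ℂ) (u : I → lp (fun _ : Γ × I => ℂ) 2),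
        (Pi.single 0 (∑ s, c s • u s : lp (fun _ : Γ × I => ℂ) 2) : ℕ → Γ × I → ℂ) =
          ∑ s, c s • (Pi.single 0 (u s) : ℕ → Γ × I → ℂ) := fun c u => by
      funext k
      by_cases d : k = 0
      · subst d
        funext e
        simp only [Pi.single_eq_same, lp.coeFn_sum, Finset.sum_apply, lp.coeFn_smul, Pi.smul_apply]
      · simp [Pi.single_eq_of_ne d]
    rw [e1, map_sum]
    simp only [lp.coeFn_sum, Finset.sum_apply, lp.coeFn_smul, Pi.smul_apply, map_smul]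
    exact sum_congr rfl (fun s _ => by rw [congrFun (congrFun (ih s) i) e])

end Pool.Agent.Lib.MP_040728_al.Dix
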