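import Mathlib

set_option autoImplicit false

namespace Pool.Agent.Lib.MP_040728_al.Dix

open Finset
open scoped Classical

variable {E : Type*} [AddCommGroup E] [Module ℝ E] [TopologicalSpace E] [T2Space E]
  [IsTopologicalAddGroup E] [ContinuousSMul ℝ E] [LocallyConvexSpace ℝ E]

/-- Compact convex subsets of `K` that miss `b`. -/
def Sm (K : Set E) (b : E) (C : Set E) : Prop := IsCompact C ∧ Convex ℝ C ∧ C ⊆ K \ {b}

omit [T2Space E] [LocallyConvexSpace ℝ E] in
theorem Sm.union {K A B : Set E} {b : E} (hb : Convex ℝ (K \ {b})) (hA : Sm K b A)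
    (hB : Sm K b B) : ∃ C, Sm K b C ∧ A ⊆ C ∧ B ⊆ C := by
  rcases A.eq_empty_or_nonempty with rfl | nA
  · exact ⟨B, hB, Set.empty_subset _, subset_rfl⟩
  rcases B.eq_empty_or_nonempty with rfl | nB
  · exact ⟨A, hA, subset_rfl, Set.empty_subset _⟩
  refine ⟨convexJoin ℝ A B, ⟨?_, hA.2.1.convexJoin hB.2.1,
    convexJoin_subset hA.2.2 hB.2.2 hb⟩, subset_convexJoin_left nB, subset_convexJoin_right nA⟩
  have e : convexJoin ℝ A B = (fun z : ℝ × E × E => (1 - z.1) • z.2.1 + z.1 • z.2.2) ''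
      (Set.Icc (0 : ℝ) 1 ×ˢ A ×ˢ B) := by
    ext x
    simp only [mem_convexJoin, segment_eq_image, Set.mem_image, Set.mem_prod, Prod.exists]
    constructor
    · rintro ⟨a, ha, c, hc, t, ht, rfl⟩
      exact ⟨t, a, c, ⟨ht, ha, hc⟩, rfl⟩
    · rintro ⟨t, a, c, ⟨ht, ha, hc⟩, rfl⟩
      exact ⟨a, ha, c, hc, t, ht, rfl⟩
  rw [e]
  exact (isCompact_Icc.prod (hA.1.prod hB.1)).image (by fun_prop)

omit [T2Space E] [LocallyConvexSpace ℝ E] in
theorem Sm.finite {K : Set E} {b : E} (hb : Convex ℝ (K \ {b})) {ι : Type*} (s : Finset ι)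
    (A : ι → Set E) (h : ∀ i, Sm K b (A i)) : ∃ C, Sm K b C ∧ ∀ i ∈ s, A i ⊆ C := by
  induction s using Finset.induction_on with
  | empty => exact ⟨∅, ⟨isCompact_empty, convex_empty, Set.empty_subset _⟩, by simp⟩
  | insert a s _ ih =>
    obtain ⟨C, h1, h2⟩ := ih
    obtain ⟨D, h3, h4, h5⟩ := Sm.union hb h1 (h a)
    refine ⟨D, h3, fun i hi => ?_⟩
    rcases mem_insert.mp hi with rfl | hi
    · exact h5
    · exact (h2 i hi).trans h4

/-- A linear action with a minimal compact convex invariant set. -/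
structure Act {Γ : Type} [Group Γ] (ρ : Γ → E →L[ℝ] E) (K : Set E) : Prop where
  one : ∀ x, ρ 1 x = x
  mul : ∀ g h x, ρ (g * h) x = ρ g (ρ h x)
  cpt : IsCompact K
  cvx : Convex ℝ K
  inv : ∀ g x, x ∈ K → ρ g x ∈ K
  min : ∀ L : Set E, L ⊆ K → L.Nonempty → IsClosed L → Convex ℝ L →
    (∀ g x, x ∈ L → ρ g x ∈ L) → K ⊆ L

variable {Γ : Type} [Group Γ] {ρ : Γ → E →L[ℝ] E} {K : Set E}

theorem weights (h : Act ρ K) {b : E} (hbK : b ∈ K) (hb : Convex ℝ (K \ {b})) {C : Set E}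
    (hC : Sm K b C) {l : ℝ} (l0 : 0 < l) (l1 : l < 1) :
    ∃ (t : Finset Γ) (θ : t → ℝ), (∀ i, 0 ≤ θ i) ∧ 0 < ∑ i, θ i ∧
      ∀ κ ∈ K, ∑ i ∈ univ.filter (fun i : t => ρ i κ ∈ C), θ i ≤ l * ∑ i, θ i := by
  let J : E × E →L[ℝ] E := l • ContinuousLinearMap.fst ℝ E E + (1 - l) • ContinuousLinearMap.snd ℝ E E
  have Je : ∀ c k, J (c, k) = l • c + (1 - l) • k := fun c k => rfl
  obtain ⟨φ, u, p1, p2⟩ := geometric_hahn_banach_closed_point (s := J '' (C ×ˢ K)) (x := b)
    ((hC.2.1.prod h.cvx).linear_image J.toLinearMap)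
    ((hC.1.prod h.cpt).image J.continuous).isClosed (by
      rintro ⟨⟨c, k⟩, ⟨hc, hk⟩, e⟩
      rw [Je] at e
      by_cases hkb : k = b
      · subst hkb
        have : l • c = l • k := by
          rw [← sub_eq_zero] at e ⊢
          rw [← e]; module
        exact (hC.2.2 hc).2 (smul_right_injective E l0.ne' this)
      · exact (hb (hC.2.2 hc) ⟨hk, hkb⟩ l0.le (by linarith) (by ring)).2 e)
  obtain ⟨k0, hk0, hM⟩ := h.cpt.exists_isMaxOn ⟨b, hbK⟩ φ.continuous.continuousOn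
  have q1 : ∀ c ∈ C, l * φ c + (1 - l) * φ k0 < u := fun c hc => by
    have := p1 _ ⟨(c, k0), ⟨hc, hk0⟩, rfl⟩
    simpa [Je] using this
  have q2 : u < φ k0 := p2.trans_le (hM hbK)
  have cov : ∀ κ ∈ K, ∃ g, u < φ (ρ g κ) := by
    intro κ hκ
    by_contra hn
    push Not at hn
    have := h.min {x | x ∈ K ∧ ∀ g, φ (ρ g x) ≤ u} (fun x hx => hx.1) ⟨κ, hκ, hn⟩ (by
        have e : {x | x ∈ K ∧ ∀ g, φ (ρ g x) ≤ u} = K ∩ ⋂ g, {x | φ (ρ g x) ≤ u} := by
          ext x; simp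
        rw [e]
        exact h.cpt.isClosed.inter (isClosed_iInter fun g => isClosed_le (by fun_prop) (by fun_prop)))
      (fun x hx y hy a c a0 c0 ac => ⟨h.cvx hx.1 hy.1 a0 c0 ac, fun g => by
        simp only [map_add, map_smul, smul_eq_mul]
        have := mul_le_mul_of_nonneg_left (hx.2 g) a0
        have := mul_le_mul_of_nonneg_left (hy.2 g) c0
        have : a * u + c * u = u := by rw [← add_mul, ac, one_mul]
        linarith⟩)
      (fun g x hx => ⟨h.inv g x hx.1, fun g' => by rw [← h.mul]; exact hx.2 _⟩) hbK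
    have := this.2 1
    rw [h.one] at this
    linarith
  obtain ⟨t, ht⟩ := h.cpt.elim_finite_subcover (fun g => {x | u < φ (ρ g x)})
    (fun g => isOpen_lt (by fun_prop) (by fun_prop)) (fun κ hκ => by simpa using cov κ hκ)
  let T : E →L[ℝ] (t → ℝ) := ContinuousLinearMap.pi (fun i => φ.comp (ρ i))
  have Te : ∀ x i, T x i = φ (ρ i x) := fun x i => rfl
  obtain ⟨ψ, u1, u2, r1, r2, r3⟩ := geometric_hahn_banach_closed_compact
    (s := {v : t → ℝ | ∀ i, v i ≤ u}) (t := T '' K)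
    (fun x hx y hy a c a0 c0 ac i => by
      simp only [Pi.add_apply, Pi.smul_apply, smul_eq_mul]
      have := mul_le_mul_of_nonneg_left (hx i) a0
      have := mul_le_mul_of_nonneg_left (hy i) c0
      have : a * u + c * u = u := by rw [← add_mul, ac, one_mul]
      linarith)
    (by
      have e : {v : t → ℝ | ∀ i, v i ≤ u} = ⋂ i, {v | v i ≤ u} := by ext x; simp
      rw [e]
      exact isClosed_iInter fun g => isClosed_le (by fun_prop) (by fun_prop))
    (h.cvx.linear_image T.toLinearMap) (h.cpt.image T.continuous) (by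
      rw [Set.disjoint_right]
      rintro _ ⟨κ, hκ, rfl⟩ hv
      have := ht hκ
      simp only [Set.mem_iUnion, Set.mem_ofPred_eq] at this
      obtain ⟨g, hg, e⟩ := this
      exact absurd (hv ⟨g, hg⟩) (not_le.mpr e))
  let θ : t → ℝ := fun i => ψ (Pi.single i 1)
  have ψe : ∀ v : t → ℝ, ψ v = ∑ i, θ i * v i := fun v => by
    conv_lhs => rw [← Finset.univ_sum_single v, map_sum]
    refine sum_congr rfl (fun i _ => ?_)
    rw [show (Pi.single i (v i) : t → ℝ) = v i • (Pi.single i 1 : t → ℝ) by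
      rw [← Pi.single_smul, smul_eq_mul, mul_one], map_smul, smul_eq_mul, mul_comm]
  have θ0 : ∀ i, 0 ≤ θ i := by
    intro i
    by_contra hn
    push Not at hn
    set s := (|u1 - ψ (fun _ => u)| + 1) / (-θ i) with hs
    have s0 : 0 ≤ s := div_nonneg (by positivity) (by linarith)
    have a1 := r1 ((fun _ => u) - s • (Pi.single i 1 : t → ℝ)) (fun j => by
      simp only [Pi.sub_apply, Pi.smul_apply, smul_eq_mul]
      have : 0 ≤ (Pi.single i 1 : t → ℝ) j := by
        rw [Pi.single_apply]; split_ifs <;> norm_num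
      nlinarith)
    rw [map_sub, map_smul, smul_eq_mul] at a1
    have a2 : s * (-θ i) = |u1 - ψ (fun _ => u)| + 1 := div_mul_cancel₀ _ (by linarith)
    have a3 := le_abs_self (u1 - ψ (fun _ => u))
    change ψ (fun _ => u) - s * θ i < u1 at a1
    linarith
  have s1 : ∀ κ ∈ K, u * ∑ i, θ i < ∑ i, θ i * φ (ρ i κ) := fun κ hκ => by
    have a1 := r1 (fun _ => u) (fun _ => le_rfl)
    have a2 := r3 _ ⟨κ, hκ, rfl⟩
    rw [ψe] at a1 a2
    rw [← sum_mul] at a1
    simp only [Te] at a2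
    linarith
  have Θ0 : 0 < ∑ i, θ i := by
    refine lt_of_le_of_ne (sum_nonneg fun i _ => θ0 i) (fun e => ?_)
    have a1 := (sum_eq_zero_iff_of_nonneg (fun i _ => θ0 i)).mp e.symm
    have a2 := s1 b hbK
    rw [← e, sum_eq_zero (fun i hi => by rw [a1 i hi, zero_mul])] at a2
    simp at a2
  refine ⟨t, θ, θ0, Θ0, fun κ hκ => ?_⟩
  have a1 : l * ∑ i, θ i * φ (ρ i κ) ≤ l * φ k0 * ∑ i, θ i -
      (φ k0 - u) * ∑ i ∈ univ.filter (fun i : t => ρ i κ ∈ C), θ i := by
    rw [sum_filter, mul_sum, mul_sum, mul_sum, ← sum_sub_distrib]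
    refine sum_le_sum (fun i _ => ?_)
    split_ifs with c
    · nlinarith [q1 _ c, θ0 i]
    · have : φ (ρ i κ) ≤ φ k0 := hM (h.inv _ _ hκ)
      nlinarith [mul_nonneg l0.le (θ0 i)]
  have a2 := mul_lt_mul_of_pos_left (s1 κ hκ) l0
  refine le_of_mul_le_mul_left ?_ (sub_pos.mpr q2)
  nlinarith

theorem push (h : Act ρ K) {b : E} (hbK : b ∈ K) (hb : Convex ℝ (K \ {b})) {C : Set E}
    (hC : Sm K b C) {l : ℝ} (l0 : 0 < l) :
    ∃ (ι : Type) (_ : Fintype ι) (_ : Nonempty ι) (g : ι → Γ),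
      ∀ κ ∈ K, ((univ.filter (fun i => ρ (g i) κ ∈ C)).card : ℝ) ≤ l * Fintype.card ι := by
  set l' := min (l / 2) (1 / 2) with hl'
  have m0 : 0 < l' := lt_min (by linarith) (by norm_num)
  have m1 : l' ≤ l / 2 := min_le_left _ _
  obtain ⟨t, θ, θ0, Θ0, hθ⟩ := weights h hbK hb hC m0 ((min_le_right _ _).trans_lt (by norm_num))
  set Θ := ∑ i, θ i with hΘ
  set N : ℝ := (Fintype.card t + 1) / l' with hN
  have N0 : 0 < N := by positivity
  have N1 : l' * N = Fintype.card t + 1 := mul_div_cancel₀ _ m0.ne'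
  let n : t → ℕ := fun i => ⌈θ i * (N / Θ)⌉₊
  have c1 : N ≤ (Fintype.card (Σ i : t, Fin (n i)) : ℝ) := by
    rw [Fintype.card_sigma]
    simp only [Fintype.card_fin]
    push_cast
    refine le_trans (le_of_eq ?_) (sum_le_sum (fun i _ => Nat.le_ceil _))
    rw [← sum_mul, ← hΘ, mul_div_cancel₀ _ Θ0.ne']
  refine ⟨Σ i : t, Fin (n i), inferInstance, ?_, fun z => z.1, fun κ hκ => ?_⟩
  · rw [← Fintype.card_pos_iff]
    exact_mod_cast N0.trans_le c1
  · have a1 : ((univ.filter (fun z : Σ i : t, Fin (n i) => ρ z.1 κ ∈ C)).card : ℝ) =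
        ∑ i ∈ univ.filter (fun i : t => ρ i κ ∈ C), (n i : ℝ) := by
      rw [card_filter, sum_filter, ← univ_sigma_univ, sum_sigma]
      push_cast
      refine sum_congr rfl (fun i _ => ?_)
      split_ifs <;> simp
    have a2 : ∑ i ∈ univ.filter (fun i : t => ρ i κ ∈ C), (n i : ℝ) ≤
        ∑ i ∈ univ.filter (fun i : t => ρ i κ ∈ C), (θ i * (N / Θ) + 1) :=
      sum_le_sum (fun i _ => (Nat.ceil_lt_add_one (mul_nonneg (θ0 i) (by positivity))).le)
    rw [sum_add_distrib, ← sum_mul, sum_const, nsmul_eq_mul, mul_one] at a2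
    have a3 : ((univ.filter (fun i : t => ρ i κ ∈ C)).card : ℝ) ≤ Fintype.card t := by
      exact_mod_cast card_le_univ _
    have a4 := mul_le_mul_of_nonneg_right (hθ κ hκ) (by positivity : 0 ≤ N / Θ)
    have a5 : l' * Θ * (N / Θ) = l' * N := by field_simp
    rw [a1]
    nlinarith

theorem push' (h : Act ρ K) {b : E} (hbK : b ∈ K) (hb : Convex ℝ (K \ {b})) {C : Set E}
    (hC : Sm K b C) {l : ℝ} (l0 : 0 < l) {A : Type} [Fintype A] (q : A → E) (hq : ∀ a, q a ∈ K) :
    ∃ (ι : Type) (_ : Fintype ι) (_ : Nonempty ι) (g : ι → Γ), (∀ i a, ρ (g i) (q a) ∉ C) ∧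
      ∀ κ ∈ K, ((univ.filter (fun i => ρ (g i) κ ∈ C)).card : ℝ) ≤ l * Fintype.card ι := by
  set a : ℝ := (Fintype.card A : ℝ) with ha
  have a0 : 0 ≤ a := Nat.cast_nonneg _
  set l' := l / (1 + l * a) with hl'
  have m0 : 0 < l' := by positivity
  have m1 : l' * (1 + l * a) = l := div_mul_cancel₀ _ (by positivity)
  obtain ⟨ι, _, _, g, hg⟩ := push h hbK hb hC m0
  have n0 : (0 : ℝ) < Fintype.card ι := by exact_mod_cast Fintype.card_pos
  let P : ι → Prop := fun i => ∀ a, ρ (g i) (q a) ∉ C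
  have c1 : ((univ.filter (fun i => ¬ P i)).card : ℝ) ≤ a * (l' * Fintype.card ι) := by
    have a1 : univ.filter (fun i => ¬ P i) ⊆
        univ.biUnion (fun x : A => univ.filter (fun i => ρ (g i) (q x) ∈ C)) := by
      intro i hi
      simp only [P, mem_filter, mem_univ, true_and, not_forall, not_not] at hi
      simpa using hi
    have a2 : ((univ.filter (fun i => ¬ P i)).card : ℝ) ≤
        ∑ x : A, ((univ.filter (fun i => ρ (g i) (q x) ∈ C)).card : ℝ) := by
      exact_mod_cast (card_le_card a1).trans card_biUnion_le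
    refine a2.trans ((sum_le_sum (fun x _ => hg _ (hq x))).trans (le_of_eq ?_))
    rw [sum_const, nsmul_eq_mul, card_univ]
  have c2 : (Fintype.card {i // P i} : ℝ) + (univ.filter (fun i => ¬ P i)).card = Fintype.card ι := by
    rw [Fintype.card_subtype]
    exact_mod_cast card_filter_add_card_filter_not P
  have c3 : l' * Fintype.card ι ≤ l * Fintype.card {i // P i} := by nlinarith
  refine ⟨{i // P i}, inferInstance, ?_, fun i => g i.1, fun i => i.2, fun κ hκ => ?_⟩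
  · rw [← Fintype.card_pos_iff]
    have : (0 : ℝ) < Fintype.card {i // P i} := by
      by_contra hn
      nlinarith [mul_pos m0 n0]
    exact_mod_cast this
  · refine le_trans ?_ ((hg κ hκ).trans c3)
    exact_mod_cast card_le_card_of_injOn (fun i : {i // P i} => i.1) (fun i hi => by simpa using hi)
      (fun i _ j _ e => Subtype.ext e)

end Pool.Agent.Lib.MP_040728_al.Dix
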