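import Mathlib
import Pool.Agent.Lib.MP_040728_al.DPush

set_option autoImplicit false

namespace Pool.Agent.Lib.MP_040728_al.Dix

open Finset
open scoped Classical

/-- Levelled edge sets with few `U` edges leaving and few other edges entering each vertex, in
which every edge before a `U` edge is a `U` edge. -/
def Lev (Γ : Type) [Group Γ] (δ : ℝ) (m : ℕ) : Prop :=
  ∃ (I : Type) (_ : Fintype I) (_ : Nonempty I) (γ : ℕ → I → Γ) (U : ℕ → Γ × I → Prop),
    (∀ j x, ((univ.filter (fun s => U j (x, s))).card : ℝ) ≤ δ * Fintype.card I) ∧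
    (∀ j ≤ m, ∀ y, ((univ.filter (fun s => ¬ U j (y * (γ j s)⁻¹, s))).card : ℝ) ≤
      δ * Fintype.card I) ∧
    (∀ j y t s, U (j + 1) (y, t) → U j (y * (γ j s)⁻¹, s))

theorem cnt_fst {A B : Type} [Fintype A] [Fintype B] (P : A → Prop) (Q : A × B → Prop) {δ : ℝ}
    {_ : DecidablePred P} {_ : DecidablePred Q}
    (h : ((univ.filter P).card : ℝ) ≤ δ * Fintype.card A) (hQ : ∀ a c, Q (a, c) → P a) :
    ((univ.filter Q).card : ℝ) ≤ δ * Fintype.card (A × B) := by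
  have a1 : univ.filter Q ⊆ (univ.filter P) ×ˢ (univ : Finset B) := fun z hz => by
    simpa using hQ z.1 z.2 (mem_filter.mp hz).2
  have a2 : ((univ.filter Q).card : ℝ) ≤ (univ.filter P).card * Fintype.card B := by
    have := card_le_card a1
    rw [card_product, card_univ] at this
    exact_mod_cast this
  rw [Fintype.card_prod, Nat.cast_mul, ← mul_assoc]
  exact a2.trans (mul_le_mul_of_nonneg_right h (Nat.cast_nonneg _))

theorem cnt_snd {A B : Type} [Fintype A] [Fintype B] (P : B → Prop) (Q : A × B → Prop) {δ : ℝ}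
    {_ : DecidablePred P} {_ : DecidablePred Q}
    (h : ((univ.filter P).card : ℝ) ≤ δ * Fintype.card B) (hQ : ∀ a c, Q (a, c) → P c) :
    ((univ.filter Q).card : ℝ) ≤ δ * Fintype.card (A × B) := by
  have a1 : univ.filter Q ⊆ (univ : Finset A) ×ˢ (univ.filter P) := fun z hz => by
    simpa using hQ z.1 z.2 (mem_filter.mp hz).2
  have a2 : ((univ.filter Q).card : ℝ) ≤ Fintype.card A * (univ.filter P).card := by
    have := card_le_card a1
    rw [card_product, card_univ] at this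
    exact_mod_cast this
  rw [Fintype.card_prod, Nat.cast_mul, mul_left_comm]
  exact a2.trans (mul_le_mul_of_nonneg_left h (Nat.cast_nonneg _))

variable {E : Type*} [AddCommGroup E] [Module ℝ E] [TopologicalSpace E] [T2Space E]
  [IsTopologicalAddGroup E] [ContinuousSMul ℝ E] [LocallyConvexSpace ℝ E]
  {Γ : Type} [Group Γ] {ρ : Γ → E →L[ℝ] E} {K : Set E}

theorem chain (h : Act ρ K) {b : E} (hbK : b ∈ K) (hb : Convex ℝ (K \ {b})) {Q : Set E}
    (hQ : Sm K b Q) {δ : ℝ} (δ0 : 0 < δ) {L : Type} [Fintype L] (a : L → Γ) (k : ℕ) :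
    ∃ (J : Type) (_ : Fintype J) (_ : Nonempty J) (β : ℕ → J → Γ) (C : ℕ → Set E),
      (∀ j ≤ k, Sm K b (C j) ∧ Q ⊆ C j) ∧ ∀ j < k,
        (∀ κ ∈ K, ((univ.filter (fun l => ρ (β j l) κ ∈ C j)).card : ℝ) ≤ δ * Fintype.card J) ∧
        ∀ l i, ∀ κ ∈ K, ρ (β j l) κ ∈ C j → ρ (a i) κ ∈ C (j + 1) := by
  induction k with
  | zero => exact ⟨Unit, inferInstance, inferInstance, fun _ _ => 1, fun _ => Q,
      fun _ _ => ⟨hQ, subset_rfl⟩, fun j hj => absurd hj (Nat.not_lt_zero _)⟩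
  | succ k ih =>
    obtain ⟨J, _, _, β, C, h1, h2⟩ := ih
    have hk := (h1 k le_rfl).1
    obtain ⟨ι, _, _, g, g1, g2⟩ := push' h hbK hb hk δ0 (fun i => ρ (a i)⁻¹ b)
      (fun i => h.inv _ _ hbK)
    obtain ⟨D, d1, d2⟩ := Sm.finite hb (univ : Finset (ι × L))
      (fun z => K ∩ (ρ (g z.1 * (a z.2)⁻¹)) ⁻¹' (C k)) (fun z =>
        ⟨h.cpt.inter_right (hk.1.isClosed.preimage (ρ _).continuous),
          h.cvx.inter (hk.2.1.linear_preimage (ρ _).toLinearMap), fun x hx => ⟨hx.1, fun e => by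
            have := hx.2
            rw [Set.mem_singleton_iff.mp e, Set.mem_preimage, h.mul] at this
            exact g1 _ _ this⟩⟩)
    obtain ⟨D', d3, d4, d5⟩ := Sm.union hb d1 hQ
    refine ⟨J × ι, inferInstance, inferInstance, fun j z => if j < k then β j z.1 else g z.2,
      fun j => if j ≤ k then C j else D', fun j hj => ?_, fun j hj => ?_⟩
    · by_cases c : j ≤ k
      · simpa only [if_pos c] using h1 j c
      · simpa only [if_neg c] using And.intro d3 d5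
    · by_cases c : j < k
      · simp only [if_pos c, if_pos c.le, if_pos (Nat.succ_le_of_lt c)]
        exact ⟨fun κ hκ => cnt_fst _ _ ((h2 j c).1 κ hκ) (fun _ _ e => e),
          fun l i κ hκ => (h2 j c).2 l.1 i κ hκ⟩
      · obtain rfl : j = k := by omega
        simp only [if_neg c, if_pos (le_refl j), if_neg (Nat.not_succ_le_self j)]
        refine ⟨fun κ hκ => cnt_snd _ _ (g2 κ hκ) (fun _ _ e => e), fun l i κ hκ e => ?_⟩
        refine d4 (d2 (l.2, i) (mem_univ _) ⟨h.inv _ _ hκ, ?_⟩)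
        rw [Set.mem_preimage, ← h.mul, inv_mul_cancel_right]
        exact e

theorem levels (h : Act ρ K) (hne : K.Nonempty) (nf : ∀ x ∈ K, ∃ g, ρ g x ≠ x) {δ : ℝ}
    (δ0 : 0 < δ) (m : ℕ) : Lev Γ δ m := by
  obtain ⟨b, hb0⟩ := h.cpt.extremePoints_nonempty hne
  obtain ⟨hbK, hb⟩ := h.cvx.mem_extremePoints_iff_convex_sdiff.mp hb0
  obtain ⟨g0, hg0⟩ := nf b hbK
  have hb1 : Convex ℝ (K \ {ρ g0 b}) := by
    intro x hx y hy s t s0 t0 st
    refine ⟨h.cvx hx.1 hy.1 s0 t0 st, fun e => ?_⟩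
    have c : ∀ z ∈ K \ {ρ g0 b}, ρ g0⁻¹ z ∈ K \ {b} := fun z hz => ⟨h.inv _ _ hz.1, fun e' => hz.2 (by
      rw [Set.mem_singleton_iff] at e' ⊢
      rw [← e', ← h.mul, mul_inv_cancel, h.one])⟩
    refine (hb (c x hx) (c y hy) s0 t0 st).2 ?_
    rw [Set.mem_singleton_iff] at e ⊢
    rw [← map_smul, ← map_smul, ← map_add, e, ← h.mul, inv_mul_cancel, h.one]
  obtain ⟨φ, hφ⟩ := geometric_hahn_banach_point_point hg0.symm
  set α := (φ b + φ (ρ g0 b)) / 2 with hα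
  have hQ : Sm K b (K ∩ φ ⁻¹' Set.Ici α) :=
    ⟨h.cpt.inter_right (isClosed_Ici.preimage φ.continuous),
      h.cvx.inter ((convex_Ici α).linear_preimage φ.toLinearMap), fun x hx => ⟨hx.1, fun e => by
        have := hx.2
        rw [Set.mem_singleton_iff.mp e, Set.mem_preimage, Set.mem_Ici] at this
        linarith⟩⟩
  have hQ' : Sm K (ρ g0 b) (K ∩ φ ⁻¹' Set.Iic α) :=
    ⟨h.cpt.inter_right (isClosed_Iic.preimage φ.continuous),
      h.cvx.inter ((convex_Iic α).linear_preimage φ.toLinearMap), fun x hx => ⟨hx.1, fun e => by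
        have := hx.2
        rw [Set.mem_singleton_iff.mp e, Set.mem_preimage, Set.mem_Iic] at this
        linarith⟩⟩
  obtain ⟨L, _, _, a, ha⟩ := push h (h.inv g0 b hbK) hb1 hQ' δ0
  obtain ⟨J, _, _, β, C, h1, h2⟩ := chain h hbK hb hQ δ0 a (m + 1)
  have e1 : ∀ j y (s : L × J), ρ (a s.1) (ρ (y * ((a s.1)⁻¹ * β j s.2)⁻¹)⁻¹ b) =
      ρ (β j s.2) (ρ y⁻¹ b) := fun j y s => by
    rw [← h.mul, ← h.mul]
    congr 2
    group
  refine ⟨L × J, inferInstance, inferInstance, fun j s => (a s.1)⁻¹ * β j s.2,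
    fun j e => j ≤ m ∧ ρ (a e.2.1) (ρ e.1⁻¹ b) ∉ C j, fun j x => ?_, fun j hj y => ?_,
    fun j y t s e => ⟨by omega, fun c => e.2 ?_⟩⟩
  · refine cnt_fst _ _ (ha _ (h.inv x⁻¹ b hbK)) (fun i l e => ⟨h.inv _ _ (h.inv _ _ hbK), ?_⟩)
    by_contra c
    rw [Set.mem_preimage, Set.mem_Iic, not_le] at c
    exact e.2 ((h1 j (by have := e.1; omega)).2 ⟨h.inv _ _ (h.inv _ _ hbK), c.le⟩)
  · refine cnt_snd _ _ ((h2 j (by omega)).1 _ (h.inv y⁻¹ b hbK)) (fun i l e => ?_)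
    by_contra c
    refine e ⟨hj, ?_⟩
    rw [e1 j y (i, l)]
    exact c
  · rw [e1] at c
    exact (h2 j (by omega)).2 _ _ _ (h.inv y⁻¹ b hbK) c

/-- Bounded real functions. -/
def Bd (Γ : Type) : Submodule ℝ (Γ → ℝ) where
  carrier := {f | ∃ B, ∀ x, |f x| ≤ B}
  add_mem' := fun ⟨B, h⟩ ⟨B', h'⟩ => ⟨B + B', fun x => (abs_add_le _ _).trans (add_le_add (h x) (h' x))⟩
  zero_mem' := ⟨0, fun x => by simp⟩
  smul_mem' := fun c _ ⟨B, h⟩ => ⟨|c| * B, fun x => by
    rw [Pi.smul_apply, smul_eq_mul, abs_mul]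
    exact mul_le_mul_of_nonneg_left (h x) (abs_nonneg c)⟩

/-- The constant function one. -/
def Bd.one (Γ : Type) : Bd Γ := ⟨fun _ => 1, 1, fun _ => by simp⟩

/-- Left translation. -/
def Bd.sh (g : Γ) (f : Bd Γ) : Bd Γ := ⟨fun x => f.1 (g * x), f.2.imp fun _ h x => h (g * x)⟩

/-- Means on the bounded functions. -/
def Means (Γ : Type) : Set (Bd Γ → ℝ) :=
  {M | (∀ f g, M (f + g) = M f + M g) ∧ (∀ (c : ℝ) f, M (c • f) = c * M f) ∧
    (∀ f : Bd Γ, (∀ x, 0 ≤ f.1 x) → 0 ≤ M f) ∧ M (Bd.one Γ) = 1}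

omit [Group Γ] in
theorem Means.mono {M : Bd Γ → ℝ} (h : M ∈ Means Γ) {f g : Bd Γ} (e : ∀ x, f.1 x ≤ g.1 x) :
    M f ≤ M g := by
  have a1 := h.2.2.1 (g + (-1 : ℝ) • f) (fun x => by simpa using e x)
  rw [h.1, h.2.1] at a1
  linarith

theorem mean_or_lev (Γ : Type) [Group Γ] :
    (∃ M ∈ Means Γ, ∀ g f, M (Bd.sh g f) = M f) ∨ ∀ δ > 0, ∀ m, Lev Γ δ m := by
  let ρ : Γ → (Bd Γ → ℝ) →L[ℝ] (Bd Γ → ℝ) := fun g =>
    ContinuousLinearMap.pi (fun f => ContinuousLinearMap.proj (Bd.sh g f))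
  have ρe : ∀ g M f, ρ g M f = M (Bd.sh g f) := fun _ _ _ => rfl
  have cl : IsClosed (Means Γ) := by
    have e : Means Γ = (⋂ f, ⋂ g, {M : Bd Γ → ℝ | M (f + g) = M f + M g}) ∩
        ((⋂ c : ℝ, ⋂ f, {M : Bd Γ → ℝ | M (c • f) = c * M f}) ∩
        ((⋂ f : Bd Γ, ⋂ _ : ∀ x, 0 ≤ f.1 x, {M : Bd Γ → ℝ | 0 ≤ M f}) ∩
        {M : Bd Γ → ℝ | M (Bd.one Γ) = 1})) := by
      ext M; simp [Means]
    rw [e]
    refine IsClosed.inter ?_ (IsClosed.inter ?_ (IsClosed.inter ?_ ?_))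
    · exact isClosed_iInter fun _ => isClosed_iInter fun _ => isClosed_eq (by fun_prop) (by fun_prop)
    · exact isClosed_iInter fun _ => isClosed_iInter fun _ => isClosed_eq (by fun_prop) (by fun_prop)
    · exact isClosed_iInter fun _ => isClosed_iInter fun _ => isClosed_le (by fun_prop) (by fun_prop)
    · exact isClosed_eq (by fun_prop) (by fun_prop)
  have cp : IsCompact (Means Γ) := by
    choose B hB using fun f : Bd Γ => f.2
    refine (isCompact_univ_pi (fun f => isCompact_Icc (a := -B f) (b := B f))).of_isClosed_subset cl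
      (fun M hM f _ => ?_)
    have a1 := Means.mono hM (f := f) (g := B f • Bd.one Γ) (fun x => by
      simpa [Bd.one] using (abs_le.mp (hB f x)).2)
    have a2 := Means.mono hM (g := f) (f := (-B f) • Bd.one Γ) (fun x => by
      simpa [Bd.one] using (abs_le.mp (hB f x)).1)
    rw [hM.2.1, hM.2.2.2, mul_one] at a1 a2
    exact ⟨a2, a1⟩
  let S : Set (Set (Bd Γ → ℝ)) := {L | L ⊆ Means Γ ∧ L.Nonempty ∧ IsClosed L ∧ Convex ℝ L ∧
    ∀ g x, x ∈ L → ρ g x ∈ L}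
  have s0 : Means Γ ∈ S := by
    refine ⟨subset_rfl, ⟨fun f => f.1 1, fun _ _ => rfl, fun _ _ => rfl, fun f e => e 1, rfl⟩, cl,
      fun x hx y hy s t s0 t0 st => ⟨fun f g => ?_, fun c f => ?_, fun f e => ?_, ?_⟩,
      fun g x hx => ⟨fun f f' => hx.1 (Bd.sh g f) (Bd.sh g f'), fun c f => hx.2.1 c (Bd.sh g f),
        fun f e => hx.2.2.1 _ (fun z => e _), hx.2.2.2⟩⟩
    · simp only [Pi.add_apply, Pi.smul_apply, smul_eq_mul, hx.1, hy.1]; ring
    · simp only [Pi.add_apply, Pi.smul_apply, smul_eq_mul, hx.2.1, hy.2.1]; ring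
    · exact add_nonneg (mul_nonneg s0 (hx.2.2.1 f e)) (mul_nonneg t0 (hy.2.2.1 f e))
    · simp only [Pi.add_apply, Pi.smul_apply, smul_eq_mul, hx.2.2.2, hy.2.2.2]; linarith
  obtain ⟨K, -, hK⟩ := zorn_superset_nonempty S (fun c cS hc nc => by
    have : Nonempty c := nc.to_subtype
    refine ⟨⋂₀ c, ⟨(Set.sInter_subset_of_mem nc.some_mem).trans (cS nc.some_mem).1, ?_,
      isClosed_sInter (fun L hL => (cS hL).2.2.1), convex_sInter (fun L hL => (cS hL).2.2.2.1),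
      fun g x hx L hL => (cS hL).2.2.2.2 g x (hx L hL)⟩, fun L hL => Set.sInter_subset_of_mem hL⟩
    exact IsCompact.nonempty_sInter_of_directed_nonempty_isCompact_isClosed
      (fun x hx y hy => (hc.total hx hy).elim (fun e => ⟨x, hx, subset_rfl, e⟩)
        (fun e => ⟨y, hy, e, subset_rfl⟩)) (fun L hL => (cS hL).2.1)
      (fun L hL => cp.of_isClosed_subset (cS hL).2.2.1 (cS hL).1) (fun L hL => (cS hL).2.2.1)) _ s0
  obtain ⟨k1, k2, k3, k4, k5⟩ := hK.prop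
  have hA : Act ρ K := ⟨fun x => funext fun f => by rw [ρe]; congr 1; ext z; simp [Bd.sh],
    fun g g' x => funext fun f => by simp only [ρe]; congr 1; ext z; simp [Bd.sh, mul_assoc],
    cp.of_isClosed_subset k3 k1, k4, k5,
    fun L l1 l2 l3 l4 l5 => hK.le_of_le ⟨l1.trans k1, l2, l3, l4, l5⟩ l1⟩
  by_cases c : ∃ x ∈ K, ∀ g, ρ g x = x
  · obtain ⟨M, h1, h2⟩ := c
    exact Or.inl ⟨M, k1 h1, fun g f => by rw [← ρe g M f, h2]⟩
  · push Not at c
    exact Or.inr (fun δ δ0 m => levels hA k2 c δ0 m)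

end Pool.Agent.Lib.MP_040728_al.Dix
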