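import Mathlib

set_option autoImplicit false

namespace Pool.Agent.Lib.MP_040728_al.Dix

open Finset
open scoped Classical

theorem exists_net (V : Type*) [NormedAddCommGroup V] [NormedSpace ℝ V] [FiniteDimensional ℝ V] :
    ∃ s : Finset V, s.card ≤ 5 ^ Module.finrank ℝ V ∧ (∀ c ∈ s, ‖c‖ ≤ 2) ∧
      ∀ x, ‖x‖ ≤ 2 → ∃ c ∈ s, ‖x - c‖ ≤ 1 := by
  let P : ℕ → Prop := fun n => ∃ s : Finset V, s.card = n ∧ (∀ c ∈ s, ‖c‖ ≤ 2) ∧
    ∀ c ∈ s, ∀ d ∈ s, c ≠ d → 1 ≤ ‖c - d‖
  have p0 : P 0 := ⟨∅, rfl, by simp, by simp⟩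
  obtain ⟨s, h1, h2, h3⟩ := Nat.findGreatest_spec (P := P) (Nat.zero_le (5 ^ Module.finrank ℝ V)) p0
  refine ⟨s, Besicovitch.card_le_of_separated s h2 h3, h2, fun x hx => ?_⟩
  by_contra hn
  push Not at hn
  have xs : x ∉ s := fun e => by
    have := hn x e
    rw [sub_self, norm_zero] at this
    linarith
  have q2 : ∀ c ∈ insert x s, ‖c‖ ≤ 2 := fun c hc => by
    rcases mem_insert.mp hc with rfl | hc
    · exact hx
    · exact h2 c hc
  have q3 : ∀ c ∈ insert x s, ∀ d ∈ insert x s, c ≠ d → 1 ≤ ‖c - d‖ := fun c hc d hd e => by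
    rcases mem_insert.mp hc with e1 | hc <;> rcases mem_insert.mp hd with e2 | hd
    · exact absurd (e1.trans e2.symm) e
    · rw [e1]; exact (hn d hd).le
    · rw [e2, norm_sub_rev]; exact (hn c hc).le
    · exact h3 c hc d hd e
  have a1 := Nat.le_findGreatest (P := P) (Besicovitch.card_le_of_separated _ q2 q3)
    ⟨_, rfl, q2, q3⟩
  rw [card_insert_of_notMem xs, h1] at a1
  omega

theorem net_bound {V : Type*} [NormedAddCommGroup V] [NormedSpace ℝ V] [FiniteDimensional ℝ V]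
    {s : Finset V} (hs : ∀ x, ‖x‖ ≤ 2 → ∃ c ∈ s, ‖x - c‖ ≤ 1) (f : V →ₗ[ℝ] ℝ) {σ : ℝ}
    (σ0 : 0 ≤ σ) (hf : ∀ c ∈ s, f c ≤ σ) (x : V) : f x ≤ σ * ‖x‖ := by
  let F : V →L[ℝ] ℝ := LinearMap.toContinuousLinearMap f
  have a1 : ∀ x, ‖x‖ ≤ 2 → F x ≤ σ + ‖F‖ := fun x hx => by
    obtain ⟨c, h1, h2⟩ := hs x hx
    have b1 : F x = F c + F (x - c) := by rw [map_sub]; ring
    have b2 := (le_abs_self _).trans (F.le_of_opNorm_le le_rfl (x - c))
    have b3 : F c ≤ σ := hf c h1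
    nlinarith [norm_nonneg F]
  have a2 : ‖F‖ ≤ (σ + ‖F‖) / 2 := by
    refine ContinuousLinearMap.opNorm_le_of_unit_norm (by positivity) (fun y hy => ?_)
    have b1 := a1 ((2 : ℝ) • y) (by rw [norm_smul, hy]; norm_num)
    have b2 := a1 ((-2 : ℝ) • y) (by rw [norm_smul, hy]; norm_num)
    rw [map_smul, smul_eq_mul] at b1 b2
    rw [Real.norm_eq_abs, abs_le]
    constructor <;> linarith
  exact (le_abs_self _).trans (F.le_of_opNorm_le (by linarith) x)

theorem exists_signs {ι J : Type*} [Fintype ι] [Fintype J] (a : J → ι → ℝ) (σ : J → ℝ)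
    (ha : ∀ j, ∑ i, a j i ^ 2 ≤ 16) (hσ : ∀ j, 0 ≤ σ j)
    (h : ∑ j, Real.exp (-(σ j ^ 2 / 32)) < 1) :
    ∃ ε : ι → ℝ, (∀ i, ε i = 1 ∨ ε i = -1) ∧ ∀ j, ∑ i, ε i * a j i ≤ σ j := by
  let P : Finset (ι → ℝ) := Fintype.piFinset (fun _ => ({1, -1} : Finset ℝ))
  have n1 : (1 : ℝ) ≠ -1 := by norm_num
  have c1 : (P.card : ℝ) = 2 ^ Fintype.card ι := by
    simp [P, Fintype.card_piFinset, card_pair n1]
  have a1 : ∀ j, ∑ ε ∈ P, Real.exp (σ j / 16 * (∑ i, ε i * a j i - σ j)) ≤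
      2 ^ Fintype.card ι * Real.exp (-(σ j ^ 2 / 32)) := by
    intro j
    have b1 : ∀ ε : ι → ℝ, Real.exp (σ j / 16 * (∑ i, ε i * a j i - σ j)) =
        (∏ i, Real.exp (σ j / 16 * (ε i * a j i))) * Real.exp (-(σ j ^ 2 / 16)) := fun ε => by
      rw [← Real.exp_sum, ← Real.exp_add, ← mul_sum]
      congr 1; ring
    simp only [b1]
    rw [← sum_mul, ← prod_univ_sum (fun _ => ({1, -1} : Finset ℝ))
      (fun i e => Real.exp (σ j / 16 * (e * a j i)))]
    have b2 : ∏ i, ∑ e ∈ ({1, -1} : Finset ℝ), Real.exp (σ j / 16 * (e * a j i)) ≤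
        ∏ i, (2 * Real.exp ((σ j / 16 * a j i) ^ 2 / 2)) := by
      refine prod_le_prod (fun i _ => sum_nonneg fun _ _ => (Real.exp_pos _).le) (fun i _ => ?_)
      have := Real.cosh_le_exp_half_sq (σ j / 16 * a j i)
      rw [Real.cosh_eq] at this
      rw [sum_pair n1, one_mul, neg_one_mul, mul_neg]
      linarith
    rw [prod_mul_distrib, prod_const, card_univ, ← Real.exp_sum] at b2
    refine (mul_le_mul_of_nonneg_right b2 (Real.exp_pos _).le).trans ?_
    rw [mul_assoc, ← Real.exp_add]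
    refine mul_le_mul_of_nonneg_left (Real.exp_le_exp.mpr ?_) (by positivity)
    have b3 : ∑ i, (σ j / 16 * a j i) ^ 2 / 2 = σ j ^ 2 / 512 * ∑ i, a j i ^ 2 := by
      rw [mul_sum]; exact sum_congr rfl (fun i _ => by ring)
    rw [b3]
    nlinarith [ha j, sq_nonneg (σ j)]
  have a2 : ∑ ε ∈ P, ∑ j, Real.exp (σ j / 16 * (∑ i, ε i * a j i - σ j)) < ∑ _ε ∈ P, (1 : ℝ) := by
    rw [sum_comm, sum_const, nsmul_eq_mul, c1]
    refine (sum_le_sum (fun j _ => a1 j)).trans_lt ?_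
    rw [← mul_sum]
    exact mul_lt_mul_of_pos_left h (by positivity)
  obtain ⟨ε, e1, e2⟩ := exists_lt_of_sum_lt a2
  refine ⟨ε, fun i => by simpa using Fintype.mem_piFinset.mp e1 i, fun j => ?_⟩
  have a3 := (single_le_sum (f := fun j => Real.exp (σ j / 16 * (∑ i, ε i * a j i - σ j)))
    (fun _ _ => (Real.exp_pos _).le) (mem_univ j)).trans_lt e2
  rw [Real.exp_lt_one_iff] at a3
  by_contra hn
  push Not at hn
  nlinarith [hσ j]

/-- Vectors supported over `T`. -/
def Sup {A : Type} [Fintype A] (r : ℕ) (T : Finset A) :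
    Submodule ℝ (EuclideanSpace ℝ (A × Fin r)) where
  carrier := {x | ∀ s : A × Fin r, s.1 ∉ T → x s = 0}
  add_mem' := fun hx hy s hs => by simp [hx s hs, hy s hs]
  zero_mem' := fun s _ => rfl
  smul_mem' := fun c _ hx s hs => by simp [hx s hs]

theorem rank_sup {A : Type} [Fintype A] (r : ℕ) (T : Finset A) :
    Module.finrank ℝ (Sup r T) ≤ r * T.card := by
  let f : Sup r T →ₗ[ℝ] (T × Fin r → ℝ) :=
    { toFun := fun x s => x.1 (s.1, s.2)
      map_add' := fun _ _ => rfl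
      map_smul' := fun _ _ => rfl }
  have hf : Function.Injective f := by
    intro x y e
    ext s
    by_cases c : s.1 ∈ T
    · exact congrFun e (⟨s.1, c⟩, s.2)
    · rw [x.2 s c, y.2 s c]
  have := LinearMap.finrank_le_finrank_of_injective hf
  simpa [mul_comm] using this

theorem sign_matrix (A : Type) [Fintype A] (r : ℕ) :
    ∃ Y : A × Fin r → A × Fin r → ℝ, (∀ t s, Y t s = 1 ∨ Y t s = -1) ∧
      ∀ (T T' : Finset A) (x : A × Fin r → ℝ), (∀ s, s.1 ∉ T' → x s = 0) →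
        ∑ t ∈ univ.filter (fun t : A × Fin r => t.1 ∈ T), (∑ s, Y t s * x s) ^ 2 ≤
          32 * (2 * r * (T.card + T'.card) + 2 * Fintype.card A + 1) * ∑ s, x s ^ 2 := by
  choose net n1 n2 n3 using fun T : Finset A => exists_net (Sup r T)
  let B : Finset A × Finset A → ℝ := fun p => 2 * r * (p.1.card + p.2.card) + 2 * Fintype.card A + 1
  have B0 : ∀ p, 0 ≤ B p := fun p => by positivity
  have sq : ∀ (T : Finset A) (c : Sup r T), ∑ s, c.1 s ^ 2 = ‖c‖ ^ 2 := fun T c =>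
    (EuclideanSpace.real_norm_sq_eq c.1).symm
  obtain ⟨ε, e1, e2⟩ := exists_signs (ι := (A × Fin r) × (A × Fin r))
    (J := Σ p : Finset A × Finset A, net p.1 × net p.2)
    (fun j i => j.2.1.1.1 i.1 * j.2.2.1.1 i.2) (fun j => √(32 * B j.1)) (fun j => by
      simp only [mul_pow]
      rw [Fintype.sum_prod_type]
      simp only []
      rw [← sum_mul_sum, sq, sq]
      have a1 := pow_le_pow_left₀ (norm_nonneg _) (n2 _ _ j.2.1.2) 2
      have a2 := pow_le_pow_left₀ (norm_nonneg _) (n2 _ _ j.2.2.2) 2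
      exact (mul_le_mul a1 a2 (by positivity) (by positivity)).trans (by norm_num))
    (fun j => Real.sqrt_nonneg _) (by
      have e5 : (5 : ℝ) ≤ Real.exp 2 := by
        have := Real.exp_one_gt_d9
        rw [show (2 : ℝ) = 1 + 1 by norm_num, Real.exp_add]
        nlinarith
      have e2 : (2 : ℝ) ≤ Real.exp 1 := by linarith [Real.exp_one_gt_d9]
      have c1 : ∀ T : Finset A, ((net T).card : ℝ) ≤ Real.exp (2 * r * T.card) := fun T => by
        have a1 : ((net T).card : ℝ) ≤ 5 ^ (r * T.card) := by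
          exact_mod_cast (n1 T).trans (Nat.pow_le_pow_right (by norm_num) (rank_sup r T))
        refine a1.trans ((pow_le_pow_left₀ (by norm_num) e5 _).trans (le_of_eq ?_))
        rw [← Real.exp_nat_mul]; congr 1; push_cast; ring
      have c2 : (Fintype.card (Finset A) : ℝ) ≤ Real.exp (Fintype.card A) := by
        rw [Fintype.card_finset]
        push_cast
        refine (pow_le_pow_left₀ (by norm_num) e2 _).trans (le_of_eq ?_)
        rw [← Real.exp_nat_mul, mul_one]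
      rw [Fintype.sum_sigma]
      have c3 : ∀ p : Finset A × Finset A, ∑ _j : net p.1 × net p.2,
          Real.exp (-(√(32 * B p) ^ 2 / 32)) ≤ Real.exp (-(2 * Fintype.card A + 1)) := fun p => by
        rw [sum_const, card_univ, nsmul_eq_mul, Fintype.card_prod, Fintype.card_coe,
          Fintype.card_coe, Nat.cast_mul, Real.sq_sqrt (by have := B0 p; positivity)]
        refine (mul_le_mul_of_nonneg_right (mul_le_mul (c1 _) (c1 _) (by positivity)
          (by positivity)) (by positivity)).trans (le_of_eq ?_)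
        rw [← Real.exp_add, ← Real.exp_add]
        congr 1
        simp only [B]; ring
      refine (sum_le_sum (fun p _ => c3 p)).trans_lt ?_
      rw [sum_const, card_univ, nsmul_eq_mul, Fintype.card_prod, Nat.cast_mul]
      refine (mul_le_mul_of_nonneg_right (mul_le_mul c2 c2 (by positivity)
        (by positivity)) (by positivity)).trans_lt ?_
      rw [← Real.exp_add, ← Real.exp_add, Real.exp_lt_one_iff]
      linarith)
  refine ⟨fun t s => ε (t, s), fun t s => e1 _, fun T T' x hx => ?_⟩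
  set σ := √(32 * B (T, T')) with hσ
  have σ0 : 0 ≤ σ := Real.sqrt_nonneg _
  let F : Sup r T →ₗ[ℝ] Sup r T' →ₗ[ℝ] ℝ := LinearMap.mk₂ ℝ
    (fun c d => ∑ t, ∑ s, ε (t, s) * (c.1 t * d.1 s))
    (fun c c' d => by simp [add_mul, mul_add, sum_add_distrib])
    (fun u c d => by simp [mul_sum, mul_assoc, mul_left_comm])
    (fun c d d' => by simp [mul_add, sum_add_distrib])
    (fun u c d => by simp [mul_sum, mul_left_comm])
  have Fe : ∀ c d, F c d = ∑ t, ∑ s, ε (t, s) * (c.1 t * d.1 s) := fun _ _ => rfl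
  have a1 : ∀ c ∈ net T, ∀ d, F c d ≤ σ * ‖d‖ := fun c hc d =>
    net_bound (n3 T') (F c) σ0 (fun d hd => by
      have := e2 ⟨(T, T'), ⟨c, hc⟩, ⟨d, hd⟩⟩
      rw [Fintype.sum_prod_type] at this
      exact this) d
  let X : Sup r T' := ⟨WithLp.toLp 2 x, hx⟩
  let Z : Sup r T := ⟨WithLp.toLp 2 (fun t => if t.1 ∈ T then ∑ s, ε (t, s) * x s else 0),
    fun s hs => if_neg hs⟩
  have a2 := net_bound (n3 T) (F.flip X) (mul_nonneg σ0 (norm_nonneg X)) (fun c hc => a1 c hc X) Z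
  have a3 : ∑ t ∈ univ.filter (fun t : A × Fin r => t.1 ∈ T), (∑ s, ε (t, s) * x s) ^ 2 =
      ‖Z‖ ^ 2 := by
    rw [← sq, sum_filter]
    refine sum_congr rfl (fun t _ => ?_)
    simp only [Z]
    split_ifs <;> simp
  have a4 : F.flip X Z = ‖Z‖ ^ 2 := by
    rw [← sq, LinearMap.flip_apply, Fe]
    refine sum_congr rfl (fun t _ => ?_)
    simp only [Z, X]
    split_ifs with c
    · rw [pow_two, mul_sum]
      exact sum_congr rfl (fun s _ => by ring)
    · simp
  have a5 : ∑ s, x s ^ 2 = ‖X‖ ^ 2 := sq T' X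
  have a6 : σ ^ 2 = 32 * B (T, T') := Real.sq_sqrt (by have := B0 (T, T'); positivity)
  rw [a3, a5]
  change _ ≤ 32 * B (T, T') * _
  rw [← a6, ← mul_pow]
  rw [a4] at a2
  refine pow_le_pow_left₀ (norm_nonneg _) ?_ 2
  by_contra hn
  push Not at hn
  nlinarith [norm_nonneg Z, mul_nonneg σ0 (norm_nonneg X)]

end Pool.Agent.Lib.MP_040728_al.Dix
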