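import Mathlib
import Pool.Agent.Lib.MP_040728_al.DLev
import Pool.Agent.Lib.MP_040728_al.DSign
import Pool.Agent.Lib.MP_040728_al.DChain

set_option autoImplicit false

namespace Pool.Agent.Lib.MP_040728_al.Dix

open Finset Forest
open scoped ENNReal Classical InnerProductSpace

variable {Γ : Type} [Group Γ]

/-- Levelled edge sets together with a sign matrix with small blocks. -/
structure Dat (Γ : Type) [Group Γ] (r m : ℕ) (I : Type) [Fintype I] (γ : ℕ → I → Γ)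
    (U : ℕ → Γ × I → Prop) (Y : I → I → ℝ) : Prop where
  pos : 0 < Fintype.card I
  sgn : ∀ t s, Y t s = 1 ∨ Y t s = -1
  pre : ∀ j y t s, U (j + 1) (y, t) → U j (y * (γ j s)⁻¹, s)
  src : (Fintype.card I : ℝ) / 2 ≤ (univ.filter (fun s => ¬ U 0 (1, s))).card
  tgt : ∀ j ≤ m, (Fintype.card I : ℝ) / 2 ≤ (univ.filter (fun t => U j ((γ j t)⁻¹, t))).card
  big : ∀ x : I → ℝ, ∑ t, (∑ s, Y t s * x s) ^ 2 ≤ 224 * Fintype.card I * ∑ s, x s ^ 2
  small : ∀ j y y' (x : I → ℝ), (∀ s, U j (y' * (γ j s)⁻¹, s) → x s = 0) →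
    r * ∑ t ∈ univ.filter (fun t => U (j + 1) (y, t)), (∑ s, Y t s * x s) ^ 2 ≤
      224 * Fintype.card I * ∑ s, x s ^ 2

theorem half {I : Type} [Fintype I] (P : I → Prop) {_ : DecidablePred P} {δ : ℝ}
    (hδ : δ ≤ 1 / 2) (h : ((univ.filter (fun s => ¬ P s)).card : ℝ) ≤ δ * Fintype.card I) :
    (Fintype.card I : ℝ) / 2 ≤ (univ.filter P).card := by
  have a1 : ((univ.filter P).card : ℝ) + (univ.filter (fun s => ¬ P s)).card = Fintype.card I := by
    exact_mod_cast card_filter_add_card_filter_not P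
  nlinarith [Nat.cast_nonneg (α := ℝ) (Fintype.card I)]

theorem exists_dat {r m : ℕ} (hr : 2 ≤ r) (h : Lev Γ (1 / r) m) :
    ∃ (I : Type) (_ : Fintype I) (γ : ℕ → I → Γ) (U : ℕ → Γ × I → Prop) (Y : I → I → ℝ),
      Dat Γ r m I γ U Y := by
  obtain ⟨A, _, _, γ, U, h1, h2, h3⟩ := h
  obtain ⟨Y, y1, y2⟩ := sign_matrix A r
  have r2 : (2 : ℝ) ≤ r := by exact_mod_cast hr
  have r0 : (0 : ℝ) < r := by linarith
  have d2 : (1 : ℝ) / r ≤ 1 / 2 := one_div_le_one_div_of_le (by norm_num) r2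
  have n1 : (1 : ℝ) ≤ Fintype.card A := by exact_mod_cast Fintype.card_pos
  have c1 : (Fintype.card (A × Fin r) : ℝ) = Fintype.card A * r := by simp
  refine ⟨A × Fin r, inferInstance, fun j s => γ j s.1, fun j e => j ≤ m ∧ U j (e.1, e.2.1), Y,
    ?_, y1, fun j y t s e => ⟨by have := e.1; omega, h3 _ _ _ _ e.2⟩, ?_, fun j hj => ?_,
    fun x => ?_, fun j y y' x hx => ?_⟩
  · have : (0 : ℝ) < Fintype.card (A × Fin r) := by rw [c1]; positivity
    exact_mod_cast this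
  · exact half _ d2 (cnt_fst _ _ (h1 0 1) (fun _ _ e => (not_not.mp e).2))
  · exact half _ d2 (cnt_fst _ _ (h2 j hj 1) (fun _ _ e c => e ⟨hj, by simpa using c⟩))
  · have := y2 univ univ x (fun s e => absurd (mem_univ _) e)
    simp only [mem_univ, filter_true, card_univ] at this
    refine this.trans (mul_le_mul_of_nonneg_right ?_ (sum_nonneg fun _ _ => sq_nonneg _))
    rw [c1]
    nlinarith
  · by_cases c : j + 1 ≤ m
    · have := y2 (univ.filter (fun t => U (j + 1) (y, t)))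
        (univ.filter (fun s => ¬ U j (y' * (γ j s)⁻¹, s))) x
        (fun s e => hx s ⟨by omega, by simpa using e⟩)
      have a1 := mul_le_mul_of_nonneg_left (h1 (j + 1) y) r0.le
      have a2 := mul_le_mul_of_nonneg_left (h2 j (by omega) y') r0.le
      rw [← mul_assoc, mul_one_div_cancel r0.ne', one_mul] at a1 a2
      refine le_trans (le_of_eq ?_) ((mul_le_mul_of_nonneg_left this r0.le).trans ?_)
      · congr 2
        ext t; simp [c]
      · rw [← mul_assoc, c1]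
        refine mul_le_mul_of_nonneg_right ?_ (sum_nonneg fun _ _ => sq_nonneg _)
        nlinarith
    · rw [sum_eq_zero (fun t ht => by simp [c] at ht), mul_zero]
      exact mul_nonneg (by positivity) (sum_nonneg fun _ _ => sq_nonneg _)

section fibre
variable {r m : ℕ} {I : Type} [Fintype I] {γ : ℕ → I → Γ} {U : ℕ → Γ × I → Prop} {Y : I → I → ℝ}

theorem sgn_sq {χ : I → ℝ} (h : ∀ s, χ s = 1 ∨ χ s = -1) (x : I → ℝ) :
    ∑ s, (χ s * x s) ^ 2 = ∑ s, x s ^ 2 :=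
  sum_congr rfl (fun s _ => by rcases h s with e | e <;> simp [e])

theorem Dat.bound (h : Dat Γ r m I γ U Y) {χ : ℕ → I → ℝ} (hχ : ∀ j s, χ j s = 1 ∨ χ j s = -1)
    {w : ℝ} (hr : 0 < r) (hw : w ^ 2 * (896 * Fintype.card I) = r) (g : Γ) (a : ℕ → Γ × I → ℂ) :
    ∑' j, nn (rep γ (fun j t s => w * (Y t s * χ j s)) U g a j) ≤
      (32 * r + 2) * ∑' j, nn (a j) := by
  have r0 : (0 : ℝ) < r := by exact_mod_cast hr
  refine rep_bound γ _ U r h.pre (fun j x => ?_) (fun j y y' x hx => ?_) g a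
  · have b : ∀ z : I → ℝ, 1 * ∑ t, (∑ s, Y t s * χ j s * z s) ^ 2 ≤
        224 * Fintype.card I * ∑ s, z s ^ 2 := fun z => by
      simpa only [one_mul, mul_assoc, sgn_sq (hχ j)] using h.big (fun s => χ j s * z s)
    have := cplx_le univ (fun t s => Y t s * χ j s) w x (b _) (b _)
    rw [one_mul] at this
    refine this.trans (mul_le_mul_of_nonneg_right ?_ (sum_nonneg fun _ _ => sq_nonneg _))
    linarith
  · have b : ∀ z : I → ℝ, (∀ s, x s = 0 → z s = 0) →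
        r * ∑ t ∈ univ.filter (fun t => U (j + 1) (y, t)), (∑ s, Y t s * χ j s * z s) ^ 2 ≤
        224 * Fintype.card I * ∑ s, z s ^ 2 := fun z hz => by
      simpa only [mul_assoc, sgn_sq (hχ j)] using h.small j y y' (fun s => χ j s * z s)
        (fun s e => by rw [hz s (hx s e), mul_zero])
    have := cplx_le _ (fun t s => Y t s * χ j s) w x (b _ (fun s e => by simp [e]))
      (b _ (fun s e => by simp [e]))
    refine le_of_mul_le_mul_left ?_ r0
    rw [show w ^ 2 * (224 * Fintype.card I) = r / 4 by linarith] at this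
    linarith

theorem Dat.lower (h : Dat Γ r (m + 1) I γ U Y)
    {L : Γ →* (lp (fun _ : Γ × I => ℂ) 2 →L[ℂ] lp (fun _ : Γ × I => ℂ) 2)}
    (l3 : ∀ g v, ‖L g v‖ = ‖v‖) : ∃ χ : ℕ → I → ℝ, (∀ j s, χ j s = 1 ∨ χ j s = -1) ∧
      ((Fintype.card I : ℝ) / 2) ^ (m + 2) ≤
        ∑ t ∈ univ.filter (fun t => U (m + 1) ((γ (m + 1) t)⁻¹, t)),
          ‖ch L γ (fun j t s => Y t s * χ j s)
            (fun s => if U 0 (1, s) then 0 else lp.single 2 (1, s) 1) (m + 1) t‖ ^ 2 := by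
  obtain ⟨χ, h1, h2⟩ := exists_chain L l3 γ Y h.sgn
    (fun j => univ.filter (fun t => U j ((γ j t)⁻¹, t)))
    (fun s => if U 0 (1, s) then 0 else lp.single 2 (1, s) 1)
  refine ⟨χ, h1, ?_⟩
  set v := ch L γ (fun j t s => Y t s * χ j s)
    (fun s => if U 0 (1, s) then 0 else lp.single 2 (1, s) 1) with hv
  have a1 : ∀ j, j ≤ m → ((Fintype.card I : ℝ) / 2) ^ (j + 1) ≤ ∑ s, ‖v j s‖ ^ 2 →
      ((Fintype.card I : ℝ) / 2) ^ (j + 2) ≤
        ∑ t ∈ univ.filter (fun t => U (j + 1) ((γ (j + 1) t)⁻¹, t)), ‖v (j + 1) t‖ ^ 2 := by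
    intro j hj e
    refine le_trans ?_ (h2 j)
    rw [pow_succ']
    exact mul_le_mul (h.tgt _ (by omega)) e (by positivity) (by positivity)
  have a2 : ∀ j, j ≤ m → ((Fintype.card I : ℝ) / 2) ^ (j + 1) ≤ ∑ s, ‖v j s‖ ^ 2 := by
    intro j
    induction j with
    | zero =>
      intro _
      rw [zero_add, pow_one]
      refine h.src.trans (le_of_eq ?_)
      rw [card_filter]
      push_cast
      refine sum_congr rfl (fun s _ => ?_)
      simp only [hv, ch, l3]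
      by_cases c : U 0 (1, s)
      · simp [c]
      · rw [if_pos c, if_neg c, lp.norm_single (by simp)]; simp
    | succ j ih =>
      intro hj
      exact (a1 j (by omega) (ih (by omega))).trans
        (sum_le_sum_of_subset_of_nonneg (filter_subset _ _) (fun _ _ _ => by positivity))
  exact a1 m le_rfl (a2 m le_rfl)

theorem Dat.growth (h : Dat Γ r (m + 1) I γ U Y)
    {L : Γ →* (lp (fun _ : Γ × I => ℂ) 2 →L[ℂ] lp (fun _ : Γ × I => ℂ) 2)}
    (l1 : ∀ g v, (L g v : Γ × I → ℂ) = tr g v) (l2 : ∀ g u v, ⟪L g⁻¹ u, v⟫_ℂ = ⟪u, L g v⟫_ℂ)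
    {χ : ℕ → I → ℝ} (hχ : ∀ j s, χ j s = 1 ∨ χ j s = -1)
    (low : ((Fintype.card I : ℝ) / 2) ^ (m + 2) ≤
        ∑ t ∈ univ.filter (fun t => U (m + 1) ((γ (m + 1) t)⁻¹, t)),
          ‖ch L γ (fun j t s => Y t s * χ j s)
            (fun s => if U 0 (1, s) then 0 else lp.single 2 (1, s) 1) (m + 1) t‖ ^ 2)
    {w : ℝ} (hw : w ^ 2 * (896 * Fintype.card I) = 2 * 896 ^ 2)
    {X : Type} (π : Γ →* (lp (fun _ : X => ℂ) 2 →L[ℂ] lp (fun _ : X => ℂ) 2))
    (ι : ℕ → Γ × I → X) (hι : ∀ j e j' e', ι j e = ι j' e' → j = j' ∧ e = e')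
    (hπ : ∀ g v, (fun j e => π g v (ι j e)) =
      rep γ (fun j t s => w * (Y t s * χ j s)) U g (fun j e => v (ι j e)))
    (B : lp (fun _ : X => ℂ) 2 →ₗ[ℝ] lp (fun _ : X => ℂ) 2 →ₗ[ℝ] ℝ) {M c : ℝ} (c0 : 0 < c)
    (hs : ∀ x y, B x y = B y x) (b1 : ∀ x, c * ‖x‖ ^ 2 ≤ B x x) (b2 : ∀ x, B x x ≤ M * ‖x‖ ^ 2)
    (M0 : 0 ≤ M) (b3 : ∀ g x, B (π g x) (π g x) = B x x) : c * 2 ^ (m + 1) ≤ 4 * M := by
  set n : ℝ := (Fintype.card I : ℝ) with hn
  have n0 : 0 < n := by rw [hn]; exact_mod_cast h.pos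
  set v := ch L γ (fun j t s => Y t s * χ j s)
    (fun s => if U 0 (1, s) then 0 else lp.single 2 (1, s) 1) with hv
  set V := ch π γ (fun j t s => Y t s * χ j s)
    (fun s => if U 0 (1, s) then 0 else lp.single 2 (ι 0 (1, s)) 1) with hV
  have B0 : ∀ x, 0 ≤ B x x := fun x => le_trans (by positivity) (b1 x)
  have a1 : ∀ j, ∑ t, B (V j t) (V j t) ≤ (224 * n) ^ j * (M * n) := by
    intro j
    induction j with
    | zero =>
      simp only [hV, ch, b3, pow_zero, one_mul]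
      refine (sum_le_sum (g := fun _ => M) (fun s _ => (b2 _).trans ?_)).trans (le_of_eq ?_)
      · split_ifs
        · simpa using M0
        · rw [lp.norm_single (by simp)]; simp
      · rw [sum_const, card_univ, nsmul_eq_mul, mul_comm]
    | succ j ih =>
      have e1 : ∀ (a : ℝ) (x : lp (fun _ : X => ℂ) 2), (a : ℂ) • x = a • x := fun a x =>
        lp.ext (funext fun i => by
          rw [lp.coeFn_smul, lp.coeFn_smul, Pi.smul_apply, Pi.smul_apply, Complex.coe_smul])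
      have := gram B hs B0 (fun t s => Y t s * χ j s) (R := 224 * n) (fun z => by
        simpa only [mul_assoc, sgn_sq (hχ j)] using h.big (fun s => χ j s * z s)) (V j)
      rw [pow_succ', mul_assoc]
      refine le_trans (le_of_eq ?_) (this.trans (mul_le_mul_of_nonneg_left ih (by positivity)))
      simp only [hV, ch, b3, e1]
  have a2 : ∀ t, U (m + 1) ((γ (m + 1) t)⁻¹, t) →
      c * ((w ^ 2) ^ (m + 1) * (‖v (m + 1) t‖ ^ 2) ^ 2) ≤ B (V (m + 1) t) (V (m + 1) t) := by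
    intro t ht
    have e1 := congrFun (congrFun (ch_grn l1 γ (fun j t s => Y t s * χ j s) _ U h.pre π ι hι hπ
      (m + 1) t) (m + 1)) ((γ (m + 1) t)⁻¹, t)
    rw [grn_full γ _ U h.pre _ _ _ ht, full_pair l1 l2 γ (fun j t s => Y t s * χ j s) w
      (fun s => U 0 (1, s)) (m + 1) t _ (ch_supp l1 γ _ _ _ _), inner_self_eq_norm_sq_to_K] at e1
    refine le_trans (mul_le_mul_of_nonneg_left ?_ c0.le) (b1 _)
    refine le_trans (le_of_eq ?_) (pow_le_pow_left₀ (norm_nonneg _)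
      (lp.norm_apply_le_norm (by simp) (V (m + 1) t) (ι (m + 1) ((γ (m + 1) t)⁻¹, t))) 2)
    simp only [hV, e1, ← hv, norm_mul, norm_pow, Complex.norm_real, Real.norm_eq_abs, mul_pow,
      Complex.coe_algebraMap, abs_norm]
    rw [← sq_abs w]
    ring
  set T := univ.filter (fun t => U (m + 1) ((γ (m + 1) t)⁻¹, t)) with hT
  have a3 : c * ((w ^ 2) ^ (m + 1) * ∑ t ∈ T, (‖v (m + 1) t‖ ^ 2) ^ 2) ≤
      (224 * n) ^ (m + 1) * (M * n) := by
    rw [mul_sum, mul_sum]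
    exact (sum_le_sum (fun t ht => a2 t (mem_filter.mp ht).2)).trans
      ((sum_le_sum_of_subset_of_nonneg (filter_subset _ _) (fun _ _ _ => B0 _)).trans (a1 _))
  have a4 := sq_sum_le_card_mul_sum_sq (s := T) (f := fun t => ‖v (m + 1) t‖ ^ 2)
  have a5 : (T.card : ℝ) ≤ n := by rw [hn]; exact_mod_cast card_le_univ T
  have a6 : ((n / 2) ^ (m + 2)) ^ 2 ≤ n * ∑ t ∈ T, (‖v (m + 1) t‖ ^ 2) ^ 2 :=
    (pow_le_pow_left₀ (by positivity) low 2).trans (a4.trans
      (mul_le_mul_of_nonneg_right a5 (sum_nonneg fun _ _ => by positivity)))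
  have a7 : (w ^ 2) ^ (m + 1) * ((n / 2) ^ (m + 2)) ^ 2 =
      2 ^ (m + 1) * (224 * n) ^ (m + 1) * (n ^ 2 / 4) := by
    have q1 : ∀ q : ℝ, (q ^ (m + 2)) ^ 2 = (q ^ 2) ^ (m + 1) * q ^ 2 := fun q => by ring
    rw [← mul_pow, show (2 : ℝ) * (224 * n) = w ^ 2 * (n / 2) ^ 2 by
      linear_combination (-n / 3584) * hw, mul_pow, q1, ← mul_assoc]
    congr 1
    ring
  have a8 := mul_le_mul_of_nonneg_left a6 (by positivity : 0 ≤ c * (w ^ 2) ^ (m + 1))
  have a9 := mul_le_mul_of_nonneg_left a3 n0.le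
  rw [mul_assoc, a7] at a8
  refine le_of_mul_le_mul_right ?_ (by positivity : 0 < (224 * n) ^ (m + 1) * (n ^ 2 / 4))
  nlinarith

end fibre

/-- Every uniformly bounded representation has an equivalent invariant quadratic form. -/
def Quad (Γ : Type) [Group Γ] : Prop :=
  ∀ (H : Type) [NormedAddCommGroup H] [InnerProductSpace ℂ H] [CompleteSpace H]
    (π : Γ →* (H →L[ℂ] H)) (C : ℝ), (∀ g, ‖π g‖ ≤ C) →
    ∃ (S : H → ℝ) (M m : ℝ), 0 < m ∧ (∀ x y, S (x + y) + S (x - y) = 2 * S x + 2 * S y) ∧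
      (∀ x, 0 ≤ S x ∧ S x ≤ M * ‖x‖ ^ 2) ∧ (∀ x, ‖x‖ = 1 → m ≤ S x) ∧ ∀ g x, S (π g x) = S x

theorem quad_mean (hQ : Quad Γ) : ∃ M ∈ Means Γ, ∀ g f, M (Bd.sh g f) = M f := by
  refine (mean_or_lev Γ).resolve_right (fun hL => ?_)
  obtain ⟨r, hr⟩ : ∃ r : ℕ, r = 2 * 896 ^ 2 := ⟨_, rfl⟩
  have r2 : 2 ≤ r := by rw [hr]; norm_num
  have r3 : (r : ℝ) = 2 * 896 ^ 2 := by rw [hr]; norm_num
  choose I _ γ U Y hD using fun m => exists_dat (m := m + 1) r2 (hL _ (by rw [r3]; norm_num) _)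
  choose L l1 l2 l3 using fun m => exists_lam Γ (I m)
  choose χ hχ low using fun m => (hD m).lower (l3 m)
  let w : ℕ → ℝ := fun m => √(r / (896 * Fintype.card (I m)))
  have hw : ∀ m, w m ^ 2 * (896 * Fintype.card (I m)) = r := fun m => by
    have : (0 : ℝ) < Fintype.card (I m) := by exact_mod_cast (hD m).pos
    rw [Real.sq_sqrt (by positivity), div_mul_cancel₀ _ (by positivity)]
  let R := fun m => rep (γ m) (fun j t s => w m * (Y m t s * χ m j s)) (U m)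
  let Φ : Γ → (((Σ m, ℕ × (Γ × I m)) → ℂ) →ₗ[ℂ] ((Σ m, ℕ × (Γ × I m)) → ℂ)) := fun g =>
    { toFun := fun f x => R x.1 g (fun j e => f ⟨x.1, j, e⟩) x.2.1 x.2.2
      map_add' := fun f f' => funext fun x =>
        congrFun (congrFun ((R x.1 g).map_add (fun j e => f ⟨x.1, j, e⟩)
          (fun j e => f' ⟨x.1, j, e⟩)) x.2.1) x.2.2
      map_smul' := fun c f => funext fun x =>
        congrFun (congrFun ((R x.1 g).map_smul c (fun j e => f ⟨x.1, j, e⟩)) x.2.1) x.2.2 }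
  have Φe : ∀ g f m j e, Φ g f ⟨m, j, e⟩ = R m g (fun j e => f ⟨m, j, e⟩) j e :=
    fun _ _ _ _ _ => rfl
  have e1 : ∀ f : (Σ m, ℕ × (Γ × I m)) → ℂ, nn f = ∑' m, ∑' j, nn (fun e => f ⟨m, j, e⟩) := by
    intro f
    unfold nn
    rw [ENNReal.tsum_sigma']
    exact tsum_congr (fun m => ENNReal.tsum_prod')
  obtain ⟨π, p1, p2⟩ := lift Φ (32 * r + 2)
    (fun f => funext fun x => congrFun (congrFun (rep_one _ _ _ (fun j e => f ⟨x.1, j, e⟩)) _) _)
    (fun g g' f => funext fun x =>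
      congrFun (congrFun (rep_mul _ _ _ (fun j e => f ⟨x.1, j, e⟩) g g') _) _)
    (fun g f => by
      rw [e1, e1, ← ENNReal.tsum_mul_left]
      refine ENNReal.tsum_le_tsum (fun m => ?_)
      push_cast
      simp only [Φe]
      exact (hD m).bound (hχ m) (by omega) (hw m) g (fun j e => f ⟨m, j, e⟩))
  obtain ⟨S, M, c, c0, s1, s2, s3, s4⟩ := hQ _ π _ p1
  obtain ⟨B, b1, b2⟩ := exists_bilin s1 s2 s3
  have S0 : S 0 = 0 := le_antisymm (by simpa using (s2 0).2) (s2 0).1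
  have b3 : ∀ x, B x x = S x := fun x => by
    have := s1 x x
    rw [b2]
    rw [sub_self, S0] at this ⊢
    linarith
  have b4 : ∀ x y, B x y = B y x := fun x y => by
    have := s1 0 (x - y)
    rw [zero_add, zero_sub, neg_sub, S0] at this
    rw [b2, b2, add_comm x y]
    linarith
  have key : ∀ m, c * 2 ^ (m + 1) ≤ 4 * |M| := fun m =>
    (hD m).growth (l1 m) (l2 m) (hχ m) (low m) ((hw m).trans r3) π (fun j e => ⟨m, j, e⟩)
      (fun j e j' e' h => by simpa using h) (fun g v => by rw [p2]; rfl) B.toLinearMap₁₂ c0 b4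
      (fun x => by rw [pow_two, ← mul_assoc]; exact b1 x)
      (fun x => (b3 x).trans_le ((s2 x).2.trans
        (mul_le_mul_of_nonneg_right (le_abs_self M) (sq_nonneg _))))
      (abs_nonneg M) (fun g x => (b3 _).trans ((s4 g x).trans (b3 x).symm))
  obtain ⟨k, hk⟩ := pow_unbounded_of_one_lt (4 * |M| / c) (one_lt_two (α := ℝ))
  rw [div_lt_iff₀ c0] at hk
  have := key k
  rw [pow_succ] at this
  nlinarith [mul_pos c0 (pow_pos (zero_lt_two' ℝ) k)]

end Pool.Agent.Lib.MP_040728_al.Dix
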