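import Mathlib
import Pool.Agent.Lib.MP_040728_al.DMain

set_option autoImplicit false

namespace Pool.Agent.Lib.MP_040728_al.Dix

open Filter Topology Finset
open scoped InnerProductSpace

theorem quad_dense {p : ENNReal} [Fact (1 ≤ p)] (h1 : 1 < p) (h2 : p ≤ 2) {Γ Λ : Type} [Group Γ]
    [Group Λ] (A : Subgroup Γ) (φ : A →* (ℕ → Λ))
    (hφ : ∀ n g, ∃ a, φ a n = g ∧ ∀ k < n, φ a k = 1) (hiso : Iso p Γ) : Quad Λ := by
  classical
  intro H _ _ _ π C hπ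
  have hC : 0 ≤ C := (norm_nonneg _).trans (hπ 1)
  have ht : p ≠ ⊤ := (lt_of_le_of_lt h2 ENNReal.ofNat_lt_top).ne
  have r1 : 1 < p.toReal := by
    rw [← ENNReal.toReal_one]; exact (ENNReal.toReal_lt_toReal ENNReal.one_ne_top ht).mpr h1
  have r2 : p.toReal ≤ 2 := by
    have := ENNReal.toReal_mono ENNReal.ofNat_ne_top h2
    simpa using this
  obtain ⟨σ, σ1, σ2⟩ := exists_rep (1 : A →* Equiv.Perm ℕ) (fun a n => π (φ a n)) hC
    (fun _ _ => hπ _) (fun n => by simp) (fun a b n => by simp)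
  simp only [MonoidHom.one_apply, Equiv.Perm.coe_one, id_eq] at σ2
  obtain ⟨R, R1, R2⟩ := exists_induced A σ hC σ1 ((1 : Γ) : Γ ⧸ A)
  obtain ⟨V, _, _, hV, T, hT⟩ : ∃ (V : Type) (_ : SeminormedAddCommGroup V) (_ : NormedSpace ℂ V),
      Good V p.toReal ∧ ∃ T : lp (fun _ : Γ ⧸ A => lp (fun _ : ℕ => H) 2) 2 ≃L[ℂ] V,
        ∀ g v, ‖T (R g v)‖ = ‖T v‖ := by
    obtain ⟨X, _, μ, Y, Z, T, -, -, hT⟩ := hiso _ R.toHomUnits ⟨C, R1⟩
    exact ⟨↥Y ⧸ Z, _, _, good_pspace h1 h2 Y Z, T, hT⟩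
  let T0 : lp (fun _ : ℕ => H) 2 →L[ℂ] V := (T : _ →L[ℂ] _).comp
    (lp.singleContinuousLinearMap ℂ (fun _ : Γ ⧸ A => lp (fun _ : ℕ => H) 2) 2 ((1 : Γ) : Γ ⧸ A))
  have T0e : ∀ v, T0 v = T (lp.single 2 ((1 : Γ) : Γ ⧸ A) v) := fun v => rfl
  have inv : ∀ a v, ‖T0 (σ a v)‖ = ‖T0 v‖ := by
    intro a v
    obtain ⟨γ, hγ⟩ := R2 a
    rw [T0e, T0e, ← hγ, hT]
  set D := ‖T.symm.toContinuousLinearMap‖ with hD
  have low : ∀ v, 1 / (D + 1) * ‖v‖ ≤ ‖T0 v‖ := by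
    intro v
    have := T.symm.toContinuousLinearMap.le_opNorm (T0 v)
    rw [T0e, ContinuousLinearEquiv.coe_coe, T.symm_apply_apply, lp.norm_single (by simp), ← T0e,
      ← hD] at this
    rw [one_div_mul_eq_div, div_le_iff₀ (by positivity)]
    nlinarith [norm_nonneg (T0 v)]
  let ι : ℕ → H →L[ℂ] lp (fun _ : ℕ => H) 2 := lp.singleContinuousLinearMap ℂ (fun _ : ℕ => H) 2
  have ιe : ∀ n x, ι n x = lp.single 2 n x := fun _ _ => rfl
  obtain ⟨Ψ, M, m, hL, hinv⟩ := exists_lim r1 r2 hV T0 (by positivity) low ι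
    (fun n x => by rw [ιe, lp.norm_single (by simp)]) (fun w x => by
      simp only [ιe, lp.inner_single_right]
      refine squeeze_zero_norm (fun n => norm_inner_le_norm _ _) ?_
      simpa using (tendsto_norm_apply w).mul_const ‖x‖)
  obtain ⟨S, s1, s2, s3, s4⟩ := exists_quad hL
  refine ⟨S, M, m, hL.pos, s1, s2, s3, fun g x => s4 _ _ (fun t => ?_)⟩
  rw [← map_smul]
  refine hinv _ _ (fun e => ?_)
  generalize (t : ℂ) • x = y
  have e0 : ∀ (a : A) k z, σ a (ι k z) = ι k (π (φ a k) z) := by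
    intro a k z
    refine lp.ext (funext (fun j => ?_))
    simp only [σ2, ιe]
    by_cases hk : j = k
    · subst hk
      simp only [lp.single_apply_self]
    · simp [Pi.single_eq_of_ne hk]
  refine squeeze_zero_norm
    (a := fun n => ‖T0‖ * ((C + 1) * ‖e - ∑ k ∈ range n, ι k (e k)‖)) (fun n => ?_) ?_
  · obtain ⟨a, ha, hb⟩ := hφ n g
    have e2 : σ a (∑ k ∈ range n, ι k (e k)) = ∑ k ∈ range n, ι k (e k) := by
      rw [map_sum]
      exact sum_congr rfl (fun k hk => by rw [e0, hb k (mem_range.mp hk), map_one]; rfl)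
    have e1 : σ a (e + ι n y) = e + ι n (π g y) +
        (σ a (e - ∑ k ∈ range n, ι k (e k)) - (e - ∑ k ∈ range n, ι k (e k))) := by
      rw [map_add, map_sub, e2, e0, ha]
      abel
    rw [← inv a (e + ι n y), e1, map_add T0 (e + _)]
    refine (abs_norm_sub_norm_le _ _).trans ?_
    rw [sub_add_cancel_left, norm_neg]
    refine (T0.le_opNorm _).trans (mul_le_mul_of_nonneg_left ?_ (norm_nonneg _))
    refine (norm_sub_le _ _).trans ?_
    linarith [(σ a).le_of_opNorm_le (σ1 a) (e - ∑ k ∈ range n, ι k (e k))]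
  · have a1 := ((lp.hasSum_single (by simp) e).tendsto_sum_nat.const_sub e).norm
    rw [sub_self, norm_zero] at a1
    simpa [ιe] using (a1.const_mul (C + 1)).const_mul ‖T0‖

theorem quad_of_norm {Γ : Type} [Group Γ]
    (h : ∀ (H : Type) [NormedAddCommGroup H] [InnerProductSpace ℂ H] [CompleteSpace H]
      (π : Γ →* (H →L[ℂ] H)) (C : ℝ), (∀ g, ‖π g‖ ≤ C) →
      ∃ (V : Type) (_ : SeminormedAddCommGroup V) (_ : NormedSpace ℂ V) (T : H ≃L[ℂ] V),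
        (∀ a b : V, ‖a + b‖ ^ 2 + ‖a - b‖ ^ 2 ≤ 2 * (‖a‖ ^ 2 + ‖b‖ ^ 2)) ∧
        ∀ g v, ‖T (π g v)‖ = ‖T v‖) : Quad Γ := by
  intro H _ _ _ π C hπ
  obtain ⟨V, _, _, T, h1, h2⟩ := h H π C hπ
  set D := ‖T.symm.toContinuousLinearMap‖ with hD
  refine ⟨fun x => ‖T x‖ ^ 2, ‖T.toContinuousLinearMap‖ ^ 2, (1 / (D + 1)) ^ 2, by positivity,
    fun x y => ?_, fun x => ⟨by positivity, ?_⟩, fun x hx => ?_, fun g x => by simp only [h2]⟩
  · have a1 := h1 (T x) (T y)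
    have a2 := h1 (T x + T y) (T x - T y)
    rw [show T x + T y + (T x - T y) = (2 : ℂ) • T x by module,
      show T x + T y - (T x - T y) = (2 : ℂ) • T y by module, norm_smul, norm_smul] at a2
    simp only [map_add, map_sub, Complex.norm_ofNat] at a2 ⊢
    linarith
  · rw [← mul_pow]
    exact pow_le_pow_left₀ (norm_nonneg _) (T.toContinuousLinearMap.le_opNorm x) 2
  · have := T.symm.toContinuousLinearMap.le_opNorm (T x)
    rw [ContinuousLinearEquiv.coe_coe, T.symm_apply_apply, hx, ← hD] at this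
    refine pow_le_pow_left₀ (by positivity) ?_ 2
    rw [div_le_iff₀ (by positivity)]
    nlinarith [norm_nonneg (T x)]

theorem quad_two {Γ : Type} [Group Γ] (h : Iso 2 Γ) : Quad Γ :=
  quad_of_norm (fun H _ _ _ π C hπ => by
    obtain ⟨X, _, μ, Y, Z, T, -, -, hT⟩ := h H π.toHomUnits ⟨C, hπ⟩
    exact ⟨↥Y ⧸ Z, _, _, T, fun a b => by
      have := Forest.clarkson le_rfl Y Z a b
      simp only [ENNReal.toReal_ofNat, Real.rpow_ofNat] at this
      exact this, hT⟩)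

open scoped Classical in
theorem measure_of_mean {Γ : Type} [Group Γ] {M : Bd Γ → ℝ} (h : M ∈ Means Γ)
    (hi : ∀ g f, M (Bd.sh g f) = M f) :
    ∃ m : Set Γ → ℝ, (∀ A, 0 ≤ m A) ∧ m Set.univ = 1 ∧
      (∀ A B, Disjoint A B → m (A ∪ B) = m A + m B) ∧
      ∀ (g : Γ) (A : Set Γ), m ((fun x => g * x) '' A) = m A := by
  let χ : Set Γ → Bd Γ := fun A => ⟨fun x => if x ∈ A then 1 else 0, 1, fun x => by
    by_cases c : x ∈ A <;> simp [c]⟩
  refine ⟨fun A => M (χ A), fun A => h.2.2.1 _ (fun x => ?_), ?_, fun A B hAB => ?_, fun g A => ?_⟩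
  · simp only [χ]; split_ifs <;> simp
  · refine Eq.trans (congrArg M ?_) h.2.2.2
    ext x; simp [χ, Bd.one]
  · refine Eq.trans (congrArg M ?_) (h.1 _ _)
    ext x
    have : x ∈ A → x ∉ B := fun c => Set.disjoint_left.mp hAB c
    by_cases c : x ∈ A <;> by_cases d : x ∈ B <;> simp_all [χ]
  · refine Eq.trans (hi g _).symm (congrArg M ?_)
    ext x
    simp [χ, Bd.sh]

theorem littlewood_of_mean {Γ : Type} [Group Γ] {M : Bd Γ → ℝ} (h : M ∈ Means Γ)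
    (hi : ∀ g f, M (Bd.sh g f) = M f) (f : Γ → ℂ) (g₁ g₂ : Γ → Γ → ℂ)
    (hf : ∀ x y, f (x⁻¹ * y) = g₁ x y + g₂ x y) {C₁ C₂ : ℝ}
    (h₁ : ∀ x, Summable (fun y => ‖g₁ x y‖) ∧ ∑' y, ‖g₁ x y‖ ≤ C₁)
    (h₂ : ∀ y, Summable (fun x => ‖g₂ x y‖) ∧ ∑' x, ‖g₂ x y‖ ≤ C₂) : Memℓp f 1 := by
  classical
  have fin : ∀ (u : Γ → ℂ) (c : ℝ), (Summable (fun y => ‖u y‖) ∧ ∑' y, ‖u y‖ ≤ c) →
      ∀ (e : Γ → Γ), Function.Injective e → ∀ F : Finset Γ, ∑ s ∈ F, ‖u (e s)‖ ≤ c := by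
    intro u c hu e he F
    rw [← sum_image (f := fun y => ‖u y‖) (fun _ _ _ _ c => he c)]
    exact (hu.1.sum_le_tsum _ (fun _ _ => norm_nonneg _)).trans hu.2
  have one : ∀ (u : Γ → ℂ) (c : ℝ), (Summable (fun y => ‖u y‖) ∧ ∑' y, ‖u y‖ ≤ c) →
      ∀ y, |‖u y‖| ≤ c := fun u c hu y => by
    simpa using fin u c hu id Function.injective_id {y}
  let a : Γ → Bd Γ := fun s => ⟨fun z => ‖g₁ z⁻¹ (z⁻¹ * s)‖, C₁, fun z => one _ _ (h₁ _) _⟩
  let b : Γ → Bd Γ := fun s => ⟨fun z => ‖g₂ z⁻¹ (z⁻¹ * s)‖, C₂, fun z => one _ _ (h₂ _) _⟩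
  have add : ∀ (u : Γ → Bd Γ) (F : Finset Γ), ∑ s ∈ F, M (u s) = M (∑ s ∈ F, u s) := by
    intro u F
    induction F using Finset.induction_on with
    | empty => simpa using (h.2.1 0 0).symm
    | insert s F hs ih => rw [sum_insert hs, sum_insert hs, h.1, ih]
  have con : ∀ c : ℝ, M (c • Bd.one Γ) = c := fun c => by rw [h.2.1, h.2.2.2, mul_one]
  refine memℓp_gen' (C := C₁ + C₂) (fun F => ?_)
  simp only [ENNReal.toReal_one, Real.rpow_one]
  have a1 : ∀ s, ‖f s‖ ≤ M (a s) + M (Bd.sh s (b s)) := fun s => by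
    rw [hi, ← h.1, ← con ‖f s‖]
    refine Means.mono h (fun z => ?_)
    have := hf z⁻¹ (z⁻¹ * s)
    rw [inv_inv, mul_inv_cancel_left] at this
    simpa [a, b, Bd.one, this] using norm_add_le (g₁ z⁻¹ (z⁻¹ * s)) (g₂ z⁻¹ (z⁻¹ * s))
  refine (sum_le_sum (fun s _ => a1 s)).trans ?_
  rw [sum_add_distrib, add, add (fun s => Bd.sh s (b s)), ← con C₁, ← con C₂]
  refine add_le_add (Means.mono h (fun z => ?_)) (Means.mono h (fun z => ?_))
  · simpa [a, Bd.one] using fin _ _ (h₁ z⁻¹) (fun s => z⁻¹ * s) (mul_right_injective _) F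
  · simpa [b, Bd.one, Bd.sh] using fin _ _ (h₂ z⁻¹) (fun s => z⁻¹ * s⁻¹)
      (fun s s' e => inv_injective (mul_left_cancel e)) F

end Pool.Agent.Lib.MP_040728_al.Dix
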