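import Mathlib

set_option autoImplicit false

namespace Pool.Agent.Lib.MP_040728_al.U

open Finset

/-- `P` behaves like the square of a Hilbert norm under scalar matrices. -/
def Hilb {H : Type} [AddCommGroup H] [Module ℂ H] (P : H → ℝ) : Prop :=
  (∀ y, 0 ≤ P y) ∧
  ∀ (α β : Type) [Fintype α] [Fintype β] (Y : β → α → ℂ) (c : ℝ), 0 ≤ c →
    (∀ a : α → ℂ, ∑ i, ‖∑ l, Y i l * a l‖ ^ 2 ≤ c * ∑ l, ‖a l‖ ^ 2) →
    ∀ y : α → H, ∑ i, P (∑ l, Y i l • y l) ≤ c * ∑ l, P (y l)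

/-- `π` has squared bound `B` for an equivalent Hilbert-like squared norm. -/
def Near {Γ H : Type} [Group Γ] [NormedAddCommGroup H] [NormedSpace ℂ H]
    (π : Γ →* (H →L[ℂ] H)ˣ) (B : ℝ) : Prop :=
  ∃ (P : H → ℝ) (A : ℝ), Hilb P ∧ (∀ y, P y ≤ A * ‖y‖ ^ 2) ∧ (∀ y, ‖y‖ ^ 2 ≤ A * P y) ∧
    ∀ g y, P ((π g : H →L[ℂ] H) y) ≤ B * P y

/-- Bounded real functions. -/
def Bdd {Γ : Type} (F : Γ → ℝ) : Prop := ∃ C, ∀ g, |F g| ≤ C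

/-- A mean: a linear functional with `m F ≤ sup F` for bounded `F`. -/
def IsMean {Γ : Type} (m : (Γ → ℝ) →ₗ[ℝ] ℝ) : Prop :=
  ∀ F c, Bdd F → (∀ g, F g ≤ c) → m F ≤ c

/-- Existence of a left invariant mean. -/
def Amen (Γ : Type) [Group Γ] : Prop :=
  ∃ m : (Γ → ℝ) →ₗ[ℝ] ℝ, IsMean m ∧ ∀ F h, Bdd F → m (fun g => F (h * g)) = m F

end Pool.Agent.Lib.MP_040728_al.U
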