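import Mathlib
import Pool.Agent.Lib.MP_040728_al.UDefs

set_option autoImplicit false

namespace Pool.Agent.Lib.MP_040728_al.U

open Finset

section bdd
variable {Γ : Type}

theorem Bdd.add {F G : Γ → ℝ} (hF : Bdd F) (hG : Bdd G) : Bdd (F + G) := by
  obtain ⟨C, hC⟩ := hF
  obtain ⟨D, hD⟩ := hG
  exact ⟨C + D, fun g => (abs_add_le _ _).trans (add_le_add (hC g) (hD g))⟩

theorem Bdd.smul {F : Γ → ℝ} (hF : Bdd F) (c : ℝ) : Bdd (c • F) := by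
  obtain ⟨C, hC⟩ := hF
  refine ⟨|c| * C, fun g => ?_⟩
  rw [Pi.smul_apply, smul_eq_mul, abs_mul]
  exact mul_le_mul_of_nonneg_left (hC g) (abs_nonneg c)

theorem Bdd.neg {F : Γ → ℝ} (hF : Bdd F) : Bdd (-F) := by
  obtain ⟨C, hC⟩ := hF
  exact ⟨C, fun g => by simpa using hC g⟩

theorem Bdd.comp {Δ : Type} {F : Γ → ℝ} (hF : Bdd F) (e : Δ → Γ) : Bdd (fun g => F (e g)) := by
  obtain ⟨C, hC⟩ := hF
  exact ⟨C, fun g => hC _⟩

theorem bdd_const (c : ℝ) : Bdd (fun _ : Γ => c) := ⟨|c|, fun _ => le_rfl⟩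

theorem bdd_zero : Bdd (0 : Γ → ℝ) := bdd_const 0

theorem bdd_sum {ι : Type} (s : Finset ι) {F : ι → Γ → ℝ} (h : ∀ i ∈ s, Bdd (F i)) :
    Bdd (∑ i ∈ s, F i) :=
  Finset.sum_induction F Bdd (fun _ _ => Bdd.add) bdd_zero h

theorem Bdd.bddAbove {F : Γ → ℝ} (hF : Bdd F) : BddAbove (Set.range F) := by
  obtain ⟨C, hC⟩ := hF
  exact ⟨C, by rintro _ ⟨g, rfl⟩; exact (le_abs_self _).trans (hC g)⟩

variable {m : (Γ → ℝ) →ₗ[ℝ] ℝ}

theorem IsMean.mono (hm : IsMean m) {F G : Γ → ℝ} (hF : Bdd F) (hG : Bdd G) (h : ∀ g, F g ≤ G g) :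
    m F ≤ m G := by
  have := hm (F + -G) 0 (hF.add hG.neg) (fun g => by simpa using h g)
  rw [map_add, map_neg] at this
  linarith

theorem IsMean.ge (hm : IsMean m) {F : Γ → ℝ} (hF : Bdd F) {c : ℝ} (h : ∀ g, c ≤ F g) :
    c ≤ m F := by
  have := hm (-F) (-c) hF.neg (fun g => by simpa using h g)
  rw [map_neg] at this
  linarith

end bdd

/-- Invariant sublinear functionals on bounded functions dominated by the supremum. -/
def Subl {Γ : Type} [Group Γ] (ρ : (Γ → ℝ) → ℝ) : Prop :=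
  (∀ F, ¬ Bdd F → ρ F = 0) ∧ (∀ F G, Bdd F → Bdd G → ρ (F + G) ≤ ρ F + ρ G) ∧
  (∀ c : ℝ, 0 < c → ∀ F, Bdd F → ρ (c • F) ≤ c * ρ F) ∧
  (∀ F c, Bdd F → (∀ g, F g ≤ c) → ρ F ≤ c) ∧
  (∀ F h, Bdd F → ρ (fun g => F (h * g)) ≤ ρ F) ∧ 0 ≤ ρ 0

variable {Γ : Type} [Group Γ]

theorem Subl.lower {ρ : (Γ → ℝ) → ℝ} (h : Subl ρ) {F : Γ → ℝ} {C : ℝ} (hC : ∀ g, |F g| ≤ C) :
    -C ≤ ρ F := by
  have hF : Bdd F := ⟨C, hC⟩
  have a := h.2.1 F (-F) hF hF.neg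
  have b := h.2.2.2.1 (-F) C hF.neg (fun g => (neg_le_abs _).trans (hC g))
  rw [add_neg_cancel] at a
  linarith [h.2.2.2.2.2]

open Classical in
theorem subl_of (I : Type) [Nonempty I] (m : I → (Γ → ℝ) →ₗ[ℝ] ℝ) (hm : ∀ i, IsMean (m i))
    (hi : ∀ i h, ∃ j, ∀ F, m i (fun g => F (h * g)) = m j F) :
    Subl (fun F => if Bdd F then ⨆ i, m i F else 0) ∧
      ∀ F, Bdd F → BddAbove (Set.range fun i => m i F) := by
  have hb : ∀ F, Bdd F → BddAbove (Set.range fun i => m i F) := by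
    rintro F ⟨C, hC⟩
    exact ⟨C, by rintro _ ⟨i, rfl⟩; exact hm i F C ⟨C, hC⟩ (fun g => (le_abs_self _).trans (hC g))⟩
  refine ⟨⟨fun F h => if_neg h, fun F G hF hG => ?_, fun c hc F hF => ?_, fun F c hF h => ?_,
    fun F h hF => ?_, ?_⟩, hb⟩
  · simp only [if_pos hF, if_pos hG, if_pos (hF.add hG)]
    refine ciSup_le (fun i => ?_)
    rw [map_add]
    exact add_le_add (le_ciSup (hb F hF) i) (le_ciSup (hb G hG) i)
  · simp only [if_pos hF, if_pos (hF.smul c)]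
    refine ciSup_le (fun i => ?_)
    rw [map_smul, smul_eq_mul]
    exact mul_le_mul_of_nonneg_left (le_ciSup (hb F hF) i) hc.le
  · simp only [if_pos hF]
    exact ciSup_le (fun i => hm i F c hF h)
  · simp only [if_pos hF, if_pos (hF.comp (fun g => h * g))]
    refine ciSup_le (fun i => ?_)
    obtain ⟨j, hj⟩ := hi i h
    rw [hj]
    exact le_ciSup (hb F hF) j
  · simp [bdd_zero]

theorem exists_min_subl (Γ : Type) [Group Γ] :
    ∃ ρ : (Γ → ℝ) → ℝ, Subl ρ ∧ ∀ σ, Subl σ → σ ≤ ρ → ρ ≤ σ := by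
  have h0 := (subl_of Γ (fun g : Γ => (LinearMap.proj g : (Γ → ℝ) →ₗ[ℝ] ℝ))
    (fun g F c _ h => h g) (fun i h => ⟨h * i, fun F => rfl⟩)).1
  have key := zorn_le_nonempty₀ (α := ((Γ → ℝ) → ℝ)ᵒᵈ) {ρ | Subl (OrderDual.ofDual ρ)} (by
    intro c hc hch y hy
    have : Nonempty c := ⟨⟨y, hy⟩⟩
    let v : c → (Γ → ℝ) → ℝ := fun ρ => OrderDual.ofDual ρ.1
    have hv : ∀ ρ, Subl (v ρ) := fun ρ => hc ρ.2
    have hb : ∀ F, BddBelow (Set.range fun ρ => v ρ F) := by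
      intro F
      by_cases hF : Bdd F
      · obtain ⟨C, hC⟩ := hF
        exact ⟨-C, by rintro _ ⟨ρ, rfl⟩; exact (hv ρ).lower hC⟩
      · exact ⟨0, by rintro _ ⟨ρ, rfl⟩; exact ((hv ρ).1 F hF).ge⟩
    have ht : ∀ a b : c, v a ≤ v b ∨ v b ≤ v a := fun a b => (hch.total a.2 b.2).symm
    refine ⟨OrderDual.toDual (fun F => ⨅ ρ, v ρ F), ⟨fun F hF => ?_, fun F G hF hG => ?_,
      fun t ht F hF => ?_, fun F t hF h => ?_, fun F h hF => ?_, ?_⟩, fun z hz => ?_⟩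
    · show ⨅ ρ, v ρ F = 0
      simp [fun ρ => (hv ρ).1 F hF]
    · show ⨅ ρ, v ρ (F + G) ≤ (⨅ ρ, v ρ F) + ⨅ ρ, v ρ G
      refine le_ciInf_add_ciInf (fun a b => ?_)
      rcases ht a b with h | h
      · exact (ciInf_le (hb _) a).trans (((hv a).2.1 F G hF hG).trans (by linarith [h G]))
      · exact (ciInf_le (hb _) b).trans (((hv b).2.1 F G hF hG).trans (by linarith [h F]))
    · show ⨅ ρ, v ρ (t • F) ≤ t * ⨅ ρ, v ρ F
      rw [Real.mul_iInf_of_nonneg ht.le]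
      exact le_ciInf (fun a => (ciInf_le (hb _) a).trans ((hv a).2.2.1 t ht F hF))
    · exact (ciInf_le (hb _) ⟨y, hy⟩).trans ((hv _).2.2.2.1 F t hF h)
    · exact le_ciInf (fun a => (ciInf_le (hb _) a).trans ((hv a).2.2.2.2.1 F h hF))
    · exact le_ciInf (fun a => (hv a).2.2.2.2.2)
    · exact fun F => ciInf_le (hb F) ⟨z, hz⟩) (OrderDual.toDual _) h0
  obtain ⟨ρ, -, hρ⟩ := key
  exact ⟨OrderDual.ofDual ρ, hρ.1, fun σ hσ h => hρ.2 (y := OrderDual.toDual σ) hσ h⟩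

/-- The bounded functions as a subspace. -/
def Bs (Γ : Type) : Submodule ℝ (Γ → ℝ) where
  carrier := {F | Bdd F}
  add_mem' := Bdd.add
  zero_mem' := bdd_zero
  smul_mem' := fun c _ h => h.smul c

theorem Subl.exists_le {ρ : (Γ → ℝ) → ℝ} (h : Subl ρ) :
    ∃ m : (Γ → ℝ) →ₗ[ℝ] ℝ, ∀ F, Bdd F → m F ≤ ρ F := by
  obtain ⟨g, -, hg⟩ := exists_extension_of_le_sublinear (E := Bs Γ) ⊥ (fun F => ρ F.1)
    (fun c hc F => by
      refine le_antisymm (h.2.2.1 c hc F.1 F.2) ?_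
      have := h.2.2.1 c⁻¹ (inv_pos.mpr hc) (c • F.1) (Bdd.smul F.2 c)
      rw [inv_smul_smul₀ hc.ne', le_inv_mul_iff₀ hc] at this
      exact this)
    (fun F G => h.2.1 F.1 G.1 F.2 G.2)
    (fun x => by
      have : x = 0 := Subtype.ext ((Submodule.mem_bot ℝ).mp x.2)
      subst this
      simpa using h.2.2.2.2.2)
  obtain ⟨m, hm⟩ := LinearMap.exists_extend g
  refine ⟨m, fun F hF => ?_⟩
  have := hg ⟨F, hF⟩
  rw [← hm] at this
  exact this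

/-- A minimal invariant convex set of means. -/
theorem exists_minimal (Γ : Type) [Group Γ] :
    ∃ K : Set ((Γ → ℝ) →ₗ[ℝ] ℝ), K.Nonempty ∧ Convex ℝ K ∧ (∀ m ∈ K, IsMean m) ∧
      (∀ m ∈ K, ∀ h : Γ, m ∘ₗ LinearMap.funLeft ℝ ℝ (fun g => h * g) ∈ K) ∧
      ∀ m ∈ K, ∀ m' ∈ K, ∀ F c, Bdd F → c < m' F → ∃ h : Γ, c < m (fun g => F (h * g)) := by
  classical
  obtain ⟨ρ, hρ, hmin⟩ := exists_min_subl Γ
  have hM : ∀ m : (Γ → ℝ) →ₗ[ℝ] ℝ, (∀ F, Bdd F → m F ≤ ρ F) → IsMean m :=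
    fun m hm F c hF h => (hm F hF).trans (hρ.2.2.2.1 F c hF h)
  have hI : ∀ m : (Γ → ℝ) →ₗ[ℝ] ℝ, (∀ F, Bdd F → m F ≤ ρ F) → ∀ h : Γ, ∀ F, Bdd F →
      (m ∘ₗ LinearMap.funLeft ℝ ℝ (fun g => h * g)) F ≤ ρ F :=
    fun m hm h F hF => (hm _ (hF.comp _)).trans (hρ.2.2.2.2.1 F h hF)
  refine ⟨{m | ∀ F, Bdd F → m F ≤ ρ F}, hρ.exists_le, ?_, hM, hI, ?_⟩
  · intro a ha b hb s t hs ht hst F hF
    have e : ρ F = s * ρ F + t * ρ F := by rw [← add_mul, hst, one_mul]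
    rw [e]
    exact add_le_add (mul_le_mul_of_nonneg_left (ha F hF) hs) (mul_le_mul_of_nonneg_left (hb F hF) ht)
  · intro m hm m' hm' F c hF hc
    obtain ⟨h1, h2⟩ := subl_of Γ (fun h : Γ => m ∘ₗ LinearMap.funLeft ℝ ℝ (fun g => h * g))
      (fun h => hM _ (hI m hm h)) (fun i h => ⟨h * i, fun F => by
        show m (fun g => F (h * (i * g))) = m (fun g => F (h * i * g))
        simp only [mul_assoc]⟩)
    have h3 := hmin _ h1 (fun G => by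
      by_cases hG : Bdd G
      · simp only [if_pos hG]
        exact ciSup_le (fun h => hI m hm h G hG)
      · simp only [if_neg hG]
        exact (hρ.1 G hG).ge) F
    simp only [if_pos hF] at h3
    exact exists_lt_of_lt_ciSup (hc.trans_le ((hm' F hF).trans h3))

end Pool.Agent.Lib.MP_040728_al.U
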