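import Mathlib
import Pool.Agent.Lib.MP_040728_al.UMean

set_option autoImplicit false

namespace Pool.Agent.Lib.MP_040728_al.U

open Finset Filter Topology

variable {H W : Type} [NormedAddCommGroup H] [NormedSpace ℂ H] [NormedAddCommGroup W]
  [NormedSpace ℝ W]

/-- The family `x` is dominated, with total cost `c`, by one weight of norm at most one. -/
def Phi (Dom : W → H → ℝ → Prop) {ι : Type} [Fintype ι] (x : ι → H) (c : ℝ) : Prop :=
  ∃ (w : W) (v : ι → ℝ), ‖w‖ ≤ 1 ∧ (∀ i, Dom w (x i) (v i)) ∧ ∑ i, v i ≤ c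

/-- The cone properties of the domination relation. -/
structure Cone (Dom : W → H → ℝ → Prop) : Prop where
  add : ∀ w y v w' y' v', Dom w y v → Dom w' y' v' → Dom (w + w') (y + y') (v + v')
  smul : ∀ (a : ℝ) w y v, 0 ≤ a → Dom w y v → Dom (a • w) ((a : ℂ) • y) (a * v)
  mono : ∀ w y v v', Dom w y v → v ≤ v' → Dom w y v'
  nonneg : ∀ w y v, Dom w y v → 0 ≤ v
  mix : ∀ (α β : Type) [Fintype α] [Fintype β] [Nonempty α] (Y : β → α → ℂ) (c : ℝ), 0 ≤ c →
    (∀ a : α → ℂ, ∑ i, ‖∑ l, Y i l * a l‖ ^ 2 ≤ c * ∑ l, ‖a l‖ ^ 2) →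
    ∀ (w : W) (y : α → H) (v : α → ℝ), (∀ l, Dom w (y l) (v l)) →
      ∃ v' : β → ℝ, (∀ i, Dom w (∑ l, Y i l • y l) (v' i)) ∧ ∑ i, v' i ≤ c * ∑ l, v l

variable {Dom : W → H → ℝ → Prop}

omit [NormedAddCommGroup H] [NormedSpace ℂ H] [NormedSpace ℝ W] in
theorem Phi.mono {ι : Type} [Fintype ι] {x : ι → H} {c c' : ℝ} (h : Phi Dom x c) (hc : c ≤ c') :
    Phi Dom x c' := by
  obtain ⟨w, v, a, b, d⟩ := h
  exact ⟨w, v, a, b, d.trans hc⟩

theorem Cone.hom (h : Cone Dom) {w : W} {y : H} {v : ℝ} (hd : Dom w y v) (s : ℂ) :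
    Dom w (s • y) (‖s‖ ^ 2 * v) := by
  obtain ⟨v', a, b⟩ := h.mix Unit Unit (fun _ _ => s) (‖s‖ ^ 2) (by positivity)
    (fun a => by simp [mul_pow]) w (fun _ => y) (fun _ => v) (fun _ => hd)
  have a' := a ()
  simp only [univ_unique, sum_singleton] at a' b
  exact h.mono _ _ _ _ a' b

theorem Cone.scale (h : Cone Dom) {w : W} {y : H} {v a : ℝ} (ha : 0 < a) (hd : Dom w y v) :
    Dom (a⁻¹ • w) y (a * v) := by
  have h1 := h.hom (h.smul a⁻¹ w y v (inv_pos.mpr ha).le hd) (a : ℂ)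
  have e1 : (a : ℂ) • ((a⁻¹ : ℝ) : ℂ) • y = y := by
    rw [smul_smul, ← Complex.ofReal_mul, mul_inv_cancel₀ ha.ne', Complex.ofReal_one, one_smul]
  have e2 : ‖(a : ℂ)‖ ^ 2 * (a⁻¹ * v) = a * v := by
    rw [Complex.norm_real, Real.norm_of_nonneg ha.le]; field_simp
  rwa [e1, e2] at h1

theorem Cone.conv (h : Cone Dom) {w w' : W} {y : H} {v v' a b : ℝ} (hd : Dom w y v)
    (hd' : Dom w' y v') (ha : 0 ≤ a) (hb : 0 ≤ b) (hab : a + b = 1) :
    Dom (a • w + b • w') y (a * v + b * v') := by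
  have := h.add _ _ _ _ _ _ (h.smul a w y v ha hd) (h.smul b w' y v' hb hd')
  rwa [← add_smul, ← Complex.ofReal_add, hab, Complex.ofReal_one, one_smul] at this

theorem Hilb.hom {P : H → ℝ} (h : Hilb P) (y : H) (s : ℝ) : P ((s : ℂ) • y) ≤ s ^ 2 * P y := by
  have := h.2 Unit Unit (fun _ _ => (s : ℂ)) (s ^ 2) (by positivity)
    (fun a => by simp [mul_pow]) (fun _ => y)
  simpa using this

/-- Finite Maurey lemma. -/
theorem Cone.maurey (h : Cone Dom) {J : Type} [Fintype J] (y : J → H) (b : J → ℝ)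
    (hy : ∀ (s : J → ℝ) (c : ℝ), ∑ j, s j ^ 2 * b j < c → Phi Dom (fun j => (s j : ℂ) • y j) c)
    {ε : ℝ} (hε : 0 < ε) : ∃ w : W, ‖w‖ ≤ 1 ∧ ∀ j, Dom w (y j) (b j + ε) := by
  classical
  by_contra hn
  let O : Set (J → ℝ) := Set.pi Set.univ (fun j => Set.Iio (b j + ε))
  let D : Set (J → ℝ) := {v | ∃ w : W, ‖w‖ ≤ 1 ∧ ∀ j, Dom w (y j) (v j)}
  have hO : Convex ℝ O := convex_pi (fun j _ => convex_Iio _)
  have hO' : IsOpen O := isOpen_set_pi Set.finite_univ (fun j _ => isOpen_Iio)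
  have hD : Convex ℝ D := by
    rintro v ⟨w, hw, hv⟩ v' ⟨w', hw', hv'⟩ s t hs ht hst
    refine ⟨s • w + t • w', ?_, fun j => h.conv (hv j) (hv' j) hs ht hst⟩
    refine (norm_add_le _ _).trans ?_
    rw [norm_smul, norm_smul, Real.norm_of_nonneg hs, Real.norm_of_nonneg ht]
    nlinarith
  have hdis : Disjoint O D := by
    rw [Set.disjoint_left]
    rintro v hv ⟨w, hw, hd⟩
    exact hn ⟨w, hw, fun j => h.mono _ _ _ _ (hd j) (le_of_lt (hv j trivial))⟩
  obtain ⟨f, u, hf1, hf2⟩ := geometric_hahn_banach_open hO hO' hD hdis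
  let t : J → ℝ := fun j => f (Pi.single j 1)
  have hft : ∀ v : J → ℝ, f v = ∑ j, t j * v j := by
    intro v
    conv_lhs => rw [← Finset.univ_sum_single v]
    rw [map_sum]
    refine sum_congr rfl (fun j _ => ?_)
    have : (Pi.single j (v j) : J → ℝ) = v j • (Pi.single j 1 : J → ℝ) := by
      rw [← Pi.single_smul, smul_eq_mul, mul_one]
    rw [this, map_smul, smul_eq_mul, mul_comm]
  have hb : f b < u := hf1 b (fun j _ => by simpa using hε)
  have ht : ∀ j, 0 ≤ t j := by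
    intro j
    by_contra hj
    have hj' : 0 < -t j := by linarith [not_le.mp hj]
    have := hf1 (b - ((u - f b) / -t j) • (Pi.single j 1 : J → ℝ)) (fun i _ => by
      have a : 0 ≤ (u - f b) / -t j * (Pi.single j 1 : J → ℝ) i :=
        mul_nonneg (div_pos (by linarith) hj').le (by by_cases e : i = j <;> simp [e])
      simp only [Pi.sub_apply, Pi.smul_apply, smul_eq_mul, Set.mem_Iio]
      linarith)
    rw [map_sub, map_smul, smul_eq_mul] at this
    have e : (u - f b) / -t j * f (Pi.single j 1) = -(u - f b) := by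
      show (u - f b) / -t j * t j = _
      have := hj'.ne'
      have : t j ≠ 0 := by intro e; simp [e] at hj'
      field_simp
    linarith
  obtain ⟨τ, hτ, hτ'⟩ : ∃ τ : ℝ, 0 < τ ∧ f b + τ * ∑ j, b j < u := by
    have : Tendsto (fun τ : ℝ => f b + τ * ∑ j, b j) (𝓝[>] 0) (𝓝 (f b + 0 * ∑ j, b j)) :=
      (Continuous.tendsto (by fun_prop) 0).mono_left nhdsWithin_le_nhds
    rw [zero_mul, add_zero] at this
    obtain ⟨τ, a, b⟩ := ((this.eventually (gt_mem_nhds hb)).and self_mem_nhdsWithin).exists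
    exact ⟨τ, b, a⟩
  have hp : ∀ j, 0 < t j + τ := fun j => by linarith [ht j]
  obtain ⟨c, hc1, hc2⟩ := exists_between hτ'
  obtain ⟨w, v, hw, hv, hs⟩ := hy (fun j => Real.sqrt (t j + τ)) c (by
    refine lt_of_eq_of_lt ?_ hc1
    rw [hft, mul_sum, ← sum_add_distrib]
    exact sum_congr rfl (fun j _ => by rw [Real.sq_sqrt (hp j).le]; ring))
  have hm : (fun j => v j / (t j + τ)) ∈ D := by
    refine ⟨w, hw, fun j => ?_⟩
    have a := h.hom (hv j) ((Real.sqrt (t j + τ))⁻¹ : ℝ)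
    have q := Real.sqrt_pos.mpr (hp j)
    rw [smul_smul, ← Complex.ofReal_mul, inv_mul_cancel₀ q.ne', Complex.ofReal_one, one_smul,
      Complex.norm_real, Real.norm_of_nonneg (inv_pos.mpr q).le, inv_pow, Real.sq_sqrt (hp j).le,
      inv_mul_eq_div] at a
    exact a
  have := hf2 _ hm
  rw [hft] at this
  have : ∑ j, t j * (v j / (t j + τ)) ≤ ∑ j, v j := sum_le_sum (fun j _ => by
    rw [← mul_div_assoc, div_le_iff₀ (hp j)]
    nlinarith [h.nonneg _ _ _ (hv j)])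
  linarith

/-- An ultrafilter on pairs (finite set, integer) going to infinity. -/
noncomputable def UF (I : Type) : Ultrafilter (Finset I × ℕ) := by
  classical exact Ultrafilter.of atTop

theorem UF_le (I : Type) : (UF I : Filter (Finset I × ℕ)) ≤ atTop := by
  classical exact Ultrafilter.of_le atTop

theorem UF_mem {I : Type} (i : I) : ∀ᶠ d in (UF I : Filter (Finset I × ℕ)), i ∈ d.1 := by
  refine UF_le I ?_
  filter_upwards [eventually_ge_atTop (({i}, 0) : Finset I × ℕ)] with d hd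
  exact hd.1 (mem_singleton_self i)

theorem UF_eps (I : Type) :
    Tendsto (fun d : Finset I × ℕ => (1 : ℝ) / ((d.2 : ℝ) + 1)) (UF I) (𝓝 0) := by
  refine (tendsto_one_div_add_atTop_nhds_zero_nat.comp ?_).mono_left (UF_le I)
  refine tendsto_atTop.mpr (fun n => ?_)
  filter_upwards [eventually_ge_atTop ((∅, n) : Finset I × ℕ)] with d hd
  exact hd.2

theorem ulim {D : Type} (𝒰 : Ultrafilter D) (a : D → ℝ) {C : ℝ}
    (h : ∀ᶠ d in (𝒰 : Filter D), |a d| ≤ C) : ∃ l, Tendsto a 𝒰 (𝓝 l) := by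
  obtain ⟨l, -, hl⟩ := (isCompact_Icc (a := -C) (b := C)).ultrafilter_le_nhds (𝒰.map a) (by
    rw [Ultrafilter.coe_map, le_principal_iff, Filter.mem_map]
    filter_upwards [h] with d hd
    exact abs_le.mp hd)
  exact ⟨l, hl⟩

theorem Cone.weights (h : Cone Dom) {I : Type} (y : I → H) (b : I → ℝ)
    (hy : ∀ (ι : Type) [Fintype ι] (e : ι → I) (s : ι → ℝ) (c : ℝ), ∑ j, s j ^ 2 * b (e j) < c →
      Phi Dom (fun j => (s j : ℂ) • y (e j)) c) :
    ∃ w : Finset I × ℕ → W, ∀ d, ‖w d‖ ≤ 1 ∧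
      ∀ i ∈ d.1, Dom (w d) (y i) (b i + 1 / ((d.2 : ℝ) + 1)) := by
  have : ∀ d : Finset I × ℕ, ∃ w : W, ‖w‖ ≤ 1 ∧
      ∀ i ∈ d.1, Dom w (y i) (b i + 1 / ((d.2 : ℝ) + 1)) := by
    intro d
    obtain ⟨w, a, c⟩ := h.maurey (J := d.1) (fun j => y j) (fun j => b j)
      (hy d.1 Subtype.val) (ε := 1 / ((d.2 : ℝ) + 1)) (by positivity)
    exact ⟨w, a, fun i hi => c ⟨i, hi⟩⟩
  choose w hw using this
  exact ⟨w, hw⟩

/-- Lower bound of `Q` in terms of weights. -/
def Low (Dom : W → H → ℝ → Prop) (Q : H → ℝ) : Prop :=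
  ∀ (ι : Type) [Fintype ι] (x : ι → H) (c : ℝ), ∑ i, Q (x i) < c → Phi Dom x c

omit [NormedAddCommGroup H] [NormedSpace ℂ H] [NormedAddCommGroup W] [NormedSpace ℝ W] in
theorem near_inf {ι : Type} [Fintype ι] (w : W) (x : ι → H)
    (hx : ∀ i, ∃ v, Dom w (x i) v) {ε : ℝ} (hε : 0 < ε) :
    ∃ v : ι → ℝ, (∀ i, Dom w (x i) (v i)) ∧
      ∑ i, v i ≤ ∑ i, sInf {v | Dom w (x i) v} + ε := by
  have hk : (0 : ℝ) < Fintype.card ι + 1 := by positivity
  have : ∀ i, ∃ v, Dom w (x i) v ∧ v < sInf {v | Dom w (x i) v} + ε / (Fintype.card ι + 1) :=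
    fun i => exists_lt_of_csInf_lt (s := {v | Dom w (x i) v}) (hx i)
      (lt_add_of_pos_right _ (div_pos hε hk))
  choose v hv hv' using this
  refine ⟨v, hv, (sum_le_sum (fun i _ => (hv' i).le)).trans ?_⟩
  rw [sum_add_distrib, sum_const, card_univ, nsmul_eq_mul, add_le_add_iff_left, ← mul_div_assoc,
    div_le_iff₀ hk]
  nlinarith

/-- A Hilbert-like function below a family of bounds. -/
theorem Cone.limit (h : Cone Dom) {K : Type} (k0 : K) (b : K → H → ℝ) (hb0 : b k0 0 ≤ 0)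
    (hy : ∀ (ι : Type) [Fintype ι] (k : ι → K) (y : ι → H) (s : ι → ℝ) (c : ℝ),
      ∑ j, s j ^ 2 * b (k j) (y j) < c → Phi Dom (fun j => (s j : ℂ) • y j) c) :
    ∃ Q : H → ℝ, Hilb Q ∧ Low Dom Q ∧ ∀ k y, Q y ≤ b k y := by
  obtain ⟨w, hw⟩ := h.weights (I := K × H) Prod.snd (fun i => b i.1 i.2)
    (fun ι _ e s c hc => hy ι (fun j => (e j).1) (fun j => (e j).2) s c hc)
  let q : Finset (K × H) × ℕ → H → ℝ := fun d y => sInf {v | Dom (w d) y v}
  have hbb : ∀ d y, BddBelow {v | Dom (w d) y v} := fun d y => ⟨0, fun v hv => h.nonneg _ _ _ hv⟩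
  have q0 : ∀ d y, 0 ≤ q d y := fun d y => Real.sInf_nonneg (fun v hv => h.nonneg _ _ _ hv)
  have q1 : ∀ k y, ∀ᶠ d in (UF (K × H) : Filter _), q d y ≤ b k y + 1 / ((d.2 : ℝ) + 1) := by
    intro k y
    filter_upwards [UF_mem (k, y)] with d hd
    exact csInf_le (hbb d y) ((hw d).2 _ hd)
  have q2 : ∀ (ι : Type) [Fintype ι] (x : ι → H),
      ∀ᶠ d in (UF (K × H) : Filter _), ∀ i, ∃ v, Dom (w d) (x i) v := by
    intro ι _ x
    refine eventually_all.mpr (fun i => ?_)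
    filter_upwards [UF_mem (k0, x i)] with d hd
    exact ⟨_, (hw d).2 _ hd⟩
  have : ∀ y, ∃ l, Tendsto (fun d => q d y) (UF (K × H)) (𝓝 l) := by
    intro y
    refine ulim _ _ (C := b k0 y + 1) ?_
    filter_upwards [q1 k0 y] with d hd
    rw [abs_of_nonneg (q0 d y)]
    refine hd.trans (add_le_add_right ?_ _)
    rw [div_le_one (by positivity)]
    linarith [(Nat.cast_nonneg d.2 : (0 : ℝ) ≤ _)]
  choose Q hQ using this
  have hle : ∀ k y, Q y ≤ b k y := fun k y => by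
    have := le_of_tendsto_of_tendsto (hQ y) ((UF_eps (K × H)).const_add (b k y)) (q1 k y)
    rwa [add_zero] at this
  refine ⟨Q, ⟨fun y => ge_of_tendsto' (hQ y) (fun d => q0 d y), ?_⟩, ?_, hle⟩
  · intro α β _ _ Y c hc hY y
    rcases isEmpty_or_nonempty α with hα | hα
    · simp only [univ_eq_empty, sum_empty, mul_zero]
      exact sum_nonpos (fun i _ => (hle k0 0).trans hb0)
    refine le_of_tendsto_of_tendsto (tendsto_finsetSum _ (fun i _ => hQ _))
      ((tendsto_finsetSum _ (fun l _ => hQ (y l))).const_mul c) ?_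
    filter_upwards [q2 α y] with d hd
    refine le_of_forall_pos_le_add (fun ε hε => ?_)
    obtain ⟨v, hv, hs⟩ := near_inf (Dom := Dom) (w d) y hd (ε := ε / (c + 1)) (by positivity)
    obtain ⟨v', hv', hs'⟩ := h.mix α β Y c hc hY (w d) y v hv
    refine (sum_le_sum (fun i _ => csInf_le (hbb d _) (hv' i))).trans (hs'.trans ?_)
    refine (mul_le_mul_of_nonneg_left hs hc).trans ?_
    rw [mul_add, add_le_add_iff_left, ← mul_div_assoc, div_le_iff₀ (by positivity)]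
    nlinarith
  · intro ι _ x c hc
    obtain ⟨d, hd1, hd2⟩ := (((tendsto_finsetSum univ (fun i _ => hQ (x i))).eventually
      (gt_mem_nhds hc)).and (q2 ι x)).exists
    obtain ⟨v, hv, hs⟩ := near_inf (Dom := Dom) (w d) x hd2 (sub_pos.mpr hd1)
    exact ⟨w d, v, (hw d).1, hv, hs.trans (by simp [q])⟩

end Pool.Agent.Lib.MP_040728_al.U
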