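import Mathlib
import Pool.Agent.Lib.MP_040728_al.UAbs1

set_option autoImplicit false

namespace Pool.Agent.Lib.MP_040728_al.U

open Finset Filter Topology

variable {Γ H W : Type} [Group Γ] [NormedAddCommGroup H] [NormedSpace ℂ H] [NormedAddCommGroup W]
  [NormedSpace ℝ W]

/-- The analytic input. -/
structure Sys (π : Γ →* (H →L[ℂ] H)ˣ) (Dom : W → H → ℝ → Prop) (C lam : ℝ) : Prop where
  cone : Cone Dom
  hC : 0 < C
  hlam : 0 < lam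
  khin : ∀ (ι : Type) [Fintype ι] (x : ι → H) (c : ℝ) (g : Γ), 0 < c → Phi Dom x c →
    Phi Dom (fun i => (π g : H →L[ℂ] H) (x i)) (C * c)
  init : ∃ A, 0 ≤ A ∧ Low Dom (fun y => A * ‖y‖ ^ 2)
  low : ∃ A, 0 ≤ A ∧ ∀ w y v, ‖w‖ ≤ 1 → Dom w y v → ‖y‖ ^ 2 ≤ A * v
  uc : ∀ R : ℝ, 0 ≤ R → R ≤ 1 → ∀ (ι : Type) [Fintype ι] [Nonempty ι], ∃ δ, 0 < δ ∧
    ∀ (w : ι → W) (y : ι → H) (v : ι → ℝ) (φ : W →L[ℝ] ℝ), ‖φ‖ ≤ 1 →
      (∀ i, ‖w i‖ ≤ R + δ ∧ R - δ ≤ φ (w i) ∧ Dom (w i) (y i) (v i)) →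
      ∃ w', ‖w'‖ ≤ lam ∧ ∀ i, Dom w' (y i) (v i)

/-- The average of the translates of `Q`. -/
def Qm (π : Γ →* (H →L[ℂ] H)ˣ) (Q : H → ℝ) (m : (Γ → ℝ) →ₗ[ℝ] ℝ) (y : H) : ℝ :=
  m (fun g => Q ((π g⁻¹ : H →L[ℂ] H) y))

/-- Hilbert-like and bounded above. -/
def Nice (Q : H → ℝ) : Prop := Hilb Q ∧ ∃ M, 0 ≤ M ∧ ∀ y, Q y ≤ M * ‖y‖ ^ 2

variable {π : Γ →* (H →L[ℂ] H)ˣ} {Dom : W → H → ℝ → Prop} {C lam : ℝ}

theorem pi_mul (π : Γ →* (H →L[ℂ] H)ˣ) (g h : Γ) (y : H) :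
    (π g : H →L[ℂ] H) ((π h : H →L[ℂ] H) y) = (π (g * h) : H →L[ℂ] H) y := by
  rw [map_mul, Units.val_mul]; rfl

theorem pi_one (π : Γ →* (H →L[ℂ] H)ˣ) (y : H) : (π 1 : H →L[ℂ] H) y = y := by
  rw [map_one, Units.val_one]; rfl

theorem pi_sq {D : ℝ} (hD : ∀ g, ‖(π g : H →L[ℂ] H)‖ ≤ D) (g : Γ) (y : H) :
    ‖(π g : H →L[ℂ] H) y‖ ^ 2 ≤ D ^ 2 * ‖y‖ ^ 2 := by
  rw [← mul_pow]
  exact pow_le_pow_left₀ (norm_nonneg _) ((π g : H →L[ℂ] H).le_of_opNorm_le (hD g) y) 2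

theorem Nice.bdd {D : ℝ} (hD : ∀ g, ‖(π g : H →L[ℂ] H)‖ ≤ D) {Q : H → ℝ} (hQ : Nice Q) (y : H) :
    Bdd (fun g => Q ((π g⁻¹ : H →L[ℂ] H) y)) := by
  obtain ⟨h, M, hM, hM'⟩ := hQ
  refine ⟨M * (D ^ 2 * ‖y‖ ^ 2), fun g => ?_⟩
  rw [abs_of_nonneg (h.1 _)]
  exact (hM' _).trans (mul_le_mul_of_nonneg_left (pi_sq hD _ y) hM)

theorem Nice.qm {D : ℝ} (hD : ∀ g, ‖(π g : H →L[ℂ] H)‖ ≤ D) {Q : H → ℝ} (hQ : Nice Q)
    {m : (Γ → ℝ) →ₗ[ℝ] ℝ} (hm : IsMean m) : Nice (Qm π Q m) := by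
  refine ⟨⟨fun y => hm.ge (hQ.bdd hD y) (fun g => hQ.1.1 _), ?_⟩, ?_⟩
  · intro α β _ _ Y c hc hY y
    simp only [Qm]
    rw [← map_sum, ← map_sum, ← smul_eq_mul, ← map_smul]
    refine hm.mono (bdd_sum _ (fun i _ => hQ.bdd hD _))
      ((bdd_sum _ (fun i _ => hQ.bdd hD _)).smul c) (fun g => ?_)
    simp only [Finset.sum_apply, Pi.smul_apply, smul_eq_mul, map_sum, map_smul]
    exact hQ.1.2 α β Y c hc hY _
  · obtain ⟨M, hM, hM'⟩ := hQ.2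
    exact ⟨M * D ^ 2, by positivity, fun y => hm _ _ (hQ.bdd hD y) (fun g => (hM' _).trans (by
      rw [mul_assoc]; exact mul_le_mul_of_nonneg_left (pi_sq hD _ y) hM))⟩

theorem qm_shift (Q : H → ℝ) (m : (Γ → ℝ) →ₗ[ℝ] ℝ) (h : Γ) (y : H) :
    Qm π Q (m ∘ₗ LinearMap.funLeft ℝ ℝ (fun g => h * g)) ((π h : H →L[ℂ] H) y) = Qm π Q m y := by
  show m (fun g => Q ((π (h * g)⁻¹ : H →L[ℂ] H) ((π h : H →L[ℂ] H) y))) = _
  simp only [pi_mul, mul_inv_rev, inv_mul_cancel_right, Qm]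

omit [Group Γ] in
/-- The separation step. -/
theorem Cone.sep (h : Cone Dom) {D : Type} (𝒰 : Ultrafilter D) (w : Γ → D → W)
    (F : (W →L[ℝ] ℝ) → Γ → ℝ) (hF : ∀ ψ g, Tendsto (fun d => ψ (w g d)) 𝒰 (𝓝 (F ψ g)))
    (hB : ∀ ψ, Bdd (F ψ)) {m : (Γ → ℝ) →ₗ[ℝ] ℝ} (hm : IsMean m) {R : ℝ} (hR0 : 0 ≤ R)
    (hR : ∀ ψ, m (F ψ) ≤ R * ‖ψ‖) (φ : W →L[ℝ] ℝ) (y : H) (G : Γ → ℝ) (hG : Bdd G)
    (e : D → ℝ) (he : Tendsto e 𝒰 (𝓝 0))
    (hd : ∀ g, ∀ᶠ d in (𝒰 : Filter D), Dom (w g d) y (G g + e d)) {δ : ℝ} (hδ : 0 < δ) :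
    ∃ w', ‖w'‖ ≤ R + δ ∧ m (F φ) - δ ≤ φ w' ∧ Dom w' y (m G + δ) := by
  by_contra hn
  let O : Set (W × ℝ × ℝ) :=
    Metric.ball 0 (R + δ) ×ˢ Set.Ioi (m (F φ) - δ) ×ˢ Set.Iio (m G + δ)
  let S : Set (W × ℝ × ℝ) := {z | z.2.1 = φ z.1 ∧ Dom z.1 y z.2.2}
  have hO : Convex ℝ O := (convex_ball _ _).prod ((convex_Ioi _).prod (convex_Iio _))
  have hO' : IsOpen O := Metric.isOpen_ball.prod (isOpen_Ioi.prod isOpen_Iio)
  have hS : Convex ℝ S := by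
    rintro z ⟨a, b⟩ z' ⟨a', b'⟩ s t hs ht hst
    refine ⟨?_, h.conv b b' hs ht hst⟩
    simp [a, a']
  have hdis : Disjoint O S := by
    rw [Set.disjoint_left]
    rintro z ⟨a, b, c⟩ ⟨a', b'⟩
    exact hn ⟨z.1, (mem_ball_zero_iff.mp a).le, a' ▸ le_of_lt b, h.mono _ _ _ _ b' (le_of_lt c)⟩
  obtain ⟨f, u, hf1, hf2⟩ := geometric_hahn_banach_open hO hO' hS hdis
  let ψ : W →L[ℝ] ℝ := f.comp (ContinuousLinearMap.inl ℝ W (ℝ × ℝ))
  have hf : ∀ (a : W) (s v : ℝ), f (a, s, v) = ψ a + f (0, 1, 0) * s + f (0, 0, 1) * v := by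
    intro a s v
    have : ((a, s, v) : W × ℝ × ℝ) = (a, 0, 0) + s • (0, 1, 0) + v • (0, 0, 1) := by simp
    rw [this, map_add, map_add, map_smul, map_smul, smul_eq_mul, smul_eq_mul, mul_comm s,
      mul_comm v]
    rfl
  have h1 : ∀ g, u ≤ (F ψ + f (0, 1, 0) • F φ + f (0, 0, 1) • G) g := by
    intro g
    have t := ((hF ψ g).add ((hF φ g).const_mul (f (0, 1, 0)))).add
      ((he.const_add (G g)).const_mul (f (0, 0, 1)))
    rw [add_zero] at t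
    refine ge_of_tendsto t ?_
    filter_upwards [hd g] with d hd'
    rw [← hf]
    exact hf2 _ ⟨rfl, hd'⟩
  have h2 := hm.ge (((hB ψ).add ((hB φ).smul _)).add (hG.smul _)) h1
  rw [map_add, map_add, map_smul, map_smul, smul_eq_mul, smul_eq_mul] at h2
  obtain ⟨a, ha1, ha2⟩ : ∃ a : W, ‖a‖ < R + δ ∧ R * ‖ψ‖ ≤ ψ a := by
    rcases (norm_nonneg ψ).eq_or_lt with h0 | h0
    · exact ⟨0, by simpa using by linarith, by simp [← h0]⟩
    have hp : 0 < R + δ := by linarith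
    obtain ⟨x, hx1, hx2⟩ := ψ.exists_lt_apply_of_lt_opNorm (r := R * ‖ψ‖ / (R + δ)) (by
      rw [div_lt_iff₀ hp]; nlinarith)
    rw [div_lt_iff₀ hp, Real.norm_eq_abs] at hx2
    rcases le_total 0 (ψ x) with s | s
    · refine ⟨(R + δ) • x, ?_, ?_⟩
      · rw [norm_smul, Real.norm_of_nonneg hp.le]; nlinarith
      · rw [abs_of_nonneg s] at hx2; rw [map_smul, smul_eq_mul]; linarith
    · refine ⟨-((R + δ) • x), ?_, ?_⟩
      · rw [norm_neg, norm_smul, Real.norm_of_nonneg hp.le]; nlinarith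
      · rw [abs_of_nonpos s] at hx2; rw [map_neg, map_smul, smul_eq_mul]; linarith
  have h3 := hf1 (a, m (F φ), m G) ⟨mem_ball_zero_iff.mpr ha1, by simpa using hδ, by simpa using hδ⟩
  rw [hf] at h3
  linarith [hR ψ]

/-- The supremum over a minimal convex set of means costs a constant. -/
theorem Sys.dyn (h : Sys π Dom C lam) {D : ℝ} (hD : ∀ g, ‖(π g : H →L[ℂ] H)‖ ≤ D)
    {K : Set ((Γ → ℝ) →ₗ[ℝ] ℝ)} (hK0 : K.Nonempty) (hK1 : Convex ℝ K) (hK2 : ∀ m ∈ K, IsMean m)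
    (hK3 : ∀ m ∈ K, ∀ h : Γ, m ∘ₗ LinearMap.funLeft ℝ ℝ (fun g => h * g) ∈ K)
    (hK4 : ∀ m ∈ K, ∀ m' ∈ K, ∀ F c, Bdd F → c < m' F → ∃ h : Γ, c < m (fun g => F (h * g)))
    {Q : H → ℝ} (hQ : Nice Q) (hL : Low Dom Q) (ι : Type) [Fintype ι] (k : ι → K) (x : ι → H)
    (c : ℝ) (hc : ∑ i, C * lam * C * Qm π Q (k i) (x i) < c) : Phi Dom x c := by
  have hC := h.hC
  have hl := h.hlam
  have hw := fun g : Γ => h.cone.weights (I := H) id (fun y => C * Q ((π g⁻¹ : H →L[ℂ] H) y))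
    (fun ι _ e s c hc => by
      have a : ∑ j, Q ((s j : ℂ) • (π g⁻¹ : H →L[ℂ] H) (e j)) < c / C := by
        rw [lt_div_iff₀ hC, sum_mul]
        refine lt_of_le_of_lt (sum_le_sum (fun j _ => ?_)) hc
        nlinarith [hQ.1.hom ((π g⁻¹ : H →L[ℂ] H) (e j)) (s j)]
      have b := h.khin ι _ _ g ((sum_nonneg (fun j _ => hQ.1.1 _)).trans_lt a) (hL ι _ _ a)
      simp only [map_smul, pi_mul, mul_inv_cancel, pi_one, mul_div_cancel₀ _ hC.ne'] at b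
      exact b)
  choose w hw using hw
  have hψ : ∀ (ψ : W →L[ℝ] ℝ) g d, |ψ (w g d)| ≤ ‖ψ‖ := fun ψ g d =>
    (ψ.le_opNorm _).trans (mul_le_of_le_one_right (norm_nonneg _) (hw g d).1)
  choose F hF using fun (ψ : W →L[ℝ] ℝ) g =>
    ulim (UF H) (fun d => ψ (w g d)) (Eventually.of_forall (hψ ψ g))
  have hF1 : ∀ ψ g, |F ψ g| ≤ ‖ψ‖ := fun ψ g => le_of_tendsto' (hF ψ g).abs (hψ ψ g)
  have hB : ∀ ψ, Bdd (F ψ) := fun ψ => ⟨_, hF1 ψ⟩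
  have hFs : ∀ (a : ℝ) ψ, F (a • ψ) = a • F ψ := fun a ψ => funext fun g =>
    tendsto_nhds_unique (hF _ g) ((hF ψ g).const_mul a)
  let S : Set ℝ := {r | ∃ m ∈ K, ∃ ψ : W →L[ℝ] ℝ, ‖ψ‖ ≤ 1 ∧ r = m (F ψ)}
  have hS1 : ∀ r ∈ S, r ≤ 1 := by
    rintro r ⟨m, hm, ψ, a, rfl⟩
    exact hK2 m hm _ _ (hB ψ) (fun g => (le_abs_self _).trans ((hF1 ψ g).trans a))
  have hF0 : F 0 = 0 := by simpa using hFs 0 0
  obtain ⟨m1, hm1⟩ := hK0
  have hS0 : (0 : ℝ) ∈ S := ⟨m1, hm1, 0, by simp, by simp [hF0]⟩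
  have hR0 : 0 ≤ sSup S := le_csSup ⟨1, hS1⟩ hS0
  have hR1 : sSup S ≤ 1 := csSup_le ⟨0, hS0⟩ hS1
  have hR : ∀ m ∈ K, ∀ ψ, m (F ψ) ≤ sSup S * ‖ψ‖ := by
    intro m hm ψ
    rcases (norm_nonneg ψ).eq_or_lt with h0 | h0
    · rw [norm_eq_zero.mp h0.symm]; simp [hF0]
    have := le_csSup ⟨1, hS1⟩ (show m (F (‖ψ‖⁻¹ • ψ)) ∈ S from
      ⟨m, hm, _, by rw [norm_smul, norm_inv, norm_norm, inv_mul_cancel₀ h0.ne'], rfl⟩)
    rwa [hFs, map_smul, smul_eq_mul, inv_mul_le_iff₀ h0, mul_comm] at this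
  have hnn : ∀ i, 0 ≤ Qm π Q (k i) (x i) := fun i => (hQ.qm hD (hK2 _ (k i).2)).1.1 _
  rcases isEmpty_or_nonempty ι with hι | hι
  · exact ⟨0, fun _ => 0, by simp, fun i => isEmptyElim i, by simpa using hc.le⟩
  obtain ⟨δ, hδ, hu⟩ := h.uc _ hR0 hR1 ι
  have hn : (0 : ℝ) < Fintype.card ι := by exact_mod_cast Fintype.card_pos
  obtain ⟨η, hη, hη1, hη2⟩ : ∃ η : ℝ, 0 < η ∧ (Fintype.card ι + 1) * η ≤ δ ∧
      C * (lam * ∑ i, (C * Qm π Q (k i) (x i) + η)) ≤ c := by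
    have t1 : Tendsto (fun η : ℝ => (Fintype.card ι + 1) * η) (𝓝[>] 0)
        (𝓝 ((Fintype.card ι + 1) * 0)) :=
      (Continuous.tendsto (by fun_prop) 0).mono_left nhdsWithin_le_nhds
    have t2 : Tendsto (fun η : ℝ => C * (lam * ∑ i, (C * Qm π Q (k i) (x i) + η))) (𝓝[>] 0)
        (𝓝 (C * (lam * ∑ i, (C * Qm π Q (k i) (x i) + 0)))) :=
      (Continuous.tendsto (by fun_prop) 0).mono_left nhdsWithin_le_nhds
    have e : C * (lam * ∑ i, (C * Qm π Q (k i) (x i) + 0)) < c := by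
      refine lt_of_eq_of_lt ?_ hc
      simp only [mul_sum]
      exact sum_congr rfl (fun i _ => by ring)
    obtain ⟨η, ⟨a, b⟩, d⟩ := (((t1.eventually (gt_mem_nhds (by simpa using hδ : _ < δ))).and
      (t2.eventually (gt_mem_nhds e))).and self_mem_nhdsWithin).exists
    exact ⟨η, d, a.le, b.le⟩
  obtain ⟨_, ⟨m0, hm0, φ, hφ, rfl⟩, hr⟩ := exists_lt_of_lt_csSup ⟨0, hS0⟩
    (show sSup S - η < sSup S by linarith)
  have hbar : ∑ i, (Fintype.card ι : ℝ)⁻¹ • (k i).1 ∈ K :=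
    hK1.sum_mem (fun _ _ => (inv_pos.mpr hn).le) (by simp [hn.ne']) (fun i _ => (k i).2)
  obtain ⟨g, hg⟩ := hK4 _ hbar _ hm0 _ _ (hB φ) hr
  let n : ι → (Γ → ℝ) →ₗ[ℝ] ℝ := fun i => (k i).1 ∘ₗ LinearMap.funLeft ℝ ℝ (fun a => g * a)
  have hnK : ∀ i, n i ∈ K := fun i => hK3 _ (k i).2 g
  have hn1 : ∀ i, n i (F φ) ≤ sSup S := fun i =>
    (hR _ (hnK i) φ).trans (mul_le_of_le_one_right hR0 hφ)
  have hn2 : ∀ i, sSup S - Fintype.card ι * η ≤ n i (F φ) := by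
    intro i
    have a : sSup S - n i (F φ) ≤ ∑ j, (sSup S - n j (F φ)) :=
      single_le_sum (f := fun j => sSup S - n j (F φ)) (fun j _ => sub_nonneg.mpr (hn1 j))
        (mem_univ i)
    rw [sum_sub_distrib, sum_const, card_univ, nsmul_eq_mul] at a
    rw [← smul_sum, LinearMap.smul_apply, LinearMap.sum_apply, smul_eq_mul,
      lt_inv_mul_iff₀ hn] at hg
    have : ∑ j, n j (F φ) = ∑ j, (k j).1 (fun a => F φ (g * a)) := rfl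
    nlinarith
  choose w' hw1 hw2 hw3 using fun i => h.cone.sep (UF H) w F hF hB (hK2 _ (hnK i)) hR0
    (hR _ (hnK i)) φ ((π g : H →L[ℂ] H) (x i))
    (C • fun a => Q ((π a⁻¹ : H →L[ℂ] H) ((π g : H →L[ℂ] H) (x i)))) ((hQ.bdd hD _).smul C) _
    (UF_eps H) (fun a => by
      filter_upwards [UF_mem ((π g : H →L[ℂ] H) (x i))] with d hd
      exact (hw a d).2 _ hd) hη
  obtain ⟨w0, hw0, hw4⟩ := hu w' _ _ φ hφ
    (fun i => ⟨(hw1 i).trans (by nlinarith), by nlinarith [hw2 i, hn2 i], hw3 i⟩)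
  have e : ∀ i, n i (C • fun a => Q ((π a⁻¹ : H →L[ℂ] H) ((π g : H →L[ℂ] H) (x i)))) =
      C * Qm π Q (k i) (x i) := fun i => by
    rw [map_smul, smul_eq_mul, ← qm_shift Q _ g]; rfl
  have hP : Phi Dom (fun i => (π g : H →L[ℂ] H) (x i))
      (lam * ∑ i, (C * Qm π Q (k i) (x i) + η)) := by
    refine ⟨lam⁻¹ • w0, fun i => lam * (C * Qm π Q (k i) (x i) + η), ?_, fun i => ?_,
      (mul_sum _ _ _).ge⟩
    · rw [norm_smul, Real.norm_of_nonneg (inv_pos.mpr hl).le, inv_mul_le_iff₀ hl, mul_one]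
      exact hw0
    · exact h.cone.scale hl (e i ▸ hw4 i)
  have b := h.khin ι _ _ g⁻¹ (mul_pos hl (sum_pos (fun i _ => by nlinarith [hnn i])
    univ_nonempty)) hP
  simp only [pi_mul, inv_mul_cancel, pi_one] at b
  exact b.mono hη2

theorem Hilb.const_mul {P : H → ℝ} (h : Hilb P) {a : ℝ} (ha : 0 ≤ a) : Hilb (fun y => a * P y) := by
  refine ⟨fun y => mul_nonneg ha (h.1 y), fun α β _ _ Y c hc hY y => ?_⟩
  rw [← mul_sum, ← mul_sum, mul_left_comm]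
  exact mul_le_mul_of_nonneg_left (h.2 α β Y c hc hY y) ha

theorem hilb_sum {ι : Type} (s : Finset ι) {P : ι → H → ℝ} (h : ∀ i, Hilb (P i)) :
    Hilb (fun y => ∑ i ∈ s, P i y) := by
  refine ⟨fun y => sum_nonneg (fun i _ => (h i).1 y), fun α β _ _ Y c hc hY y => ?_⟩
  rw [sum_comm, sum_comm (s := univ), mul_sum]
  exact sum_le_sum (fun i _ => (h i).2 α β Y c hc hY y)

/-- The representation is near unitary with a constant depending on `C` and `lam` only. -/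
theorem Sys.near (h : Sys π Dom C lam) {D : ℝ} (hD : ∀ g, ‖(π g : H →L[ℂ] H)‖ ≤ D)
    (hH : Hilb (fun y : H => ‖y‖ ^ 2)) : Near π (2 * (C * lam * C) + 1) := by
  obtain ⟨K, hK0, hK1, hK2, hK3, hK4⟩ := exists_minimal Γ
  obtain ⟨m0, hm0⟩ := hK0
  set B := C * lam * C with hB
  have hB0 : 0 < B := mul_pos (mul_pos h.hC h.hlam) h.hC
  have step : ∀ Q : {Q : H → ℝ // Nice Q ∧ Low Dom Q}, ∃ Q' : {Q : H → ℝ // Nice Q ∧ Low Dom Q},
      ∀ m ∈ K, ∀ y, Q'.1 y ≤ B * Qm π Q.1 m y := by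
    rintro ⟨Q, hQ, hL⟩
    obtain ⟨M, hM, hM'⟩ := (hQ.qm hD (hK2 _ hm0)).2
    obtain ⟨Q', a, b, c⟩ := h.cone.limit (K := K) ⟨m0, hm0⟩ (fun k y => B * Qm π Q k y)
      (by simpa using mul_le_mul_of_nonneg_left (hM' 0) hB0.le)
      (fun ι _ k y s c hc => h.dyn hD ⟨m0, hm0⟩ hK1 hK2 hK3 hK4 hQ hL ι k _ c
        (lt_of_le_of_lt (sum_le_sum (fun j _ => by
          nlinarith [(hQ.qm hD (hK2 _ (k j).2)).1.hom (y j) (s j)])) hc))
    exact ⟨⟨Q', ⟨a, B * M, by positivity, fun y => (c ⟨m0, hm0⟩ y).trans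
      ((mul_le_mul_of_nonneg_left (hM' y) hB0.le).trans_eq (mul_assoc _ _ _).symm)⟩, b⟩,
      fun m hm y => c ⟨m, hm⟩ y⟩
  choose st hst using step
  obtain ⟨A0, hA0, hA0'⟩ := h.init
  obtain ⟨A1, hA1, hA1'⟩ := h.low
  let Q : ℕ → {Q : H → ℝ // Nice Q ∧ Low Dom Q} := fun j =>
    st^[j] ⟨fun y => A0 * ‖y‖ ^ 2, ⟨hH.const_mul hA0, A0, hA0, fun _ => le_rfl⟩, hA0'⟩
  have hQ : ∀ j, ∀ m ∈ K, ∀ y, (Q (j + 1)).1 y ≤ B * Qm π (Q j).1 m y := fun j => by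
    simp only [Q, Function.iterate_succ_apply']
    exact hst _
  let P : ℕ → H → ℝ := fun j => Qm π (Q j).1 m0
  have hP : ∀ j, Nice (P j) := fun j => (Q j).2.1.qm hD (hK2 _ hm0)
  have p1 : ∀ j g y, P (j + 1) ((π g : H →L[ℂ] H) y) ≤ B * P j y := by
    intro j g y
    refine hK2 _ hm0 _ _ ((Q _).2.1.bdd hD _) (fun a => ?_)
    refine (hQ j _ (hK3 _ hm0 (a⁻¹ * g)) _).trans ?_
    rw [pi_mul, qm_shift]
  have p2 : ∀ j y, ‖y‖ ^ 2 ≤ A1 * B * P j y := by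
    intro j y
    refine le_of_forall_pos_le_add (fun ε hε => ?_)
    obtain ⟨w, v, a, b, c⟩ := (Q (j + 1)).2.2 Unit (fun _ => y) (B * P j y + ε / (A1 + 1)) (by
      have : 0 < ε / (A1 + 1) := by positivity
      simpa using (hQ j _ hm0 y).trans_lt (by linarith))
    simp only [univ_unique, sum_singleton] at c
    refine (hA1' _ _ _ a (b _)).trans ((mul_le_mul_of_nonneg_left c hA1).trans ?_)
    rw [mul_add, mul_assoc A1 B, add_le_add_iff_left, ← mul_div_assoc, div_le_iff₀ (by positivity)]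
    nlinarith
  choose M hM hM' using fun j => (hP j).2
  obtain ⟨N, hN⟩ := pow_unbounded_of_one_lt (M 0 * D ^ 2 * (A1 * B)) (one_lt_two (α := ℝ))
  have hle : ∀ y, 2 ^ N * P N y ≤ ∑ j ∈ range (N + 1), 2 ^ j * P j y := fun y =>
    single_le_sum (f := fun j => (2 : ℝ) ^ j * P j y)
      (fun j _ => mul_nonneg (by positivity) ((hP j).1.1 y)) (self_mem_range_succ N)
  have hs0 : 0 ≤ ∑ j ∈ range (N + 1), 2 ^ j * M j :=
    sum_nonneg (fun j _ => mul_nonneg (by positivity) (hM j))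
  refine ⟨fun y => ∑ j ∈ range (N + 1), 2 ^ j * P j y, ∑ j ∈ range (N + 1), 2 ^ j * M j + A1 * B,
    hilb_sum _ (fun j => (hP j).1.const_mul (by positivity)), fun y => ?_, fun y => ?_,
    fun g y => ?_⟩
  · refine le_trans ?_ (mul_le_mul_of_nonneg_right (le_add_of_nonneg_right (by positivity))
      (by positivity))
    rw [sum_mul]
    exact sum_le_sum (fun j _ => by
      rw [mul_assoc]; exact mul_le_mul_of_nonneg_left (hM' j y) (by positivity))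
  · have a : P N y ≤ 2 ^ N * P N y := le_mul_of_one_le_left ((hP N).1.1 y) (one_le_pow₀ one_le_two)
    refine (p2 N y).trans (mul_le_mul (le_add_of_nonneg_left hs0) (a.trans (hle y)) ((hP N).1.1 y)
      (by positivity))
  · have a : P 0 ((π g : H →L[ℂ] H) y) ≤ 2 ^ N * P N y := by
      refine (hM' 0 _).trans ((mul_le_mul_of_nonneg_left ((pi_sq hD g y).trans
        (mul_le_mul_of_nonneg_left (p2 N y) (by positivity))) (hM 0)).trans ?_)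
      nlinarith [(hP N).1.1 y]
    have b : ∑ j ∈ range N, 2 ^ (j + 1) * P (j + 1) ((π g : H →L[ℂ] H) y) ≤
        2 * B * ∑ j ∈ range (N + 1), 2 ^ j * P j y := by
      rw [sum_range_succ, mul_add, mul_sum]
      refine le_add_of_le_of_nonneg (sum_le_sum (fun j _ => ?_))
        (mul_nonneg (by positivity) (mul_nonneg (by positivity) ((hP N).1.1 y)))
      calc _ ≤ 2 ^ (j + 1) * (B * P j y) := mul_le_mul_of_nonneg_left (p1 j g y) (by positivity)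
        _ = _ := by ring
    show ∑ j ∈ range (N + 1), 2 ^ j * P j ((π g : H →L[ℂ] H) y) ≤ _
    rw [sum_range_succ', pow_zero, one_mul]
    linarith [hle y]

end Pool.Agent.Lib.MP_040728_al.U
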