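import Mathlib
import Pool.Agent.Lib.MP_040728_al.UAbs2

set_option autoImplicit false
set_option linter.unusedSectionVars false

namespace Pool.Agent.Lib.MP_040728_al.U

open Finset Filter Topology MeasureTheory

variable {X : Type} [MeasurableSpace X] {μ : Measure X}

theorem lp_int {E : Type} [NormedAddCommGroup E] {p : ENNReal} (h0 : p ≠ 0) (ht : p ≠ ⊤)
    (f : Lp E p μ) :
    Integrable (fun x => ‖f x‖ ^ p.toReal) μ ∧ ∫ x, ‖f x‖ ^ p.toReal ∂μ = ‖f‖ ^ p.toReal := by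
  refine ⟨(Lp.memLp f).integrable_norm_rpow h0 ht, ?_⟩
  have pp : p.toReal ≠ 0 := ENNReal.toReal_ne_zero.mpr ⟨h0, ht⟩
  have n0 : 0 ≤ ∫ x, ‖f x‖ ^ p.toReal ∂μ := integral_nonneg (fun x => by positivity)
  rw [Lp.norm_def, (Lp.memLp f).eLpNorm_eq_integral_rpow_norm h0 ht,
    ENNReal.toReal_ofReal (by positivity), Real.rpow_inv_rpow n0 pp]

variable {p r : ENNReal} [Fact (1 ≤ p)] [Fact (1 ≤ r)]

theorem coe_comb {ι : Type} [Fintype ι] (c : ι → ℂ) (f : ι → Lp ℂ p μ) :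
    ∀ᵐ t ∂μ, (∑ l, c l • f l : Lp ℂ p μ) t = ∑ l, c l * f l t := by
  filter_upwards [Lp.coeFn_fun_finsetSum univ (fun l => c l • f l),
    ae_all_iff.mpr (fun l => Lp.coeFn_smul (c l) (f l))] with t a b
  rw [a]
  exact sum_congr rfl (fun l _ => b l)

variable {H : Type} [NormedAddCommGroup H] [NormedSpace ℂ H]

theorem mem_comb {G : Submodule ℂ (Lp ℂ p μ × H)} {ι : Type} [Fintype ι] (c : ι → ℂ)
    {f : ι → Lp ℂ p μ} {y : ι → H} (h : ∀ l, (f l, y l) ∈ G) :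
    (∑ l, c l • f l, ∑ l, c l • y l) ∈ G := by
  have := G.sum_mem (t := univ) (fun l _ => G.smul_mem (c l) (h l))
  convert this using 1
  ext <;> simp [Prod.fst_sum, Prod.snd_sum]

/-- Some lift `f` of `y` satisfies `|f|^2 ≤ w u` with `∫ u ≤ v`. -/
def LD (G : Submodule ℂ (Lp ℂ p μ × H)) (w : Lp ℝ r μ) (y : H) (v : ℝ) : Prop :=
  ∃ (f : Lp ℂ p μ) (u : X → ℝ), (f, y) ∈ G ∧ Integrable u μ ∧ ∫ t, u t ∂μ ≤ v ∧
    ∀ᵐ t ∂μ, 0 ≤ w t ∧ 0 ≤ u t ∧ ‖f t‖ ^ 2 ≤ w t * u t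

variable {G : Submodule ℂ (Lp ℂ p μ × H)}

theorem LD.of_le {w w' : Lp ℝ r μ} {y : H} {v : ℝ} (h : LD G w y v) (hw : ∀ᵐ t ∂μ, w t ≤ w' t) :
    LD G w' y v := by
  obtain ⟨f, u, a, b, c, d⟩ := h
  refine ⟨f, u, a, b, c, ?_⟩
  filter_upwards [d, hw] with t ⟨d1, d2, d3⟩ e
  exact ⟨d1.trans e, d2, d3.trans (mul_le_mul_of_nonneg_right e d2)⟩

/-- Dividing by the weight. -/
theorem LD.div {β : Type} [Fintype β] (w : Lp ℝ r μ) {f : β → Lp ℂ p μ} {y : β → H}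
    (hf : ∀ i, (f i, y i) ∈ G) {U : X → ℝ} (hU : Integrable U μ)
    (h : ∀ᵐ t ∂μ, 0 ≤ w t ∧ 0 ≤ U t ∧ ∑ i, ‖f i t‖ ^ 2 ≤ w t * U t) :
    ∃ v : β → ℝ, (∀ i, LD G w (y i) (v i)) ∧ ∑ i, v i ≤ ∫ t, U t ∂μ := by
  have h1 : ∀ᵐ t ∂μ, ∑ i, ‖f i t‖ ^ 2 / w t ≤ U t := by
    filter_upwards [h] with t ⟨a, b, c⟩
    rw [← sum_div]
    rcases a.eq_or_lt with e | e
    · rw [← e, div_zero]; exact b
    · rwa [div_le_iff₀' e]
  have h2 : ∀ i, Integrable (fun t => ‖f i t‖ ^ 2 / w t) μ := by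
    intro i
    refine hU.mono' ((((Lp.aestronglyMeasurable (f i)).aemeasurable.norm.pow_const 2).div
      (Lp.aestronglyMeasurable w).aemeasurable).aestronglyMeasurable) ?_
    filter_upwards [h, h1] with t ⟨a, _, _⟩ d
    rw [Real.norm_of_nonneg (by positivity)]
    exact (single_le_sum (f := fun i => ‖f i t‖ ^ 2 / w t) (fun i _ => by positivity)
      (mem_univ i)).trans d
  refine ⟨fun i => ∫ t, ‖f i t‖ ^ 2 / w t ∂μ, fun i => ⟨f i, _, hf i, h2 i, le_rfl, ?_⟩, ?_⟩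
  · filter_upwards [h] with t ⟨a, _, c⟩
    refine ⟨a, by positivity, ?_⟩
    rcases a.eq_or_lt with e | e
    · rw [← e, zero_mul] at c ⊢
      exact (single_le_sum (f := fun i => ‖f i t‖ ^ 2) (fun i _ => by positivity)
        (mem_univ i)).trans c
    · rw [mul_div_cancel₀ _ e.ne']
  · rw [← integral_finsetSum _ (fun i _ => h2 i)]
    exact integral_mono_ae (integrable_finsetSum _ (fun i _ => h2 i)) hU h1

theorem cone_LD (G : Submodule ℂ (Lp ℂ p μ × H)) : Cone (LD (r := r) G) where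
  add := by
    rintro w y v w' y' v' ⟨f, u, a, b, c, d⟩ ⟨f', u', a', b', c', d'⟩
    refine ⟨f + f', fun t => u t + u' t, G.add_mem a a', b.add b', ?_, ?_⟩
    · rw [integral_add b b']; exact add_le_add c c'
    filter_upwards [d, d', Lp.coeFn_add w w', Lp.coeFn_add f f'] with t ⟨d1, d2, d3⟩ ⟨e1, e2, e3⟩ g1 g2
    rw [g1, g2, Pi.add_apply, Pi.add_apply]
    refine ⟨by positivity, by positivity, ?_⟩
    have k : 2 * (‖f t‖ * ‖f' t‖) ≤ w t * u' t + w' t * u t := by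
      refine (pow_le_pow_iff_left₀ (by positivity) (by positivity) two_ne_zero).mp ?_
      have := mul_le_mul d3 e3 (by positivity) (by positivity)
      nlinarith [sq_nonneg (w t * u' t - w' t * u t)]
    have := pow_le_pow_left₀ (norm_nonneg _) (norm_add_le (f t) (f' t)) 2
    nlinarith
  smul := by
    rintro a w y v ha ⟨f, u, b, c, d, e⟩
    refine ⟨(a : ℂ) • f, fun t => a * u t, G.smul_mem (a : ℂ) b, c.const_mul a, ?_, ?_⟩
    · rw [integral_const_mul]; exact mul_le_mul_of_nonneg_left d ha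
    filter_upwards [e, Lp.coeFn_smul a w, Lp.coeFn_smul (a : ℂ) f] with t ⟨e1, e2, e3⟩ g1 g2
    rw [g1, g2, Pi.smul_apply, Pi.smul_apply, norm_smul, Complex.norm_real,
      Real.norm_of_nonneg ha, smul_eq_mul, mul_pow]
    exact ⟨by positivity, by positivity, by nlinarith [sq_nonneg a]⟩
  mono := by
    rintro w y v v' ⟨f, u, a, b, c, d⟩ h
    exact ⟨f, u, a, b, c.trans h, d⟩
  nonneg := by
    rintro w y v ⟨f, u, -, -, c, d⟩
    exact (integral_nonneg_of_ae (d.mono (fun t h => h.2.1))).trans c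
  mix := by
    intro α β _ _ hα Y c hc hY w y v h
    choose f u a b d e using h
    obtain ⟨l0⟩ := hα
    obtain ⟨v', h1, h2⟩ := LD.div (G := G) w (fun i => mem_comb (Y i) a)
      ((integrable_finsetSum univ (fun l _ => b l)).const_mul c) (by
        filter_upwards [ae_all_iff.mpr e, ae_all_iff.mpr (fun i => coe_comb (Y i) f)] with t e g
        refine ⟨(e l0).1, mul_nonneg hc (sum_nonneg (fun l _ => (e l).2.1)), ?_⟩
        simp only [g]
        refine (hY _).trans ?_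
        rw [mul_left_comm, mul_sum univ _ (w t)]
        exact mul_le_mul_of_nonneg_left (sum_le_sum (fun l _ => (e l).2.2)) hc)
    refine ⟨v', h1, h2.trans ?_⟩
    rw [integral_const_mul, integral_finsetSum _ (fun l _ => b l)]
    exact mul_le_mul_of_nonneg_left (sum_le_sum (fun l _ => d l)) hc

theorem uc_point {ρ : ℝ} (h : 1 < ρ) : ∃ L c : ℝ, 0 < L ∧ 0 < c ∧ ∀ s t : ℝ, 0 ≤ s → 0 ≤ t →
    c * ‖max (s - L * t) 0‖ ^ ρ + ‖2⁻¹ * (s + t)‖ ^ ρ ≤ (‖s‖ ^ ρ + ‖t‖ ^ ρ) / 2 := by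
  have t1 : Tendsto (fun κ : ℝ => (2⁻¹ * (1 + κ)) ^ ρ) (𝓝[>] 0) (𝓝 ((2⁻¹ * (1 + 0)) ^ ρ)) :=
    (((Real.continuous_rpow_const (by linarith)).comp (by fun_prop)).tendsto 0).mono_left
      nhdsWithin_le_nhds
  have e : ((2⁻¹ * (1 + 0) : ℝ)) ^ ρ < 2⁻¹ := by
    rw [add_zero, mul_one]
    exact Real.rpow_lt_self_of_lt_one (by norm_num) (by norm_num) h
  obtain ⟨κ, k1, k0⟩ := ((t1.eventually (gt_mem_nhds e)).and self_mem_nhdsWithin).exists
  replace k0 : 0 < κ := k0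
  refine ⟨κ⁻¹, _, inv_pos.mpr k0, sub_pos.mpr k1, fun s t hs ht => ?_⟩
  rw [Real.norm_of_nonneg (le_max_right _ _), Real.norm_of_nonneg (by positivity),
    Real.norm_of_nonneg hs, Real.norm_of_nonneg ht]
  rcases le_total s (κ⁻¹ * t) with a | a
  · rw [max_eq_right (by linarith), Real.zero_rpow (by linarith), mul_zero, zero_add]
    have := (convexOn_rpow h.le).2 (Set.mem_Ici.mpr hs) (Set.mem_Ici.mpr ht)
      (show (0 : ℝ) ≤ 2⁻¹ by norm_num) (show (0 : ℝ) ≤ 2⁻¹ by norm_num) (by norm_num)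
    simp only [smul_eq_mul] at this
    rw [mul_add]
    linarith
  · have b : (max (s - κ⁻¹ * t) 0) ^ ρ ≤ s ^ ρ :=
      Real.rpow_le_rpow (le_max_right _ _) (max_le (sub_le_self _ (by positivity)) hs) (by linarith)
    rw [inv_mul_le_iff₀ k0] at a
    have c : (2⁻¹ * (s + t)) ^ ρ ≤ (2⁻¹ * (1 + κ)) ^ ρ * s ^ ρ := by
      rw [← Real.mul_rpow (by positivity) hs]
      exact Real.rpow_le_rpow (by positivity) (by nlinarith) (by linarith)
    have d := mul_le_mul_of_nonneg_left b (sub_pos.mpr k1).le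
    have : 0 ≤ t ^ ρ := by positivity
    linarith

theorem uc_LD {ρ : ℝ} (h : 1 < ρ) : ∃ lam : ℝ, 0 < lam ∧ ∀ (X : Type) [MeasurableSpace X]
    (μ : Measure X) (p r : ENNReal) [Fact (1 ≤ p)] [Fact (1 ≤ r)], r.toReal = ρ →
    ∀ (H : Type) [NormedAddCommGroup H] [NormedSpace ℂ H] (G : Submodule ℂ (Lp ℂ p μ × H)),
    ∀ R : ℝ, 0 ≤ R → R ≤ 1 → ∀ (ι : Type) [Fintype ι] [Nonempty ι], ∃ δ, 0 < δ ∧
    ∀ (w : ι → Lp ℝ r μ) (y : ι → H) (v : ι → ℝ) (φ : Lp ℝ r μ →L[ℝ] ℝ), ‖φ‖ ≤ 1 →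
      (∀ i, ‖w i‖ ≤ R + δ ∧ R - δ ≤ φ (w i) ∧ LD G (w i) (y i) (v i)) →
      ∃ w' : Lp ℝ r μ, ‖w'‖ ≤ lam ∧ ∀ i, LD G w' (y i) (v i) := by
  obtain ⟨L, c, hL, hc, hp⟩ := uc_point h
  refine ⟨L * 2 + 1, by positivity, fun X _ μ p r _ _ hr H _ _ G R R0 R1 ι _ hι => ?_⟩
  have ρ0 : 0 < ρ := by linarith
  have r0 : r ≠ 0 := by rintro rfl; simp at hr; linarith
  have rt : r ≠ ⊤ := by rintro rfl; simp at hr; linarith
  have hn : (0 : ℝ) < Fintype.card ι := by exact_mod_cast Fintype.card_pos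
  have t1 : Tendsto (fun δ : ℝ => (R + δ) ^ ρ - (max (R - δ) 0) ^ ρ) (𝓝[>] 0)
      (𝓝 ((R + 0) ^ ρ - (max (R - 0) 0) ^ ρ)) :=
    ((((Real.continuous_rpow_const ρ0.le).comp (by fun_prop)).sub
      ((Real.continuous_rpow_const ρ0.le).comp (by fun_prop))).tendsto 0).mono_left
      nhdsWithin_le_nhds
  rw [add_zero, sub_zero, max_eq_left R0, sub_self] at t1
  obtain ⟨δ, ⟨d1, d2⟩, d0⟩ := (((t1.eventually (gt_mem_nhds
    (show 0 < c * (Fintype.card ι : ℝ)⁻¹ ^ ρ by positivity))).and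
    (nhdsWithin_le_nhds (gt_mem_nhds zero_lt_one))).and self_mem_nhdsWithin).exists
  refine ⟨δ, d0, fun w y v φ hφ hw => ?_⟩
  obtain ⟨i0⟩ := hι
  have w0 : ∀ i, ∀ᵐ t ∂μ, 0 ≤ w i t := fun i => by
    obtain ⟨_, _, _, _, _, d⟩ := (hw i).2.2
    exact d.mono (fun t h => h.1)
  let e : ι → Lp ℝ r μ := fun i => Lp.posPart (w i - L • w i0)
  have e1 : ∀ i, ∀ᵐ t ∂μ, e i t = max (w i t - L * w i0 t) 0 := fun i => by
    filter_upwards [Lp.coeFn_posPart (w i - L • w i0), Lp.coeFn_sub (w i) (L • w i0),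
      Lp.coeFn_smul L (w i0)] with t a b c
    rw [a, b, Pi.sub_apply, c, Pi.smul_apply, smul_eq_mul]
  have e2 : ∀ i, ‖e i‖ ≤ (Fintype.card ι : ℝ)⁻¹ := by
    intro i
    obtain ⟨a1, a2⟩ := lp_int r0 rt (e i)
    obtain ⟨b1, b2⟩ := lp_int r0 rt ((2⁻¹ : ℝ) • (w i + w i0))
    obtain ⟨c1, c2⟩ := lp_int r0 rt (w i)
    obtain ⟨f1, f2⟩ := lp_int r0 rt (w i0)
    rw [hr] at a1 a2 b1 b2 c1 c2 f1 f2
    have k := integral_mono_ae ((a1.const_mul c).add b1) ((c1.add f1).div_const 2) (by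
      filter_upwards [e1 i, w0 i, w0 i0, Lp.coeFn_smul (2⁻¹ : ℝ) (w i + w i0),
        Lp.coeFn_add (w i) (w i0)] with t a b c d f
      simp only [Pi.add_apply]
      rw [a, d, Pi.smul_apply, f, Pi.add_apply, smul_eq_mul]
      exact hp _ _ b c)
    simp only [Pi.add_apply] at k
    rw [integral_add (a1.const_mul c) b1, integral_const_mul, integral_div, integral_add c1 f1,
      a2, b2, c2, f2] at k
    have m1 : max (R - δ) 0 ≤ ‖(2⁻¹ : ℝ) • (w i + w i0)‖ := by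
      refine max_le (le_trans ?_ ((le_abs_self _).trans ((φ.le_opNorm _).trans
        (mul_le_of_le_one_left (norm_nonneg _) hφ)))) (norm_nonneg _)
      rw [map_smul, map_add, smul_eq_mul]
      linarith [(hw i).2.1, (hw i0).2.1]
    have m2 := Real.rpow_le_rpow (le_max_right _ _) m1 ρ0.le
    have m3 := Real.rpow_le_rpow (norm_nonneg _) (hw i).1 ρ0.le
    have m4 := Real.rpow_le_rpow (norm_nonneg _) (hw i0).1 ρ0.le
    have m5 : c * ‖e i‖ ^ ρ ≤ c * (Fintype.card ι : ℝ)⁻¹ ^ ρ := by linarith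
    exact (Real.rpow_le_rpow_iff (norm_nonneg _) (by positivity) ρ0).mp
      (le_of_mul_le_mul_left m5 hc)
  refine ⟨L • w i0 + ∑ i, e i, (norm_add_le _ _).trans (add_le_add ?_ ?_), fun i => ?_⟩
  · rw [norm_smul, Real.norm_of_nonneg hL.le]
    exact mul_le_mul_of_nonneg_left ((hw i0).1.trans (by linarith [show δ < 1 from d2])) hL.le
  · refine (norm_sum_le _ _).trans ((sum_le_sum (fun i _ => e2 i)).trans ?_)
    simp [hn.ne']
  · refine (hw i).2.2.of_le ?_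
    filter_upwards [ae_all_iff.mpr e1, Lp.coeFn_add (L • w i0) (∑ i, e i), Lp.coeFn_smul L (w i0),
      Lp.coeFn_fun_finsetSum univ e] with t a b c d
    rw [b, Pi.add_apply, c, d, Pi.smul_apply, smul_eq_mul]
    have := single_le_sum (f := fun i => e i t) (fun j _ => by rw [a j]; exact le_max_right _ _)
      (mem_univ i)
    simp only [a i] at this
    linarith [le_max_left (w i t - L * w i0 t) 0]

end Pool.Agent.Lib.MP_040728_al.U
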