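import Mathlib

/-! Random sign matrices. -/

set_option autoImplicit false

namespace Pool.Agent.Lib.MP_040728_al.Q

open Finset Real
open scoped Classical

namespace RandAux

/-- The sign attached to a bit. -/
def sg (b : Bool) : ℝ := if b then 1 else -1

variable {I J : Type} [Fintype I] [Fintype J]

theorem mgf (y : J → ℝ) (hy : ∑ j, y j ^ 2 ≤ 1) (t : ℝ) :
    ∑ η : J → Bool, exp (t * ∑ j, sg (η j) * y j) ≤ 2 ^ Fintype.card J * exp (t ^ 2 / 2) := by
  simp only [mul_sum, exp_sum]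
  rw [← Fintype.piFinset_univ, ← prod_univ_sum (fun _ => univ)
    fun j (b : Bool) => exp (t * (sg b * y j))]
  calc _ ≤ ∏ j, 2 * exp ((t * y j) ^ 2 / 2) := by
        refine prod_le_prod (fun j _ => sum_nonneg fun _ _ => (exp_pos _).le) fun j _ => ?_
        have := cosh_le_exp_half_sq (t * y j)
        rw [cosh_eq] at this
        simp only [Fintype.univ_bool, mem_singleton, Bool.true_eq_false, not_false_eq_true,
          sum_insert, sum_singleton, sg, if_true, Bool.false_eq_true, if_false, one_mul, neg_mul,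
          mul_neg]
        linarith
    _ ≤ _ := by
        rw [prod_mul_distrib, prod_const, card_univ, ← exp_sum]
        gcongr
        simp only [mul_pow, mul_div_right_comm, ← mul_sum]
        nlinarith [sq_nonneg t]

theorem mgf_abs (y : J → ℝ) (hy : ∑ j, y j ^ 2 ≤ 1) (t : ℝ) :
    ∑ η : J → Bool, exp (t * |∑ j, sg (η j) * y j|) ≤
      2 * (2 ^ Fintype.card J * exp (t ^ 2 / 2)) := by
  have h1 := mgf y hy t
  have h2 := mgf y hy (-t)
  rw [neg_sq] at h2
  refine le_trans (sum_le_sum fun η _ => ?_) ((sum_add_distrib.le.trans (add_le_add h1 h2)).trans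
    (two_mul _).ge)
  rcases abs_choice (∑ j, sg (η j) * y j) with e | e <;> rw [e]
  · exact le_add_of_nonneg_right (exp_pos _).le
  · rw [mul_neg, neg_mul]
    exact le_add_of_nonneg_left (exp_pos _).le

theorem mgf_norm (x : J → ℂ) (hx : ∑ j, ‖x j‖ ^ 2 ≤ 1) {t : ℝ} (ht : 0 ≤ t) :
    ∑ η : J → Bool, exp (t * ‖∑ j, (sg (η j) : ℂ) * x j‖) ≤
      2 * (2 ^ Fintype.card J * exp (2 * t ^ 2)) := by
  have h1 := mgf_abs (fun j => (x j).re) (le_trans (sum_le_sum fun j _ => by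
    rw [← sq_abs]; gcongr; exact Complex.abs_re_le_norm _) hx) (2 * t)
  have h2 := mgf_abs (fun j => (x j).im) (le_trans (sum_le_sum fun j _ => by
    rw [← sq_abs]; gcongr; exact Complex.abs_im_le_norm _) hx) (2 * t)
  rw [show (2 * t) ^ 2 / 2 = 2 * t ^ 2 by ring] at h1 h2
  refine le_trans (sum_le_sum fun η _ => ?_ : _ ≤ ∑ η : J → Bool,
    (exp (2 * t * |∑ j, sg (η j) * (x j).re|) + exp (2 * t * |∑ j, sg (η j) * (x j).im|)) / 2) ?_
  · have h3 := Complex.norm_le_abs_re_add_abs_im (∑ j, (sg (η j) : ℂ) * x j)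
    simp only [Complex.re_sum, Complex.im_sum, Complex.re_ofReal_mul, Complex.im_ofReal_mul] at h3
    refine (exp_le_exp.2 (mul_le_mul_of_nonneg_left h3 ht)).trans ?_
    rw [mul_add, exp_add, mul_assoc, mul_assoc, two_mul, two_mul, exp_add, exp_add]
    nlinarith [sq_nonneg (exp (t * |∑ j, sg (η j) * (x j).re|) -
      exp (t * |∑ j, sg (η j) * (x j).im|))]
  · rw [← sum_div, sum_add_distrib]
    linarith

theorem mom {r : ℝ} (hr : 0 ≤ r) : ∃ K : ℝ, 0 ≤ K ∧ ∀ (J : Type) [Fintype J] (x : J → ℂ),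
    ∑ j, ‖x j‖ ^ 2 ≤ 1 → ∑ η : J → Bool, ‖∑ j, (sg (η j) : ℂ) * x j‖ ^ r *
      exp (‖∑ j, (sg (η j) : ℂ) * x j‖ ^ 2 / 16) ≤ K * 2 ^ Fintype.card J := by
  refine ⟨2 * exp (4 * (r + 2) ^ 2 + 1) * ∑' n : ℕ, exp (-n),
    mul_nonneg (by positivity) (tsum_nonneg fun _ => (exp_pos _).le), fun J _ x hx => ?_⟩
  obtain ⟨N, hN⟩ : ∃ N : ℕ, ∀ η : J → Bool, ⌊‖∑ j, (sg (η j) : ℂ) * x j‖⌋₊ < N :=
    ⟨_, fun η => Nat.lt_succ_of_le (le_sup (f := fun η : J → Bool =>
      ⌊‖∑ j, (sg (η j) : ℂ) * x j‖⌋₊) (mem_univ η))⟩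
  calc _ ≤ ∑ η : J → Bool, ∑ n ∈ range N, exp (r * n + (n + 1) ^ 2 / 16 - n ^ 2 / 4) *
        exp (n / 4 * ‖∑ j, (sg (η j) : ℂ) * x j‖) := by
        refine sum_le_sum fun η _ => le_trans ?_ (single_le_sum
          (fun _ _ => by positivity) (mem_range.2 (hN η)))
        have h0 := norm_nonneg (∑ j, (sg (η j) : ℂ) * x j)
        generalize ‖∑ j, (sg (η j) : ℂ) * x j‖ = u at h0
        have h1 := Nat.floor_le h0
        have h2 := (Nat.lt_floor_add_one u).le
        have h3 : (0 : ℝ) ≤ ⌊u⌋₊ := Nat.cast_nonneg _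
        generalize (⌊u⌋₊ : ℝ) = n at *
        have h4 : u ^ r ≤ exp (r * n) := by
          rw [mul_comm, exp_mul]
          exact rpow_le_rpow h0 (h2.trans (add_one_le_exp n)) hr
        refine (mul_le_mul_of_nonneg_right h4 (exp_pos _).le).trans ?_
        rw [← exp_add, ← exp_add, exp_le_exp]
        nlinarith
    _ ≤ ∑ n ∈ range N, 2 * exp (4 * (r + 2) ^ 2 + 1) * exp (-n) * 2 ^ Fintype.card J := by
        rw [sum_comm]
        refine sum_le_sum fun n _ => ?_
        rw [← mul_sum]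
        refine (mul_le_mul_of_nonneg_left (mgf_norm x hx (by positivity)) (exp_pos _).le).trans ?_
        have : exp (r * n + (n + 1) ^ 2 / 16 - n ^ 2 / 4) * exp (2 * (n / 4) ^ 2) ≤
            exp (4 * (r + 2) ^ 2 + 1) * exp (-n) := by
          rw [← exp_add, ← exp_add, exp_le_exp]
          nlinarith [sq_nonneg ((n : ℝ) / 4 - 2 * (r + 2)), Nat.cast_nonneg (α := ℝ) n]
        nlinarith [pow_pos (two_pos (α := ℝ)) (Fintype.card J)]
    _ ≤ _ := by
        rw [← sum_mul, ← mul_sum]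
        gcongr
        exact summable_exp_neg_nat.sum_le_tsum _ fun _ _ => (exp_pos _).le

theorem chern {r K d : ℝ} (hr : 2 ≤ r) (hd : 0 < d) (x : J → ℂ)
    (hK : ∑ η : J → Bool, ‖∑ j, (sg (η j) : ℂ) * x j‖ ^ r *
      exp (‖∑ j, (sg (η j) : ℂ) * x j‖ ^ 2 / 16) ≤ K * 2 ^ Fintype.card J)
    (hb : ∀ η : J → Bool, ‖∑ j, (sg (η j) : ℂ) * x j‖ ^ 2 ≤ d) :
    ((univ.filter fun ε : I → J → Bool => (K + 16) * Fintype.card I <
      ∑ i, ‖∑ j, (sg (ε i j) : ℂ) * x j‖ ^ r).card : ℝ) * exp (Fintype.card I / d ^ (r / 2 - 1)) ≤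
      (2 ^ Fintype.card J) ^ Fintype.card I := by
  have h0 : 0 < d ^ (r / 2 - 1) := rpow_pos_of_pos hd _
  set l := (16 * d ^ (r / 2 - 1))⁻¹ with hl
  have hl0 : 0 < l := by positivity
  have h1 : ∑ η : J → Bool, exp (l * ‖∑ j, (sg (η j) : ℂ) * x j‖ ^ r) ≤
      2 ^ Fintype.card J * exp (l * K) := by
    calc _ ≤ ∑ η : J → Bool, (1 + l * (‖∑ j, (sg (η j) : ℂ) * x j‖ ^ r *
          exp (‖∑ j, (sg (η j) : ℂ) * x j‖ ^ 2 / 16))) := by
          refine sum_le_sum fun η _ => ?_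
          have a0 := norm_nonneg (∑ j, (sg (η j) : ℂ) * x j)
          have a1 := hb η
          generalize ‖∑ j, (sg (η j) : ℂ) * x j‖ = u at a0 a1
          have a2 : u ^ r ≤ u ^ 2 * d ^ (r / 2 - 1) := by
            have : u ^ r = u ^ 2 * (u ^ 2) ^ (r / 2 - 1) := by
              rw [← rpow_natCast, ← rpow_mul a0, ← rpow_add' a0 (by push_cast; linarith)]
              congr 1
              push_cast
              ring
            rw [this]
            gcongr
            linarith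
          have a3 : l * u ^ r ≤ u ^ 2 / 16 := by
            rw [hl, inv_mul_le_iff₀ (by positivity)]
            linarith
          have a4 : 0 ≤ l * u ^ r := by positivity
          have a5 := mul_le_mul_of_nonneg_right (add_one_le_exp (-(l * u ^ r)))
            (exp_pos (l * u ^ r)).le
          rw [← exp_add, neg_add_cancel, exp_zero] at a5
          nlinarith [mul_le_mul_of_nonneg_left (exp_le_exp.2 a3) a4]
      _ ≤ _ := by
          rw [sum_add_distrib, ← mul_sum, sum_const, card_univ, Fintype.card_fun, Fintype.card_bool]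
          have := mul_le_mul_of_nonneg_left (add_one_le_exp (l * K))
            (pow_pos (two_pos (α := ℝ)) (Fintype.card J)).le
          have := mul_le_mul_of_nonneg_left hK hl0.le
          simp only [nsmul_eq_mul, Nat.cast_pow, Nat.cast_ofNat]
          linarith
  have h2 : ∑ ε : I → J → Bool, exp (l * ∑ i, ‖∑ j, (sg (ε i j) : ℂ) * x j‖ ^ r) ≤
      (2 ^ Fintype.card J * exp (l * K)) ^ Fintype.card I := by
    simp only [mul_sum, exp_sum]
    rw [← Fintype.piFinset_univ, ← prod_univ_sum (fun _ => univ)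
      fun (_ : I) (η : J → Bool) => exp (l * ‖∑ j, (sg (η j) : ℂ) * x j‖ ^ r), prod_const,
      card_univ]
    gcongr
  have h3 := (card_nsmul_le_sum (univ.filter fun ε : I → J → Bool => (K + 16) * Fintype.card I <
      ∑ i, ‖∑ j, (sg (ε i j) : ℂ) * x j‖ ^ r) _ (exp (l * ((K + 16) * Fintype.card I)))
      fun ε hε => exp_le_exp.2 (mul_le_mul_of_nonneg_left (mem_filter.1 hε).2.le hl0.le)).trans
    ((sum_le_sum_of_subset_of_nonneg (filter_subset _ _) fun _ _ _ => (exp_pos _).le).trans h2)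
  rw [mul_pow, ← exp_nat_mul, nsmul_eq_mul, show l * ((K + 16) * Fintype.card I) =
    Fintype.card I / d ^ (r / 2 - 1) + Fintype.card I * (l * K) by rw [hl]; field_simp; ring,
    exp_add, ← mul_assoc] at h3
  exact le_of_mul_le_mul_right h3 (exp_pos _)

theorem net (E : Type) [NormedAddCommGroup E] [NormedSpace ℝ E] [FiniteDimensional ℝ E] :
    ∃ P : Finset E, P.card ≤ 5 ^ Module.finrank ℝ E ∧ (∀ u ∈ P, ‖u‖ ≤ 1) ∧
      ∀ v : E, ‖v‖ ≤ 1 → ∃ u ∈ P, ‖v - u‖ ≤ 1 / 2 := by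
  let A : Set ℕ := {n | ∃ P : Finset E, P.card = n ∧ (∀ u ∈ P, ‖u‖ ≤ 1) ∧
    ∀ u ∈ P, ∀ v ∈ P, u ≠ v → 1 / 2 ≤ ‖u - v‖}
  have hA : ∀ n ∈ A, n ≤ 5 ^ Module.finrank ℝ E := by
    rintro _ ⟨P, rfl, h1, h2⟩
    rw [← card_image_of_injective P (smul_right_injective E (two_ne_zero (α := ℝ)))]
    refine Besicovitch.card_le_of_separated _ ?_ ?_
    · simp only [mem_image, forall_exists_index, and_imp, forall_apply_eq_imp_iff₂, norm_smul,
        norm_ofNat]
      intro u hu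
      linarith [h1 u hu]
    · simp only [mem_image, forall_exists_index, and_imp, forall_apply_eq_imp_iff₂, ← smul_sub,
        norm_smul, norm_ofNat]
      intro u hu v hv e
      linarith [h2 u hu v hv fun k => e (by rw [k])]
  obtain ⟨P, h0, h1, h2⟩ := Nat.sSup_mem (s := A) ⟨0, ∅, by simp⟩ ⟨_, hA⟩
  refine ⟨P, hA _ ⟨P, rfl, h1, h2⟩, h1, fun v hv => ?_⟩
  by_contra h
  push Not at h
  have h3 : v ∉ P := fun k => by simpa using (h v k).trans' (by norm_num : (0 : ℝ) < 1 / 2)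
  have h4 := le_csSup (s := A) ⟨_, hA⟩ ⟨insert v P, rfl, by
    simpa [hv] using h1, fun a ha b hb e => by
      rcases mem_insert.1 ha with rfl | k <;> rcases mem_insert.1 hb with rfl | k'
      exacts [absurd rfl e, (h b k').le, norm_sub_rev b a ▸ (h a k).le, h2 a k b k' e]⟩
  rw [card_insert_of_notMem h3, h0] at h4
  omega

theorem of_net {T : Type} [Fintype T] {r M : ℝ} (hr : 1 ≤ r) (hM : 0 ≤ M) (A : I → T → ℂ)
    {P : Finset (EuclideanSpace ℂ T)} (hP : ∀ v, ‖v‖ ≤ 1 → ∃ u ∈ P, ‖v - u‖ ≤ 1 / 2)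
    (h : ∀ u ∈ P, ∑ i, ‖∑ j, A i j * u j‖ ^ r ≤ M) (x : T → ℂ) :
    ∑ i, ‖∑ j, A i j * x j‖ ^ r ≤ 2 ^ r * M * (∑ j, ‖x j‖ ^ 2) ^ (r / 2) := by
  have r0 : 0 < r := by linarith
  have : Fact (1 ≤ ENNReal.ofReal r) := ⟨ENNReal.one_le_ofReal.2 hr⟩
  let L : EuclideanSpace ℂ T →L[ℂ] PiLp (ENNReal.ofReal r) fun _ : I => ℂ :=
    LinearMap.toContinuousLinearMap (Matrix.toLpLin _ _ (Matrix.of A))
  have h1 : ∀ v, ‖L v‖ ^ r = ∑ i, ‖∑ j, A i j * v j‖ ^ r := fun v => by
    rw [PiLp.norm_eq_sum (by rwa [ENNReal.toReal_ofReal r0.le]), ENNReal.toReal_ofReal r0.le,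
      one_div, rpow_inv_rpow (sum_nonneg fun _ _ => by positivity) r0.ne']
    rfl
  have h2 : ‖L‖ ≤ M ^ r⁻¹ + ‖L‖ / 2 := by
    refine L.opNorm_le_of_unit_norm (by positivity) fun v hv => ?_
    obtain ⟨u, a1, a2⟩ := hP v hv.le
    have a3 : ‖L u‖ ≤ M ^ r⁻¹ := (le_rpow_inv_iff_of_pos (norm_nonneg _) hM r0).2 (h1 u ▸ h u a1)
    have a4 := (L.le_opNorm (v - u)).trans (mul_le_mul_of_nonneg_left a2 (norm_nonneg _))
    have a5 := norm_add_le (L u) (L (v - u))
    rw [← map_add, add_sub_cancel] at a5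
    linarith
  have h3 := rpow_le_rpow (norm_nonneg _) ((L.le_opNorm (WithLp.toLp 2 x)).trans
    (mul_le_mul_of_nonneg_right (by linarith : ‖L‖ ≤ 2 * M ^ r⁻¹) (norm_nonneg _))) r0.le
  rw [h1, mul_rpow (by positivity) (norm_nonneg _), mul_rpow (by positivity) (by positivity),
    rpow_inv_rpow hM r0.ne', EuclideanSpace.norm_eq, sqrt_eq_rpow,
    ← rpow_mul (sum_nonneg fun _ _ => by positivity)] at h3
  rwa [show r / 2 = 1 / 2 * r by ring]

theorem norm_sg (b : Bool) : ‖(sg b : ℂ)‖ = 1 := by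
  cases b <;> simp [sg]

theorem good {r : ℝ} (hr : 2 ≤ r) : ∃ C : ℝ, 1 ≤ C ∧ ∀ (I J : Type) [Fintype I] [Fintype J] (κ : ℕ),
    1 ≤ κ → κ ≤ Fintype.card J → 3 * ((Fintype.card J).choose κ * 25 ^ κ : ℝ) ≤
      exp (Fintype.card I / (κ : ℝ) ^ (r / 2 - 1)) →
    ∃ B : Finset (I → J → Bool), 3 * B.card ≤ (2 ^ Fintype.card J) ^ Fintype.card I ∧
      ∀ ε ∉ B, ∀ x : J → ℂ, (univ.filter fun j => x j ≠ 0).card ≤ κ →
        ∑ i, ‖∑ j, (sg (ε i j) : ℂ) * x j‖ ^ r ≤
          C * Fintype.card I * (∑ j, ‖x j‖ ^ 2) ^ (r / 2) := by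
  obtain ⟨K, K0, hK⟩ := mom (by linarith : 0 ≤ r)
  refine ⟨2 ^ r * (K + 16), one_le_mul_of_one_le_of_one_le (one_le_rpow one_le_two (by linarith))
    (by linarith), fun I J _ _ κ h1 h2 h3 => ?_⟩
  choose P p1 p2 p3 using fun T : Finset J => net (EuclideanSpace ℂ T)
  let ex : ∀ T : Finset J, EuclideanSpace ℂ T → J → ℂ := fun T u j =>
    if h : j ∈ T then u ⟨j, h⟩ else 0
  have e1 : ∀ (T : Finset J) (u : EuclideanSpace ℂ T) {M : Type} [AddCommMonoid M]
      (f : J → ℂ → M), (∀ j, f j 0 = 0) → ∑ j, f j (ex T u j) = ∑ j : T, f j (u j) := by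
    intro T u M _ f hf
    rw [← sum_subset (subset_univ T) fun j _ hj => by simp only [ex, dif_neg hj, hf],
      ← sum_coe_sort T]
    exact sum_congr rfl fun j _ => by simp only [ex, dif_pos j.2]
  refine ⟨(powersetCard κ univ).biUnion fun T => (P T).biUnion fun u => univ.filter
    fun ε : I → J → Bool => (K + 16) * Fintype.card I <
      ∑ i, ‖∑ j, (sg (ε i j) : ℂ) * ex T u j‖ ^ r, ?_, fun ε hε x hx => ?_⟩
  · have k0 : (0 : ℝ) < κ := by exact_mod_cast h1
    have h4 : ∀ T ∈ powersetCard κ univ, ∀ u ∈ P T, ((univ.filter fun ε : I → J → Bool =>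
        (K + 16) * Fintype.card I < ∑ i, ‖∑ j, (sg (ε i j) : ℂ) * ex T u j‖ ^ r).card : ℝ) ≤
        (2 ^ Fintype.card J) ^ Fintype.card I / exp (Fintype.card I / (κ : ℝ) ^ (r / 2 - 1)) := by
      intro T hT u hu
      have a1 : ∑ j : T, ‖u j‖ ^ 2 ≤ 1 := by
        rw [← EuclideanSpace.norm_sq_eq]
        exact pow_le_one₀ (norm_nonneg _) (p2 T u hu)
      refine (le_div_iff₀ (exp_pos _)).2 (chern hr k0 _ (hK J _ ?_) fun η => ?_)
      · rwa [e1 T u (fun _ z => ‖z‖ ^ 2) (by simp)]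
      · rw [e1 T u (fun j z => (sg (η j) : ℂ) * z) (by simp)]
        refine (pow_le_pow_left₀ (norm_nonneg _) (norm_sum_le _ _) 2).trans
          (sq_sum_le_card_mul_sum_sq.trans ?_)
        simp only [norm_mul, norm_sg, one_mul, card_univ, Fintype.card_coe,
          (mem_powersetCard.1 hT).2]
        exact mul_le_of_le_one_right k0.le a1
    have h5 : ∀ T ∈ powersetCard κ (univ : Finset J), ((P T).card : ℝ) ≤ 25 ^ κ := fun T hT => by
      have := p1 T
      rw [finrank_real_of_complex, finrank_euclideanSpace, Fintype.card_coe,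
        (mem_powersetCard.1 hT).2, pow_mul] at this
      exact_mod_cast this
    rw [← Nat.cast_le (α := ℝ)]
    push_cast
    refine (mul_le_mul_of_nonneg_left (b := _) (c := (Fintype.card J).choose κ * (25 ^ κ *
      ((2 ^ Fintype.card J) ^ Fintype.card I / exp (Fintype.card I / (κ : ℝ) ^ (r / 2 - 1)))))
      ((Nat.cast_le.2 card_biUnion_le).trans ?_) zero_le_three).trans ?_
    · rw [Nat.cast_sum, ← nsmul_eq_mul, ← show _ = (Fintype.card J).choose κ from
        card_powersetCard κ univ]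
      refine sum_le_card_nsmul _ _ _ fun T hT => (Nat.cast_le.2 card_biUnion_le).trans ?_
      rw [Nat.cast_sum]
      refine (sum_le_card_nsmul _ _ _ (h4 T hT)).trans ?_
      rw [nsmul_eq_mul]
      exact mul_le_mul_of_nonneg_right (h5 T hT) (by positivity)
    · rw [← mul_assoc (_ : ℝ) (25 ^ κ), ← mul_assoc, ← mul_div_assoc, div_le_iff₀' (exp_pos _)]
      gcongr
  · obtain ⟨T, t1, -, t2⟩ := exists_subsuperset_card_eq (subset_univ _) hx h2
    have e2 : ex T (WithLp.toLp 2 fun j => x j) = x := funext fun j => by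
      by_cases hj : j ∈ T
      · simp only [ex, dif_pos hj]
      · simp only [ex, dif_neg hj]
        exact (not_not.1 fun k => hj (t1 (mem_filter.2 ⟨mem_univ _, k⟩))).symm
    have h4 := of_net (by linarith : 1 ≤ r) (M := (K + 16) * Fintype.card I) (by positivity)
      (fun i (j : T) => (sg (ε i j) : ℂ)) (p3 T) (fun u hu => le_of_not_gt fun k => hε (by
        refine mem_biUnion.2 ⟨T, mem_powersetCard.2 ⟨subset_univ _, t2⟩, mem_biUnion.2 ⟨u, hu,
          mem_filter.2 ⟨mem_univ _, k.trans_eq (sum_congr rfl fun i _ => ?_)⟩⟩⟩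
        rw [e1 T u (fun j z => (sg (ε i j) : ℂ) * z) (by simp)])) fun j => x j
    rw [← e2, e1 T _ (fun _ z => ‖z‖ ^ 2) (by simp), mul_assoc (2 ^ r)]
    refine le_of_eq_of_le (sum_congr rfl fun i _ => ?_) h4
    rw [e1 T _ (fun j z => (sg (ε i j) : ℂ) * z) (by simp)]

end RandAux

open RandAux in
/-- A random sign matrix with `card α` columns and `card β` rows. -/
theorem exists_signs {q : ℝ} (hq : 2 ≤ q) :
    ∃ C : ℝ, 1 ≤ C ∧ ∀ (α β : Type) [Fintype α] [Fintype β] (κ : ℕ), 1 ≤ κ → κ ≤ Fintype.card α →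
      0 < Fintype.card β → 5 * (Fintype.card β : ℝ) ^ (q / 2) ≤ Fintype.card α →
      κ * Real.sqrt κ * (Real.log (Fintype.card α) + 5) ≤ Fintype.card β →
      ∃ ε : β → α → ℂ, (∀ j s, ε j s = 1 ∨ ε j s = -1) ∧
        (∀ v : β → ℂ, ∑ s, ‖∑ j, ε j s * v j‖ ^ q ≤
          C * Fintype.card α * (∑ j, ‖v j‖ ^ 2) ^ (q / 2)) ∧
        (∀ x : α → ℂ, (univ.filter (fun s => x s ≠ 0)).card ≤ κ →
          ∑ j, ‖∑ s, ε j s * x s‖ ^ (3 : ℝ) ≤
            C * Fintype.card β * (∑ s, ‖x s‖ ^ 2) ^ ((3 : ℝ) / 2)) := by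
  obtain ⟨C, c1, hC⟩ := good hq
  obtain ⟨D, d1, hD⟩ := good (r := 3) (by norm_num)
  refine ⟨C * D, one_le_mul_of_one_le_of_one_le c1 d1, fun α β _ _ κ h1 h2 h3 h4 h5 => ?_⟩
  have e5 : ∀ n : ℕ, 1 ≤ n → 3 * (25 : ℝ) ^ n ≤ exp (n * 5) := fun n hn => by
    have a1 : (75 : ℝ) ≤ exp 5 := by
      have := pow_le_pow_left₀ (by norm_num) exp_one_gt_d9.le 5
      rw [← exp_nat_mul] at this
      norm_num at this ⊢
      linarith
    rw [exp_nat_mul]
    refine le_trans ?_ (pow_le_pow_left₀ (by norm_num) a1 n)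
    rw [show (75 : ℝ) = 3 * 25 by norm_num, mul_pow]
    gcongr
    exact le_self_pow₀ (by norm_num) (by omega)
  have b0 : (0 : ℝ) < Fintype.card β := by exact_mod_cast h3
  have k0 : (0 : ℝ) < κ := by exact_mod_cast h1
  have a0 : (0 : ℝ) < Fintype.card α := by exact_mod_cast h1.trans h2
  obtain ⟨B, b1, b2⟩ := hC α β (Fintype.card β) h3 le_rfl (by
    rw [Nat.choose_self, Nat.cast_one, one_mul]
    refine (e5 _ h3).trans (exp_le_exp.2 ?_)
    rw [le_div_iff₀ (by positivity), rpow_sub_one b0.ne']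
    refine le_of_eq_of_le ?_ h4
    field_simp)
  obtain ⟨B', b3, b4⟩ := hD β α κ h1 h2 (by
    calc _ ≤ (Fintype.card α : ℝ) ^ κ * exp (κ * 5) := by
          rw [mul_left_comm]
          exact mul_le_mul (by exact_mod_cast Nat.choose_le_pow _ _) (e5 _ h1) (by positivity)
            (by positivity)
      _ ≤ _ := by
          rw [← exp_log a0, ← exp_nat_mul, ← exp_add, exp_le_exp, le_div_iff₀ (by positivity),
            show (3 : ℝ) / 2 - 1 = 1 / 2 by norm_num, ← sqrt_eq_rpow]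
          linarith)
  obtain ⟨ε, -, hε⟩ : ∃ ε ∈ (univ : Finset (β → α → Bool)), ε ∉ B.image Function.swap ∪ B' := by
    refine exists_mem_notMem_of_card_lt_card ((card_union_le _ _).trans_lt ?_)
    have a1 := card_image_le (s := B) (f := Function.swap)
    have a2 : 0 < (2 ^ Fintype.card α) ^ Fintype.card β := by positivity
    rw [← pow_mul, mul_comm (Fintype.card β), pow_mul] at b1
    rw [card_univ, Fintype.card_fun, Fintype.card_fun, Fintype.card_bool]
    omega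
  rw [notMem_union] at hε
  refine ⟨fun j s => sg (ε j s), fun j s => by
    beta_reduce
    cases ε j s <;> simp [sg], fun v => ?_,
    fun x hx => (b4 ε hε.2 x hx).trans ?_⟩
  · refine (b2 (Function.swap ε) (fun k => hε.1 (mem_image.2 ⟨_, k, rfl⟩)) v
      (card_le_univ _)).trans ?_
    gcongr
    exact le_mul_of_one_le_right (by linarith) d1
  · gcongr
    exact le_mul_of_one_le_left (by linarith) c1

end Pool.Agent.Lib.MP_040728_al.Q
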