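import Mathlib
import Pool.Agent.Lib.MP_040728_al.QRand

set_option autoImplicit false

namespace Pool.Agent.Lib.MP_040728_al.U

open Finset Pool.Agent.Lib.MP_040728_al.Q.RandAux
open scoped Classical InnerProductSpace

variable {ι : Type} [Fintype ι]

theorem sg_orth (i j : ι) : ∑ η : ι → Bool, (sg (η i) : ℂ) * (sg (η j) : ℂ) =
    if i = j then (2 : ℂ) ^ Fintype.card ι else 0 := by
  split_ifs with h
  · subst h
    have : ∀ b, (sg b : ℂ) * (sg b : ℂ) = 1 := fun b => by cases b <;> simp [sg]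
    simp [this]
  · have inv : Function.Involutive (fun η : ι → Bool => Function.update η i (!η i)) := by
      intro η; simp
    have e := Equiv.sum_comp inv.toPerm (fun η : ι → Bool => (sg (η i) : ℂ) * (sg (η j) : ℂ))
    have e2 : ∀ η : ι → Bool, (sg (inv.toPerm _ η i) : ℂ) * (sg (inv.toPerm _ η j) : ℂ) =
        -((sg (η i) : ℂ) * (sg (η j) : ℂ)) := by
      intro η
      simp only [Function.Involutive.coe_toPerm, Function.update_self,
        Function.update_of_ne (Ne.symm h)]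
      cases η i <;> simp [sg]
    simp only [e2, sum_neg_distrib] at e
    linear_combination (-1 / 2 : ℂ) * e

theorem sg_recover {E : Type*} [AddCommGroup E] [Module ℂ E] (x : ι → E) (i : ι) :
    ∑ η : ι → Bool, (sg (η i) : ℂ) • ∑ j, (sg (η j) : ℂ) • x j =
      (2 : ℂ) ^ Fintype.card ι • x i := by
  simp only [smul_sum, smul_smul]
  rw [sum_comm]
  simp only [← sum_smul, sg_orth, ite_smul, zero_smul, sum_ite_eq, mem_univ, if_true]

theorem sg_parseval {E : Type*} [NormedAddCommGroup E] [InnerProductSpace ℂ E] (x : ι → E) :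
    ∑ η : ι → Bool, ‖∑ j, (sg (η j) : ℂ) • x j‖ ^ 2 = 2 ^ Fintype.card ι * ∑ j, ‖x j‖ ^ 2 := by
  have : ∑ η : ι → Bool, ⟪∑ j, (sg (η j) : ℂ) • x j, ∑ j, (sg (η j) : ℂ) • x j⟫_ℂ =
      2 ^ Fintype.card ι * ∑ j, ⟪x j, x j⟫_ℂ := by
    have a : ∀ η : ι → Bool, ⟪∑ j, (sg (η j) : ℂ) • x j, ∑ j, (sg (η j) : ℂ) • x j⟫_ℂ =
        ∑ i, ⟪x i, (sg (η i) : ℂ) • ∑ j, (sg (η j) : ℂ) • x j⟫_ℂ := by
      intro η
      rw [sum_inner]
      exact sum_congr rfl (fun i _ => by rw [inner_smul_left, inner_smul_right, Complex.conj_ofReal])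
    simp only [a]
    rw [sum_comm, mul_sum]
    exact sum_congr rfl (fun i _ => by rw [← inner_sum, sg_recover, inner_smul_right])
  simp only [inner_self_eq_norm_sq_to_K, Complex.coe_algebraMap] at this
  exact_mod_cast this

theorem sg_pow {E : Type*} [NormedAddCommGroup E] [InnerProductSpace ℂ E] {P : ℝ} (h0 : 0 < P)
    (h2 : P ≤ 2) (x : ι → E) :
    (2 ^ Fintype.card ι : ℝ)⁻¹ * ∑ η : ι → Bool, ‖∑ j, (sg (η j) : ℂ) • x j‖ ^ P ≤
      (∑ j, ‖x j‖ ^ 2) ^ (P / 2) := by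
  have := Real.arith_mean_le_rpow_mean univ (fun _ : ι → Bool => (2 ^ Fintype.card ι : ℝ)⁻¹)
    (fun η => ‖∑ j, (sg (η j) : ℂ) • x j‖ ^ P) (fun _ _ => by positivity) (by simp)
    (fun _ _ => by positivity) (p := 2 / P) (by rwa [one_le_div h0])
  have e : ∀ a : ℝ, 0 ≤ a → (a ^ P) ^ (2 / P) = a ^ 2 := fun a ha => by
    rw [← Real.rpow_mul ha, mul_div_cancel₀ _ h0.ne', Real.rpow_two]
  simp only [e _ (norm_nonneg _), ← mul_sum, sg_parseval, one_div_div] at this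
  rwa [inv_mul_cancel_left₀ (by positivity)] at this

/-- The dual form of Khintchine's inequality. -/
theorem sg_dual {P : ℝ} (h1 : 1 < P) : ∃ K : ℝ, 0 < K ∧ ∀ (ι : Type) [Fintype ι]
    (F : (ι → Bool) → ℂ),
    ∑ i, ‖∑ η : ι → Bool, ((2 : ℂ) ^ Fintype.card ι)⁻¹ * (sg (η i) : ℂ) * F η‖ ^ 2 ≤
      K * ((2 ^ Fintype.card ι : ℝ)⁻¹ * ∑ η, ‖F η‖ ^ P) ^ (2 / P) := by
  have hpq := Real.HolderConjugate.conjExponent h1
  set q := Real.conjExponent P
  obtain ⟨K, hK, hK'⟩ := mom hpq.symm.pos.le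
  refine ⟨((K + 1) ^ (1 / q)) ^ 2, by positivity, fun ι _ F => ?_⟩
  set h : ι → ℂ := fun i => ∑ η : ι → Bool, ((2 : ℂ) ^ Fintype.card ι)⁻¹ * (sg (η i) : ℂ) * F η
    with hh
  change ∑ i, ‖h i‖ ^ 2 ≤ _
  set S := ∑ i, ‖h i‖ ^ 2 with hS
  set n : ℝ := 2 ^ Fintype.card ι with hn
  have n0 : 0 < n := by positivity
  have S0 : 0 ≤ S := by positivity
  rcases S0.eq_or_lt with S1 | S1
  · rw [← S1]; positivity
  have s0 := Real.sqrt_pos.mpr S1
  let a : ι → ℂ := fun i => ((√S)⁻¹ : ℝ) * (starRingEnd ℂ) (h i)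
  have a1 : ∑ i, ‖a i‖ ^ 2 ≤ 1 := by
    simp only [a, norm_mul, Complex.norm_real, Complex.norm_conj, mul_pow, ← mul_sum, ← hS,
      Real.norm_of_nonneg (inv_pos.mpr s0).le, inv_pow, Real.sq_sqrt S0]
    rw [inv_mul_cancel₀ S1.ne']
  have a2 : ∑ η : ι → Bool, ‖∑ j, (sg (η j) : ℂ) * a j‖ ^ q ≤ (K + 1) * n := by
    refine le_trans (sum_le_sum (fun η _ => le_mul_of_one_le_right (by positivity)
      (Real.one_le_exp (by positivity)))) ((hK' ι a a1).trans (by nlinarith))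
  have a3 : ((√S : ℝ) : ℂ) = (n⁻¹ : ℝ) * ∑ η : ι → Bool, F η * ∑ j, (sg (η j) : ℂ) * a j := by
    have : ((√S : ℝ) : ℂ) = ∑ j, a j * h j := by
      simp only [a, mul_assoc, Complex.conj_mul', ← mul_sum]
      have : ∑ j, ((‖h j‖ : ℂ)) ^ 2 = (S : ℂ) := by rw [hS]; push_cast; rfl
      rw [this, ← Complex.ofReal_mul, inv_mul_eq_div, Real.div_sqrt]
    rw [this]
    simp only [hh, mul_sum]
    rw [sum_comm]
    refine sum_congr rfl (fun η _ => sum_congr rfl (fun j _ => ?_))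
    rw [hn]; push_cast; ring
  have a4 : √S ≤ n⁻¹ * ((∑ η, ‖F η‖ ^ P) ^ (1 / P) * ((K + 1) * n) ^ (1 / q)) := by
    have b := congrArg norm a3
    rw [Complex.norm_real, Real.norm_of_nonneg s0.le, norm_mul, Complex.norm_real,
      Real.norm_of_nonneg (inv_pos.mpr n0).le] at b
    rw [b]
    refine mul_le_mul_of_nonneg_left ((norm_sum_le _ _).trans ?_) (inv_pos.mpr n0).le
    simp only [norm_mul]
    refine (Real.inner_le_Lp_mul_Lq_of_nonneg univ hpq (fun _ _ => norm_nonneg _)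
      (fun _ _ => norm_nonneg _)).trans ?_
    have := hpq.symm.pos
    gcongr
  have A0 : 0 ≤ ∑ η, ‖F η‖ ^ P := sum_nonneg (fun _ _ => by positivity)
  have a5 : n⁻¹ * ((∑ η, ‖F η‖ ^ P) ^ (1 / P) * ((K + 1) * n) ^ (1 / q)) =
      (K + 1) ^ (1 / q) * (n⁻¹ * ∑ η, ‖F η‖ ^ P) ^ (1 / P) := by
    have e : n = n ^ (1 / P) * n ^ (1 / q) := by
      rw [← Real.rpow_add n0, one_div, one_div, hpq.inv_add_inv_eq_one, Real.rpow_one]
    rw [Real.mul_rpow (by positivity) n0.le, Real.mul_rpow (by positivity) A0,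
      Real.inv_rpow n0.le]
    have : 0 < n ^ (1 / P) := by positivity
    have : 0 < n ^ (1 / q) := by positivity
    nth_rewrite 1 [e]
    field_simp
  rw [a5, Real.sqrt_le_left (by positivity), mul_pow] at a4
  refine a4.trans (le_of_eq ?_)
  congr 1
  rw [← Real.rpow_natCast, ← Real.rpow_mul (by positivity)]
  congr 1
  push_cast; ring

/-- Scalar matrices act on Hilbert spaces with their scalar norm. -/
theorem hilb_aux {E : Type*} [NormedAddCommGroup E] [InnerProductSpace ℂ E] {α β : Type}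
    [Fintype α] [Fintype β] (Y : β → α → ℂ) (c : ℝ)
    (hY : ∀ a : α → ℂ, ∑ i, ‖∑ l, Y i l * a l‖ ^ 2 ≤ c * ∑ l, ‖a l‖ ^ 2) (y : α → E) :
    ∑ i, ‖∑ l, Y i l • y l‖ ^ 2 ≤ c * ∑ l, ‖y l‖ ^ 2 := by
  let V := Submodule.span ℂ (Set.range y)
  have : FiniteDimensional ℂ V := FiniteDimensional.span_of_finite ℂ (Set.finite_range y)
  let b := stdOrthonormalBasis ℂ V
  let z : α → V := fun l => ⟨y l, Submodule.subset_span ⟨l, rfl⟩⟩
  have e1 : ∀ i, ‖∑ l, Y i l • y l‖ ^ 2 = ∑ k, ‖∑ l, Y i l * ⟪b k, z l⟫_ℂ‖ ^ 2 := by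
    intro i
    have : (∑ l, Y i l • y l) = ((∑ l, Y i l • z l : V) : E) := by simp [z]
    rw [this, ← Submodule.coe_norm, ← b.sum_sq_norm_inner_right]
    simp only [inner_sum, inner_smul_right]
  have e2 : ∀ l, ‖y l‖ ^ 2 = ∑ k, ‖⟪b k, z l⟫_ℂ‖ ^ 2 := fun l => by
    rw [b.sum_sq_norm_inner_right]; rfl
  simp only [e1, e2]
  rw [sum_comm, sum_comm (s := (univ : Finset α)), mul_sum]
  exact sum_le_sum (fun k _ => hY _)

end Pool.Agent.Lib.MP_040728_al.U
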