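import Mathlib
import Pool.Agent.Lib.MP_040728_al.ULp1
import Pool.Agent.Lib.MP_040728_al.USign

set_option autoImplicit false
set_option linter.unusedSectionVars false

namespace Pool.Agent.Lib.MP_040728_al.U

open Finset Filter Topology MeasureTheory Pool.Agent.Lib.MP_040728_al.Q.RandAux
open scoped Classical

variable {X : Type} [MeasurableSpace X] {μ : Measure X}
variable {p r : ENNReal} [Fact (1 ≤ p)] [Fact (1 ≤ r)]
variable {H : Type} [NormedAddCommGroup H] [NormedSpace ℂ H] {G : Submodule ℂ (Lp ℂ p μ × H)}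
variable {ι : Type} [Fintype ι]

/-- The square function of `f` has squared norm at most `c`. -/
def SqLe (f : ι → Lp ℂ p μ) (c : ℝ) : Prop :=
  ∃ g : X → ℝ, Integrable g μ ∧ ∫ t, g t ∂μ ≤ 1 ∧
    ∀ᵐ t ∂μ, 0 ≤ g t ∧ ∑ i, ‖f i t‖ ^ 2 ≤ c * g t ^ (2 / p.toReal)

theorem phi_of_sq (h1 : 1 < p.toReal) (h2 : p.toReal < 2)
    (hr : r.toReal = p.toReal / (2 - p.toReal)) {f : ι → Lp ℂ p μ} {x : ι → H}
    (hf : ∀ i, (f i, x i) ∈ G) {c : ℝ} (hc : 0 ≤ c) (h : SqLe f c) : Phi (LD (r := r) G) x c := by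
  obtain ⟨g, g1, g2, g3⟩ := h
  set P := p.toReal
  have a : 0 < 2 - P := by linarith
  have ρ0 : 0 < r.toReal := by rw [hr]; positivity
  have r0 : r ≠ 0 := by rintro rfl; simp at ρ0
  have rt : r ≠ ⊤ := by rintro rfl; simp at ρ0
  have e : (fun t => ‖g t ^ (r.toReal)⁻¹‖ ^ r.toReal) =ᵐ[μ] g := by
    filter_upwards [g3] with t ⟨b, _⟩
    rw [Real.norm_of_nonneg (by positivity), Real.rpow_inv_rpow b ρ0.ne']
  have m : MemLp (fun t => g t ^ (r.toReal)⁻¹) r μ :=
    (integrable_norm_rpow_iff (g1.1.aemeasurable.pow_const _).aestronglyMeasurable r0 rt).mp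
      (g1.congr e.symm)
  obtain ⟨v, v1, v2⟩ := LD.div (G := G) (m.toLp _) hf (g1.const_mul c) (by
    filter_upwards [g3, m.coeFn_toLp] with t ⟨b, d⟩ k
    rw [k]
    refine ⟨by positivity, by positivity, d.trans (le_of_eq ?_)⟩
    have : 2 / P = (r.toReal)⁻¹ + 1 := by rw [hr]; field_simp; ring
    rw [this, Real.rpow_add' b (by positivity), Real.rpow_one]
    ring)
  refine ⟨m.toLp _, v, ?_, v1, v2.trans ?_⟩
  · have k := (lp_int r0 rt (m.toLp _)).2
    rw [integral_congr_ae (g := g) (by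
      filter_upwards [m.coeFn_toLp, e] with t a b
      rw [a, b])] at k
    rw [← Real.rpow_le_rpow_iff (norm_nonneg _) zero_le_one ρ0, Real.one_rpow, ← k]
    exact g2
  · rw [integral_const_mul]
    exact mul_le_of_le_one_right hc g2

theorem sq_of_phi (h1 : 1 < p.toReal) (h2 : p.toReal < 2)
    (hr : r.toReal = p.toReal / (2 - p.toReal)) {x : ι → H} {c : ℝ} (hc : 0 < c)
    (h : Phi (LD (r := r) G) x c) : ∃ f : ι → Lp ℂ p μ, (∀ i, (f i, x i) ∈ G) ∧ SqLe f c := by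
  obtain ⟨w, v, w1, w2, w3⟩ := h
  choose f u a b d e using w2
  set P := p.toReal
  have a0 : 0 < 2 - P := by linarith
  have ρ0 : 0 < r.toReal := by rw [hr]; positivity
  have r0 : r ≠ 0 := by rintro rfl; simp at ρ0
  have rt : r ≠ ⊤ := by rintro rfl; simp at ρ0
  obtain ⟨i1, i2⟩ := lp_int r0 rt w
  have i3 := (integrable_finsetSum univ (fun l _ => b l)).div_const c
  refine ⟨f, a, fun t => (1 - P / 2) * ‖w t‖ ^ r.toReal + P / 2 * ((∑ l, u l t) / c),
    (i1.const_mul _).add (i3.const_mul _), ?_, ?_⟩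
  · rw [integral_add (i1.const_mul _) (i3.const_mul _), integral_const_mul, integral_const_mul, i2,
      integral_div, integral_finsetSum _ (fun l _ => b l)]
    have k1 : ‖w‖ ^ r.toReal ≤ 1 := Real.rpow_le_one (norm_nonneg _) w1 ρ0.le
    have k2 : (∑ l, ∫ t, u l t ∂μ) / c ≤ 1 :=
      (div_le_one hc).mpr ((sum_le_sum (fun l _ => d l)).trans w3)
    nlinarith
  · filter_upwards [ae_all_iff.mpr e] with t e
    have u0 : 0 ≤ (∑ l, u l t) / c := div_nonneg (sum_nonneg (fun l _ => (e l).2.1)) hc.le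
    have k := Real.geom_mean_le_arith_mean2_weighted (w₁ := 1 - P / 2) (w₂ := P / 2)
      (p₁ := ‖w t‖ ^ r.toReal) (by linarith) (by linarith) (by positivity) u0 (by ring)
    refine ⟨le_trans (by positivity) k, ?_⟩
    have k2 := Real.rpow_le_rpow (by positivity) k (show 0 ≤ 2 / P by positivity)
    rw [Real.mul_rpow (by positivity) (by positivity), ← Real.rpow_mul (norm_nonneg _),
      ← Real.rpow_mul (norm_nonneg _), ← Real.rpow_mul u0,
      show r.toReal * (1 - P / 2) * (2 / P) = 1 by rw [hr]; field_simp,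
      show P / 2 * (2 / P) = 1 by field_simp, Real.rpow_one, Real.rpow_one, ← mul_div_assoc,
      div_le_iff₀' hc, mul_sum] at k2
    refine le_trans (sum_le_sum (fun l _ => (e l).2.2.trans ?_)) k2
    exact mul_le_mul_of_nonneg_right (le_abs_self _) (e l).2.1

theorem avg_of_sq (h1 : 1 < p.toReal) (h2 : p.toReal < 2) {f : ι → Lp ℂ p μ} {c : ℝ} (hc : 0 ≤ c)
    (h : SqLe f c) :
    (2 ^ Fintype.card ι : ℝ)⁻¹ * ∑ η : ι → Bool, ‖∑ j, (sg (η j) : ℂ) • f j‖ ^ p.toReal ≤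
      c ^ (p.toReal / 2) := by
  obtain ⟨g, g1, g2, g3⟩ := h
  have p0 : p ≠ 0 := by rintro rfl; simp at h1; linarith
  have pt : p ≠ ⊤ := by rintro rfl; simp at h1; linarith
  have i := fun η : ι → Bool => lp_int p0 pt (∑ j, (sg (η j) : ℂ) • f j)
  set P := p.toReal
  simp only [← fun η => (i η).2]
  rw [← integral_finsetSum _ (fun η _ => (i η).1), ← integral_const_mul]
  refine (integral_mono_ae ((integrable_finsetSum _ (fun η _ => (i η).1)).const_mul _)
    (g1.const_mul (c ^ (P / 2))) ?_).trans ?_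
  · filter_upwards [g3, ae_all_iff.mpr (fun η : ι → Bool => coe_comb (fun j => (sg (η j) : ℂ)) f)]
      with t ⟨a, b⟩ d
    simp only [d]
    refine (sg_pow (E := ℂ) (by linarith) h2.le (fun j => f j t)).trans ?_
    refine (Real.rpow_le_rpow (by positivity) b (by positivity)).trans (le_of_eq ?_)
    rw [Real.mul_rpow hc (by positivity), ← Real.rpow_mul a,
      show 2 / P * (P / 2) = 1 by field_simp, Real.rpow_one]
  · rw [integral_const_mul]
    exact mul_le_of_le_one_right (by positivity) g2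

theorem sq_of_avg (h1 : 1 < p.toReal) {K : ℝ} (hK0 : 0 < K) (hK : ∀ F : (ι → Bool) → ℂ,
      ∑ i, ‖∑ η : ι → Bool, ((2 : ℂ) ^ Fintype.card ι)⁻¹ * (sg (η i) : ℂ) * F η‖ ^ 2 ≤
        K * ((2 ^ Fintype.card ι : ℝ)⁻¹ * ∑ η, ‖F η‖ ^ p.toReal) ^ (2 / p.toReal))
    {N : H → ℝ} (hN0 : ∀ y, 0 ≤ N y) (hN : ∀ y, ∃ f, (f, y) ∈ G ∧ ‖f‖ ≤ 2 * N y)
    {x : ι → H} {c : ℝ} (hc : 0 < c)
    (h : (2 ^ Fintype.card ι : ℝ)⁻¹ * ∑ η : ι → Bool, N (∑ j, (sg (η j) : ℂ) • x j) ^ p.toReal ≤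
      c ^ (p.toReal / 2)) :
    ∃ f : ι → Lp ℂ p μ, (∀ i, (f i, x i) ∈ G) ∧ SqLe f (4 * K * c) := by
  have p0 : p ≠ 0 := by rintro rfl; simp at h1; linarith
  have pt : p ≠ ⊤ := by rintro rfl; simp at h1; linarith
  choose F F1 F2 using fun η : ι → Bool => hN (∑ j, (sg (η j) : ℂ) • x j)
  have i := fun η => lp_int p0 pt (F η)
  set P := p.toReal
  have c0 : 0 < (4 * c) ^ (P / 2) := by positivity
  refine ⟨fun i => ∑ η, (((2 : ℂ) ^ Fintype.card ι)⁻¹ * (sg (η i) : ℂ)) • F η, fun i => ?_,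
    fun t => ((2 ^ Fintype.card ι : ℝ)⁻¹ * ∑ η, ‖F η t‖ ^ P) / (4 * c) ^ (P / 2),
    ((integrable_finsetSum _ (fun η _ => (i η).1)).const_mul _).div_const _, ?_, ?_⟩
  · have := mem_comb (fun η : ι → Bool => ((2 : ℂ) ^ Fintype.card ι)⁻¹ * (sg (η i) : ℂ)) F1
    simp only [mul_smul _ _ (∑ j, (sg (_ : Bool) : ℂ) • x j), ← smul_sum, sg_recover] at this
    rwa [inv_smul_smul₀ (pow_ne_zero _ two_ne_zero)] at this
  · rw [integral_div, integral_const_mul, integral_finsetSum _ (fun η _ => (i η).1), div_le_one c0,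
      Real.mul_rpow (by norm_num) hc.le]
    refine le_trans ?_ (mul_le_mul_of_nonneg_left h (by positivity))
    rw [mul_left_comm, mul_sum univ _ (4 ^ (P / 2) : ℝ)]
    refine mul_le_mul_of_nonneg_left (sum_le_sum (fun η _ => ?_)) (by positivity)
    rw [(i η).2]
    refine (Real.rpow_le_rpow (norm_nonneg _) (F2 η) (by positivity)).trans (le_of_eq ?_)
    rw [Real.mul_rpow zero_le_two (hN0 _), show (4 : ℝ) = 2 ^ (2 : ℝ) by norm_num,
      ← Real.rpow_mul zero_le_two, mul_div_cancel₀ _ two_ne_zero]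
  · filter_upwards [ae_all_iff.mpr (fun i => coe_comb
      (fun η : ι → Bool => ((2 : ℂ) ^ Fintype.card ι)⁻¹ * (sg (η i) : ℂ)) F)] with t d
    refine ⟨by positivity, ?_⟩
    simp only [d]
    refine (hK _).trans (le_of_eq ?_)
    rw [Real.div_rpow (by positivity) c0.le, ← Real.rpow_mul (by positivity : 0 ≤ 4 * c),
      show P / 2 * (2 / P) = 1 by field_simp, Real.rpow_one]
    generalize ((2 ^ Fintype.card ι : ℝ)⁻¹ * ∑ η, ‖F η t‖ ^ P) ^ (2 / P) = z
    field_simp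

end Pool.Agent.Lib.MP_040728_al.U
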