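import Mathlib
import Pool.Agent.Lib.MP_040728_al.Rep
import Pool.Agent.Lib.MP_040728_al.ULp2

set_option autoImplicit false

namespace Pool.Agent.Lib.MP_040728_al.U

open Finset Filter Topology MeasureTheory Pool.Agent.Lib.MP_040728_al.Q.RandAux
open scoped Classical

theorem hilb_norm (H : Type) [NormedAddCommGroup H] [InnerProductSpace ℂ H] :
    Hilb (fun y : H => ‖y‖ ^ 2) :=
  ⟨fun _ => by positivity, fun _ _ _ _ Y c _ hY y => hilb_aux Y c hY y⟩

/-- The graph of the lifting relation, with its norm estimates. -/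
theorem exists_graph {V H : Type} [NormedAddCommGroup V] [NormedSpace ℂ V] [NormedAddCommGroup H]
    [NormedSpace ℂ H] (Y : Submodule ℂ V) (Z : Submodule ℂ Y) (T : H ≃L[ℂ] (↥Y ⧸ Z)) :
    ∃ (G : Submodule ℂ (V × H)) (K : ℝ), 0 < K ∧ (∀ f y, (f, y) ∈ G → ‖T y‖ ≤ ‖f‖) ∧
      (∀ y (a : ℝ), 1 < a → ∃ f, (f, y) ∈ G ∧ ‖f‖ ≤ a * ‖T y‖) ∧ (∀ y, ‖T y‖ ≤ K * ‖y‖) ∧
      ∀ y, ‖y‖ ≤ K * ‖T y‖ := by
  let L : Y →ₗ[ℂ] V × H := Y.subtype.prod ((T.symm : (↥Y ⧸ Z) →ₗ[ℂ] H) ∘ₗ Z.mkQ)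
  obtain ⟨K1, k1, k1'⟩ := (T : H →L[ℂ] (↥Y ⧸ Z)).bound
  obtain ⟨K2, k2, k2'⟩ := (T.symm : (↥Y ⧸ Z) →L[ℂ] H).bound
  have b2 : ∀ y, ‖y‖ ≤ K2 * ‖T y‖ := fun y => by simpa using k2' (T y)
  refine ⟨LinearMap.range L, K1 + K2, by positivity, ?_, fun y a ha => ?_, fun y => ?_, fun y => ?_⟩
  · rintro f y ⟨u, hu⟩
    obtain ⟨rfl, rfl⟩ := Prod.mk.inj hu
    simpa using Submodule.Quotient.norm_mk_le Z u
  · rcases (norm_nonneg (T y)).eq_or_lt with h | h
    · have : y = 0 := norm_le_zero_iff.mp (by simpa [← h] using b2 y)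
      subst this
      exact ⟨0, Submodule.zero_mem _, by simp⟩
    obtain ⟨u, u1, u2⟩ := Submodule.Quotient.norm_mk_lt (T y) (mul_pos (sub_pos.mpr ha) h)
    refine ⟨u, ⟨u, ?_⟩, ?_⟩
    · simp [L, u1]
    · rw [← Submodule.coe_norm]; linarith
  · exact (k1' y).trans (by nlinarith [norm_nonneg y])
  · exact (b2 y).trans (by nlinarith [norm_nonneg (T y)])

theorem near_lt {p : ENNReal} [Fact (1 ≤ p)] (h1 : 1 < p.toReal) (h2 : p.toReal < 2) :
    ∃ B : ℝ, ∀ (Γ : Type) [Group Γ], Iso p Γ →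
      ∀ (H : Type) [NormedAddCommGroup H] [InnerProductSpace ℂ H] [CompleteSpace H]
        (π : Γ →* (H →L[ℂ] H)ˣ), (∃ C : ℝ, ∀ g, ‖(π g : H →L[ℂ] H)‖ ≤ C) → Near π B := by
  have a0 : 0 < 2 - p.toReal := by linarith
  have ρ1 : 1 < p.toReal / (2 - p.toReal) := by rw [one_lt_div a0]; linarith
  obtain ⟨lam, hl, hu⟩ := uc_LD ρ1
  obtain ⟨K, hK0, hK⟩ := sg_dual h1
  refine ⟨2 * (4 * K * lam * (4 * K)) + 1, fun Γ _ hiso H _ _ _ π hπ => ?_⟩
  obtain ⟨X, _, μ, Y, Z, T, -, -, hT⟩ := hiso H π hπ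
  obtain ⟨D, hD⟩ := hπ
  obtain ⟨G, A, hA, g1, g2, g3, g4⟩ := exists_graph Y Z T
  let r : ENNReal := ENNReal.ofReal (p.toReal / (2 - p.toReal))
  have : Fact (1 ≤ r) := ⟨ENNReal.one_le_ofReal.mpr ρ1.le⟩
  have hr : r.toReal = p.toReal / (2 - p.toReal) := ENNReal.toReal_ofReal (by linarith)
  have P0 : 0 < p.toReal := by linarith
  have B1 : ∀ (ι : Type) [Fintype ι] (x : ι → H) (c : ℝ), 0 < c → Phi (LD (r := r) G) x c →
      (2 ^ Fintype.card ι : ℝ)⁻¹ * ∑ η : ι → Bool, ‖T (∑ j, (sg (η j) : ℂ) • x j)‖ ^ p.toReal ≤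
        c ^ (p.toReal / 2) := by
    intro ι _ x c hc h
    obtain ⟨f, f1, f2⟩ := sq_of_phi h1 h2 hr hc h
    refine le_trans (mul_le_mul_of_nonneg_left (sum_le_sum (fun η _ => ?_)) (by positivity))
      (avg_of_sq h1 h2 hc.le f2)
    exact Real.rpow_le_rpow (norm_nonneg _) (g1 _ _ (mem_comb _ f1)) P0.le
  have B2 : ∀ (ι : Type) [Fintype ι] (x : ι → H) (c : ℝ), 0 < c →
      (2 ^ Fintype.card ι : ℝ)⁻¹ * ∑ η : ι → Bool, ‖T (∑ j, (sg (η j) : ℂ) • x j)‖ ^ p.toReal ≤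
        c ^ (p.toReal / 2) → Phi (LD (r := r) G) x (4 * K * c) := by
    intro ι _ x c hc h
    obtain ⟨f, f1, f2⟩ := sq_of_avg (G := G) h1 hK0 (hK ι) (N := fun y => ‖T y‖)
      (fun _ => norm_nonneg _) (fun y => g2 y 2 one_lt_two) hc h
    exact phi_of_sq h1 h2 hr f1 (by positivity) f2
  refine Sys.near (Dom := LD (r := r) G) ⟨cone_LD G, by positivity, hl, ?_, ?_, ?_,
    hu X μ p r hr H G⟩ hD (hilb_norm H)
  · intro ι _ x c g hc h
    refine B2 ι _ c hc ?_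
    simp only [← map_smul, ← map_sum, hT]
    exact B1 ι x c hc h
  · refine ⟨4 * K * A ^ 2, by positivity, fun ι _ x c hc => ?_⟩
    rw [← mul_sum, mul_assoc, ← lt_div_iff₀' (by positivity)] at hc
    have := B2 ι x _ (lt_of_le_of_lt (by positivity) hc) (by
      refine le_trans ?_ (Real.rpow_le_rpow (by positivity) hc.le (by positivity))
      have e : ∀ j, ‖(A : ℂ) • x j‖ ^ 2 = A ^ 2 * ‖x j‖ ^ 2 := fun j => by
        rw [norm_smul, Complex.norm_real, Real.norm_of_nonneg hA.le, mul_pow]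
      have k := sg_pow P0 h2.le (fun j => (A : ℂ) • x j)
      simp only [e, ← mul_sum] at k
      refine le_trans (mul_le_mul_of_nonneg_left (sum_le_sum (fun η _ => ?_)) (by positivity)) k
      refine Real.rpow_le_rpow (norm_nonneg _) ((g3 _).trans (le_of_eq ?_)) P0.le
      simp only [smul_comm _ (A : ℂ), ← smul_sum]
      rw [norm_smul, Complex.norm_real, Real.norm_of_nonneg hA.le])
    rwa [mul_div_cancel₀ _ (by positivity)] at this
  · refine ⟨A ^ 2, by positivity, fun w y v hw h => ?_⟩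
    have k : ‖T y‖ ^ 2 ≤ v := by
      refine le_of_forall_pos_le_add (fun ε hε => ?_)
      have c0 : 0 < v + ε := by linarith [(cone_LD G).nonneg _ _ _ h]
      have := B1 Unit (fun _ => y) _ c0 ⟨w, fun _ => v, hw, fun _ => h, by simpa using hε.le⟩
      have e : ∀ b, ‖T ((sg b : ℂ) • y)‖ = ‖T y‖ := fun b => by
        cases b
        · have := norm_neg (T y)
          simpa [sg] using this
        · simp [sg]
      simp only [univ_unique, sum_singleton, e, sum_const, card_univ, Fintype.card_fun,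
        Fintype.card_bool, nsmul_eq_mul, Nat.cast_pow, Nat.cast_ofNat] at this
      rw [inv_mul_cancel_left₀ (by positivity)] at this
      have n0 : 0 ≤ ‖T y‖ := norm_nonneg _
      have k := Real.rpow_le_rpow (by positivity) this (show 0 ≤ 2 / p.toReal by positivity)
      rwa [← Real.rpow_mul n0, ← Real.rpow_mul c0.le, mul_div_cancel₀ _ P0.ne',
        show p.toReal / 2 * (2 / p.toReal) = 1 by field_simp, Real.rpow_one, Real.rpow_two] at k
    calc ‖y‖ ^ 2 ≤ (A * ‖T y‖) ^ 2 := pow_le_pow_left₀ (norm_nonneg _) (g4 y) 2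
      _ ≤ _ := by rw [mul_pow]; exact mul_le_mul_of_nonneg_left k (by positivity)

theorem near_two (Γ : Type) [Group Γ] (hiso : Iso 2 Γ) (H : Type) [NormedAddCommGroup H]
    [InnerProductSpace ℂ H] [CompleteSpace H] (π : Γ →* (H →L[ℂ] H)ˣ)
    (hπ : ∃ C : ℝ, ∀ g, ‖(π g : H →L[ℂ] H)‖ ≤ C) : Near π 1 := by
  obtain ⟨X, _, μ, Y, Z, T, -, -, hT⟩ := hiso H π hπ
  obtain ⟨G, A, hA, g1, g2, g3, g4⟩ := exists_graph Y Z T
  refine ⟨fun y => ‖T y‖ ^ 2, A ^ 2, ⟨fun _ => by positivity, fun α β _ _ M c hc hM y => ?_⟩,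
    fun y => ?_, fun y => ?_, fun g y => by simp only [hT, one_mul, le_refl]⟩
  · have t : Tendsto (fun a : ℝ => c * ∑ l, (a * ‖T (y l)‖) ^ 2) (𝓝[>] 1)
        (𝓝 (c * ∑ l, (1 * ‖T (y l)‖) ^ 2)) :=
      (Continuous.tendsto (by fun_prop) 1).mono_left nhdsWithin_le_nhds
    simp only [one_mul] at t
    refine ge_of_tendsto t ?_
    filter_upwards [self_mem_nhdsWithin] with a ha
    choose f f1 f2 using fun l => g2 (y l) a ha
    refine (sum_le_sum (fun i _ => pow_le_pow_left₀ (norm_nonneg _)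
      (g1 _ _ (mem_comb (M i) f1)) 2)).trans ((hilb_aux M c hM f).trans ?_)
    exact mul_le_mul_of_nonneg_left
      (sum_le_sum (fun l _ => pow_le_pow_left₀ (norm_nonneg _) (f2 l) 2)) hc
  · rw [← mul_pow]; exact pow_le_pow_left₀ (norm_nonneg _) (g3 y) 2
  · rw [← mul_pow]; exact pow_le_pow_left₀ (norm_nonneg _) (g4 y) 2

/-- An invariant equivalent `p`-norm makes a representation near unitary, with a constant that
depends on `p` only. -/
theorem near_of_iso {p : ENNReal} [Fact (1 ≤ p)] (h1 : 1 < p) (h2 : p ≤ 2) :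
    ∃ B : ℝ, ∀ (Γ : Type) [Group Γ], Iso p Γ →
      ∀ (H : Type) [NormedAddCommGroup H] [InnerProductSpace ℂ H] [CompleteSpace H]
        (π : Γ →* (H →L[ℂ] H)ˣ), (∃ C : ℝ, ∀ g, ‖(π g : H →L[ℂ] H)‖ ≤ C) → Near π B := by
  rcases h2.eq_or_lt with rfl | h2
  · exact ⟨1, fun Γ _ => near_two Γ⟩
  have ht : p ≠ ⊤ := (h2.trans ENNReal.ofNat_lt_top).ne
  refine near_lt ?_ ?_
  · rw [← ENNReal.toReal_one]; exact (ENNReal.toReal_lt_toReal ENNReal.one_ne_top ht).mpr h1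
  · simpa using (ENNReal.toReal_lt_toReal ht ENNReal.ofNat_ne_top).mpr h2

end Pool.Agent.Lib.MP_040728_al.U
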