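import Mathlib
import Pool.Agent.Lib.MP_040728_al.DQuad
import Pool.Agent.Lib.MP_040728_al.UMain

set_option autoImplicit false

namespace Pool.Agent.Lib.MP_040728_al.Dix

open Finset Forest
open scoped ENNReal Classical InnerProductSpace

variable {Γ : Type} [Group Γ]

section fibre
variable {r m : ℕ} {I : Type} [Fintype I] {γ : ℕ → I → Γ} {U : ℕ → Γ × I → Prop} {Y : I → I → ℝ}

theorem Dat.growth_near (h : Dat Γ r (m + 1) I γ U Y)
    {L : Γ →* (lp (fun _ : Γ × I => ℂ) 2 →L[ℂ] lp (fun _ : Γ × I => ℂ) 2)}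
    (l1 : ∀ g v, (L g v : Γ × I → ℂ) = tr g v) (l2 : ∀ g u v, ⟪L g⁻¹ u, v⟫_ℂ = ⟪u, L g v⟫_ℂ)
    {χ : ℕ → I → ℝ} (hχ : ∀ j s, χ j s = 1 ∨ χ j s = -1)
    (low : ((Fintype.card I : ℝ) / 2) ^ (m + 2) ≤
        ∑ t ∈ univ.filter (fun t => U (m + 1) ((γ (m + 1) t)⁻¹, t)),
          ‖ch L γ (fun j t s => Y t s * χ j s)
            (fun s => if U 0 (1, s) then 0 else lp.single 2 (1, s) 1) (m + 1) t‖ ^ 2)
    {w b : ℝ} (b0 : 0 < b) (hw : w ^ 2 * (896 * Fintype.card I) = b * (2 * 896 ^ 2))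
    {X : Type} (π : Γ →* (lp (fun _ : X => ℂ) 2 →L[ℂ] lp (fun _ : X => ℂ) 2))
    (ι : ℕ → Γ × I → X) (hι : ∀ j e j' e', ι j e = ι j' e' → j = j' ∧ e = e')
    (hπ : ∀ g v, (fun j e => π g v (ι j e)) =
      rep γ (fun j t s => w * (Y t s * χ j s)) U g (fun j e => v (ι j e)))
    (P : lp (fun _ : X => ℂ) 2 → ℝ) {A : ℝ} (A0 : 0 ≤ A) (hP : MP_040728_al.U.Hilb P)
    (b2 : ∀ x, P x ≤ A * ‖x‖ ^ 2) (b1 : ∀ x, ‖x‖ ^ 2 ≤ A * P x)
    (b3 : ∀ g x, P (π g x) ≤ b * P x) : 2 ^ (m + 1) ≤ 4 * (b * A ^ 2) := by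
  set n : ℝ := (Fintype.card I : ℝ) with hn
  have n0 : 0 < n := by rw [hn]; exact_mod_cast h.pos
  set v := ch L γ (fun j t s => Y t s * χ j s)
    (fun s => if U 0 (1, s) then 0 else lp.single 2 (1, s) 1) with hv
  set V := ch π γ (fun j t s => Y t s * χ j s)
    (fun s => if U 0 (1, s) then 0 else lp.single 2 (ι 0 (1, s)) 1) with hV
  have a1 : ∀ j, ∑ t, P (V j t) ≤ (b * (224 * n)) ^ j * (b * (A * n)) := by
    intro j
    induction j with
    | zero =>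
      simp only [hV, ch, pow_zero, one_mul]
      refine (sum_le_sum (g := fun _ => b * A) (fun s _ => (b3 _ _).trans
        (mul_le_mul_of_nonneg_left ((b2 _).trans ?_) b0.le))).trans (le_of_eq ?_)
      · split_ifs
        · simpa using A0
        · rw [lp.norm_single (by simp)]; simp
      · rw [sum_const, card_univ, nsmul_eq_mul]; ring
    | succ j ih =>
      have q : ∀ z : I → ℝ, 1 * ∑ t, (∑ s, Y t s * χ j s * z s) ^ 2 ≤ 224 * n * ∑ s, z s ^ 2 :=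
        fun z => by
          simpa only [one_mul, mul_assoc, sgn_sq (hχ j)] using h.big (fun s => χ j s * z s)
      have := hP.2 I I (fun t s => ((Y t s * χ j s : ℝ) : ℂ)) (224 * n) (by positivity) (fun x => by
        simpa only [one_mul, one_pow] using
          cplx_le univ (fun t s => Y t s * χ j s) 1 x (q _) (q _)) (V j)
      rw [pow_succ', mul_assoc, mul_assoc]
      refine le_trans ?_ (mul_le_mul_of_nonneg_left
        (this.trans (mul_le_mul_of_nonneg_left ih (by positivity))) b0.le)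
      rw [mul_sum]
      exact sum_le_sum (fun t _ => b3 _ _)
  have a2 : ∀ t, U (m + 1) ((γ (m + 1) t)⁻¹, t) →
      (w ^ 2) ^ (m + 1) * (‖v (m + 1) t‖ ^ 2) ^ 2 ≤ A * P (V (m + 1) t) := by
    intro t ht
    have e1 := congrFun (congrFun (ch_grn l1 γ (fun j t s => Y t s * χ j s) _ U h.pre π ι hι hπ
      (m + 1) t) (m + 1)) ((γ (m + 1) t)⁻¹, t)
    rw [grn_full γ _ U h.pre _ _ _ ht, full_pair l1 l2 γ (fun j t s => Y t s * χ j s) w
      (fun s => U 0 (1, s)) (m + 1) t _ (ch_supp l1 γ _ _ _ _), inner_self_eq_norm_sq_to_K] at e1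
    refine le_trans ?_ (b1 _)
    refine le_trans (le_of_eq ?_) (pow_le_pow_left₀ (norm_nonneg _)
      (lp.norm_apply_le_norm (by simp) (V (m + 1) t) (ι (m + 1) ((γ (m + 1) t)⁻¹, t))) 2)
    simp only [hV, e1, ← hv, norm_mul, norm_pow, Complex.norm_real, Real.norm_eq_abs, mul_pow,
      Complex.coe_algebraMap, abs_norm]
    rw [← sq_abs w]
    ring
  set T := univ.filter (fun t => U (m + 1) ((γ (m + 1) t)⁻¹, t)) with hT
  have a3 : (w ^ 2) ^ (m + 1) * ∑ t ∈ T, (‖v (m + 1) t‖ ^ 2) ^ 2 ≤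
      A * ((b * (224 * n)) ^ (m + 1) * (b * (A * n))) := by
    rw [mul_sum]
    refine (sum_le_sum (fun t ht => a2 t (mem_filter.mp ht).2)).trans ?_
    rw [← mul_sum]
    exact mul_le_mul_of_nonneg_left
      ((sum_le_sum_of_subset_of_nonneg (filter_subset _ _) (fun _ _ _ => hP.1 _)).trans (a1 _)) A0
  have a4 := sq_sum_le_card_mul_sum_sq (s := T) (f := fun t => ‖v (m + 1) t‖ ^ 2)
  have a5 : (T.card : ℝ) ≤ n := by rw [hn]; exact_mod_cast card_le_univ T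
  have a6 : ((n / 2) ^ (m + 2)) ^ 2 ≤ n * ∑ t ∈ T, (‖v (m + 1) t‖ ^ 2) ^ 2 :=
    (pow_le_pow_left₀ (by positivity) low 2).trans (a4.trans
      (mul_le_mul_of_nonneg_right a5 (sum_nonneg fun _ _ => by positivity)))
  have a7 : (w ^ 2) ^ (m + 1) * ((n / 2) ^ (m + 2)) ^ 2 =
      2 ^ (m + 1) * (b * (224 * n)) ^ (m + 1) * (n ^ 2 / 4) := by
    have q1 : ∀ q : ℝ, (q ^ (m + 2)) ^ 2 = (q ^ 2) ^ (m + 1) * q ^ 2 := fun q => by ring
    rw [← mul_pow, show (2 : ℝ) * (b * (224 * n)) = w ^ 2 * (n / 2) ^ 2 by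
      linear_combination (-n / 3584) * hw, mul_pow, q1, ← mul_assoc]
    congr 1
    ring
  have a8 := mul_le_mul_of_nonneg_left a6 (by positivity : 0 ≤ (w ^ 2) ^ (m + 1))
  have a9 := mul_le_mul_of_nonneg_left a3 n0.le
  rw [a7] at a8
  refine le_of_mul_le_mul_right ?_ (by positivity : 0 < (b * (224 * n)) ^ (m + 1) * (n ^ 2 / 4))
  nlinarith

end fibre

theorem near_mean (B : ℝ)
    (hN : ∀ (H : Type) [NormedAddCommGroup H] [InnerProductSpace ℂ H] [CompleteSpace H]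
      (π : Γ →* (H →L[ℂ] H)ˣ), (∃ C : ℝ, ∀ g, ‖(π g : H →L[ℂ] H)‖ ≤ C) → U.Near π B) :
    ∃ M ∈ Means Γ, ∀ g f, M (Bd.sh g f) = M f := by
  refine (mean_or_lev Γ).resolve_right (fun hL => ?_)
  obtain ⟨b, hb⟩ := exists_nat_gt |B|
  have b0 : (0 : ℝ) < b := (abs_nonneg B).trans_lt hb
  have b1 : 0 < b := by exact_mod_cast b0
  obtain ⟨r, hr⟩ : ∃ r : ℕ, r = b * (2 * 896 ^ 2) := ⟨_, rfl⟩
  have r2 : 2 ≤ r := by rw [hr]; omega
  have r3 : (r : ℝ) = b * (2 * 896 ^ 2) := by rw [hr]; push_cast; norm_num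
  choose I _ γ U Y hD using fun m => exists_dat (m := m + 1) r2 (hL _ (by rw [r3]; positivity) _)
  choose L l1 l2 l3 using fun m => exists_lam Γ (I m)
  choose χ hχ low using fun m => (hD m).lower (l3 m)
  let w : ℕ → ℝ := fun m => √(r / (896 * Fintype.card (I m)))
  have hw : ∀ m, w m ^ 2 * (896 * Fintype.card (I m)) = r := fun m => by
    have : (0 : ℝ) < Fintype.card (I m) := by exact_mod_cast (hD m).pos
    rw [Real.sq_sqrt (by positivity), div_mul_cancel₀ _ (by positivity)]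
  let R := fun m => rep (γ m) (fun j t s => w m * (Y m t s * χ m j s)) (U m)
  let Φ : Γ → (((Σ m, ℕ × (Γ × I m)) → ℂ) →ₗ[ℂ] ((Σ m, ℕ × (Γ × I m)) → ℂ)) := fun g =>
    { toFun := fun f x => R x.1 g (fun j e => f ⟨x.1, j, e⟩) x.2.1 x.2.2
      map_add' := fun f f' => funext fun x =>
        congrFun (congrFun ((R x.1 g).map_add (fun j e => f ⟨x.1, j, e⟩)
          (fun j e => f' ⟨x.1, j, e⟩)) x.2.1) x.2.2
      map_smul' := fun c f => funext fun x =>
        congrFun (congrFun ((R x.1 g).map_smul c (fun j e => f ⟨x.1, j, e⟩)) x.2.1) x.2.2 }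
  have Φe : ∀ g f m j e, Φ g f ⟨m, j, e⟩ = R m g (fun j e => f ⟨m, j, e⟩) j e :=
    fun _ _ _ _ _ => rfl
  have e1 : ∀ f : (Σ m, ℕ × (Γ × I m)) → ℂ, nn f = ∑' m, ∑' j, nn (fun e => f ⟨m, j, e⟩) := by
    intro f
    unfold nn
    rw [ENNReal.tsum_sigma']
    exact tsum_congr (fun m => ENNReal.tsum_prod')
  obtain ⟨π, p1, p2⟩ := lift Φ (32 * r + 2)
    (fun f => funext fun x => congrFun (congrFun (rep_one _ _ _ (fun j e => f ⟨x.1, j, e⟩)) _) _)
    (fun g g' f => funext fun x =>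
      congrFun (congrFun (rep_mul _ _ _ (fun j e => f ⟨x.1, j, e⟩) g g') _) _)
    (fun g f => by
      rw [e1, e1, ← ENNReal.tsum_mul_left]
      refine ENNReal.tsum_le_tsum (fun m => ?_)
      push_cast
      simp only [Φe]
      exact (hD m).bound (hχ m) (by omega) (hw m) g (fun j e => f ⟨m, j, e⟩))
  obtain ⟨P, A, s1, s2, s3, s4⟩ := hN _ π.toHomUnits ⟨_, p1⟩
  have key : ∀ m, (2 : ℝ) ^ (m + 1) ≤ 4 * (b * |A| ^ 2) := fun m =>
    (hD m).growth_near (l1 m) (l2 m) (hχ m) (low m) b0 ((hw m).trans r3) π (fun j e => ⟨m, j, e⟩)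
      (fun j e j' e' h => by simpa using h) (fun g v => by rw [p2]; rfl) P (abs_nonneg A) s1
      (fun x => (s2 x).trans (mul_le_mul_of_nonneg_right (le_abs_self A) (sq_nonneg _)))
      (fun x => (s3 x).trans (mul_le_mul_of_nonneg_right (le_abs_self A) (s1.1 _)))
      (fun g x => (s4 g x).trans
        (mul_le_mul_of_nonneg_right ((le_abs_self B).trans hb.le) (s1.1 _)))
  obtain ⟨k, hk⟩ := pow_unbounded_of_one_lt (4 * (b * |A| ^ 2)) (one_lt_two (α := ℝ))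
  have := key k
  rw [pow_succ] at this
  nlinarith [pow_pos (zero_lt_two' ℝ) k]

theorem iso_mean {p : ENNReal} [Fact (1 ≤ p)] (h1 : 1 < p) (h2 : p ≤ 2) (h : Iso p Γ) :
    ∃ M ∈ Means Γ, ∀ g f, M (Bd.sh g f) = M f := by
  obtain ⟨B, hB⟩ := U.near_of_iso h1 h2
  exact near_mean B (hB Γ h)

end Pool.Agent.Lib.MP_040728_al.Dix
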