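import Mathlib
import Pool.Agent.Lib.MP_040728_al.FFib

set_option autoImplicit false

namespace Pool.Agent.Lib.MP_040728_al.Forest

open Finset MeasureTheory
open scoped ENNReal Classical

variable {Γ : Type} [Group Γ]

/-- Vertices that survive `j` rounds of removing vertices with at most `δ` neighbours. -/
def core (S : Finset Γ) (o : Γ × Γ → Prop) (δ : ℕ) : ℕ → Γ → Prop
  | 0, _ => True
  | j + 1, x => core S o δ j x ∧ δ < (S.filter (fun s => o (x, s) ∧ core S o δ j (x * s))).card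

/-- The edge is charged to its first vertex. -/
def chg (S : Finset Γ) (o : Γ × Γ → Prop) (δ : ℕ) (x s : Γ) : Prop :=
  o (x, s) ∧ ∃ j, core S o δ j x ∧ ¬ core S o δ (j + 1) x ∧ core S o δ j (x * s)

theorem core_sh (S : Finset Γ) (o : Γ × Γ → Prop) (δ : ℕ) (g : Γ) (j : ℕ) (x : Γ) :
    core S (sh g o) δ j x ↔ core S o δ j (g⁻¹ * x) := by
  induction j generalizing x with
  | zero => rfl
  | succ j ih => simp only [core, ih, sh, mul_assoc]

theorem chg_sh (S : Finset Γ) (o : Γ × Γ → Prop) (δ : ℕ) (g x s : Γ) :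
    chg S (sh g o) δ x s ↔ chg S o δ (g⁻¹ * x) s := by
  simp only [chg, core_sh, sh, mul_assoc]

theorem core_anti {S : Finset Γ} {o : Γ × Γ → Prop} {δ i j : ℕ} {x : Γ} (h : i ≤ j)
    (hc : core S o δ j x) : core S o δ i x := by
  induction h with
  | refl => exact hc
  | step _ ih => exact ih hc.1

theorem chg_card (S : Finset Γ) (o : Γ × Γ → Prop) (δ : ℕ) (x : Γ) :
    (S.filter (fun s => chg S o δ x s)).card ≤ δ := by
  rcases (S.filter (fun s => chg S o δ x s)).eq_empty_or_nonempty with h | ⟨s0, h⟩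
  · simp [h]
  obtain ⟨-, j, a1, a2, -⟩ := (mem_filter.mp h).2
  refine le_trans (card_le_card (fun s hs => ?_)) (not_lt.mp (fun h => a2 ⟨a1, h⟩))
  obtain ⟨b0, b1, i, b2, b3, b4⟩ := mem_filter.mp hs
  obtain rfl : i = j := by
    rcases lt_trichotomy i j with c | c | c
    · exact absurd (core_anti c a1) b3
    · exact c
    · exact absurd (core_anti c b2) a2
  exact mem_filter.mpr ⟨b0, b1, b4⟩

theorem chg_cases {S : Finset Γ} {o : Γ × Γ → Prop} (δ : ℕ) {x s : Γ} (h : o (x, s))
    (h' : o (x * s, s⁻¹)) (k : ℕ) :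
    (core S o δ k x ∧ core S o δ k (x * s)) ∨ chg S o δ x s ∨ chg S o δ (x * s) s⁻¹ := by
  induction k with
  | zero => exact Or.inl ⟨trivial, trivial⟩
  | succ k ih =>
    rcases ih with ⟨a1, a2⟩ | a
    · by_cases b1 : core S o δ (k + 1) x
      · by_cases b2 : core S o δ (k + 1) (x * s)
        · exact Or.inl ⟨b1, b2⟩
        · exact Or.inr (Or.inr ⟨h', k, a2, b2, by rwa [mul_inv_cancel_right]⟩)
      · exact Or.inr (Or.inl ⟨h, k, a1, b1, a2⟩)
    · exact Or.inr a

variable {X : Type} [MeasurableSpace X]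

theorem meas_core (S : Finset Γ) {o : X → Γ × Γ → Prop} (ho : ∀ e, Measurable (fun ω => o ω e))
    (δ j : ℕ) (x : Γ) : Measurable (fun ω => core S (o ω) δ j x) := by
  induction j generalizing x with
  | zero => exact measurable_const
  | succ j ih =>
    refine (ih x).and ?_
    simp only [card_filter]
    refine measurableSet_setOfPred.mp (measurableSet_lt measurable_const ?_)
    exact Finset.measurable_sum _ (fun s _ => Measurable.ite
      (measurableSet_setOfPred.mpr ((ho _).and (ih _))) measurable_const measurable_const)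

theorem meas_chg (S : Finset Γ) {o : X → Γ × Γ → Prop} (ho : ∀ e, Measurable (fun ω => o ω e))
    (δ : ℕ) (x s : Γ) : Measurable (fun ω => chg S (o ω) δ x s) :=
  (ho _).and (Measurable.exists (fun j => (meas_core S ho δ j x).and
    ((meas_core S ho δ (j + 1) x).not.and (meas_core S ho δ j _))))

theorem transport [MulAction Γ X] (μ : Measure X) [IsFiniteMeasure μ]
    (hμ : ∀ g : Γ, MeasurePreserving (fun ω : X => g • ω) μ μ) (S : Finset Γ)
    (hS : ∀ s ∈ S, s⁻¹ ∈ S) {o : X → Γ × Γ → Prop} (ho : ∀ e, Measurable (fun ω => o ω e))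
    (hs : ∀ ω x s, o ω (x, s) → o ω (x * s, s⁻¹)) (he : ∀ (g : Γ) ω, o (g • ω) = sh g (o ω))
    (δ k : ℕ) : ∑ s ∈ S, μ.real {ω | o ω (1, s)} ≤
      S.card * μ.real {ω | core S (o ω) δ k 1} + 2 * δ * μ.real {ω | ∃ s ∈ S, o ω (1, s)} := by
  have mc := fun x s => measurableSet_setOfPred.mpr (meas_chg S ho δ x s)
  have a1 : ∀ s, μ.real {ω | chg S (o ω) δ (1 * s) s⁻¹} = μ.real {ω | chg S (o ω) δ 1 s⁻¹} := by
    intro s
    rw [← (hμ s⁻¹).measureReal_preimage (mc 1 s⁻¹).nullMeasurableSet]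
    congr 1
    ext ω
    simp [he, chg_sh]
  have a2 : ∀ s, μ.real {ω | o ω (1, s)} ≤ μ.real {ω | core S (o ω) δ k 1} +
      (μ.real {ω | chg S (o ω) δ 1 s} + μ.real {ω | chg S (o ω) δ 1 s⁻¹}) := by
    intro s
    rw [← a1]
    refine le_trans (measureReal_mono (fun ω hω => ?_)) ((measureReal_union_le _ _).trans
      (add_le_add_right (measureReal_union_le _ _) _))
    rcases chg_cases (S := S) δ hω (hs _ _ _ hω) k with h | h | h
    exacts [Or.inl h.1, Or.inr (Or.inl h), Or.inr (Or.inr h)]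
  have a3 : ∑ s ∈ S, μ.real {ω | chg S (o ω) δ 1 s⁻¹} = ∑ s ∈ S, μ.real {ω | chg S (o ω) δ 1 s} :=
    sum_nbij' (fun s => s⁻¹) (fun s => s⁻¹) hS hS (fun _ _ => inv_inv _) (fun _ _ => inv_inv _)
      (fun _ _ => rfl)
  have mb : MeasurableSet {ω | ∃ s ∈ S, o ω (1, s)} := by
    have : {ω | ∃ s ∈ S, o ω (1, s)} = ⋃ s ∈ S, {ω | o ω (1, s)} := by ext; simp
    rw [this]
    exact S.measurableSet_biUnion (fun s _ => measurableSet_setOfPred.mpr (ho _))
  have a4 : ∑ s ∈ S, μ.real {ω | chg S (o ω) δ 1 s} ≤ δ * μ.real {ω | ∃ s ∈ S, o ω (1, s)} := by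
    have i1 : ∀ s ∈ S, Integrable ({ω | chg S (o ω) δ 1 s}.indicator (1 : X → ℝ)) μ :=
      fun s _ => (integrable_const (1 : ℝ)).indicator (mc 1 s)
    rw [← integral_indicator_one mb, ← integral_const_mul,
      sum_congr rfl (fun s _ => (integral_indicator_one (mc 1 s)).symm), ← integral_finsetSum _ i1]
    refine integral_mono (integrable_finsetSum _ i1)
      (((integrable_const (1 : ℝ)).indicator mb).const_mul _) (fun ω => ?_)
    simp only [Set.indicator_apply, Set.mem_ofPred_eq, Pi.one_apply, sum_boole]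
    split_ifs with h
    · rw [mul_one]; exact_mod_cast chg_card S (o ω) δ 1
    · rw [filter_eq_empty_iff.mpr (fun s hs c => h ⟨s, hs, c.1⟩)]; simp
  refine (sum_le_sum (fun s _ => a2 s)).trans ?_
  rw [sum_add_distrib, sum_add_distrib, a3, sum_const, nsmul_eq_mul]
  linarith

end Pool.Agent.Lib.MP_040728_al.Forest
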