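import Mathlib
import Pool.Agent.Lib.MP_040728_al.FFib

set_option autoImplicit false

namespace Pool.Agent.Lib.MP_040728_al.Forest

open Finset MeasureTheory
open scoped ENNReal NNReal

/-- Every uniformly bounded representation keeps an equivalent gauge with Clarkson's inequality. -/
def Clk (r : ℝ) (Γ : Type) [Group Γ] : Prop :=
  ∀ (H : Type) [NormedAddCommGroup H] [InnerProductSpace ℂ H] [CompleteSpace H]
    (π : Γ → H →L[ℂ] H), (∀ v, π 1 v = v) → (∀ g h v, π (g * h) v = π g (π h v)) →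
    (∃ C : ℝ, ∀ g, ‖π g‖ ≤ C) →
    ∃ (N : H → ℝ) (C : ℝ), 0 < C ∧ (∀ v, 0 ≤ N v) ∧ (∀ v, N (-v) = N v) ∧
      (∀ a b, N (a + b) ^ r + N (a - b) ^ r ≤ 2 * (N a ^ r + N b ^ r)) ∧
      (∀ g v, N (π g v) = N v) ∧ (∀ v, ‖v‖ ≤ C * N v) ∧ (∀ v, N v ≤ C * ‖v‖)

variable {X I : Type} [MeasurableSpace X] [Countable I]

/-- Measurable in the first variable. -/
def Meas (f : X → I → ℂ) : Prop := ∀ i, Measurable (fun ω => f ω i)

/-- The squared norm of a random function. -/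
noncomputable def nrm (μ : Measure X) (f : X → I → ℂ) : ℝ≥0∞ := ∫⁻ ω, nn (f ω) ∂μ

theorem Meas.nn {f : X → I → ℂ} (h : Meas f) : Measurable (fun ω => nn (f ω)) :=
  Measurable.tsum (fun i => (h i).enorm.pow_const 2)

/-- Square integrable random functions. -/
def LL (μ : Measure X) (I : Type) [Countable I] : Submodule ℂ (X → I → ℂ) where
  carrier := {f | Meas f ∧ nrm μ f < ⊤}
  add_mem' := by
    rintro f g ⟨a1, a2⟩ ⟨b1, b2⟩
    refine ⟨fun i => (a1 i).add (b1 i), ?_⟩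
    refine lt_of_le_of_lt (lintegral_mono (fun ω => nn_add (f ω) (g ω))) ?_
    rw [lintegral_add_left (a1.nn.const_mul 2), lintegral_const_mul _ a1.nn,
      lintegral_const_mul _ b1.nn]
    exact ENNReal.add_lt_top.mpr ⟨ENNReal.mul_lt_top (by simp) a2, ENNReal.mul_lt_top (by simp) b2⟩
  zero_mem' := ⟨fun _ => measurable_const, by simp [nrm, nn]⟩
  smul_mem' := by
    rintro c f ⟨a1, a2⟩
    refine ⟨fun i => (a1 i).const_smul c, ?_⟩
    have : ∀ ω, nn ((c • f) ω) = ‖c‖ₑ ^ 2 * nn (f ω) := by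
      intro ω
      simp [nn, mul_pow, ENNReal.tsum_mul_left]
    simp only [nrm, this]
    rw [lintegral_const_mul _ a1.nn]
    exact ENNReal.mul_lt_top (by simp) a2

section lift
variable [MeasurableSpace I] [MeasurableSingletonClass I] (μ : Measure X)

theorem meas_iff (f : X → I → ℂ) : Measurable (fun z : X × I => f z.1 z.2) ↔ Meas f :=
  ⟨fun h i => h.comp (measurable_prodMk_right (y := i)),
    fun h => measurable_from_prod_countable_left h⟩

theorem elp_sq {f : X → I → ℂ} (h : Meas f) :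
    eLpNorm (fun z : X × I => f z.1 z.2) 2 (μ.prod Measure.count) ^ 2 = nrm μ f := by
  have h' := (meas_iff f).mpr h
  rw [eLpNorm_eq_lintegral_rpow_enorm_toReal (by simp) (by simp), ← ENNReal.rpow_natCast,
    ← ENNReal.rpow_mul]
  simp only [ENNReal.toReal_ofNat, Nat.cast_ofNat, ENNReal.rpow_ofNat]
  rw [show (1 / 2 : ℝ) * 2 = 1 by norm_num, ENNReal.rpow_one,
    lintegral_prod _ (h'.enorm.pow_const 2).aemeasurable]
  simp only [lintegral_count]
  rfl

theorem mem_LL {f : X → I → ℂ} (h : f ∈ LL μ I) :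
    MemLp (fun z : X × I => f z.1 z.2) 2 (μ.prod Measure.count) := by
  refine ⟨((meas_iff f).mpr h.1).aestronglyMeasurable, ?_⟩
  have := h.2
  rw [← elp_sq μ h.1] at this
  exact (ENNReal.pow_lt_top_iff.mp this).resolve_right (by norm_num)

theorem exists_lift (Φ : (X → I → ℂ) →ₗ[ℂ] (X → I → ℂ)) (hm : ∀ f, Meas f → Meas (Φ f)) (C : ℝ≥0)
    (hb : ∀ f, Meas f → nrm μ (Φ f) ≤ C ^ 2 * nrm μ f) :
    ∃ T : Lp ℂ 2 (μ.prod (Measure.count : Measure I)) →L[ℂ] Lp ℂ 2 (μ.prod (Measure.count : Measure I)),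
      ‖T‖ ≤ C ∧ ∀ (v : Lp ℂ 2 (μ.prod (Measure.count : Measure I))) (f : X → I → ℂ), Meas f →
        (v =ᵐ[μ.prod Measure.count] fun z => f z.1 z.2) →
        (T v =ᵐ[μ.prod Measure.count] fun z => Φ f z.1 z.2) := by
  have b1 : ∀ f, Meas f → eLpNorm (fun z : X × I => Φ f z.1 z.2) 2 (μ.prod Measure.count) ≤
      C * eLpNorm (fun z : X × I => f z.1 z.2) 2 (μ.prod Measure.count) := by
    intro f hf
    rw [← ENNReal.pow_le_pow_left_iff (n := 2) (by norm_num), mul_pow, elp_sq μ hf,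
      elp_sq μ (hm f hf)]
    exact hb f hf
  have b2 : ∀ f f', Meas f → Meas f' →
      ((fun z : X × I => f z.1 z.2) =ᵐ[μ.prod Measure.count] fun z => f' z.1 z.2) →
      ((fun z : X × I => Φ f z.1 z.2) =ᵐ[μ.prod Measure.count] fun z => Φ f' z.1 z.2) := by
    intro f f' h h' e
    have m1 : Meas (f - f') := fun i => (h i).sub (h' i)
    have c1 := b1 (f - f') m1
    have c2 : eLpNorm (fun z : X × I => (f - f') z.1 z.2) 2 (μ.prod Measure.count) = 0 := by
      rw [eLpNorm_congr_ae (g := 0) (by filter_upwards [e] with z hz; simp [hz]), eLpNorm_zero]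
    rw [c2, mul_zero, nonpos_iff_eq_zero, eLpNorm_eq_zero_iff
      ((meas_iff _).mpr (hm _ m1)).aestronglyMeasurable (by simp)] at c1
    filter_upwards [c1] with z hz
    simpa [sub_eq_zero] using hz
  let cu : Lp ℂ 2 (μ.prod (Measure.count : Measure I)) → X → I → ℂ := fun v ω i => v (ω, i)
  have m0 : ∀ v, Meas (cu v) := fun v => (meas_iff _).mp (Lp.stronglyMeasurable v).measurable
  have m1 : ∀ v, MemLp (fun z : X × I => Φ (cu v) z.1 z.2) 2 (μ.prod Measure.count) := fun v =>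
    ⟨((meas_iff _).mpr (hm _ (m0 v))).aestronglyMeasurable,
      (b1 _ (m0 v)).trans_lt (ENNReal.mul_lt_top (by simp) (Lp.memLp v).2)⟩
  have key : ∀ (v : Lp ℂ 2 (μ.prod (Measure.count : Measure I))) (f : X → I → ℂ), Meas f →
      (v =ᵐ[μ.prod Measure.count] fun z => f z.1 z.2) →
      ((m1 v).toLp _ =ᵐ[μ.prod Measure.count] fun z => Φ f z.1 z.2) :=
    fun v f hf e => (m1 v).coeFn_toLp.trans (b2 _ _ (m0 v) hf e)
  let T0 : Lp ℂ 2 (μ.prod (Measure.count : Measure I)) →ₗ[ℂ]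
      Lp ℂ 2 (μ.prod (Measure.count : Measure I)) :=
    { toFun := fun v => (m1 v).toLp _
      map_add' := fun v w => by
        refine Lp.ext ?_
        filter_upwards [key (v + w) (cu v + cu w) (fun i => (m0 v i).add (m0 w i)) (Lp.coeFn_add v w),
          Lp.coeFn_add ((m1 v).toLp _) ((m1 w).toLp _), (m1 v).coeFn_toLp, (m1 w).coeFn_toLp]
          with z h1 h2 h3 h4
        rw [h1, h2, Pi.add_apply, h3, h4, map_add]; rfl
      map_smul' := fun c v => by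
        refine Lp.ext ?_
        filter_upwards [key (c • v) (c • cu v) (fun i => (m0 v i).const_smul c) (Lp.coeFn_smul c v),
          Lp.coeFn_smul c ((m1 v).toLp _), (m1 v).coeFn_toLp] with z h1 h2 h3
        rw [h1, RingHom.id_apply, h2, Pi.smul_apply, h3, map_smul]; rfl }
  have bd : ∀ v, ‖T0 v‖ ≤ C * ‖v‖ := by
    intro v
    change ‖(m1 v).toLp _‖ ≤ _
    rw [Lp.norm_toLp, Lp.norm_def, ← ENNReal.coe_toReal, ← ENNReal.toReal_mul]
    exact ENNReal.toReal_mono (ENNReal.mul_ne_top (by simp) (Lp.memLp v).2.ne) (b1 _ (m0 v))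
  exact ⟨T0.mkContinuous C bd, LinearMap.mkContinuous_norm_le _ C.2 _, key⟩

end lift

theorem exists_gauge {Γ : Type} [Group Γ] {r : ℝ} (hc : Clk r Γ) (μ : Measure X)
    (Φ : Γ → ((X → I → ℂ) →ₗ[ℂ] (X → I → ℂ))) (h1 : ∀ f, Φ 1 f = f)
    (h2 : ∀ g h f, Φ (g * h) f = Φ g (Φ h f)) (hm : ∀ g f, Meas f → Meas (Φ g f)) (C : ℝ≥0)
    (hb : ∀ g f, Meas f → nrm μ (Φ g f) ≤ C ^ 2 * nrm μ f) :
    ∃ (N : LL μ I → ℝ) (K : ℝ), 0 < K ∧ (∀ v, 0 ≤ N v) ∧ (∀ v, N (-v) = N v) ∧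
      (∀ a b, N (a + b) ^ r + N (a - b) ^ r ≤ 2 * (N a ^ r + N b ^ r)) ∧
      (∀ g (v w : LL μ I), w.1 = Φ g v.1 → N w = N v) ∧
      (∀ v : LL μ I, nrm μ v.1 ≤ ENNReal.ofReal (K * N v) ^ 2) ∧
      (∀ (v : LL μ I) (b : ℝ), 0 ≤ b → nrm μ v.1 ≤ ENNReal.ofReal b ^ 2 → N v ≤ K * b) := by
  let _ : MeasurableSpace I := ⊤
  have : MeasurableSingletonClass I := ⟨fun _ => trivial⟩
  choose T t1 t2 using fun g => exists_lift μ (Φ g) (hm g) C (hb g)
  let cu : Lp ℂ 2 (μ.prod (Measure.count : Measure I)) → X → I → ℂ := fun v ω i => v (ω, i)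
  have m0 : ∀ v, Meas (cu v) := fun v => (meas_iff _).mp (Lp.stronglyMeasurable v).measurable
  obtain ⟨N, K, k0, n0, n1, n2, n3, n4, n5⟩ := hc _ T
    (fun v => Lp.ext (by simpa only [h1] using t2 1 v (cu v) (m0 v) (Filter.EventuallyEq.refl _ _)))
    (fun g h v => Lp.ext (by
      have a1 := t2 (g * h) v (cu v) (m0 v) (Filter.EventuallyEq.refl _ _)
      have a2 := t2 g _ _ (hm h _ (m0 v)) (t2 h v (cu v) (m0 v) (Filter.EventuallyEq.refl _ _))
      rw [h2] at a1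
      exact a1.trans a2.symm)) ⟨C, t1⟩
  let ι : LL μ I → Lp ℂ 2 (μ.prod (Measure.count : Measure I)) := fun v => (mem_LL μ v.2).toLp _
  have i1 : ∀ a b, ι (a + b) = ι a + ι b := fun a b => MemLp.toLp_add (mem_LL μ a.2) (mem_LL μ b.2)
  have i2 : ∀ a b, ι (a - b) = ι a - ι b := fun a b => MemLp.toLp_sub (mem_LL μ a.2) (mem_LL μ b.2)
  have i3 : ∀ a, ι (-a) = -ι a := fun a => MemLp.toLp_neg (mem_LL μ a.2)
  have i4 : ∀ a, ENNReal.ofReal ‖ι a‖ ^ 2 = nrm μ a.1 := fun a => by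
    rw [Lp.norm_toLp, ENNReal.ofReal_toReal (mem_LL μ a.2).2.ne, elp_sq μ a.2.1]
  refine ⟨fun v => N (ι v), K, k0, fun v => n0 _, fun v => by simp only [i3, n1],
    fun a b => by simp only [i1, i2, n2], fun g v w e => ?_, fun v => ?_, fun v b b0 hb => ?_⟩
  · have : ι w = T g (ι v) := Lp.ext (by
      have a1 := t2 g (ι v) v.1 v.2.1 (mem_LL μ v.2).coeFn_toLp
      rw [← e] at a1
      exact (mem_LL μ w.2).coeFn_toLp.trans a1.symm)
    simp only [this, n3]
  · rw [← i4]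
    exact pow_le_pow_left' (ENNReal.ofReal_le_ofReal (n4 _)) 2
  · rw [← i4, ENNReal.pow_le_pow_left_iff (by norm_num), ENNReal.ofReal_le_ofReal_iff b0] at hb
    exact (n5 _).trans (mul_le_mul_of_nonneg_left hb k0.le)

end Pool.Agent.Lib.MP_040728_al.Forest
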