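import Mathlib
import Pool.Agent.Lib.MP_040728_al.FCore
import Pool.Agent.Lib.MP_040728_al.FHad

set_option autoImplicit false

namespace Pool.Agent.Lib.MP_040728_al.Forest

open Finset MeasureTheory
open scoped ENNReal Classical

variable {Γ : Type} [Group Γ]

/-- The scattering weights. -/
noncomputable def wt (ε : Γ → Γ → ℤ) (χ : ℕ → Γ → ℤ) (j : ℕ) (t s : Γ) : ℂ :=
  (((ε t s * χ j s : ℤ) / 2 : ℝ) : ℂ)

/-- The sources produced by the test operators. -/
noncomputable def src (S : Finset Γ) (ε : Γ → Γ → ℤ) (χ : ℕ → Γ → ℤ) : ℕ → Γ → Γ × Γ → ℂ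
  | 0, t => Pi.single (1, t) 1
  | j + 1, t => ∑ s ∈ S, (ε t s * χ j s) • sh s⁻¹ (src S ε χ j s)

variable {X : Type} [MulAction Γ X]

/-- The field at level `j`. -/
noncomputable def fld (S : Finset Γ) (o : X → Γ × Γ → Prop) (ε : Γ → Γ → ℤ) (χ : ℕ → Γ → ℤ) (j : ℕ)
    (ω : X) (t : Γ) : Γ × Γ → ℂ :=
  grnAt S (o ω) (wt ε χ) j (Pi.single 0 (src S ε χ j t))

theorem single_sh (g : Γ) (a : Γ × Γ → ℂ) :
    (Pi.single 0 (sh g a) : ℕ → Γ × Γ → ℂ) = fun i => sh g ((Pi.single 0 a : ℕ → Γ × Γ → ℂ) i) := by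
  funext i
  cases i with
  | zero => simp
  | succ i => simp; rfl

theorem fld_succ (S : Finset Γ) {o : X → Γ × Γ → Prop} (he : ∀ (g : Γ) ω, o (g • ω) = sh g (o ω))
    (ε : Γ → Γ → ℤ) (χ : ℕ → Γ → ℤ) (j : ℕ) (ω : X) (t : Γ) (e : Γ × Γ) :
    (fld S o ε χ (j + 1) ω t e).re = ∑ s ∈ S, ∑ s' ∈ S, (χ j s * χ j s' : ℝ) *
      if e.2 ≠ s'⁻¹ ∧ o ω (e.1 * s'⁻¹, s') ∧ o ω e then
        (ε t s * ε e.2 s' / 2 : ℝ) * (fld S o ε χ j (s • ω) s (s * (e.1 * s'⁻¹), s')).re else 0 := by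
  have a1 : grnAt S (o ω) (wt ε χ) j (Pi.single 0 (src S ε χ (j + 1) t)) =
      ∑ s ∈ S, (ε t s * χ j s) • sh s⁻¹ (fld S o ε χ j (s • ω) s) := by
    have b1 : (Pi.single 0 (src S ε χ (j + 1) t) : ℕ → Γ × Γ → ℂ) =
        ∑ s ∈ S, (ε t s * χ j s) • Pi.single 0 (sh s⁻¹ (src S ε χ j s)) := by
      funext i
      cases i <;> simp [src]
    rw [b1, map_sum]
    refine sum_congr rfl (fun s _ => ?_)
    rw [map_zsmul, single_sh, fld, ← grn_sh, ← he, inv_smul_smul]
  rw [fld, grn_succ, a1, sum_comm]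
  simp only [Pi.add_apply, step_apply, ne_eq, Nat.add_eq_zero_iff, one_ne_zero, and_false,
    not_false_eq_true, Pi.single_eq_of_ne, Pi.zero_apply, zero_add, Complex.re_sum]
  refine sum_congr rfl (fun s' _ => ?_)
  split_ifs with h
  · rw [wt, Complex.re_ofReal_mul, Finset.sum_apply, Complex.re_sum, mul_sum]
    refine sum_congr rfl (fun s _ => ?_)
    simp only [Pi.smul_apply, sh, inv_inv, zsmul_eq_mul]
    rw [← Complex.ofReal_intCast, Complex.re_ofReal_mul]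
    push_cast
    ring
  · simp

omit [MulAction Γ X] in
theorem fld_zero (S : Finset Γ) (o : X → Γ × Γ → Prop) (ε : Γ → Γ → ℤ) (χ : ℕ → Γ → ℤ) (ω : X)
    (t : Γ) : fld S o ε χ 0 ω t = Pi.single (1, t) 1 := by
  simp [fld, grn_zero, src]

theorem fld_congr (S : Finset Γ) {o : X → Γ × Γ → Prop} (he : ∀ (g : Γ) ω, o (g • ω) = sh g (o ω))
    (ε : Γ → Γ → ℤ) {χ χ' : ℕ → Γ → ℤ} (j : ℕ) (h : ∀ i < j, χ i = χ' i) (ω : X) (t : Γ) (e : Γ × Γ) :
    (fld S o ε χ j ω t e).re = (fld S o ε χ' j ω t e).re := by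
  induction j generalizing ω t e with
  | zero => rw [fld_zero, fld_zero]
  | succ j ih =>
    simp only [fld_succ S he, h j (Nat.lt_succ_self j), ih (fun i hi => h i (by omega))]

variable [MeasurableSpace X]

/-- Bounded and measurable. -/
def BM (f : X → ℝ) : Prop := Measurable f ∧ ∃ B, ∀ ω, |f ω| ≤ B

theorem BM.const (c : ℝ) : BM (fun _ : X => c) := ⟨measurable_const, _, fun _ => le_rfl⟩

theorem BM.mul {f g : X → ℝ} (hf : BM f) (hg : BM g) : BM (fun ω => f ω * g ω) := by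
  obtain ⟨a1, A, a2⟩ := hf
  obtain ⟨b1, B, b2⟩ := hg
  exact ⟨a1.mul b1, A * B, fun ω => by
    rw [abs_mul]; exact mul_le_mul (a2 ω) (b2 ω) (abs_nonneg _) ((abs_nonneg _).trans (a2 ω))⟩

theorem BM.sum {ι : Type} (T : Finset ι) {f : ι → X → ℝ} (hf : ∀ i, BM (f i)) :
    BM (fun ω => ∑ i ∈ T, f i ω) := by
  choose a1 A a2 using hf
  exact ⟨Finset.measurable_sum _ (fun i _ => a1 i), ∑ i ∈ T, A i, fun ω =>
    (abs_sum_le_sum_abs _ _).trans (sum_le_sum (fun i _ => a2 i ω))⟩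

theorem BM.ite {P : X → Prop} {_ : ∀ ω, Decidable (P ω)} (hP : Measurable P) {f : X → ℝ} (hf : BM f) :
    BM (fun ω => if P ω then f ω else 0) := by
  obtain ⟨a1, A, a2⟩ := hf
  refine ⟨Measurable.ite (measurableSet_setOfPred.mpr hP) a1 measurable_const, A, fun ω => ?_⟩
  dsimp only
  split_ifs
  exacts [a2 ω, by simpa using (abs_nonneg _).trans (a2 ω)]

theorem BM.comp {f : X → ℝ} (hf : BM f) {φ : X → X} (h : Measurable φ) : BM (fun ω => f (φ ω)) := by
  obtain ⟨a1, A, a2⟩ := hf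
  exact ⟨a1.comp h, A, fun ω => a2 _⟩

theorem BM.int {f : X → ℝ} (hf : BM f) (μ : Measure X) [IsFiniteMeasure μ] : Integrable f μ := by
  obtain ⟨a1, A, a2⟩ := hf
  exact Integrable.of_bound a1.aestronglyMeasurable A (Filter.Eventually.of_forall a2)

theorem BM.shift {f : X → ℝ} (hf : BM f) {μ : Measure X} {φ : X → X} (h : MeasurePreserving φ μ μ) :
    ∫ ω, f (φ ω) ∂μ = ∫ ω, f ω ∂μ := by
  rw [← integral_map h.measurable.aemeasurable hf.1.aestronglyMeasurable, h.map_eq]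

theorem fld_bm (S : Finset Γ) {o : X → Γ × Γ → Prop} (he : ∀ (g : Γ) ω, o (g • ω) = sh g (o ω))
    (ho : ∀ e, Measurable (fun ω => o ω e)) (hg : ∀ g : Γ, Measurable (fun ω : X => g • ω))
    (ε : Γ → Γ → ℤ) (χ : ℕ → Γ → ℤ) (j : ℕ) (t : Γ) (e : Γ × Γ) :
    BM (fun ω => (fld S o ε χ j ω t e).re) := by
  induction j generalizing t e with
  | zero => simp only [fld_zero]; exact BM.const _
  | succ j ih =>
    simp only [fld_succ S he]
    exact BM.sum _ (fun s => BM.sum _ (fun s' => (BM.const _).mul (BM.ite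
      (measurable_const.and ((ho _).and (ho _))) ((BM.const _).mul ((ih s _).comp (hg s))))))

theorem signs (μ : Measure X) [IsFiniteMeasure μ]
    (hμ : ∀ g : Γ, MeasurePreserving (fun ω : X => g • ω) μ μ) (S : Finset Γ)
    (hS : ∀ s ∈ S, s⁻¹ ∈ S) {o : X → Γ × Γ → Prop} (ho : ∀ e, Measurable (fun ω => o ω e))
    (hs : ∀ ω x s, o ω (x, s) → o ω (x * s, s⁻¹)) (he : ∀ (g : Γ) ω, o (g • ω) = sh g (o ω))
    (ε : Γ → Γ → ℤ) (hε : ∀ t s, ε t s = 1 ∨ ε t s = -1) (δ j : ℕ) (c : Γ → X → ℝ)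
    (hc : ∀ t, BM (c t)) (c0 : ∀ t ω, 0 ≤ c t ω) :
    ∃ χ : ℕ → Γ → ℤ, (∀ i s, χ i s = 1 ∨ χ i s = -1) ∧
      (δ / 2 : ℝ) ^ j * ∫ ω, ∑ t ∈ S, (if core S (o ω) δ j 1 ∧ o ω (1, t) then c t ω else 0) ∂μ ≤
        ∫ ω, ∑ t ∈ S, c t ω * (fld S o ε χ j ω t (1, t)).re ∂μ := by
  have hg := fun g => (hμ g).measurable
  have b0 : ∀ (j : ℕ) (c : Γ → X → ℝ), (∀ t, BM (c t)) → ∀ t,
      BM (fun ω => if core S (o ω) δ j 1 ∧ o ω (1, t) then c t ω else 0) :=
    fun j c hc t => BM.ite ((meas_core S ho δ j 1).and (ho _)) (hc t)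
  induction j generalizing c with
  | zero =>
    refine ⟨fun _ _ => 1, fun _ _ => Or.inl rfl, ?_⟩
    rw [pow_zero, one_mul]
    refine integral_mono ((BM.sum _ (b0 0 c hc)).int μ) ((BM.sum _ (fun t => (hc t).mul
      (fld_bm S he ho hg ε _ 0 t _))).int μ) (fun ω => sum_le_sum (fun t _ => ?_))
    simp only [fld_zero, Pi.single_eq_same, Complex.one_re, mul_one]
    split_ifs
    exacts [le_rfl, c0 t ω]
  | succ j ih =>
    let d : Γ → X → ℝ := fun s ω => ∑ t ∈ S,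
      if t ≠ s⁻¹ ∧ o ω (1 * s⁻¹, s) ∧ o ω (1, t) then c t ω / 2 else 0
    have d1 : ∀ s, BM (d s) := fun s => BM.sum _ (fun t => BM.ite
      (measurable_const.and ((ho _).and (ho _))) (by
        simpa only [div_eq_mul_inv] using (hc t).mul (BM.const _)))
    have d0 : ∀ s ω, 0 ≤ d s ω := fun s ω => sum_nonneg (fun t _ => by
      have := c0 t ω
      split_ifs <;> positivity)
    obtain ⟨χ, x1, x2⟩ := ih (fun s ω => d s (s⁻¹ • ω)) (fun s => (d1 s).comp (hg _))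
      (fun s ω => d0 _ _)
    let Q : Γ → Γ → X → ℝ := fun s s' ω => ∑ t ∈ S, c t ω *
      if t ≠ s'⁻¹ ∧ o ω (1 * s'⁻¹, s') ∧ o ω (1, t) then
        (ε t s * ε t s' / 2 : ℝ) * (fld S o ε χ j (s • ω) s (s * (1 * s'⁻¹), s')).re else 0
    have q1 : ∀ s s', BM (Q s s') := fun s s' => BM.sum _ (fun t => (hc t).mul (BM.ite
      (measurable_const.and ((ho _).and (ho _)))
      ((BM.const _).mul ((fld_bm S he ho hg ε χ j s _).comp (hg s)))))
    obtain ⟨r, r1, r2⟩ := exists_sign S (fun s s' => ∫ ω, Q s s' ω ∂μ)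
    refine ⟨Function.update χ j r, fun i s => ?_, ?_⟩
    · by_cases h : i = j
      · rw [h, Function.update_self]; exact r1 s
      · rw [Function.update_of_ne h]; exact x1 i s
    have e1 : ∫ ω, ∑ t ∈ S, c t ω * (fld S o ε (Function.update χ j r) (j + 1) ω t (1, t)).re ∂μ =
        ∑ s ∈ S, ∑ s' ∈ S, (r s * r s' : ℝ) * ∫ ω, Q s s' ω ∂μ := by
      simp only [← integral_const_mul]
      rw [← sum_product', ← integral_finsetSum _ (fun z _ => ((BM.const _).mul (q1 z.1 z.2)).int μ)]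
      refine integral_congr_ae (Filter.Eventually.of_forall (fun ω => ?_))
      simp only [fld_succ S he, Function.update_self, Q, mul_sum,
        fld_congr S he ε j (fun i hi => Function.update_of_ne (Nat.ne_of_lt hi) r χ)]
      rw [sum_product, sum_comm]
      refine sum_congr rfl (fun s _ => ?_)
      rw [sum_comm]
      exact sum_congr rfl (fun s' _ => sum_congr rfl (fun t _ => by ring))
    have e2 : ∑ s ∈ S, ∫ ω, Q s s ω ∂μ =
        ∫ ω, ∑ s ∈ S, d s (s⁻¹ • ω) * (fld S o ε χ j ω s (1, s)).re ∂μ := by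
      have f1 := fun s => ((d1 s).comp (hg s⁻¹)).mul (fld_bm S he ho hg ε χ j s (1, s))
      rw [integral_finsetSum _ (fun s _ => (f1 s).int μ)]
      refine sum_congr rfl (fun s _ => ?_)
      rw [← (f1 s).shift (hμ s)]
      refine integral_congr_ae (Filter.Eventually.of_forall (fun ω => ?_))
      simp only [Q, d, inv_smul_smul, sum_mul]
      refine sum_congr rfl (fun t _ => ?_)
      have : (ε t s * ε t s : ℝ) = 1 := by rcases hε t s with h | h <;> simp [h]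
      rw [this, one_mul, mul_inv_cancel]
      split_ifs <;> ring
    have e3 : (δ / 2 : ℝ) *
        ∫ ω, ∑ t ∈ S, (if core S (o ω) δ (j + 1) 1 ∧ o ω (1, t) then c t ω else 0) ∂μ ≤
        ∫ ω, ∑ s ∈ S, (if core S (o ω) δ j 1 ∧ o ω (1, s) then d s (s⁻¹ • ω) else 0) ∂μ := by
      have f1 := b0 j (fun s ω => d s (s⁻¹ • ω)) (fun s => (d1 s).comp (hg _))
      rw [integral_finsetSum _ (fun s _ => (f1 s).int μ),
        sum_congr rfl (fun s _ => ((f1 s).shift (hμ s)).symm),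
        ← integral_finsetSum _ (fun s _ => ((f1 s).comp (hg s)).int μ), ← integral_const_mul]
      refine integral_mono (((BM.const _).mul (BM.sum _ (b0 _ c hc))).int μ)
        ((BM.sum _ (fun s => (f1 s).comp (hg s))).int μ) (fun ω => ?_)
      have g1 : ∀ s, (if core S (o (s • ω)) δ j 1 ∧ o (s • ω) (1, s) then d s (s⁻¹ • s • ω) else 0) =
          ∑ t ∈ S, if core S (o ω) δ j s⁻¹ ∧ t ≠ s⁻¹ ∧ o ω (1 * s⁻¹, s) ∧ o ω (1, t) then
            c t ω / 2 else 0 := by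
        intro s
        simp only [he, core_sh, sh, mul_one, inv_smul_smul, d, one_mul]
        split_ifs with h
        · simp only [h.1, true_and]
        · exact (sum_eq_zero (fun t _ => if_neg (fun h' => h ⟨h'.1, h'.2.2.1⟩))).symm
      simp only [g1]
      rw [sum_comm, mul_sum]
      refine sum_le_sum (fun t _ => ?_)
      have g0 := c0 t ω
      split_ifs with h
      · rw [← sum_filter, sum_const, nsmul_eq_mul]
        have g2 : δ ≤ (S.filter (fun s => core S (o ω) δ j s⁻¹ ∧ t ≠ s⁻¹ ∧ o ω (1 * s⁻¹, s) ∧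
            o ω (1, t))).card := by
          refine le_trans (Nat.le_sub_one_of_lt h.1.2) (le_trans (pred_card_le_card_erase (a := t))
            (card_le_card_of_injOn (fun s => s⁻¹) (fun s hs' => ?_) inv_injective.injOn))
          obtain ⟨k1, k2⟩ := mem_erase.mp hs'
          obtain ⟨k3, k4, k5⟩ := mem_filter.mp k2
          refine mem_coe.mpr (mem_filter.mpr ⟨hS s k3, ?_, ?_, ?_, h.2⟩)
          · simpa using k5
          · simpa using k1.symm
          · simpa using hs _ _ _ k4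
        have g3 : (δ : ℝ) ≤ _ := Nat.cast_le.mpr g2
        nlinarith
      · rw [mul_zero]
        exact sum_nonneg (fun s _ => by split_ifs <;> positivity)
    rw [e1, pow_succ, mul_assoc]
    exact (mul_le_mul_of_nonneg_left e3 (by positivity)).trans (x2.trans (e2 ▸ r2))

end Pool.Agent.Lib.MP_040728_al.Forest
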