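import Mathlib
import Pool.Agent.Lib.MP_040728_al.FSign
import Pool.Agent.Lib.MP_040728_al.FLift

set_option autoImplicit false

namespace Pool.Agent.Lib.MP_040728_al.Forest

open Finset MeasureTheory
open scoped ENNReal NNReal Classical

variable {Γ : Type} [Group Γ] {X : Type}

/-- The operator acting in each fibre. -/
def fibMap (A : X → ℕ → ℕ → ((ℕ → Γ × Γ → ℂ) →ₗ[ℂ] (Γ × Γ → ℂ))) :
    (X → ℕ × ℕ × (Γ × Γ) → ℂ) →ₗ[ℂ] (X → ℕ × ℕ × (Γ × Γ) → ℂ) where
  toFun f ω i := A ω i.1 i.2.1 (fun j e => f ω (i.1, j, e)) i.2.2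
  map_add' f g := by
    funext ω i
    exact congrFun (map_add (A ω i.1 i.2.1) (fun j e => f ω (i.1, j, e))
      (fun j e => g ω (i.1, j, e))) i.2.2
  map_smul' c f := by
    funext ω i
    exact congrFun (map_smul (A ω i.1 i.2.1) c (fun j e => f ω (i.1, j, e))) i.2.2

/-- The translation operator. -/
def lam [MulAction Γ X] (g : Γ) : (X → ℕ × ℕ × (Γ × Γ) → ℂ) →ₗ[ℂ] (X → ℕ × ℕ × (Γ × Γ) → ℂ) where
  toFun f ω i := f (g⁻¹ • ω) (i.1, i.2.1, (g⁻¹ * i.2.2.1, i.2.2.2))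
  map_add' _ _ := rfl
  map_smul' _ _ := rfl

/-- A deterministic source in one summand. -/
noncomputable def sou (X : Type) (k : ℕ) : (Γ × Γ → ℂ) →ₗ[ℂ] (X → ℕ × ℕ × (Γ × Γ) → ℂ) where
  toFun a _ i := if i.1 = k then (Pi.single 0 a : ℕ → Γ × Γ → ℂ) i.2.1 i.2.2 else 0
  map_add' a b := by
    funext ω i
    simp only [Pi.add_apply, Pi.single_add]
    split_ifs <;> simp
  map_smul' c a := by
    funext ω i
    simp only [Pi.smul_apply, Pi.single_smul, RingHom.id_apply]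
    split_ifs <;> simp

omit [Group Γ] in
theorem nn_fib (f : ℕ × ℕ × (Γ × Γ) → ℂ) : nn f = ∑' k, ∑' j, nn (fun e => f (k, j, e)) := by
  simp only [nn, ENNReal.tsum_prod' (α := ℕ)]

variable [MeasurableSpace X]

theorem meas_step (S : Finset Γ) {P : X → Γ × Γ → Prop} (hP : ∀ e, Measurable (fun ω => P ω e))
    (m : Γ → Γ → ℂ) {f : X → Γ × Γ → ℂ} (hf : ∀ e, Measurable (fun ω => f ω e)) (e : Γ × Γ) :
    Measurable (fun ω => step S (P ω) m (f ω) e) :=
  Finset.measurable_sum _ (fun _ _ => Measurable.ite (measurableSet_setOfPred.mpr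
    (measurable_const.and ((hP _).and (hP _)))) ((hf _).const_mul _) measurable_const)

theorem meas_grn (S : Finset Γ) {P : X → Γ × Γ → Prop} (hP : ∀ e, Measurable (fun ω => P ω e))
    (m : ℕ → Γ → Γ → ℂ) {f : X → ℕ → Γ × Γ → ℂ} (hf : ∀ j e, Measurable (fun ω => f ω j e)) (j : ℕ)
    (e : Γ × Γ) : Measurable (fun ω => grnAt S (P ω) m j (f ω) e) := by
  induction j generalizing e with
  | zero => exact hf 0 e
  | succ j ih => exact (hf _ e).add (meas_step S hP _ ih e)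

theorem meas_cut (S : Finset Γ) {P : X → Γ × Γ → Prop} (hP : ∀ e, Measurable (fun ω => P ω e))
    (m : ℕ → Γ → Γ → ℂ) {f : X → ℕ → Γ × Γ → ℂ} (hf : ∀ j e, Measurable (fun ω => f ω j e)) (j : ℕ)
    (e : Γ × Γ) : Measurable (fun ω => cutAt S (P ω) m j (f ω) e) := by
  cases j with
  | zero => exact hf 0 e
  | succ j => exact (hf _ e).sub (meas_step S hP _ (hf j) e)

theorem int_le (μ : Measure X) [IsProbabilityMeasure μ] {f : X → ℝ} (hf : BM f) {b : ℝ} (hb : 0 < b)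
    (h : ∫⁻ ω, ENNReal.ofReal (f ω * f ω) ∂μ ≤ ENNReal.ofReal b ^ 2) : ∫ ω, f ω ∂μ ≤ b := by
  have i2 := (hf.mul hf).int μ
  rw [← ofReal_integral_eq_lintegral_ofReal i2
    (Filter.Eventually.of_forall (fun ω => mul_self_nonneg _)), ← ENNReal.ofReal_pow hb.le,
    ENNReal.ofReal_le_ofReal_iff (by positivity)] at h
  have a1 := integral_mono ((hf.int μ).const_mul (2 * b)) (i2.add (integrable_const (b ^ 2)))
    (fun ω => by simp only [Pi.add_apply]; nlinarith [sq_nonneg (f ω - b)])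
  simp only [Pi.add_apply] at a1
  rw [integral_const_mul, integral_add i2 (integrable_const _), integral_const] at a1
  simp only [probReal_univ, smul_eq_mul, one_mul] at a1
  nlinarith

theorem ops [Countable Γ] [MulAction Γ X] (μ : Measure X)
    (hμ : ∀ g : Γ, MeasurePreserving (fun ω : X => g • ω) μ μ) (S : Finset Γ)
    {o u : X → Γ × Γ → Prop} (hu : ∀ e, Measurable (fun ω => u ω e))
    (hO : ∀ ω, Ori S (o ω) (u ω)) (he : ∀ (g : Γ) ω, o (g • ω) = sh g (o ω))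
    (m : ℕ → ℕ → Γ → Γ → ℂ) (hm : ∀ k j t s, ‖m k j t s‖ ≤ 1 / 2) :
    ∃ (G : (X → ℕ × ℕ × (Γ × Γ) → ℂ) →ₗ[ℂ] (X → ℕ × ℕ × (Γ × Γ) → ℂ))
      (Φ : Γ → (X → ℕ × ℕ × (Γ × Γ) → ℂ) →ₗ[ℂ] (X → ℕ × ℕ × (Γ × Γ) → ℂ)),
      (∀ f, Φ 1 f = f) ∧ (∀ g h f, Φ (g * h) f = Φ g (Φ h f)) ∧ (∀ g f, Meas f → Meas (Φ g f)) ∧
      (∀ g f, Meas f → nrm μ (Φ g f) ≤ ((8 * S.card + 2 : ℝ≥0) : ℝ≥0∞) ^ 2 * nrm μ f) ∧
      (∀ g k a, Φ g (G (sou X k a)) = G (sou X k (sh g a))) ∧ (∀ k a, Meas (G (sou X k a))) ∧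
      (∀ k a ω j e, G (sou X k a) ω (k, j, e) = grnAt S (u ω) (m k) j (Pi.single 0 a) e) ∧
      (∀ k k' a ω j e, k' ≠ k → G (sou X k a) ω (k', j, e) = 0) := by
  have hg := fun g => (hμ g).measurable
  obtain ⟨G, hG⟩ : ∃ G : (X → ℕ × ℕ × (Γ × Γ) → ℂ) →ₗ[ℂ] (X → ℕ × ℕ × (Γ × Γ) → ℂ), ∀ f ω k j e,
      G f ω (k, j, e) = grnAt S (u ω) (m k) j (fun j e => f ω (k, j, e)) e :=
    ⟨fibMap (fun ω k j => grnAt S (u ω) (m k) j), fun _ _ _ _ _ => rfl⟩
  obtain ⟨U, hU⟩ : ∃ U : (X → ℕ × ℕ × (Γ × Γ) → ℂ) →ₗ[ℂ] (X → ℕ × ℕ × (Γ × Γ) → ℂ), ∀ f ω k j e,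
      U f ω (k, j, e) = cutAt S (u ω) (m k) j (fun j e => f ω (k, j, e)) e :=
    ⟨fibMap (fun ω k j => cutAt S (u ω) (m k) j), fun _ _ _ _ _ => rfl⟩
  have GU : ∀ f, G (U f) = f := by
    intro f
    funext ω ⟨k, j, e⟩
    rw [hG]
    simp only [hU]
    exact congrFun (grn_cut S (u ω) (m k) (fun j e => f ω (k, j, e)) j) e
  have UG : ∀ f, U (G f) = f := by
    intro f
    funext ω ⟨k, j, e⟩
    rw [hU]
    simp only [hG]
    exact congrFun (cut_grn S (u ω) (m k) (fun j e => f ω (k, j, e)) j) e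
  have mG : ∀ f, Meas f → Meas (G f) := by
    rintro f hf ⟨k, j, e⟩
    simp only [hG]
    exact meas_grn S hu _ (fun j e => hf _) _ _
  have mU : ∀ f, Meas f → Meas (U f) := by
    rintro f hf ⟨k, j, e⟩
    simp only [hU]
    exact meas_cut S hu _ (fun j e => hf _) _ _
  have hl : ∀ (g : Γ) (f : X → ℕ × ℕ × (Γ × Γ) → ℂ) ω k j e,
      lam g f ω (k, j, e) = sh g (fun e => f (g⁻¹ • ω) (k, j, e)) e :=
    fun _ _ _ _ _ _ => rfl
  refine ⟨G, fun g => G ∘ₗ lam g ∘ₗ U, fun f => ?_, fun g h f => ?_,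
    fun g f hf => mG _ (fun i => (mU f hf _).comp (hg g⁻¹)), fun g f hf => ?_, fun g k a => ?_,
    fun k a => mG _ (fun _ => measurable_const), fun k a ω j e => ?_,
    fun k k' a ω j e h => ?_⟩
  · have : lam (1 : Γ) (U f) = U f := by funext ω i; simp [lam]
    simp only [LinearMap.comp_apply, this, GU]
  · have : lam (g * h) (U f) = lam g (lam h (U f)) := by
      funext ω i; simp [lam, mul_smul, mul_assoc]
    simp only [LinearMap.comp_apply, this, UG]
  · have a1 : ∀ ω, nn (G (lam g (U f)) ω) ≤ (8 * S.card + 2) * nn (f (g⁻¹ • ω)) := by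
      intro ω
      rw [nn_fib, nn_fib, ← ENNReal.tsum_mul_left]
      refine ENNReal.tsum_le_tsum (fun k => ?_)
      have b1 := (hO (g⁻¹ • ω)).shift g
      rw [← he, smul_inv_smul] at b1
      have b2 := rep_bound (hO ω) b1 (m k) (hm k) (fun j => sh g (fun e => f (g⁻¹ • ω) (k, j, e)))
      simp only [cut_sh, nn_sh] at b2
      simp only [hG, hl, hU]
      exact b2
    refine (lintegral_mono a1).trans ?_
    have a2 : Measurable (fun ω => nn (f (g⁻¹ • ω))) := hf.nn.comp (hg g⁻¹)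
    rw [lintegral_const_mul _ a2, (hμ g⁻¹).lintegral_comp hf.nn]
    refine mul_le_mul_left ?_ _
    push_cast
    exact le_self_pow₀ (le_trans one_le_two le_add_self) two_ne_zero
  · simp only [LinearMap.comp_apply, UG]
    congr 1
    funext ω i
    simp only [lam, sou, LinearMap.coe_mk, AddHom.coe_mk, single_sh, sh]
  · rw [hG]
    simp [sou]
  · rw [hG]
    simp only [sou, LinearMap.coe_mk, AddHom.coe_mk, if_neg h]
    exact congrFun (map_zero (grnAt S (u ω) (m k') j)) e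

theorem growth [Countable Γ] [MulAction Γ X] {r : ℝ} (hr : 1 ≤ r) (hc : Clk r Γ) (μ : Measure X)
    [IsProbabilityMeasure μ] (hμ : ∀ g : Γ, MeasurePreserving (fun ω : X => g • ω) μ μ)
    (S : Finset Γ) (hne : S.Nonempty) (hS : ∀ s ∈ S, s⁻¹ ∈ S) {o u : X → Γ × Γ → Prop}
    (ho : ∀ e, Measurable (fun ω => o ω e)) (hu : ∀ e, Measurable (fun ω => u ω e))
    (hO : ∀ ω, Ori S (o ω) (u ω)) (he : ∀ (g : Γ) ω, o (g • ω) = sh g (o ω)) (δ : ℕ) :
    ∃ C : ℝ, ∀ k, (δ / 2 : ℝ) ^ (k + 1) * μ.real {ω | core S (o ω) δ (k + 1) 1} ≤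
      C * ((2 * S.card : ℝ) ^ r⁻¹) ^ (k + 1) := by
  have r0 : 0 < r := by linarith
  have n0 : (0 : ℝ) < S.card := by exact_mod_cast hne.card_pos
  have hg := fun g => (hμ g).measurable
  obtain ⟨ε, hε, had⟩ := hadamard S
  choose χ x1 x2 using fun k => signs μ hμ S hS ho (fun ω => (hO ω).sym) he ε hε δ k (fun _ _ => 1)
    (fun _ => BM.const 1) (fun _ _ => zero_le_one)
  have hm : ∀ k j t s, ‖wt ε (χ k) j t s‖ ≤ 1 / 2 := by
    intro k j t s
    rcases hε t s with h | h <;> rcases x1 k j s with h' | h' <;> simp [wt, h, h']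
  obtain ⟨G, Φ, p1, p2, mΦ, bΦ, p3, p4, p5, p6⟩ := ops μ hμ S hu hO he (fun k => wt ε (χ k)) hm
  obtain ⟨N, K, k0, n1, n2, n3, n4, n5, n6⟩ := exists_gauge hc μ Φ p1 p2 mΦ _ bΦ
  have N0 : N 0 = 0 := le_antisymm (by simpa using n6 0 0 le_rfl (by simp [nrm, nn])) (n1 _)
  have vec : ∀ k j, ∃ V : Γ → LL μ (ℕ × ℕ × (Γ × Γ)),
      (∀ t, (V t).1 = G (sou X k (src S ε (χ k) j t))) ∧
      ∑ t ∈ S, N (V t) ^ r ≤ (2 * S.card) ^ j * (S.card * (K * 2) ^ r) := by
    intro k j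
    induction j with
    | zero =>
      have a1 : ∀ t, nrm μ (G (sou X k (src S ε (χ k) 0 t))) ≤ ENNReal.ofReal 2 ^ 2 := by
        intro t
        have b1 : ∀ ω, nn (G (sou X k (src S ε (χ k) 0 t)) ω) ≤ 2 := by
          intro ω
          rw [nn_fib, tsum_eq_single k (fun k' hk => by
            simp [nn, p6 k k' _ ω _ _ hk])]
          simp only [p5]
          exact delta_bound (hO ω).one (wt ε (χ k)) (hm k) (1, t)
        refine (lintegral_mono b1).trans ?_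
        simp only [lintegral_const, measure_univ, mul_one, ENNReal.ofReal_ofNat]
        norm_num
      refine ⟨fun t => ⟨_, p4 _ _, (a1 t).trans_lt (by simp)⟩,
        fun _ => rfl, ?_⟩
      rw [pow_zero, one_mul, ← nsmul_eq_mul, ← sum_const]
      exact sum_le_sum (fun t _ => Real.rpow_le_rpow (n1 _) (n6 _ 2 zero_le_two (a1 t)) r0.le)
    | succ j ih =>
      obtain ⟨V, v1, v2⟩ := ih
      let W : Γ → LL μ (ℕ × ℕ × (Γ × Γ)) := fun s => ⟨Φ s⁻¹ (V s).1, mΦ _ _ (V s).2.1,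
        (bΦ _ _ (V s).2.1).trans_lt (ENNReal.mul_lt_top (ENNReal.pow_lt_top ENNReal.coe_lt_top) (V s).2.2)⟩
      refine ⟨fun t => ∑ s ∈ S, ε t s • χ k j s • W s, fun t => ?_, ?_⟩
      · simp only [src, map_sum, map_zsmul, AddSubmonoidClass.coe_finsetSum, mul_smul,
          AddSubgroupClass.coe_zsmul, W, v1, p3]
      · refine (had _ (fun v => N v ^ r) (fun v => Real.rpow_nonneg (n1 v) _)
          (by simp [N0, r0.ne']) n3 (fun s => χ k j s • W s)).trans ?_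
        have a1 : ∀ s, N (χ k j s • W s) = N (V s) := by
          intro s
          rw [← n4 s⁻¹ (V s) (W s) rfl]
          rcases x1 k j s with h | h <;> simp [h, n2]
        simp only [a1]
        rw [pow_succ', mul_assoc (2 * (S.card : ℝ))]
        exact mul_le_mul_of_nonneg_left v2 (by positivity)
  refine ⟨S.card * ((2 + S.card) * (K * (S.card * (K * 2) ^ r) ^ r⁻¹)), fun k => ?_⟩
  obtain ⟨V, v1, v2⟩ := vec (k + 1) (k + 1)
  set B := (S.card * (K * 2) ^ r) ^ r⁻¹ * ((2 * S.card : ℝ) ^ r⁻¹) ^ (k + 1) with hB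
  have B0 : 0 < B := by positivity
  have a1 : ∀ t ∈ S, N (V t) ≤ B := by
    intro t ht
    have b1 := (single_le_sum (fun t _ => Real.rpow_nonneg (n1 (V t)) r) ht).trans v2
    rw [← Real.rpow_le_rpow_iff (n1 _) B0.le r0, hB, Real.mul_rpow (by positivity) (by positivity),
      Real.rpow_inv_rpow (by positivity) r0.ne', ← Real.rpow_pow_comm (by positivity),
      Real.rpow_inv_rpow (by positivity) r0.ne', mul_comm]
    exact b1
  have f1 := fun t => fld_bm S he ho hg ε (χ (k + 1)) (k + 1) t (1, t)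
  have a2 : ∀ t ∈ S, ∫ ω, (fld S o ε (χ (k + 1)) (k + 1) ω t (1, t)).re ∂μ ≤
      (2 + S.card) * (K * B) := by
    intro t ht
    refine int_le μ (f1 t) (by positivity) ?_
    have b1 : ∀ ω, ENNReal.ofReal ((fld S o ε (χ (k + 1)) (k + 1) ω t (1, t)).re *
        (fld S o ε (χ (k + 1)) (k + 1) ω t (1, t)).re) ≤
        ENNReal.ofReal (2 + S.card) ^ 2 * nn ((V t).1 ω) := by
      intro ω
      by_cases c : nn ((V t).1 ω) = ⊤
      · rw [c, ENNReal.mul_top (by simp; positivity)]; exact le_top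
      have c1 := full_bound (hO ω) (wt ε (χ (k + 1))) (hm _)
        (Pi.single 0 (src S ε (χ (k + 1)) (k + 1) t)) √(nn ((V t).1 ω)).toReal (fun j e => by
          refine Real.le_sqrt_of_sq_le ?_
          have d1 := ENNReal.toReal_mono c (ENNReal.le_tsum (k + 1, j, e))
          rw [ENNReal.toReal_pow, toReal_enorm] at d1
          rw [← p5, ← v1]
          exact d1) (k + 1) (1, t)
      have c2 := (Complex.abs_re_le_norm _).trans c1
      have c3 := pow_le_pow_left₀ (abs_nonneg _) c2 2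
      rw [sq_abs, mul_pow, Real.sq_sqrt ENNReal.toReal_nonneg, sq] at c3
      refine (ENNReal.ofReal_le_ofReal c3).trans (le_of_eq ?_)
      rw [ENNReal.ofReal_mul (by positivity), ENNReal.ofReal_toReal c, ENNReal.ofReal_pow (by positivity)]
    refine (lintegral_mono b1).trans ?_
    rw [lintegral_const_mul _ (V t).2.1.nn, ENNReal.ofReal_mul (by positivity), mul_pow]
    exact mul_le_mul_right ((n5 (V t)).trans (pow_le_pow_left' (ENNReal.ofReal_le_ofReal
      (mul_le_mul_of_nonneg_left (a1 t ht) k0.le)) 2)) _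
  have a3 := x2 (k + 1)
  simp only [one_mul] at a3
  rw [integral_finsetSum _ (fun t _ => (f1 t).int μ)] at a3
  have a4 := a3.trans (sum_le_sum a2)
  rw [sum_const, nsmul_eq_mul] at a4
  have mc := meas_core S ho δ (k + 1) 1
  have a5 : μ.real {ω | core S (o ω) δ (k + 1) 1} ≤
      ∫ ω, ∑ t ∈ S, (if core S (o ω) δ (k + 1) 1 ∧ o ω (1, t) then (1 : ℝ) else 0) ∂μ := by
    rw [← integral_indicator_one (measurableSet_setOfPred.mpr mc)]
    refine integral_mono ((integrable_const (1 : ℝ)).indicator (measurableSet_setOfPred.mpr mc))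
      ((BM.sum _ (fun t => BM.ite (mc.and (ho _)) (BM.const _))).int μ) (fun ω => ?_)
    simp only [Set.indicator_apply, Set.mem_ofPred_eq, Pi.one_apply, sum_boole]
    split_ifs with h
    · obtain ⟨t, ht⟩ := card_pos.mp (lt_of_le_of_lt (Nat.zero_le _) h.2)
      rw [Nat.one_le_cast]
      exact card_pos.mpr ⟨t, mem_filter.mpr ⟨(mem_filter.mp ht).1, h, (mem_filter.mp ht).2.1⟩⟩
    · positivity
  refine (mul_le_mul_of_nonneg_left a5 (by positivity)).trans (a4.trans (le_of_eq ?_))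
  rw [hB]; ring

theorem degree [Countable Γ] [MulAction Γ X] {r : ℝ} (hr : 1 ≤ r) (hc : Clk r Γ) (μ : Measure X)
    [IsProbabilityMeasure μ] (hμ : ∀ g : Γ, MeasurePreserving (fun ω : X => g • ω) μ μ)
    (S : Finset Γ) (hS : ∀ s ∈ S, s⁻¹ ∈ S) {o u : X → Γ × Γ → Prop}
    (ho : ∀ e, Measurable (fun ω => o ω e)) (hu : ∀ e, Measurable (fun ω => u ω e))
    (hO : ∀ ω, Ori S (o ω) (u ω)) (he : ∀ (g : Γ) ω, o (g • ω) = sh g (o ω)) :
    ∑ s ∈ S, μ.real {ω | o ω (1, s)} ≤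
      10 * (S.card : ℝ) ^ r⁻¹ * μ.real {ω | ∃ s ∈ S, o ω (1, s)} := by
  rcases S.eq_empty_or_nonempty with rfl | hne
  · simp
  have n1 : (1 : ℝ) ≤ S.card := by exact_mod_cast hne.card_pos
  have r1 : r⁻¹ ≤ 1 := inv_le_one_of_one_le₀ hr
  set b : ℝ := (2 * S.card : ℝ) ^ r⁻¹ with hb
  have b0 : 0 < b := by positivity
  have b1 : 1 ≤ (S.card : ℝ) ^ r⁻¹ := Real.one_le_rpow n1 (by positivity)
  have b2 : b ≤ 2 * (S.card : ℝ) ^ r⁻¹ := by
    rw [hb, Real.mul_rpow zero_le_two (by positivity)]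
    refine mul_le_mul_of_nonneg_right ?_ (by positivity)
    simpa using Real.rpow_le_rpow_of_exponent_le one_le_two r1
  set δ := ⌊2 * b⌋₊ + 1 with hδ
  have d1 : 2 * b < δ := by rw [hδ]; push_cast; exact Nat.lt_floor_add_one _
  have d2 : (δ : ℝ) ≤ 5 * (S.card : ℝ) ^ r⁻¹ := by
    have := Nat.floor_le (show 0 ≤ 2 * b by positivity)
    rw [hδ]; push_cast; linarith
  obtain ⟨C, hC⟩ := growth hr hc μ hμ S hne hS ho hu hO he δ
  have a1 : Filter.Tendsto (fun k : ℕ => S.card * (C * (b / (δ / 2)) ^ (k + 1)) +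
      2 * δ * μ.real {ω | ∃ s ∈ S, o ω (1, s)}) Filter.atTop
      (nhds (S.card * (C * 0) + 2 * δ * μ.real {ω | ∃ s ∈ S, o ω (1, s)})) := by
    refine (Filter.Tendsto.const_mul _ (Filter.Tendsto.const_mul _ ?_)).add_const _
    exact (tendsto_pow_atTop_nhds_zero_of_lt_one (by positivity)
      ((div_lt_one (by linarith)).mpr (by linarith))).comp (Filter.tendsto_add_atTop_nat 1)
  have a2 := ge_of_tendsto' a1 (fun k =>
    (transport μ hμ S hS ho (fun ω => (hO ω).sym) he δ (k + 1)).trans (add_le_add_left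
      (mul_le_mul_of_nonneg_left (by
        rw [div_pow, ← mul_div_assoc, le_div_iff₀ (pow_pos (by linarith) _), mul_comm]
        exact hC k) (by positivity)) _))
  have a3 : 0 ≤ μ.real {ω | ∃ s ∈ S, o ω (1, s)} := measureReal_nonneg
  nlinarith

end Pool.Agent.Lib.MP_040728_al.Forest
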