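import Mathlib
import Pool.Agent.Lib.MP_040728_al.FMain

set_option autoImplicit false

namespace Pool.Agent.Lib.MP_040728_al.Forest

open Finset MeasureTheory Relation
open scoped Classical

theorem meas_rtg {X V : Type} [MeasurableSpace X] [Countable V] {R : X → V → V → Prop}
    (h : ∀ a b, Measurable (fun ω => R ω a b)) (a b : V) :
    Measurable (fun ω => ReflTransGen (R ω) a b) := by
  let it : ℕ → X → V → Prop := fun n => Nat.rec (fun _ b => b = a)
    (fun _ Q ω b => ∃ c, Q ω c ∧ R ω c b) n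
  have a1 : ∀ n b, Measurable (fun ω => it n ω b) := by
    intro n
    induction n with
    | zero => exact fun b => measurable_const
    | succ n ih => exact fun b => Measurable.exists (fun c => (ih c).and (h c b))
  have a2 : ∀ ω, ReflTransGen (R ω) a b ↔ ∃ n, it n ω b := by
    intro ω
    constructor
    · intro c
      induction c with
      | refl => exact ⟨0, rfl⟩
      | tail _ c2 ih => obtain ⟨n, hn⟩ := ih; exact ⟨n + 1, _, hn, c2⟩
    · rintro ⟨n, hn⟩
      induction n generalizing b with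
      | zero => rw [show b = a from hn]
      | succ n ih => obtain ⟨c, c1, c2⟩ := hn; exact (ih c c1).tail c2
  simp only [a2]
  exact Measurable.exists (fun n => a1 n b)

/-- The vertices on the side of `y` of the edge from `x` to `y`. -/
def side {V : Type} (G : SimpleGraph V) (x y z : V) : Prop :=
  ReflTransGen (fun a b => G.Adj a b ∧ s(a, b) ≠ s(x, y)) y z

theorem side_iff {V : Type} (G : SimpleGraph V) (x y z : V) :
    side G x y z ↔ (G.deleteEdges {s(x, y)}).Reachable y z := by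
  rw [SimpleGraph.reachable_iff_reflTransGen, side]
  congr! 3
  simp

theorem side_disj {V : Type} {G : SimpleGraph V} (hG : G.IsAcyclic) {x y z : V} (h : G.Adj x y)
    (h1 : side G x y z) (h2 : side G y x z) : False := by
  rw [side_iff] at h1 h2
  rw [Sym2.eq_swap] at h2
  exact SimpleGraph.isAcyclic_iff_forall_adj_isBridge.mp hG h (h2.trans h1.symm)

theorem side_sub {V : Type} {G : SimpleGraph V} (hG : G.IsAcyclic) {x y y' z : V} (h' : G.Adj x y')
    (hy : y ≠ y') (h1 : side G x y' z) : side G y x z := by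
  induction h1 with
  | refl =>
    refine ReflTransGen.single ⟨h', fun e => ?_⟩
    rcases Sym2.eq_iff.mp e with ⟨e1, e2⟩ | ⟨-, e2⟩
    exacts [h'.ne e2.symm, hy e2.symm]
  | tail c1 c2 ih =>
    refine ih.tail ⟨c2.1, fun e => ?_⟩
    refine side_disj hG h' (z := x) ?_ ReflTransGen.refl
    rcases Sym2.eq_iff.mp e with ⟨-, rfl⟩ | ⟨rfl, -⟩
    · exact ReflTransGen.tail c1 c2
    · exact c1

theorem forest {Γ X : Type} [Group Γ] [Countable Γ] [MeasurableSpace X] [MulAction Γ X] {r : ℝ}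
    (hr : 1 ≤ r) (hc : Clk r Γ) (μ : Measure X) [IsProbabilityMeasure μ]
    (hμ : ∀ g : Γ, MeasurePreserving (fun ω : X => g • ω) μ μ) (F : X → SimpleGraph Γ)
    (hF : ∀ ω, (F ω).IsAcyclic) (hm : ∀ x y, MeasurableSet {ω | (F ω).Adj x y})
    (he : ∀ (g : Γ) ω x y, (F (g • ω)).Adj (g * x) (g * y) ↔ (F ω).Adj x y)
    (S : Finset Γ) (hS : ∀ s ∈ S, s⁻¹ ∈ S) :
    ∑ s ∈ S, μ.real {ω | (F ω).Adj 1 s} ≤
      10 * (S.card : ℝ) ^ r⁻¹ * μ.real {ω | ∃ s ∈ S, (F ω).Adj 1 s} := by
  obtain ⟨ix, hix⟩ := exists_injective_nat Γ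
  have m1 := fun x y => measurableSet_setOfPred.mp (hm x y)
  have m2 : ∀ x y z, Measurable (fun ω => side (F ω) x y z) :=
    fun x y z => meas_rtg (fun a b => (m1 a b).and measurable_const) y z
  have key := degree hr hc μ hμ S hS (o := fun ω e => e.2 ∈ S ∧ (F ω).Adj e.1 (e.1 * e.2))
    (u := fun ω e => (e.2 ∈ S ∧ (F ω).Adj e.1 (e.1 * e.2)) ∧ ∃ z, side (F ω) e.1 (e.1 * e.2) z ∧
      ∀ z', side (F ω) (e.1 * e.2) e.1 z' → ix z < ix z')
    (fun e => measurable_const.and (m1 _ _))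
    (fun e => (measurable_const.and (m1 _ _)).and (Measurable.exists (fun z => (m2 _ _ z).and
      (Measurable.forall (fun z' => (m2 _ _ z').imp measurable_const)))))
    (fun ω => ⟨fun _ _ h => h.1, fun x s h => ⟨hS s h.1, by simpa using h.2.symm⟩, fun _ h => h.1,
      fun x t t' h h' => ?_, fun x s h h' => ?_⟩)
    (fun g ω => funext fun e => by
      have := he g ω (g⁻¹ * e.1) (g⁻¹ * e.1 * e.2)
      simp only [← mul_assoc, mul_inv_cancel, one_mul] at this
      simp only [sh, this])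
  · have a1 : ∀ s ∈ S, {ω | s ∈ S ∧ (F ω).Adj 1 (1 * s)} = {ω | (F ω).Adj 1 s} :=
      fun s hs => by simp [hs]
    have a2 : {ω | ∃ s ∈ S, s ∈ S ∧ (F ω).Adj 1 (1 * s)} = {ω | ∃ s ∈ S, (F ω).Adj 1 s} := by simp
    rw [← a2, ← sum_congr rfl (fun s hs => congrArg μ.real (a1 s hs))]
    exact key
  · by_contra c
    obtain ⟨⟨-, a1⟩, z, a2, a3⟩ := h
    obtain ⟨⟨-, b1⟩, z', b2, b3⟩ := h'
    have d : x * t ≠ x * t' := fun e => c (mul_left_cancel e)
    exact lt_asymm (a3 z' (side_sub (hF ω) b1 d b2)) (b3 z (side_sub (hF ω) a1 d.symm a2))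
  · refine ⟨⟨hS s h.1, by simpa using h.2.symm⟩, ?_⟩
    simp only [mul_inv_cancel_right]
    obtain ⟨b, b1, b2⟩ := (InvImage.wf ix wellFounded_lt).has_min {z | side (F ω) (x * s) x z}
      ⟨x, ReflTransGen.refl⟩
    refine ⟨b, b1, fun z hz => ?_⟩
    by_contra c
    refine h' ⟨h, z, hz, fun z' hz' => ?_⟩
    have d1 : ix b ≤ ix z' := not_lt.mp (b2 z' hz')
    have d2 : ix z ≠ ix b := fun e => side_disj (hF ω) h.2 hz (hix e ▸ b1)
    omega

end Pool.Agent.Lib.MP_040728_al.Forest
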