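import Mathlib

set_option autoImplicit false

namespace Pool.Agent.Lib.MP_040728_al.Q

open Finset MeasureTheory Filter Topology

/-- The isometrisability hypothesis. -/
def Iso (p : ENNReal) [Fact (1 ≤ p)] (Γ : Type) [Group Γ] : Prop :=
  ∀ (H : Type) [NormedAddCommGroup H] [InnerProductSpace ℂ H] [CompleteSpace H]
    (π : Γ →* (H →L[ℂ] H)ˣ),
    (∃ C : ℝ, ∀ g : Γ, ‖((π g : (H →L[ℂ] H)ˣ) : H →L[ℂ] H)‖ ≤ C) →
    ∃ (X : Type) (_ : MeasurableSpace X) (μ : MeasureTheory.Measure X)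
      (Y : Submodule ℂ (MeasureTheory.Lp ℂ p μ)) (Z : Submodule ℂ Y)
      (T : H ≃L[ℂ] (↥Y ⧸ Z)),
      IsClosed (Y : Set (MeasureTheory.Lp ℂ p μ)) ∧ IsClosed (Z : Set Y) ∧
      ∀ (g : Γ) (v : H),
        ‖T (((π g : (H →L[ℂ] H)ˣ) : H →L[ℂ] H) v)‖ = ‖T v‖

/-- A matrix that contracts the `r`-norm. -/
def Con (r : ℝ) {L : Type} [Fintype L] (Y : L → L → ℂ) : Prop :=
  ∀ x : L → ℂ, ∑ i, ‖∑ j, Y i j * x j‖ ^ r ≤ ∑ j, ‖x j‖ ^ r

/-- Scalar contractions of the `r`-norm do not increase the sum of the gauges. -/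
def Star (r : ℝ) {V : Type} [AddCommGroup V] [Module ℂ V] (Φ : V → ℝ) : Prop :=
  ∀ (L : Type) [Fintype L] (Y : L → L → ℂ), Con r Y →
    ∀ v : L → V, ∑ i, Φ (∑ j, Y i j • v j) ≤ ∑ j, Φ (v j)

theorem Star.comp {r : ℝ} {V W : Type} [AddCommGroup V] [Module ℂ V] [AddCommGroup W] [Module ℂ W]
    {Φ : V → ℝ} (h : Star r Φ) (T : W →ₗ[ℂ] V) : Star r (fun w => Φ (T w)) := by
  intro L _ Y hY v
  simpa only [map_sum, map_smul] using h L Y hY (fun j => T (v j))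

section lp
variable {X : Type} [MeasurableSpace X] {μ : Measure X} {p : ENNReal}

theorem int_norm (h0 : p ≠ 0) (ht : p ≠ ⊤) (f : Lp ℂ p μ) (g : X → ℂ) (h : f =ᵐ[μ] g) :
    Integrable (fun x => ‖g x‖ ^ p.toReal) μ ∧ ∫ x, ‖g x‖ ^ p.toReal ∂μ = ‖f‖ ^ p.toReal := by
  have e : (fun x => ‖f x‖ ^ p.toReal) =ᵐ[μ] fun x => ‖g x‖ ^ p.toReal := by
    filter_upwards [h] with x hx; rw [hx]
  refine ⟨((Lp.memLp f).integrable_norm_rpow h0 ht).congr e, ?_⟩
  have pp : p.toReal ≠ 0 := ENNReal.toReal_ne_zero.mpr ⟨h0, ht⟩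
  have n0 : 0 ≤ ∫ x, ‖f x‖ ^ p.toReal ∂μ := integral_nonneg (fun x => by positivity)
  rw [← integral_congr_ae e, Lp.norm_def, (Lp.memLp f).eLpNorm_eq_integral_rpow_norm h0 ht,
    ENNReal.toReal_ofReal (by positivity), Real.rpow_inv_rpow n0 pp]

theorem sum_ae {L : Type} (s : Finset L) (c : L → ℂ) (v : L → Lp ℂ p μ) :
    ((∑ j ∈ s, c j • v j : Lp ℂ p μ) : X → ℂ) =ᵐ[μ] fun x => ∑ j ∈ s, c j * v j x := by
  classical
  induction s using Finset.induction_on with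
  | empty => exact Lp.coeFn_zero ℂ p μ
  | insert a s ha ih =>
    simp only [sum_insert ha]
    filter_upwards [ih, Lp.coeFn_add (c a • v a) (∑ j ∈ s, c j • v j), Lp.coeFn_smul (c a) (v a)]
      with x h1 h2 h3
    rw [h2, Pi.add_apply, h1, h3, Pi.smul_apply, smul_eq_mul]

theorem star_Lp (h0 : p ≠ 0) (ht : p ≠ ⊤) : Star p.toReal (fun f : Lp ℂ p μ => ‖f‖ ^ p.toReal) := by
  intro L _ Y hY v
  have a1 := fun i => int_norm h0 ht _ _ (sum_ae univ (Y i) v)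
  have a2 := fun j => int_norm h0 ht (v j) _ (EventuallyEq.refl _ _)
  have key := integral_mono (integrable_finsetSum univ (fun i _ => (a1 i).1))
    (integrable_finsetSum univ (fun j _ => (a2 j).1)) (fun x => hY (fun j => v j x))
  rw [integral_finsetSum _ (fun i _ => (a1 i).1), integral_finsetSum _ (fun j _ => (a2 j).1)] at key
  simpa only [fun i => (a1 i).2, fun j => (a2 j).2] using key

end lp

theorem star_quot {r : ℝ} (hr : 0 < r) {W V : Type} [SeminormedAddCommGroup W] [NormedSpace ℂ W]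
    [SeminormedAddCommGroup V] [NormedSpace ℂ V] (h : Star r (fun w : W => ‖w‖ ^ r))
    (q : W →ₗ[ℂ] V) (hq : ∀ w, ‖q w‖ ≤ ‖w‖)
    (hl : ∀ (v : V) (ε : ℝ), 0 < ε → ∃ w, q w = v ∧ ‖w‖ < ‖v‖ + ε) :
    Star r (fun v : V => ‖v‖ ^ r) := by
  intro L _ Y hY v
  have c : Tendsto (fun ε : ℝ => ∑ j, (‖v j‖ + ε) ^ r) (𝓝[>] 0) (𝓝 (∑ j, (‖v j‖ + 0) ^ r)) := by
    refine Tendsto.mono_left (Continuous.tendsto ?_ 0) nhdsWithin_le_nhds
    exact continuous_finsetSum _ (fun j _ =>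
      (continuous_const.add continuous_id).rpow_const (fun _ => Or.inr hr.le))
  simp only [add_zero] at c
  refine ge_of_tendsto c (eventually_mem_nhdsWithin.mono (fun ε hε => ?_))
  choose w w1 w2 using fun j => hl (v j) ε hε
  refine le_trans (sum_le_sum (fun i _ => ?_)) ((h L Y hY w).trans (sum_le_sum (fun j _ =>
    Real.rpow_le_rpow (norm_nonneg _) (w2 j).le hr.le)))
  refine Real.rpow_le_rpow (norm_nonneg _) (le_trans (le_of_eq ?_) (hq _)) hr.le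
  simp only [map_sum, map_smul, w1]

theorem star_pspace {X : Type} [MeasurableSpace X] {μ : Measure X} {p : ENNReal} [Fact (1 ≤ p)]
    (ht : p ≠ ⊤) (Y : Submodule ℂ (Lp ℂ p μ)) (Z : Submodule ℂ Y) :
    Star p.toReal (fun v : ↥Y ⧸ Z => ‖v‖ ^ p.toReal) := by
  have h0 : p ≠ 0 := (lt_of_lt_of_le zero_lt_one (Fact.out : 1 ≤ p)).ne'
  have a1 : Star p.toReal (fun w : ↥Y => ‖w‖ ^ p.toReal) := (star_Lp h0 ht).comp Y.subtype
  refine star_quot (W := ↥Y) (V := ↥Y ⧸ Z) (ENNReal.toReal_pos h0 ht) a1 Z.mkQ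
    (fun w => Submodule.Quotient.norm_mk_le Z w) ?_
  intro v ε hε
  exact Submodule.Quotient.norm_mk_lt v hε

/-- An invariant gauge equivalent to the `r`-th power of the norm. -/
def Gauge (r K : ℝ) {Δ H : Type} [Group Δ] [NormedAddCommGroup H] [NormedSpace ℂ H]
    (π : Δ →* (H →L[ℂ] H)) (Φ : H → ℝ) : Prop :=
  (∀ v, ‖v‖ ^ r ≤ K * Φ v) ∧ (∀ v, Φ v ≤ K * ‖v‖ ^ r) ∧ (∀ g v, Φ (π g v) = Φ v) ∧ Star r Φ

theorem gauge_one {p : ENNReal} [Fact (1 ≤ p)] (ht : p ≠ ⊤) {Γ : Type} [Group Γ] (hiso : Iso p Γ)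
    {H : Type} [NormedAddCommGroup H] [InnerProductSpace ℂ H] [CompleteSpace H]
    (π : Γ →* (H →L[ℂ] H)) {R : ℝ} (hR : ∀ g, ‖π g‖ ≤ R) :
    ∃ (K : ℝ) (Φ : H → ℝ), 0 < K ∧ Gauge p.toReal K π Φ := by
  have h0 : p ≠ 0 := (lt_of_lt_of_le zero_lt_one (Fact.out : 1 ≤ p)).ne'
  have hr : 0 < p.toReal := ENNReal.toReal_pos h0 ht
  obtain ⟨V, _, _, s1, T, hT⟩ : ∃ (V : Type) (_ : SeminormedAddCommGroup V) (_ : NormedSpace ℂ V),
      Star p.toReal (fun v : V => ‖v‖ ^ p.toReal) ∧ ∃ T : H ≃L[ℂ] V,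
        ∀ g v, ‖T (π g v)‖ = ‖T v‖ := by
    obtain ⟨X, _, μ, Y, Z, T, -, -, hT⟩ := hiso H π.toHomUnits ⟨R, hR⟩
    exact ⟨↥Y ⧸ Z, _, _, star_pspace ht Y Z, T, hT⟩
  obtain ⟨C, hC, c1, c2⟩ : ∃ C : ℝ, 0 < C ∧ (∀ v, ‖v‖ ≤ C * ‖T v‖) ∧ ∀ v, ‖T v‖ ≤ C * ‖v‖ := by
    refine ⟨‖T.toContinuousLinearMap‖ + ‖T.symm.toContinuousLinearMap‖ + 1, by positivity,
      fun v => ?_, fun v => ?_⟩
    · have := T.symm.toContinuousLinearMap.le_opNorm (T v)
      rw [ContinuousLinearEquiv.coe_coe, T.symm_apply_apply] at this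
      nlinarith [norm_nonneg (T v), norm_nonneg T.toContinuousLinearMap]
    · have := T.toContinuousLinearMap.le_opNorm v
      rw [ContinuousLinearEquiv.coe_coe] at this
      nlinarith [norm_nonneg v, norm_nonneg T.symm.toContinuousLinearMap]
  refine ⟨C ^ p.toReal, fun v => ‖T v‖ ^ p.toReal, by positivity, fun v => ?_, fun v => ?_,
    fun g v => congrArg (· ^ p.toReal) (hT g v), s1.comp T.toLinearMap⟩
  · rw [← Real.mul_rpow hC.le (norm_nonneg _)]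
    exact Real.rpow_le_rpow (norm_nonneg _) (c1 v) hr.le
  · rw [← Real.mul_rpow hC.le (norm_nonneg _)]
    exact Real.rpow_le_rpow (norm_nonneg _) (c2 v) hr.le

theorem gauge_seq {p : ENNReal} [Fact (1 ≤ p)] (ht : p ≠ ⊤) {Γ : Type} [Group Γ] (hiso : Iso p Γ)
    (H : ℕ → Type) [∀ m, NormedAddCommGroup (H m)] [∀ m, InnerProductSpace ℂ (H m)]
    [∀ m, CompleteSpace (H m)] (π : ∀ m, Γ →* (H m →L[ℂ] H m)) {R : ℝ} (hR : ∀ m g, ‖π m g‖ ≤ R) :
    ∃ K : ℝ, 0 < K ∧ ∀ m, ∃ Φ : H m → ℝ, Gauge p.toReal K (π m) Φ := by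
  have R0 : 0 ≤ R := (norm_nonneg _).trans (hR 0 1)
  have hb : ∀ g (v : lp H 2) (s : Finset ℕ), ∑ m ∈ s, ‖π m g (v m)‖ ^ (2 : ENNReal).toReal ≤
      (R * ‖v‖) ^ (2 : ENNReal).toReal := by
    intro g v s
    rw [Real.mul_rpow R0 (norm_nonneg _)]
    refine le_trans ?_ (mul_le_mul_of_nonneg_left (lp.sum_rpow_le_norm_rpow (by simp) v s)
      (by positivity))
    rw [mul_sum]
    refine sum_le_sum (fun m _ => ?_)
    rw [← Real.mul_rpow R0 (norm_nonneg _)]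
    exact Real.rpow_le_rpow (norm_nonneg _) ((π m g).le_of_opNorm_le (hR m g) _) (by simp)
  let P0 : Γ → lp H 2 →ₗ[ℂ] lp H 2 := fun g =>
    { toFun := fun v => ⟨fun m => π m g (v m), memℓp_gen' (hb g v)⟩
      map_add' := fun v w => lp.ext (funext (fun m => map_add (π m g) (v m) (w m)))
      map_smul' := fun c v => lp.ext (funext (fun m => map_smul (π m g) c (v m))) }
  have hP : ∀ g v, ‖P0 g v‖ ≤ R * ‖v‖ := fun g v =>
    lp.norm_le_of_forall_sum_le (by simp) (by positivity) (hb g v)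
  let P : Γ →* (lp H 2 →L[ℂ] lp H 2) :=
    { toFun := fun g => (P0 g).mkContinuous R (hP g)
      map_one' := ContinuousLinearMap.ext (fun v => lp.ext (funext (fun m => by
        change π m 1 (v m) = v m
        simp)))
      map_mul' := fun g h => ContinuousLinearMap.ext (fun v => lp.ext (funext (fun m => by
        change π m (g * h) (v m) = π m g (π m h (v m))
        simp))) }
  obtain ⟨K, Φ, hK, g1, g2, g3, g4⟩ := gauge_one ht hiso P (R := R)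
    (fun g => LinearMap.mkContinuous_norm_le (P0 g) R0 (hP g))
  refine ⟨K, hK, fun m => ⟨fun v => Φ (lp.single 2 m v), fun v => ?_, fun v => ?_, fun g v => ?_,
    g4.comp (lp.singleContinuousLinearMap ℂ H 2 m).toLinearMap⟩⟩
  · simpa only [lp.norm_single (p := 2) (by simp)] using g1 (lp.single 2 m v)
  · simpa only [lp.norm_single (p := 2) (by simp)] using g2 (lp.single 2 m v)
  · refine Eq.trans (congrArg Φ ?_) (g3 g (lp.single 2 m v))
    refine lp.ext (funext (fun k => ?_))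
    change _ = π k g (lp.single 2 m v k)
    by_cases hk : k = m
    · subst hk; simp only [lp.single_apply_self]
    · rw [lp.single_apply_ne _ _ _ hk, lp.single_apply_ne _ _ _ hk, map_zero]

theorem gauge_avg {r K R : ℝ} (hr : 0 < r) (hK : 0 < K) {Γ G H : Type} [Group Γ] [Group G]
    [Fintype G] [NormedAddCommGroup H] [NormedSpace ℂ H] (π : Γ × G →* (H →L[ℂ] H))
    (R0 : 0 ≤ R) (hR : ∀ g, ‖π g‖ ≤ R) {Φ : H → ℝ} (h : Gauge r K (π.comp (MonoidHom.inl Γ G)) Φ) :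
    ∃ Ψ : H → ℝ, Gauge r (K * R ^ r) π Ψ := by
  obtain ⟨g1, g2, g3, g4⟩ := h
  have c0 : (0 : ℝ) < Fintype.card G := by exact_mod_cast Fintype.card_pos
  have n1 : ∀ g v, ‖π g v‖ ^ r ≤ R ^ r * ‖v‖ ^ r := fun g v => by
    rw [← Real.mul_rpow R0 (norm_nonneg _)]
    exact Real.rpow_le_rpow (norm_nonneg _) ((π g).le_of_opNorm_le (hR g) _) hr.le
  refine ⟨fun v => (∑ γ : G, Φ (π (1, γ) v)) / Fintype.card G, fun v => ?_, fun v => ?_,
    fun g v => ?_, fun L _ Y hY v => ?_⟩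
  · rw [← mul_div_assoc, le_div_iff₀ c0, mul_sum, mul_comm, ← nsmul_eq_mul, ← card_univ, ← sum_const]
    refine sum_le_sum (fun γ _ => ?_)
    have a1 := n1 (1, γ)⁻¹ (π (1, γ) v)
    rw [← mul_apply_eq_comp, ← map_mul, inv_mul_cancel, map_one,
      one_apply_eq_self] at a1
    refine a1.trans ?_
    rw [mul_comm K, mul_assoc]
    exact mul_le_mul_of_nonneg_left (g1 _) (by positivity)
  · rw [div_le_iff₀ c0, mul_comm _ (Fintype.card G : ℝ), ← nsmul_eq_mul, ← card_univ, ← sum_const]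
    refine sum_le_sum (fun γ _ => (g2 _).trans ?_)
    rw [mul_assoc]
    exact mul_le_mul_of_nonneg_left (n1 _ _) hK.le
  · refine congrArg (· / (Fintype.card G : ℝ)) ?_
    refine Fintype.sum_equiv (Equiv.mulRight g.2) _ _ (fun γ => ?_)
    refine Eq.trans ?_ (g3 g.1 (π (1, (Equiv.mulRight g.2) γ) v))
    simp only [MonoidHom.comp_apply, MonoidHom.inl_apply, ← mul_apply_eq_comp,
      ← map_mul, Equiv.coe_mulRight]
    congr 3
    ext <;> simp
  · rw [← sum_div, ← sum_div, sum_comm, sum_comm (s := (univ : Finset L))]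
    refine div_le_div_of_nonneg_right (sum_le_sum (fun γ _ => ?_)) c0.le
    exact (g4.comp (π (1, γ)).toLinearMap) L Y hY v

end Pool.Agent.Lib.MP_040728_al.Q
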