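import Mathlib
import Pool.Agent.Lib.MP_040728_al.QGauge

set_option autoImplicit false

namespace Pool.Agent.Lib.MP_040728_al.Q

open Finset
open scoped Classical

/-- Labels with heights, group elements, two matrices, a set of edges, gains and admissible sets. -/
structure Dat (Δ L : Type) where
  ht : L → ℕ
  g : L → Δ
  N : L → L → ℂ
  Y : L → L → ℂ
  D : Δ → L → Prop
  c : L → ℂ
  AI : (L → Prop) → Prop
  AJ : (L → Prop) → Prop

/-- The number of elements with a property. -/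
noncomputable def cnt {X : Type} [Fintype X] (P : X → Prop) : ℝ := ∑ x, if P x then 1 else 0

/-- The properties of a layered system of depth `m`. -/
structure Sys {Δ L : Type} [Group Δ] [Fintype L] (d : Dat Δ L) (m : ℕ) (r M : ℝ) : Prop where
  hN : ∀ i j, d.N i j ≠ 0 → d.ht j = d.ht i + 1
  hY : ∀ i j, d.Y i j ≠ 0 → d.ht j = d.ht i + 1
  hm : ∀ i, d.ht i ≤ m
  fw : ∀ x i j, d.D x j → d.N i j ≠ 0 → d.D (x * d.g j) i
  inD : ∀ z, d.AI (fun j => d.D (z * (d.g j)⁻¹) j)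
  outU : ∀ z, d.AJ (fun i => ¬ d.D z i)
  inj : ∀ I : L → Prop, (∀ i j, I i → I j → d.ht i = d.ht j → i = j) → d.AI I
  anc : ∀ i, d.ht i = 0 → ∃ R : L → Prop, R i ∧ d.AJ R ∧ ∀ i' j, R i' → d.N i' j ≠ 0 → R j
  small : ∀ (I J : L → Prop) (x : L → ℂ), d.AI I → d.AJ J → (∀ j, x j ≠ 0 → I j) →
    ∑ i, (if J i then ‖∑ j, d.N i j * x j‖ ^ 2 else 0) ≤ (1 / 2) ^ 2 * ∑ j, ‖x j‖ ^ 2
  big : ∀ (I : L → Prop) (x : L → ℂ), d.AI I → (∀ j, x j ≠ 0 → I j) →
    ∑ i, ‖∑ j, d.N i j * x j‖ ^ 2 ≤ M ^ 2 * ∑ j, ‖x j‖ ^ 2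
  con : Con r d.Y
  c0 : ∀ i, d.ht i = m → d.c i = 1
  c1 : ∀ i, d.ht i < m → d.c i = ∑ j, d.Y i j * d.N i j * d.c j
  gain : (2 : ℝ) ^ m * cnt (fun i => d.ht i = m) ≤ ∑ i, (if d.ht i = 0 then ‖d.c i‖ ^ r else 0)
  pos : 0 < cnt (fun i => d.ht i = m)
  mono : ∀ J J' : L → Prop, d.AJ J → (∀ i, J' i → J i) → d.AJ J'

/-- Square summable functions. -/
abbrev El (I : Type) : Type := lp (fun _ : I => ℂ) 2

section ops
variable {I : Type}

theorem hasSum_sq (v : El I) : HasSum (fun i => ‖v i‖ ^ 2) (‖v‖ ^ 2) := by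
  simpa using lp.hasSum_norm (p := 2) (by simp) v

theorem norm_le_of (v : El I) {C : ℝ} (hC : 0 ≤ C) (h : ∀ s : Finset I, ∑ i ∈ s, ‖v i‖ ^ 2 ≤ C ^ 2) :
    ‖v‖ ≤ C :=
  lp.norm_le_of_forall_sum_le (by simp) hC (fun s => by
    simp only [ENNReal.toReal_ofNat, Real.rpow_ofNat]
    exact h s)

theorem exists_op (F : El I → I → ℂ) {C : ℝ} (hC : 0 ≤ C)
    (hadd : ∀ v w i, F (v + w) i = F v i + F w i) (hsm : ∀ (c : ℂ) v i, F (c • v) i = c * F v i)
    (hb : ∀ v (s : Finset I), ∑ i ∈ s, ‖F v i‖ ^ 2 ≤ (C * ‖v‖) ^ 2) :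
    ∃ P : El I →L[ℂ] El I, ∀ v i, P v i = F v i := by
  have hm : ∀ v, Memℓp (F v) 2 := fun v =>
    memℓp_gen' (C := (C * ‖v‖) ^ 2) (fun s => by simpa using hb v s)
  let P0 : El I →ₗ[ℂ] El I :=
    { toFun := fun v => ⟨F v, hm v⟩
      map_add' := fun v w => lp.ext (funext (hadd v w))
      map_smul' := fun c v => lp.ext (funext (hsm c v)) }
  have hP : ∀ v, ‖P0 v‖ ≤ C * ‖v‖ := fun v => norm_le_of _ (by positivity) (hb v)
  exact ⟨P0.mkContinuous C hP, fun v i => rfl⟩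

theorem norm_le_perm (σ : I ≃ I) (v w : El I) (h : ∀ i, ‖w i‖ ≤ ‖v (σ i)‖) : ‖w‖ ≤ ‖v‖ :=
  norm_le_of w (norm_nonneg _) (fun s =>
    (sum_le_sum (fun i _ => pow_le_pow_left₀ (norm_nonneg _) (h i) 2)).trans
      (sum_le_hasSum s (fun i _ => by positivity) (σ.hasSum_iff.mpr (hasSum_sq v))))

theorem exists_cut (P : I → Prop) (σ : I ≃ I) :
    ∃ T : El I →L[ℂ] El I, ∀ v i, T v i = if P i then v (σ i) else 0 := by
  refine exists_op (C := 1) _ zero_le_one (fun v w i => ?_) (fun c v i => ?_) (fun v s => ?_)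
  · split_ifs <;> simp
  · split_ifs <;> simp
  · rw [one_mul]
    refine le_trans (sum_le_sum (fun i _ => ?_))
      (sum_le_hasSum s (fun i _ => sq_nonneg _) (σ.hasSum_iff.mpr (hasSum_sq v)))
    split_ifs <;> simp

/-- Restriction to a set of coordinates. -/
noncomputable def cut (P : I → Prop) : El I →L[ℂ] El I := (exists_cut P (Equiv.refl I)).choose

theorem cut_apply (P : I → Prop) (v : El I) (i : I) : cut P v i = if P i then v i else 0 :=
  (exists_cut P (Equiv.refl I)).choose_spec v i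

theorem norm_cut (P : I → Prop) (v : El I) : ‖cut P v‖ ≤ ‖v‖ :=
  norm_le_perm (Equiv.refl I) v _ (fun i => by rw [cut_apply]; split_ifs <;> simp)

theorem cut_ne {P : I → Prop} {v : El I} {i : I} (h : cut P v i ≠ 0) : P i ∧ v i ≠ 0 := by
  rw [cut_apply] at h
  split_ifs at h with h1
  exacts [⟨h1, h⟩, absurd rfl h]

end ops

variable {Δ L : Type} [Group Δ]

/-- Left translation of edges. -/
def lsh (L : Type) (g : Δ) : Δ × L ≃ Δ × L := (Equiv.mulLeft g).prodCongr (Equiv.refl L)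

theorem exists_lam : ∃ lam : Δ →* (El (Δ × L) →L[ℂ] El (Δ × L)),
    ∀ g v x i, lam g v (x, i) = v (g⁻¹ * x, i) := by
  choose P hP using fun g : Δ => exists_cut (I := Δ × L) (fun _ => True) (lsh L g⁻¹)
  have h : ∀ g v x i, P g v (x, i) = v (g⁻¹ * x, i) := fun g v x i => by rw [hP, if_pos trivial]; rfl
  refine ⟨⟨⟨P, ?_⟩, fun g k => ?_⟩, h⟩
  · refine ContinuousLinearMap.ext (fun v => lp.ext (funext (fun ⟨x, i⟩ => ?_)))
    simp [h]
  · refine ContinuousLinearMap.ext (fun v => lp.ext (funext (fun ⟨x, i⟩ => ?_)))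
    simp [h, mul_assoc]

/-- The left regular representation on edges. -/
noncomputable def lam (L : Type) : Δ →* (El (Δ × L) →L[ℂ] El (Δ × L)) := exists_lam.choose

theorem lam_apply (g : Δ) (v : El (Δ × L)) (x : Δ) (i : L) : lam L g v (x, i) = v (g⁻¹ * x, i) :=
  exists_lam.choose_spec g v x i

theorem norm_lam (g : Δ) (v : El (Δ × L)) : ‖lam L g v‖ ≤ ‖v‖ :=
  norm_le_perm (lsh L g⁻¹) v _ (fun ⟨x, i⟩ => by rw [lam_apply]; rfl)

variable [Fintype L]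

theorem sum_edges (g : L → Δ) (v : El (Δ × L)) (F : Δ × L → ℝ) (F0 : ∀ e, 0 ≤ F e) {C : ℝ}
    (h : ∀ z, ∑ i, F (z, i) ≤ C ^ 2 * ∑ j, ‖v (z * (g j)⁻¹, j)‖ ^ 2) (s : Finset (Δ × L)) :
    ∑ e ∈ s, F e ≤ (C * ‖v‖) ^ 2 := by
  let σ : Δ × L ≃ Δ × L :=
    { toFun := fun e => (e.1 * (g e.2)⁻¹, e.2)
      invFun := fun e => (e.1 * g e.2, e.2)
      left_inv := fun e => by simp
      right_inv := fun e => by simp }
  have a1 : ∑ e ∈ s, F e ≤ ∑ e ∈ s.image Prod.fst ×ˢ univ, F e :=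
    sum_le_sum_of_subset_of_nonneg (fun e he => mem_product.mpr ⟨mem_image_of_mem _ he, mem_univ _⟩)
      (fun e _ _ => F0 e)
  have a2 : ∑ e ∈ s.image Prod.fst ×ˢ univ, ‖v (σ e)‖ ^ 2 ≤ ‖v‖ ^ 2 :=
    sum_le_hasSum _ (fun i _ => sq_nonneg _) (σ.hasSum_iff.mpr (hasSum_sq v))
  rw [sum_product] at a1 a2
  refine a1.trans ((sum_le_sum (fun z _ => h z)).trans ?_)
  rw [← mul_sum, mul_pow]
  exact mul_le_mul_of_nonneg_left a2 (by positivity)

theorem exists_opN (g : L → Δ) (N : L → L → ℂ) : ∃ T : El (Δ × L) →L[ℂ] El (Δ × L),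
    ∀ v e, T v e = ∑ j, N e.2 j * v (e.1 * (g j)⁻¹, j) := by
  refine exists_op (C := √(∑ i, ∑ j, ‖N i j‖ ^ 2)) _ (Real.sqrt_nonneg _) (fun v w e => ?_)
    (fun c v e => ?_) (fun v => sum_edges g v _ (fun e => by positivity) (fun z => ?_))
  · simp [mul_add, sum_add_distrib]
  · simp [mul_sum, mul_left_comm]
  · rw [Real.sq_sqrt (by positivity), sum_mul]
    refine sum_le_sum (fun i _ => le_trans ?_ (sum_mul_sq_le_sq_mul_sq _ _ _))
    refine pow_le_pow_left₀ (norm_nonneg _) ((norm_sum_le _ _).trans (le_of_eq ?_)) 2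
    simp

/-- One step along the edges. -/
noncomputable def opN (d : Dat Δ L) : El (Δ × L) →L[ℂ] El (Δ × L) := (exists_opN d.g d.N).choose

theorem opN_apply (d : Dat Δ L) (v : El (Δ × L)) (z : Δ) (i : L) :
    opN d v (z, i) = ∑ j, d.N i j * v (z * (d.g j)⁻¹, j) :=
  (exists_opN d.g d.N).choose_spec v (z, i)

theorem opN_ne {d : Dat Δ L} {v : El (Δ × L)} {z : Δ} {i : L} (h : opN d v (z, i) ≠ 0) :
    ∃ j, d.N i j ≠ 0 ∧ v (z * (d.g j)⁻¹, j) ≠ 0 := by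
  rw [opN_apply] at h
  obtain ⟨j, -, hj⟩ := exists_ne_zero_of_sum_ne_zero h
  exact ⟨j, mul_ne_zero_iff.mp hj⟩

theorem opN_lam (d : Dat Δ L) (g : Δ) (v : El (Δ × L)) : opN d (lam L g v) = lam L g (opN d v) := by
  refine lp.ext (funext (fun ⟨x, i⟩ => ?_))
  simp only [opN_apply, lam_apply, mul_assoc]

variable {d : Dat Δ L} {m : ℕ} {r M : ℝ}

theorem Sys.nsmall (h : Sys d m r M) (v : El (Δ × L)) (P : Δ × L → Prop)
    (hI : ∀ z, ∃ I, d.AI I ∧ ∀ j, v (z * (d.g j)⁻¹, j) ≠ 0 → I j)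
    (hJ : ∀ z, ∃ J, d.AJ J ∧ ∀ i, P (z, i) → J i) : ‖cut P (opN d v)‖ ≤ 1 / 2 * ‖v‖ := by
  refine norm_le_of _ (by positivity) (sum_edges d.g v _ (fun e => by positivity) (fun z => ?_))
  obtain ⟨I, i1, i2⟩ := hI z
  obtain ⟨J, j1, j2⟩ := hJ z
  refine le_trans (sum_le_sum (fun i _ => ?_)) (h.small I J _ i1 j1 i2)
  rw [cut_apply]
  by_cases hP : P (z, i)
  · rw [if_pos hP, if_pos (j2 i hP), opN_apply]
  · rw [if_neg hP]
    split_ifs <;> simp

theorem Sys.nbig (h : Sys d m r M) (hM : 0 ≤ M) (v : El (Δ × L))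
    (hI : ∀ z, ∃ I, d.AI I ∧ ∀ j, v (z * (d.g j)⁻¹, j) ≠ 0 → I j) : ‖opN d v‖ ≤ M * ‖v‖ := by
  refine norm_le_of _ (by positivity) (sum_edges d.g v _ (fun e => by positivity) (fun z => ?_))
  obtain ⟨I, i1, i2⟩ := hI z
  simpa only [opN_apply] using h.big I _ i1 i2

theorem Sys.nil (h : Sys d m r M) (P : Δ × L → Prop) : (opN d * cut P) ^ (m + 1) = 0 := by
  have a : ∀ (k : ℕ) (v : El (Δ × L)) z i, ((opN d * cut P) ^ k) v (z, i) ≠ 0 → d.ht i + k ≤ m := by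
    intro k
    induction k with
    | zero => exact fun v z i _ => h.hm i
    | succ k ih =>
      intro v z i hv
      rw [pow_succ', mul_apply_eq_comp, mul_apply_eq_comp] at hv
      obtain ⟨j, j1, j2⟩ := opN_ne hv
      have := ih v _ j (cut_ne j2).2
      have := h.hN i j j1
      omega
  refine ContinuousLinearMap.ext (fun v => lp.ext (funext (fun ⟨z, i⟩ => ?_)))
  by_contra hv
  have := a (m + 1) v z i hv
  omega

/-- The set `D` moved by `k`. -/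
def Dk (d : Dat Δ L) (k : Δ) (e : Δ × L) : Prop := d.D (k * e.1) e.2

theorem Sys.hI (h : Sys d m r M) (k : Δ) (v : El (Δ × L)) (hv : ∀ e, v e ≠ 0 → Dk d k e) (z : Δ) :
    ∃ I, d.AI I ∧ ∀ j, v (z * (d.g j)⁻¹, j) ≠ 0 → I j :=
  ⟨_, h.inD (k * z), fun j hj => by simpa only [Dk, mul_assoc] using hv _ hj⟩

theorem Sys.fwd (h : Sys d m r M) (k : Δ) {z : Δ} {i : L} {j : L}
    (hN : d.N i j ≠ 0) (hD : Dk d k (z * (d.g j)⁻¹, j)) : Dk d k (z, i) := by
  simpa only [Dk, mul_assoc, inv_mul_cancel, mul_one] using h.fw _ i j hD hN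

theorem Sys.compare (h : Sys d m r M) (hM : 0 ≤ M) (k l : Δ) (u : El (Δ × L)) :
    ‖u - opN d (cut (Dk d l) u)‖ ≤ (1 + 3 * M) * ‖u - opN d (cut (Dk d k) u)‖ := by
  set v := u - opN d (cut (Dk d k) u) with hv
  let Q : Δ × L → Prop := fun e => Dk d k e ∧ ¬ Dk d l e
  let Q' : Δ × L → Prop := fun e => Dk d l e ∧ ¬ Dk d k e
  have e1 : cut Q u = cut Q v + cut Q (opN d (cut Q u)) := by
    refine lp.ext (funext (fun ⟨z, i⟩ => ?_))
    simp only [lp.coeFn_add, Pi.add_apply, hv, cut_apply, lp.coeFn_sub, Pi.sub_apply]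
    split_ifs with hQ
    · rw [sub_add, eq_comm, sub_eq_self, sub_eq_zero, opN_apply, opN_apply]
      refine sum_congr rfl (fun j _ => ?_)
      by_cases hN : d.N i j = 0
      · simp [hN]
      · have : Q (z * (d.g j)⁻¹, j) ↔ Dk d k (z * (d.g j)⁻¹, j) :=
          ⟨fun a => a.1, fun a => ⟨a, fun b => hQ.2 (h.fwd l hN b)⟩⟩
        simp only [cut_apply, this]
    · simp
  have e2 : cut Q' u = cut Q' v := by
    refine lp.ext (funext (fun ⟨z, i⟩ => ?_))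
    simp only [hv, cut_apply, lp.coeFn_sub, Pi.sub_apply]
    split_ifs with hQ
    · rw [eq_comm, sub_eq_self]
      by_contra hn
      obtain ⟨j, j1, j2⟩ := opN_ne hn
      exact hQ.2 (h.fwd k j1 (cut_ne j2).1)
    · rfl
  have e3 : cut (Dk d k) u - cut (Dk d l) u = cut Q u - cut Q' u := by
    refine lp.ext (funext (fun e => ?_))
    simp only [cut_apply, lp.coeFn_sub, Pi.sub_apply, Q, Q']
    by_cases h1 : Dk d k e <;> by_cases h2 : Dk d l e <;> simp [h1, h2]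
  have e4 : u - opN d (cut (Dk d l) u) = v + (opN d (cut Q u) - opN d (cut Q' u)) := by
    rw [← map_sub, ← e3, map_sub, hv]; abel
  have i1 := h.hI k (cut Q u) (fun e he => (cut_ne he).1.1)
  have n1 := h.nsmall (cut Q u) Q i1 (fun z => ⟨_, h.outU (l * z), fun i hi => hi.2⟩)
  have n2 := h.nbig hM (cut Q u) i1
  have n3 := h.nbig hM (cut Q' u) (h.hI l _ (fun e he => (cut_ne he).1.1))
  have n4 : ‖cut Q u‖ ≤ 2 * ‖v‖ := by
    have := norm_add_le (cut Q v) (cut Q (opN d (cut Q u)))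
    rw [← e1] at this
    linarith [norm_cut Q v]
  have n5 : ‖cut Q' u‖ ≤ ‖v‖ := e2 ▸ norm_cut Q' v
  rw [e4]
  refine (norm_add_le _ _).trans ?_
  have := norm_sub_le (opN d (cut Q u)) (opN d (cut Q' u))
  nlinarith [mul_le_mul_of_nonneg_left n4 hM, mul_le_mul_of_nonneg_left n5 hM]

end Pool.Agent.Lib.MP_040728_al.Q
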