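import Mathlib
import Pool.Agent.Lib.MP_040728_al.QOp

set_option autoImplicit false

namespace Pool.Agent.Lib.MP_040728_al.Q

open Finset
open scoped Classical

variable {Δ L : Type} [Group Δ] [Fintype L] {d : Dat Δ L} {m : ℕ} {r M : ℝ}

/-- The operator that conjugates the regular representation. -/
noncomputable def opT (d : Dat Δ L) : El (Δ × L) →L[ℂ] El (Δ × L) := 1 - opN d * cut (Dk d 1)

theorem opT_apply (u : El (Δ × L)) : opT d u = u - opN d (cut (Dk d 1) u) := rfl

theorem Sys.exists_rep (h : Sys d m r M) (hM : 0 ≤ M) :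
    ∃ π : Δ →* (El (Δ × L) →L[ℂ] El (Δ × L)), (∀ g, ‖π g‖ ≤ 1 + 3 * M) ∧
      ∀ g u, π g (opT d u) = opT d (lam L g u) := by
  obtain ⟨T, hT⟩ : IsUnit (opT d) := IsNilpotent.isUnit_one_sub ⟨_, h.nil _⟩
  let π : Δ →* (El (Δ × L) →L[ℂ] El (Δ × L)) :=
    { toFun := fun g => (T : El (Δ × L) →L[ℂ] El (Δ × L)) * lam L g * (T⁻¹ : _ˣ)
      map_one' := by simp
      map_mul' := fun a b => by simp [mul_assoc] }
  have e : ∀ g u, π g (opT d u) = opT d (lam L g u) := by
    intro g u
    change ((T : El (Δ × L) →L[ℂ] El (Δ × L)) * lam L g * (T⁻¹ : _ˣ)) (opT d u) = _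
    rw [← hT, ← mul_apply_eq_comp, Units.inv_mul_cancel_right, mul_apply_eq_comp]
  refine ⟨π, fun g => ContinuousLinearMap.opNorm_le_bound _ (by positivity) (fun v => ?_), e⟩
  obtain ⟨u, rfl⟩ : ∃ u, opT d u = v := ⟨(T⁻¹ : _ˣ).1 v, by
    rw [← hT, ← mul_apply_eq_comp, Units.mul_inv, one_apply_eq_self]⟩
  have e1 : lam L g (cut (Dk d 1) u) = cut (Dk d g⁻¹) (lam L g u) := by
    refine lp.ext (funext (fun ⟨x, i⟩ => ?_))
    simp only [lam_apply, cut_apply, Dk, one_mul]
  rw [e, opT_apply]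
  refine (h.compare hM g⁻¹ 1 _).trans (mul_le_mul_of_nonneg_left ?_ (by positivity))
  rw [← e1, opN_lam, ← map_sub]
  exact norm_lam g _

theorem Sys.last (h : Sys d m r M) (u : El (Δ × L)) (x : Δ) (i : L) (hi : d.ht i = 0) :
    ‖u (x, i)‖ ≤ 2 * ‖opT d u‖ := by
  obtain ⟨R, r1, r2, r3⟩ := h.anc i hi
  let P : Δ × L → Prop := fun e => R e.2
  have e1 : cut P u = cut P (opT d u) + cut P (opN d (cut (Dk d 1) (cut P u))) := by
    refine lp.ext (funext (fun ⟨z, k⟩ => ?_))
    simp only [lp.coeFn_add, Pi.add_apply, opT_apply, cut_apply, lp.coeFn_sub, Pi.sub_apply]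
    split_ifs with hQ
    · rw [sub_add, eq_comm, sub_eq_self, sub_eq_zero, opN_apply, opN_apply]
      refine sum_congr rfl (fun j _ => ?_)
      by_cases hN : d.N k j = 0
      · simp [hN]
      · have : P (z * (d.g j)⁻¹, j) := r3 k j hQ hN
        simp only [cut_apply, this, if_true]
    · simp
  have n1 := h.nsmall (cut (Dk d 1) (cut P u)) P (h.hI 1 _ (fun e he => (cut_ne he).1))
    (fun z => ⟨R, r2, fun i hi => hi⟩)
  have n2 := norm_add_le (cut P (opT d u)) (cut P (opN d (cut (Dk d 1) (cut P u))))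
  rw [← e1] at n2
  have n3 := lp.norm_apply_le_norm (by simp) (cut P u) (x, i)
  rw [cut_apply, if_pos r1] at n3
  linarith [norm_cut P (opT d u), norm_cut (Dk d 1) (cut P u)]

theorem Sys.first (h : Sys d m r M) (hM : 0 ≤ M) (Z : ℕ → Subgroup Δ)
    (z1 : ∀ j k, j ≤ k → Z k ≤ Z j) (z2 : ∀ i j, j < d.ht i → d.g i ∈ Z j)
    (z3 : ∀ i j, d.ht i = d.ht j → d.g i * (d.g j)⁻¹ ∈ Z (d.ht i) → i = j) (i : L) :
    ∃ φ : El (Δ × L), (∀ x j, φ (x, j) ≠ 0 → x ∈ Z (d.ht j)) ∧
      (∀ e, φ e = (if e = (1, i) then 1 else 0) + opN d φ e) ∧ ‖opT d φ‖ ≤ 1 + 2 * M := by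
  let δ : El (Δ × L) := lp.single 2 (1, i) 1
  have d1 : ∀ e, δ e = if e = (1, i) then 1 else 0 := fun e => by
    by_cases he : e = (1, i)
    · rw [if_pos he, he, lp.single_apply_self]
    · rw [if_neg he, lp.single_apply_ne _ _ _ he]
  have d2 : ‖δ‖ = 1 := by rw [lp.norm_single (by simp), norm_one]
  have a1 : ∀ (k : ℕ) x j, ((opN d) ^ k) δ (x, j) ≠ 0 → x ∈ Z (d.ht j) := by
    intro k
    induction k with
    | zero =>
      intro x j hx
      rw [pow_zero, one_apply_eq_self, d1] at hx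
      split_ifs at hx with h1
      · rw [(Prod.mk.inj h1).1]; exact one_mem _
      · exact absurd rfl hx
    | succ k ih =>
      intro x j hx
      rw [pow_succ', mul_apply_eq_comp] at hx
      obtain ⟨l, l1, l2⟩ := opN_ne hx
      have b1 := h.hN j l l1
      simpa using mul_mem (z1 _ _ (by omega) (ih _ _ l2)) (z2 l (d.ht j) (by omega))
  have a2 : opN d ^ (m + 1) = 0 := by
    have e : cut (fun _ : Δ × L => True) = 1 :=
      ContinuousLinearMap.ext (fun v => lp.ext (funext (fun e => by simp [cut_apply])))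
    simpa only [e, mul_one] using h.nil (fun _ => True)
  obtain ⟨φ, p1, p2⟩ : ∃ φ : El (Δ × L), (∀ x j, φ (x, j) ≠ 0 → x ∈ Z (d.ht j)) ∧
      φ = δ + opN d φ := by
    refine ⟨(∑ k ∈ range (m + 1), opN d ^ k) δ, fun x j hx => ?_, ?_⟩
    · rw [_root_.sum_apply, lp.coeFn_sum, Finset.sum_apply] at hx
      obtain ⟨k, -, hk⟩ := exists_ne_zero_of_sum_ne_zero hx
      exact a1 k x j hk
    · have := congrArg (fun T : El (Δ × L) →L[ℂ] El (Δ × L) => T δ) (mul_neg_geom_sum (opN d) (m + 1))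
      simp only [a2, sub_zero, sub_mul, one_mul, one_apply_eq_self, sub_apply,
        mul_apply_eq_comp] at this
      exact sub_eq_iff_eq_add.mp this
  have p3 : ∀ e, φ e = δ e + opN d φ e := fun e => by
    conv_lhs => rw [p2]
    rfl
  refine ⟨φ, p1, fun e => by rw [p3, d1], ?_⟩
  let U : Δ × L → Prop := fun e => ¬ Dk d 1 e
  have e1 : cut U φ = cut U δ + cut U (opN d (cut U φ)) := by
    refine lp.ext (funext (fun ⟨z, k⟩ => ?_))
    simp only [lp.coeFn_add, Pi.add_apply, cut_apply]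
    split_ifs with hQ
    · rw [p3, add_right_inj, opN_apply, opN_apply]
      refine sum_congr rfl (fun j _ => ?_)
      by_cases hN : d.N k j = 0
      · simp [hN]
      · have : U (z * (d.g j)⁻¹, j) := fun b => hQ (h.fwd 1 hN b)
        simp only [cut_apply, this, if_true]
    · simp
  have e2 : opT d φ = δ + opN d (cut U φ) := by
    have : cut U φ = φ - cut (Dk d 1) φ := by
      refine lp.ext (funext (fun e => ?_))
      simp only [cut_apply, lp.coeFn_sub, Pi.sub_apply, U]
      by_cases h1 : Dk d 1 e <;> simp [h1]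
    rw [this, map_sub, ← add_sub_assoc, ← p2, opT_apply]
  have i1 : ∀ z, ∃ I, d.AI I ∧ ∀ j, cut U φ (z * (d.g j)⁻¹, j) ≠ 0 → I j := fun z =>
    ⟨fun j => z * (d.g j)⁻¹ ∈ Z (d.ht j), h.inj _ (fun a b ha hb hab => z3 a b hab (by
      convert mul_mem (inv_mem ha) (hab ▸ hb) using 1
      group)), fun j hj => p1 _ _ (cut_ne hj).2⟩
  have n1 := h.nsmall (cut U φ) U i1 (fun z => ⟨_, h.outU (1 * z), fun i hi => hi⟩)
  have n2 := h.nbig hM (cut U φ) i1
  have n3 := norm_add_le (cut U δ) (cut U (opN d (cut U φ)))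
  rw [← e1] at n3
  have n4 : ‖cut U φ‖ ≤ 2 := by linarith [norm_cut U δ]
  rw [e2]
  refine (norm_add_le _ _).trans ?_
  nlinarith [mul_le_mul_of_nonneg_left n4 hM]

theorem Sys.main (h : Sys d m r M) (hr : 0 < r) (hM : 0 ≤ M) (Z : ℕ → Subgroup Δ)
    (z1 : ∀ j k, j ≤ k → Z k ≤ Z j) (z2 : ∀ i j, j < d.ht i → d.g i ∈ Z j)
    (z3 : ∀ i j, d.ht i = d.ht j → d.g i * (d.g j)⁻¹ ∈ Z (d.ht i) → i = j) :
    ∃ π : Δ →* (El (Δ × L) →L[ℂ] El (Δ × L)), (∀ g, ‖π g‖ ≤ 1 + 3 * M) ∧
      ∀ K Φ, 0 < K → Gauge r K π Φ → (2 : ℝ) ^ m ≤ 2 ^ r * K * (K * (1 + 2 * M) ^ r) := by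
  obtain ⟨π, hπ, e⟩ := h.exists_rep hM
  refine ⟨π, hπ, fun K Φ hK ⟨g1, g2, g3, g4⟩ => ?_⟩
  have key : ∀ k n, n + k = m → ∃ F : L → El (Δ × L), (∀ i, d.ht i ≠ n → F i = 0) ∧
      (∀ i x j, F i (x, j) ≠ 0 → x ∈ Z (min n (d.ht j))) ∧
      (∀ i x j, d.ht j < m → F i (x, j) = opN d (F i) (x, j)) ∧
      (∀ i, d.ht i = n → F i (1, i) = d.c i) ∧
      ∑ i, Φ (opT d (F i)) ≤ K * (1 + 2 * M) ^ r * cnt (fun i => d.ht i = m) := by
    intro k
    induction k with
    | zero =>
      intro n hn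
      obtain rfl : n = m := hn
      choose φ p1 p2 p3 using h.first hM Z z1 z2 z3
      refine ⟨fun i => if d.ht i = n then φ i else 0, fun i hi => if_neg hi, fun i x j hx => ?_,
        fun i x j hj => ?_, fun i hi => ?_, ?_⟩
      · rw [min_eq_right (h.hm j)]
        beta_reduce at hx
        split_ifs at hx
        exacts [p1 i x j hx, absurd rfl hx]
      · beta_reduce
        split_ifs with hi
        · rw [p2, if_neg (fun a => by rw [(Prod.mk.inj a).2] at hj; omega), zero_add]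
        · simp
      · simp only [if_pos hi]
        rw [p2, if_pos rfl, h.c0 i hi, add_eq_left]
        by_contra hn
        obtain ⟨j, j1, -⟩ := opN_ne hn
        have := h.hN i j j1
        have := h.hm j
        omega
      · rw [cnt, mul_sum]
        refine sum_le_sum (fun i _ => (g2 _).trans ?_)
        beta_reduce
        split_ifs
        · rw [mul_one]
          exact mul_le_mul_of_nonneg_left (Real.rpow_le_rpow (norm_nonneg _) (p3 i) hr.le) hK.le
        · simp [hr.ne']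
    | succ k ih =>
      intro n hn
      obtain ⟨F, f1, f2, f3, f4, f5⟩ := ih (n + 1) (by omega)
      have ap : ∀ i x j, (∑ l, d.Y i l • lam L (d.g l)⁻¹ (F l)) (x, j) =
          ∑ l, d.Y i l * F l (d.g l * x, j) := fun i x j => by
        simp only [lp.coeFn_sum, Finset.sum_apply, lp.coeFn_smul, Pi.smul_apply, lam_apply, inv_inv,
          smul_eq_mul]
      have f1' : ∀ l e, F l e ≠ 0 → d.ht l = n + 1 := fun l e he => by
        by_contra hl
        exact he (by rw [f1 l hl]; rfl)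
      refine ⟨fun i => ∑ l, d.Y i l • lam L (d.g l)⁻¹ (F l), fun i hi => ?_, fun i x j hx => ?_,
        fun i x j hj => ?_, fun i hi => ?_, ?_⟩
      · refine sum_eq_zero (fun l _ => ?_)
        by_cases hY : d.Y i l = 0
        · rw [hY, zero_smul]
        · rw [f1 l (by have := h.hY i l hY; omega), map_zero, smul_zero]
      · rw [ap] at hx
        obtain ⟨l, -, hl⟩ := exists_ne_zero_of_sum_ne_zero hx
        have b1 := (mul_ne_zero_iff.mp hl).2
        have b2 := f1' l _ b1
        simpa using mul_mem (inv_mem (z2 l (min n (d.ht j)) (by omega)))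
          (z1 (min n (d.ht j)) _ (by omega) (f2 l _ j b1))
      · simp only [map_sum, map_smul, opN_lam, ap, lp.coeFn_sum, Finset.sum_apply, lp.coeFn_smul,
          Pi.smul_apply, lam_apply, inv_inv, smul_eq_mul]
        exact sum_congr rfl (fun l _ => by rw [f3 l _ j hj])
      · rw [ap, h.c1 i (by omega)]
        refine sum_congr rfl (fun l _ => ?_)
        by_cases hY : d.Y i l = 0
        · simp [hY]
        have b1 := h.hY i l hY
        rw [f3 l _ i (by omega), opN_apply, mul_assoc, sum_eq_single l, mul_one, mul_inv_cancel,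
          f4 l (by omega)]
        · intro j _ hj
          by_contra hne
          obtain ⟨c1, c2⟩ := mul_ne_zero_iff.mp hne
          have c3 := h.hN i j c1
          have c4 := f2 l _ j c2
          rw [mul_one, show min (n + 1) (d.ht j) = d.ht l by omega] at c4
          exact hj (z3 l j (by omega) c4).symm
        · simp
      · simp only [map_sum, map_smul, ← e]
        exact (g4 L d.Y h.con _).trans (by simpa only [g3] using f5)
  obtain ⟨F, -, -, -, f4, f5⟩ := key m 0 (zero_add m)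
  refine le_of_mul_le_mul_right (h.gain.trans ?_) h.pos
  rw [mul_assoc (2 ^ r * K)]
  refine le_trans ?_ (mul_le_mul_of_nonneg_left f5 (by positivity))
  rw [mul_sum]
  refine sum_le_sum (fun i _ => le_trans (b := 2 ^ r * ‖opT d (F i)‖ ^ r) ?_ ?_)
  · split_ifs with hi
    · rw [← f4 i hi, ← Real.mul_rpow (by norm_num) (norm_nonneg _)]
      exact Real.rpow_le_rpow (norm_nonneg _) (h.last _ _ i hi) hr.le
    · positivity
  · rw [mul_assoc]
    exact mul_le_mul_of_nonneg_left (g1 _) (by positivity)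

end Pool.Agent.Lib.MP_040728_al.Q
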