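import Pool.Agent.Lib.MP_040728_al.QRand

/-! The junction matrices. -/

set_option autoImplicit false

namespace Pool.Agent.Lib.MP_040728_al.Q

open Finset Real
open scoped Classical

namespace JunAux

variable {α β : Type} [Fintype α] [Fintype β]

/-- Duality: a bound from `l^2` to `l^q` for the transpose gives a bound on `l^p`. -/
theorem dual {p q A : ℝ} (hpq : p.HolderConjugate q) (h2 : p ≤ 2) (hA : 0 ≤ A) (ε : β → α → ℂ)
    (h : ∀ v : β → ℂ, ∑ s, ‖∑ j, ε j s * v j‖ ^ q ≤ A * (∑ j, ‖v j‖ ^ 2) ^ (q / 2)) (x : α → ℂ) :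
    ∑ j, ‖∑ s, ε j s * x s‖ ^ p ≤
      (Fintype.card β : ℝ) ^ (1 - p / 2) * A ^ (p / q) * ∑ s, ‖x s‖ ^ p := by
  have p0 := hpq.pos
  have q0 := hpq.symm.pos
  set z : β → ℂ := fun j => ∑ s, ε j s * x s with hz
  set Z := ∑ j, ‖z j‖ ^ 2 with hZ
  have Z0 : 0 ≤ Z := sum_nonneg fun _ _ => by positivity
  have X0 : 0 ≤ ∑ s, ‖x s‖ ^ p := sum_nonneg fun _ _ => by positivity
  have h1 : Z ≤ (∑ s, ‖x s‖ ^ p) ^ (1 / p) * (A ^ (1 / q) * Z ^ (1 / 2 : ℝ)) := by
    have e : (Z : ℂ) = ∑ s, x s * ∑ j, ε j s * starRingEnd ℂ (z j) := by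
      simp only [mul_sum]
      rw [sum_comm, hZ, Complex.ofReal_sum]
      refine sum_congr rfl fun j _ => ?_
      rw [Complex.ofReal_pow, ← Complex.mul_conj']
      nth_rewrite 1 [hz]
      rw [sum_mul]
      exact sum_congr rfl fun s _ => by ring
    have h3 := rpow_le_rpow (sum_nonneg fun _ _ => by positivity)
      (h fun j => starRingEnd ℂ (z j)) (one_div_pos.2 q0).le
    simp only [Complex.norm_conj] at h3
    rw [mul_rpow hA (by positivity), ← rpow_mul Z0, show q / 2 * (1 / q) = 1 / 2 by field_simp]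
      at h3
    calc Z = ‖(Z : ℂ)‖ := by rw [Complex.norm_real, norm_of_nonneg Z0]
      _ ≤ ∑ s, ‖x s‖ * ‖∑ j, ε j s * starRingEnd ℂ (z j)‖ := by
          rw [e]
          exact (norm_sum_le _ _).trans_eq (sum_congr rfl fun _ _ => norm_mul _ _)
      _ ≤ _ := (inner_le_Lp_mul_Lq_of_nonneg _ hpq (fun _ _ => norm_nonneg _)
          fun _ _ => norm_nonneg _).trans (by gcongr)
  have h3 : Z ^ (1 / 2 : ℝ) ≤ (∑ s, ‖x s‖ ^ p) ^ (1 / p) * A ^ (1 / q) := by
    rcases Z0.eq_or_lt with e | e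
    · rw [← e, zero_rpow (by norm_num)]
      positivity
    · refine le_of_mul_le_mul_right ?_ (rpow_pos_of_pos e (1 / 2))
      rwa [← rpow_add e, add_halves, rpow_one, mul_assoc]
  have h4 := rpow_le_rpow (by positivity) h3 p0.le
  rw [mul_rpow (by positivity) (by positivity), ← rpow_mul Z0, ← rpow_mul X0, ← rpow_mul hA,
    one_div_mul_cancel p0.ne', rpow_one, show 1 / q * p = p / q by ring] at h4
  have h5 := rpow_sum_le_const_mul_sum_rpow_of_nonneg (s := univ) (f := fun j => ‖z j‖ ^ p)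
    (p := 2 / p) ((one_le_div p0).2 h2) fun _ _ => by positivity
  have h6 := rpow_le_rpow (by positivity) h5 (by positivity : 0 ≤ p / 2)
  have e1 : ∀ j, (‖z j‖ ^ p) ^ (2 / p) = ‖z j‖ ^ 2 := fun j => by
    rw [← rpow_mul (norm_nonneg _), mul_div_cancel₀ _ p0.ne', rpow_two]
  simp only [e1] at h6
  rw [← rpow_mul (sum_nonneg fun _ _ => by positivity), mul_rpow (by positivity) Z0,
    ← rpow_mul (Nat.cast_nonneg _), show 2 / p * (p / 2) = 1 by field_simp, rpow_one,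
    show (2 / p - 1) * (p / 2) = 1 - p / 2 by field_simp, card_univ,
    show p / 2 = 1 / 2 * p by ring] at h6
  rw [mul_assoc, mul_comm (A ^ _), show p / 2 = 1 / 2 * p by ring]
  exact h6.trans (mul_le_mul_of_nonneg_left h4 (by positivity))

/-- A third moment bound makes small blocks small. -/
theorem small {A η : ℝ} (hη : 0 < η) (u : β → ℝ) (hu : ∀ j, 0 ≤ u j) {ρ : ℝ} (hρ : 0 ≤ ρ)
    (h : ∑ j, u j ^ (3 : ℝ) ≤ A * ρ ^ ((3 : ℝ) / 2)) (J : Finset β) :
    ∑ j ∈ J, u j ^ 2 ≤ (J.card * η ^ 2 + A / η) * ρ := by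
  obtain ⟨t, ht, rfl⟩ : ∃ t, 0 ≤ t ∧ ρ = t ^ 2 := ⟨_, sqrt_nonneg ρ, (sq_sqrt hρ).symm⟩
  rw [← rpow_two, ← rpow_mul ht, show (2 : ℝ) * (3 / 2) = 3 by norm_num] at h
  simp only [rpow_ofNat] at h
  rcases ht.eq_or_lt with rfl | ht
  · have := (sum_eq_zero_iff_of_nonneg fun j _ => pow_nonneg (hu j) 3).1
      (le_antisymm (by simpa using h) (sum_nonneg fun j _ => pow_nonneg (hu j) 3))
    rw [sum_eq_zero fun j _ => by rw [pow_eq_zero_iff (by norm_num) |>.1 (this j (mem_univ _))]; simp]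
    simp
  have h1 : ∀ j ∈ J, u j ^ 2 ≤ (η * t) ^ 2 + u j ^ 3 / (η * t) := fun j _ => by
    have h0 := hu j
    have h2 := mul_pos hη ht
    generalize η * t = c at h2
    rcases le_total (u j) c with e | e
    · exact le_add_of_le_of_nonneg (pow_le_pow_left₀ h0 e 2) (by positivity)
    · refine le_add_of_nonneg_of_le (by positivity) ((le_div_iff₀ h2).2 ?_)
      rw [pow_succ (u j) 2]
      gcongr
  refine (sum_le_sum h1).trans ?_
  rw [sum_add_distrib, sum_const, nsmul_eq_mul, ← sum_div]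
  have h2 : (∑ j ∈ J, u j ^ 3) / (η * t) ≤ A * t ^ 3 / (η * t) := by
    gcongr
    exact (sum_le_sum_of_subset_of_nonneg (subset_univ _) fun j _ _ => pow_nonneg (hu j) 3).trans h
  refine (add_le_add_right h2 _).trans_eq ?_
  field_simp

end JunAux

open JunAux in
/-- The junction in the form the recursion uses. -/
theorem exists_junction {p q : ℝ} (h1 : 1 < p) (h2 : p ≤ 2) (hq : p⁻¹ + q⁻¹ = 1) :
    ∃ δ M : ℝ, 0 < δ ∧ 0 ≤ M ∧ ∀ (α β : Type) [Fintype α] [Fintype β] (κ : ℕ), 1 ≤ κ →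
      κ ≤ Fintype.card α → 0 < Fintype.card β →
      5 * (Fintype.card β : ℝ) ^ (q / 2) ≤ Fintype.card α →
      κ * Real.sqrt κ * (Real.log (Fintype.card α) + 5) ≤ Fintype.card β →
      ∃ (n y : β → α → ℂ) (γ : ℝ), 0 ≤ γ ∧ (∀ j, ∑ s, y j s * n j s = γ) ∧
        2 * (Fintype.card α : ℝ) ≤ γ ^ p * Fintype.card β ∧
        (∀ x : α → ℂ, ∑ j, ‖∑ s, y j s * x s‖ ^ p ≤ ∑ s, ‖x s‖ ^ p) ∧
        (∀ x : α → ℂ, (univ.filter (fun s => x s ≠ 0)).card ≤ κ →
          ∑ j, ‖∑ s, n j s * x s‖ ^ 2 ≤ M ^ 2 * ∑ s, ‖x s‖ ^ 2) ∧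
        (∀ (x : α → ℂ) (J : Finset β), (univ.filter (fun s => x s ≠ 0)).card ≤ κ →
          (J.card : ℝ) ≤ δ * Fintype.card β →
          ∑ j ∈ J, ‖∑ s, n j s * x s‖ ^ 2 ≤ (1 / 2) ^ 2 * ∑ s, ‖x s‖ ^ 2) := by
  have hpq : p.HolderConjugate q := ⟨by rw [hq, inv_one], by linarith, by
    have := inv_lt_one_of_one_lt₀ h1
    exact inv_pos.1 (by linarith)⟩
  have p0 := hpq.pos
  have q0 := hpq.symm.pos
  obtain ⟨C, c1, hC⟩ := exists_signs (q := q) (by
    have := inv_anti₀ p0 h2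
    exact (inv_le_inv₀ q0 two_pos).1 (by linarith))
  have c0 : 0 < C := by linarith
  obtain ⟨m, m0, hm⟩ : ∃ m : ℝ, 0 < m ∧ m = 2 * C ^ (1 / q) := ⟨_, by positivity, rfl⟩
  refine ⟨1 / (8 * m ^ 2 * (8 * C * m ^ 2) ^ 2), m * (8 * C * m ^ 2) + 1, by positivity,
    by positivity, fun α β _ _ κ k1 k2 k3 k4 k5 => ?_⟩
  obtain ⟨ε, e1, e2, e3⟩ := hC α β κ k1 k2 k3 k4 k5
  have b0 : (0 : ℝ) < Fintype.card β := by exact_mod_cast k3
  have a0 : (0 : ℝ) < Fintype.card α := by exact_mod_cast k1.trans k2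
  obtain ⟨w, w0, hw⟩ : ∃ w : ℝ, 0 < w ∧ w = m * (Fintype.card β : ℝ) ^ (-(1 / 2) : ℝ) :=
    ⟨_, by positivity, rfl⟩
  obtain ⟨G, G0, hG⟩ : ∃ G : ℝ, 0 < G ∧ G = (Fintype.card β : ℝ) ^ (1 - p / 2) *
      (C * Fintype.card α) ^ (p / q) := ⟨_, by positivity, rfl⟩
  have w2 : w ^ 2 * Fintype.card β = m ^ 2 := by
    rw [hw, mul_pow, ← rpow_natCast (_ ^ _), ← rpow_mul b0.le]
    norm_num [rpow_neg_one]
    field_simp
  have key : ∀ (x : α → ℂ) (J : Finset β), (univ.filter (fun s => x s ≠ 0)).card ≤ κ →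
      ∑ j ∈ J, ‖∑ s, w * ε j s * x s‖ ^ 2 ≤
        (J.card * (w * (8 * C * m ^ 2)) ^ 2 + 1 / 8) * ∑ s, ‖x s‖ ^ 2 := fun x J hx => by
    have := mul_le_mul_of_nonneg_left (small (η := 8 * C * m ^ 2) (by positivity) _
      (fun _ => norm_nonneg _) (sum_nonneg fun _ _ => by positivity) (e3 x hx) J) (sq_nonneg w)
    simp only [mul_assoc (w : ℂ), ← mul_sum, norm_mul, mul_pow, Complex.norm_real,
      norm_of_nonneg w0.le] at this ⊢
    refine this.trans_eq ?_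
    rw [← mul_assoc]
    congr 1
    field_simp
    linear_combination w2
  refine ⟨fun j s => w * ε j s, fun j s => (G⁻¹ ^ p⁻¹ : ℝ) * ε j s,
    Fintype.card α * w * G⁻¹ ^ p⁻¹, by positivity, fun j => ?_, ?_, fun x => ?_, fun x hx => ?_,
    fun x J hx hJ => ?_⟩
  · rw [sum_congr rfl fun s _ => show _ = (w : ℂ) * (G⁻¹ ^ p⁻¹ : ℝ) by
      rcases e1 j s with e | e <;> simp only [e] <;> ring, sum_const, card_univ, nsmul_eq_mul]
    push_cast
    ring
  · have e4 : p = 1 + p / q := by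
      rw [div_eq_mul_inv, show q⁻¹ = 1 - p⁻¹ by linarith]
      field_simp
      ring
    have e5 : (Fintype.card α : ℝ) ^ p = Fintype.card α * (Fintype.card α : ℝ) ^ (p / q) := by
      rw [← rpow_one_add' a0.le (by positivity), ← e4]
    have e6 : (Fintype.card β : ℝ) ^ (1 - p / 2) =
        (Fintype.card β : ℝ) ^ (-(1 / 2) * p) * Fintype.card β := by
      rw [← rpow_add_one b0.ne']
      congr 1
      ring
    have e7 : (2 : ℝ) ≤ 2 ^ p := self_le_rpow_of_one_le one_le_two h1.le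
    rw [mul_rpow (by positivity) (by positivity), mul_rpow a0.le w0.le,
      rpow_inv_rpow (by positivity) p0.ne', hw, hm, hG, mul_rpow (by positivity) (by positivity),
      mul_rpow (by positivity) (by positivity), mul_rpow c0.le a0.le, ← rpow_mul b0.le,
      ← rpow_mul c0.le, show 1 / q * p = p / q by ring, e5, e6]
    refine (mul_le_mul_of_nonneg_right e7 a0.le).trans_eq ?_
    field_simp
  · have := dual hpq h2 (by positivity) ε e2 x
    simp only [mul_assoc ((_ : ℝ) : ℂ), ← mul_sum, norm_mul, Complex.norm_real,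
      norm_of_nonneg (rpow_nonneg (inv_pos.2 G0).le _),
      mul_rpow (rpow_nonneg (inv_pos.2 G0).le _) (norm_nonneg _),
      rpow_inv_rpow (inv_pos.2 G0).le p0.ne']
    rwa [inv_mul_le_iff₀ G0, hG]
  · refine (key x univ hx).trans (mul_le_mul_of_nonneg_right ?_
      (sum_nonneg fun _ _ => by positivity))
    rw [card_univ, mul_pow, ← mul_assoc, mul_comm _ (w ^ 2), w2]
    nlinarith [show 0 < m * (8 * C * m ^ 2) by positivity]
  · refine (key x J hx).trans (mul_le_mul_of_nonneg_right ?_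
      (sum_nonneg fun _ _ => by positivity))
    have := mul_le_mul_of_nonneg_right hJ (sq_nonneg (w * (8 * C * m ^ 2)))
    have e : 1 / (8 * m ^ 2 * (8 * C * m ^ 2) ^ 2) * Fintype.card β * (w * (8 * C * m ^ 2)) ^ 2 =
        1 / 8 := by
      field_simp
      linear_combination w2
    linarith

end Pool.Agent.Lib.MP_040728_al.Q
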