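import Mathlib

/-! Level sets of a Littlewood function outside `l^q`. -/

set_option autoImplicit false

namespace Pool.Agent.Lib.MP_040728_al.Q

open Finset Real
open scoped Classical

namespace SetsAux

theorem level {Γ : Type} {q C : ℝ} (hq : 0 < q) (f : Γ → ℝ) (h0 : ∀ g, 0 ≤ f g) (hC : ∀ g, f g ≤ C)
    (hn : ¬ Summable (fun g => f g ^ q)) (A : ℕ) :
    ∃ (S : Finset Γ) (τ : ℝ), 0 < τ ∧ (∀ s ∈ S, τ ≤ f s) ∧ A ≤ S.card ∧
      τ⁻¹ ≤ (S.card : ℝ) ^ (5 / (4 * q)) := by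
  by_contra h
  push Not at h
  have hs : Summable fun n : ℕ => (if n < A then C ^ q else 0) + (n : ℝ) ^ (-(5 / 4) : ℝ) :=
    (summable_of_ne_finset_zero (s := range A) fun n hn => if_neg (by simpa using hn)).add
      (summable_nat_rpow.2 (by norm_num))
  have c0 : ∀ g : Γ, 0 ≤ C ^ q := fun g => rpow_nonneg ((h0 g).trans (hC g)) _
  have key : ∀ S : Finset Γ, ∑ g ∈ S, f g ^ q ≤
      ∑ n ∈ range (S.card + 1), ((if n < A then |C ^ q| else 0) + (n : ℝ) ^ (-(5 / 4) : ℝ)) := by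
    intro S
    induction S using Finset.induction_on_min_value f with
    | empty => simp only [sum_empty]; positivity
    | insert a S ha hm ih =>
      rw [sum_insert ha, card_insert_of_notMem ha, sum_range_succ _ (_ + 1), add_comm]
      refine add_le_add ih ?_
      split_ifs with k
      · exact le_add_of_le_of_nonneg ((rpow_le_rpow (h0 a) (hC a) hq.le).trans (le_abs_self _))
          (by positivity)
      rw [zero_add]
      rcases (h0 a).eq_or_lt with e | e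
      · rw [← e, zero_rpow hq.ne']
        positivity
      have h1 := h (insert a S) (f a) e (fun s hs => by
        rcases mem_insert.1 hs with rfl | hs
        exacts [le_rfl, hm s hs]) (by rw [card_insert_of_notMem ha]; omega)
      rw [card_insert_of_notMem ha, lt_inv_comm₀ (by positivity) e,
        ← rpow_neg (by positivity)] at h1
      refine (rpow_le_rpow e.le h1.le hq.le).trans_eq ?_
      rw [← rpow_mul (by positivity)]
      congr 1
      field_simp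
  by_cases hΓ : Nonempty Γ
  · rw [abs_of_nonneg (c0 hΓ.some)] at key
    exact hn (summable_of_sum_le (fun g => rpow_nonneg (h0 g) _) fun S => (key S).trans
      (hs.sum_le_tsum _ fun n _ => by have := c0 hΓ.some; positivity))
  · exact hn (summable_of_ne_finset_zero (s := ∅) fun g => absurd ⟨g⟩ hΓ)

theorem load {Γ : Type} {C t : ℝ} (ht : 0 < t) {g : Γ → ℝ} (h0 : ∀ y, 0 ≤ g y) (h1 : Summable g)
    (h2 : ∑' y, g y ≤ C) (T : Finset Γ) (e : Γ → Γ) (he : Function.Injective e)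
    (h : ∀ s ∈ T, t ≤ g (e s)) : (T.card : ℝ) ≤ C / t := by
  have h3 := card_nsmul_le_sum T _ _ h
  rw [← sum_image he.injOn, nsmul_eq_mul] at h3
  exact (le_div_iff₀ ht).2 (h3.trans ((h1.sum_le_tsum _ fun _ _ => h0 _).trans h2))

end SetsAux

open SetsAux in
/-- A Littlewood function outside `l^q` gives good sets, with the padding `T`. -/
theorem exists_sets {Γ : Type} [Group Γ] {q : ℝ} (hq : 2 ≤ q) (f : Γ → ℂ) (g₁ g₂ : Γ → Γ → ℂ)
    (hf : ∀ x y : Γ, f (x⁻¹ * y) = g₁ x y + g₂ x y)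
    (h1 : ∃ C : ℝ, ∀ x : Γ, Summable (fun y => ‖g₁ x y‖) ∧ (∑' y, ‖g₁ x y‖) ≤ C)
    (h2 : ∃ C : ℝ, ∀ y : Γ, Summable (fun x => ‖g₂ x y‖) ∧ (∑' x, ‖g₂ x y‖) ≤ C)
    (hn : ¬ Summable (fun g => ‖f g‖ ^ q)) {δ : ℝ} (hδ : 0 < δ) (n0 : ℕ) (hn0 : 0 < n0) :
    ∃ (S : Finset Γ) (U : Γ → Set Γ) (k : ℝ) (κ T : ℕ),
      (∀ x, ((S.filter (fun s => x ∈ U s)).card : ℝ) ≤ k) ∧
      (∀ y, ((S.filter (fun s => y * s⁻¹ ∉ U s)).card : ℝ) ≤ k) ∧
      5 * k ≤ κ ∧ 1 ≤ κ ∧ κ ≤ S.card ∧ k ≤ δ * S.card ∧ 1 ≤ δ * T ∧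
      5 * ((T * n0 : ℕ) : ℝ) ^ (q / 2) ≤ S.card ∧
      κ * Real.sqrt κ * (Real.log S.card + 5) ≤ ((T * n0 : ℕ) : ℝ) := by
  obtain ⟨C, c1, h1, h2⟩ : ∃ C : ℝ, 1 ≤ C ∧
      (∀ x : Γ, Summable (fun y => ‖g₁ x y‖) ∧ (∑' y, ‖g₁ x y‖) ≤ C) ∧
      ∀ y : Γ, Summable (fun x => ‖g₂ x y‖) ∧ (∑' x, ‖g₂ x y‖) ≤ C := by
    obtain ⟨C, h1⟩ := h1
    obtain ⟨D, h2⟩ := h2
    exact ⟨max 1 (max C D), le_max_left _ _, fun x => ⟨(h1 x).1, (h1 x).2.trans (by simp)⟩,
      fun x => ⟨(h2 x).1, (h2 x).2.trans (by simp)⟩⟩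
  have q0 : 0 < q := by linarith
  have n1 : (1 : ℝ) ≤ n0 := by exact_mod_cast hn0
  obtain ⟨E, e1, hE⟩ : ∃ E : ℝ, 1 ≤ E ∧ E = 11 * C + 2 * C / δ +
      5 * ((11 * C) ^ 2 * (16 * q + 5) + n0 * (1 + δ⁻¹)) := ⟨_, by
    have : 0 ≤ 2 * C / δ + 5 * ((11 * C) ^ 2 * (16 * q + 5) + n0 * (1 + δ⁻¹)) := by positivity
    linarith, rfl⟩
  obtain ⟨S, τ, t0, t1, t2, t3⟩ := level (C := C + C) q0 (fun g => ‖f g‖) (fun _ => norm_nonneg _)
    (fun g => by
      have := hf 1 g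
      rw [inv_one, one_mul] at this
      rw [this]
      exact (norm_add_le _ _).trans (add_le_add
        (((h1 1).1.le_tsum g fun _ _ => norm_nonneg _).trans (h1 1).2)
        (((h2 g).1.le_tsum 1 fun _ _ => norm_nonneg _).trans (h2 g).2))) hn ⌈E ^ (16 * q)⌉₊
  have a0 : (0 : ℝ) ≤ S.card := Nat.cast_nonneg _
  obtain ⟨u, u1, hu⟩ : ∃ u : ℝ, E ≤ u ∧ (S.card : ℝ) = u ^ (16 * q) :=
    ⟨_, (le_rpow_inv_iff_of_pos (by linarith) a0 (by positivity)).2 (Nat.ceil_le.1 t2),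
      (rpow_inv_rpow a0 (by positivity)).symm⟩
  have u2 : 1 ≤ u := e1.trans u1
  have u0 : 0 < u := by linarith
  have p1 : ∀ {c : ℝ} {n : ℕ}, n = 16 * q * c → (S.card : ℝ) ^ c = u ^ n := fun h => by
    rw [hu, ← rpow_mul u0.le, ← h, rpow_natCast]
  rw [p1 (n := 20) (by push_cast; field_simp; norm_num)] at t3
  have p2 : u ^ 32 ≤ S.card := by
    rw [hu, ← rpow_natCast]
    exact rpow_le_rpow_of_exponent_le u2 (by push_cast; linarith)
  have p3 : log S.card ≤ 16 * q * u := by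
    rw [hu, log_rpow u0]
    exact mul_le_mul_of_nonneg_left ((log_le_sub_one_of_pos u0).trans (by linarith))
      (by positivity)
  have p4 : u ^ 32 / 5 ≤ (S.card / 5 : ℝ) ^ (2 / q) := by
    rw [div_rpow a0 (by norm_num), p1 (n := 32) (by push_cast; field_simp; norm_num)]
    gcongr
    exact rpow_le_self_of_one_le (by norm_num) ((div_le_one q0).2 hq)
  have k0 : 0 < C / (τ / 2) := by positivity
  have k1 : C / (τ / 2) ≤ 2 * C * u ^ 20 := by
    rw [show C / (τ / 2) = 2 * C * τ⁻¹ by field_simp]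
    gcongr
  have v1 : 1 ≤ u ^ 20 := one_le_pow₀ u2
  have k2 : (⌈5 * (C / (τ / 2))⌉₊ : ℝ) ≤ 11 * C * u ^ 20 := by
    nlinarith [Nat.ceil_lt_add_one (by positivity : 0 ≤ 5 * (C / (τ / 2)))]
  have v2 : u * u ^ 20 ≤ S.card := le_trans (by
    rw [← pow_succ']
    exact pow_le_pow_right₀ u2 (by norm_num)) p2
  have s1 : 0 ≤ 2 * C / δ := by positivity
  have s2 : 0 ≤ (11 * C) ^ 2 * (16 * q + 5) := by positivity
  have s3 : 0 ≤ n0 * (1 + δ⁻¹) := by positivity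
  have T1 := Nat.floor_le (by positivity : 0 ≤ (S.card / 5 : ℝ) ^ (2 / q) / n0)
  have T2 := Nat.lt_floor_add_one ((S.card / 5 : ℝ) ^ (2 / q) / n0)
  generalize ⌊(S.card / 5 : ℝ) ^ (2 / q) / n0⌋₊ = T at T1 T2
  rw [le_div_iff₀ (by linarith)] at T1
  rw [div_lt_iff₀ (by linarith)] at T2
  have T3 : (11 * C) ^ 2 * (16 * q + 5) * u ^ 31 + n0 * δ⁻¹ ≤ T * n0 := by
    have v3 : 1 ≤ u ^ 31 := one_le_pow₀ u2
    have : ((11 * C) ^ 2 * (16 * q + 5) + n0 * (1 + δ⁻¹)) * u ^ 31 ≤ u / 5 * u ^ 31 :=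
      mul_le_mul_of_nonneg_right (by linarith) (by positivity)
    nlinarith [mul_le_mul_of_nonneg_left v3 s3]
  refine ⟨S, fun s => {x | τ / 2 ≤ ‖g₁ x (x * s)‖}, C / (τ / 2), ⌈5 * (C / (τ / 2))⌉₊, T,
    fun x => load (by positivity) (fun _ => norm_nonneg _) (h1 x).1 (h1 x).2 _ (x * ·)
      (mul_right_injective x) fun s hs => (mem_filter.1 hs).2,
    fun y => load (by positivity) (fun _ => norm_nonneg _) (h2 y).1 (h2 y).2 _ (fun s => y * s⁻¹)
      ((mul_right_injective y).comp inv_injective) fun s hs => ?_, Nat.le_ceil _,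
    Nat.ceil_pos.2 (by positivity), ?_, ?_, ?_, ?_, ?_⟩
  · obtain ⟨b1, b2⟩ := mem_filter.1 hs
    have b3 := hf (y * s⁻¹) y
    have b4 := t1 s b1
    rw [Set.mem_ofPred_eq, inv_mul_cancel_right, not_le] at b2
    rw [mul_inv_rev, inv_inv, inv_mul_cancel_right] at b3
    rw [b3] at b4
    linarith [norm_add_le (g₁ (y * s⁻¹) y) (g₂ (y * s⁻¹) y)]
  · exact_mod_cast k2.trans (le_trans (mul_le_mul_of_nonneg_right (by linarith) (by positivity)) v2)
  · refine k1.trans (le_trans ?_ (mul_le_mul_of_nonneg_left v2 hδ.le))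
    rw [← mul_assoc]
    refine mul_le_mul_of_nonneg_right ((div_le_iff₀' hδ).1 (by linarith)) (by positivity)
  · rw [← inv_le_iff_one_le_mul₀' hδ]
    refine le_of_mul_le_mul_right ?_ (by linarith : (0 : ℝ) < n0)
    nlinarith [mul_nonneg s2 (pow_nonneg u0.le 31)]
  · push_cast
    have := rpow_le_rpow (by positivity) T1 (by positivity : 0 ≤ q / 2)
    rw [← rpow_mul (by positivity), show 2 / q * (q / 2) = 1 by field_simp, rpow_one] at this
    linarith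
  · have k3 : √(⌈5 * (C / (τ / 2))⌉₊ : ℝ) ≤ 11 * C * u ^ 10 := by
      refine sqrt_le_iff.2 ⟨by positivity, k2.trans ?_⟩
      rw [mul_pow, ← pow_mul]
      gcongr
      nlinarith
    push_cast
    calc _ ≤ 11 * C * u ^ 20 * (11 * C * u ^ 10) * ((16 * q + 5) * u) := by
          gcongr
          linarith
      _ ≤ _ := by
          have : 0 ≤ n0 * δ⁻¹ := by positivity
          linarith

end Pool.Agent.Lib.MP_040728_al.Q
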