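import Mathlib

/-! The push lemma and the step lemma. -/

set_option autoImplicit false

namespace Pool.Agent.Lib.MP_040728_al.Q

open Finset
open scoped Classical

namespace StepAux

section

variable {E : Type} [AddCommGroup E] [Module ℝ E] [TopologicalSpace E] [IsTopologicalAddGroup E]
  [ContinuousSMul ℝ E]

theorem compact_join {s t : Set E} (hs : IsCompact s) (ht : IsCompact t) :
    IsCompact (convexJoin ℝ s t) := by
  have := ((isCompact_Icc (a := (0 : ℝ)) (b := 1)).prod (hs.prod ht)).image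
    (f := fun x : ℝ × E × E => (1 - x.1) • x.2.1 + x.1 • x.2.2) (by fun_prop)
  convert this using 1
  ext x
  simp only [mem_convexJoin, segment_eq_image, Set.mem_image, Set.mem_prod, Prod.exists]
  exact ⟨fun ⟨a, ha, b, hb, c, hc, e⟩ => ⟨c, a, b, ⟨hc, ha, hb⟩, e⟩,
    fun ⟨c, a, b, ⟨hc, ha, hb⟩, e⟩ => ⟨a, ha, b, hb, c, hc, e⟩⟩

/-- Compact convex subsets of `K` that miss `b`. -/
def CC (K : Set E) (b : E) (C : Set E) : Prop := C ⊆ K ∧ IsCompact C ∧ Convex ℝ C ∧ b ∉ C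

theorem join {K : Set E} {b : E} (hK : Convex ℝ K) (hb : b ∈ K.extremePoints ℝ) {ι : Type}
    (s : Finset ι) (C : ι → Set E) (h : ∀ i ∈ s, CC K b (C i)) :
    ∃ D, CC K b D ∧ ∀ i ∈ s, C i ⊆ D := by
  induction s using Finset.induction_on with
  | empty => exact ⟨∅, ⟨by simp, isCompact_empty, convex_empty, id⟩, by simp⟩
  | insert a s _ ih =>
    obtain ⟨D, d1, d2⟩ := ih fun i hi => h i (mem_insert_of_mem hi)
    have c1 := h a (mem_insert_self _ _)
    simp only [forall_mem_insert]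
    rcases D.eq_empty_or_nonempty with rfl | hD
    · exact ⟨C a, c1, subset_rfl, fun i hi => (d2 i hi).trans (Set.empty_subset _)⟩
    rcases (C a).eq_empty_or_nonempty with e | hC
    · exact ⟨D, d1, e ▸ Set.empty_subset _, d2⟩
    refine ⟨convexJoin ℝ (C a) D, ⟨convexJoin_subset c1.1 d1.1 hK, compact_join c1.2.1 d1.2.1,
      c1.2.2.1.convexJoin d1.2.2.1, fun k => ?_⟩, subset_convexJoin_left hD,
      fun i hi => (d2 i hi).trans (subset_convexJoin_right hC)⟩
    obtain ⟨x, hx, y, hy, e⟩ := mem_convexJoin.1 k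
    rcases (mem_extremePoints_iff_forall_segment.1 hb).2 x (c1.1 hx) y (d1.1 hy) e with rfl | rfl
    exacts [c1.2.2.2 hx, d1.2.2.2 hy]

variable [T2Space E] [LocallyConvexSpace ℝ E]

theorem sep {K C : Set E} {b : E} (hK : Convex ℝ K) (hc : IsCompact K)
    (hb : b ∈ K.extremePoints ℝ) (hC : CC K b C) {l : ℝ} (hl : 0 < l) :
    ∃ (ψ : E →L[ℝ] ℝ) (u α : ℝ), 0 < α ∧ (∀ k ∈ K, ψ k ≤ u) ∧ (∀ c ∈ C, ψ c + α ≤ u) ∧
      u - l * α < ψ b := by
  rcases C.eq_empty_or_nonempty with rfl | hne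
  · exact ⟨0, 0, 1, one_pos, by simp, by simp, by simpa using hl⟩
  obtain ⟨f, u, h1, h2⟩ := geometric_hahn_banach_closed_point
    ((hK.prod (convex_singleton (0 : ℝ))).convexJoin (hC.2.2.1.prod (convex_singleton 1)))
    (compact_join (hc.prod isCompact_singleton) (hC.2.1.prod isCompact_singleton)).isClosed
    (x := (b, l)) (by
      intro k
      obtain ⟨⟨x, _⟩, ⟨hx, rfl⟩, ⟨y, _⟩, ⟨hy, rfl⟩, s, t, hs, ht, hst, e⟩ := mem_convexJoin.1 k
      simp only [Prod.smul_mk, Prod.mk_add_mk, Prod.mk.injEq, smul_eq_mul, mul_zero, mul_one,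
        zero_add] at e
      rcases hs.eq_or_lt with rfl | hs
      · rw [zero_add] at hst
        rw [hst, zero_smul, zero_add, one_smul] at e
        exact hC.2.2.2 (e.1 ▸ hy)
      · exact hC.2.2.2 (((mem_extremePoints.1 hb).2 x hx y (hC.1 hy)
          ⟨s, t, hs, e.2 ▸ hl, hst, e.1⟩).2 ▸ hy))
  have e : ∀ (x : E) (t : ℝ), f (x, t) = f (x, 0) + t * f (0, 1) := fun x t => by
    rw [← smul_eq_mul, ← map_smul, ← map_add]
    simp
  have a1 : ∀ k ∈ K, f (k, 0) < u := fun k hk =>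
    h1 _ (subset_convexJoin_left (hne.prod (Set.singleton_nonempty _)) ⟨hk, rfl⟩)
  rw [e] at h2
  refine ⟨f.comp (ContinuousLinearMap.inl ℝ E ℝ), u, f (0, 1),
    pos_of_mul_pos_right (a := l) (by linarith [a1 b hb.1]) hl.le, fun k hk => (a1 k hk).le,
    fun c hc => ?_, sub_lt_iff_lt_add.2 h2⟩
  have := h1 (c, 1) (subset_convexJoin_right
    ((Set.nonempty_of_mem hb.1).prod (Set.singleton_nonempty _)) ⟨hc, rfl⟩)
  rw [e, one_mul] at this
  exact this.le

variable {Γ : Type} [Group Γ] (ρ : Γ → E →L[ℝ] E)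

/-- Non-empty compact convex invariant sets. -/
def Inv (K : Set E) : Prop := K.Nonempty ∧ IsCompact K ∧ Convex ℝ K ∧ ∀ g, ∀ m ∈ K, ρ g m ∈ K

omit [IsTopologicalAddGroup E] [ContinuousSMul ℝ E] [LocallyConvexSpace ℝ E] [Group Γ] in
theorem exists_min {M : Set E} (hM : Inv ρ M) : ∃ K ⊆ M, Minimal (Inv ρ) K := by
  refine zorn_superset_nonempty {K | Inv ρ K} (fun F hFS hF hne => ?_) M hM
  have := hne.to_subtype
  refine ⟨⋂₀ F, ⟨?_, ?_, convex_sInter fun t ht => (hFS ht).2.2.1,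
    fun g m hm t ht => (hFS ht).2.2.2 g m (hm t ht)⟩, fun t ht => Set.sInter_subset_of_mem ht⟩
  · refine IsCompact.nonempty_sInter_of_directed_nonempty_isCompact_isClosed (fun t ht u hu => ?_)
      (fun t ht => (hFS ht).1) (fun t ht => (hFS ht).2.1) fun t ht => (hFS ht).2.1.isClosed
    obtain h | h := hF.total ht hu
    exacts [⟨t, ht, subset_rfl, h⟩, ⟨u, hu, h, subset_rfl⟩]
  · exact (hFS hne.some_mem).2.1.of_isClosed_subset
      (isClosed_sInter fun t ht => (hFS ht).2.1.isClosed) (Set.sInter_subset_of_mem hne.some_mem)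

/-- **Push lemma.** -/
theorem push (h1 : ∀ m, ρ 1 m = m) (hm : ∀ g h m, ρ (g * h) m = ρ h (ρ g m)) {K C : Set E}
    (hK : Minimal (Inv ρ) K) {b : E} (hb : b ∈ K.extremePoints ℝ) (hC : CC K b C) {l : ℝ}
    (hl : 0 < l) : ∃ (β : Type) (_ : Fintype β) (B : β → Γ), 0 < Fintype.card β ∧
      ∀ m ∈ K, ((univ.filter fun i => ρ (B i) m ∈ C).card : ℝ) ≤ l * Fintype.card β := by
  obtain ⟨k1, k2, k3, k4⟩ := hK.prop
  obtain ⟨ψ, u, α, a0, a1, a2, a3⟩ := sep k3 k2 hb hC (half_pos hl)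
  have hz : ∀ g, IsClosed {m | ψ (ρ g m) ≤ u - l / 2 * α} := fun g =>
    isClosed_le (by fun_prop) continuous_const
  obtain ⟨T, hT⟩ := k2.elim_finite_subfamily_closed _ hz (by
    by_contra h
    have h2 := hK.eq_of_le (y := K ∩ ⋂ g, {m | ψ (ρ g m) ≤ u - l / 2 * α})
      ⟨Set.nonempty_iff_ne_empty.2 h, k2.inter_right (isClosed_iInter hz),
        k3.inter (convex_iInter fun g => convex_halfSpace_le (ψ.comp (ρ g)).toLinearMap.isLinear _),
        fun g m k => ⟨k4 g m k.1, Set.mem_iInter.2 fun g' => by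
          simpa only [Set.mem_ofPred_eq, hm] using Set.mem_iInter.1 k.2 (g * g')⟩⟩
      Set.inter_subset_left
    have h3 := Set.mem_iInter.1 (h2.ge hb.1).2 1
    rw [Set.mem_ofPred_eq, h1] at h3
    exact a3.not_ge h3)
  let L : E →L[ℝ] (T → ℝ) := ContinuousLinearMap.pi fun j => ψ.comp (ρ j)
  obtain ⟨f, v, w, b1, b2, b3⟩ := geometric_hahn_banach_compact_closed
    (k3.linear_image L.toLinearMap) (k2.image L.continuous)
    (convex_Iic fun _ : T => u - l / 2 * α) isClosed_Iic (by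
      rw [Set.disjoint_left]
      rintro _ ⟨m, h, rfl⟩ h'
      exact hT.le ⟨h, Set.mem_iInter₂.2 fun g hg => h' ⟨g, hg⟩⟩)
  obtain ⟨t, ht⟩ : ∃ t : T → ℝ, ∀ x, f x = -∑ j, t j * x j := by
    refine ⟨fun j => -f (Pi.single j 1), fun x => ?_⟩
    conv_lhs => rw [← univ_sum_single x, map_sum]
    rw [← sum_neg_distrib]
    refine sum_congr rfl fun j _ => ?_
    rw [neg_mul, neg_neg, mul_comm, ← smul_eq_mul, ← map_smul, ← Pi.single_smul, smul_eq_mul,
      mul_one]
  have t0 : ∀ j, 0 ≤ t j := fun j => le_of_not_gt fun k => by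
    have c1 := b3 _ (Set.mem_Iic.2 le_rfl)
    have c2 := b3 ((fun _ => u - l / 2 * α) - Pi.single j
      ((f (fun _ => u - l / 2 * α) - w) / -t j)) (Set.mem_Iic.2 (sub_le_self _
        (Pi.single_nonneg.2 (div_nonneg (by linarith) (by linarith)))))
    rw [map_sub, ht (Pi.single _ _), sum_eq_single j (fun i _ e => by simp [e]) (by simp),
      Pi.single_eq_same, ← neg_mul, mul_div_cancel₀ _ (neg_ne_zero.2 k.ne)] at c2
    linarith
  have c1 : ∀ m ∈ K, ∑ j, t j * (u - ψ (ρ j m)) < l / 2 * α * ∑ j, t j := fun m h => by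
    have := (b1 _ ⟨m, h, rfl⟩).trans (b2.trans (b3 _ (Set.mem_Iic.2 le_rfl)))
    rw [ht, ht, neg_lt_neg_iff] at this
    simp only [mul_sub, sum_sub_distrib, mul_comm (l / 2 * α), sum_mul] at this ⊢
    exact sub_lt_comm.1 this
  have c2 : 0 < ∑ j, t j := by
    obtain ⟨m, h⟩ := k1
    exact pos_of_mul_pos_right ((sum_nonneg fun j _ => mul_nonneg (t0 j)
      (sub_nonneg.2 (a1 _ (k4 _ m h)))).trans_lt (c1 m h)) (by positivity)
  obtain ⟨N, n0, hN⟩ : ∃ N : ℝ, 0 < N ∧ Fintype.card T ≤ l / 2 * (N * ∑ j, t j) :=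
    ⟨(Fintype.card T + 1) / (l / 2 * ∑ j, t j), by positivity, by field_simp; linarith⟩
  have c3 : N * ∑ j, t j ≤ Fintype.card (Σ j : T, Fin ⌈N * t j⌉₊) := by
    simp only [Fintype.card_sigma, Fintype.card_fin, Nat.cast_sum, mul_sum]
    exact sum_le_sum fun j _ => Nat.le_ceil _
  refine ⟨Σ j : T, Fin ⌈N * t j⌉₊, inferInstance, fun i => i.1,
    Nat.cast_pos.1 ((mul_pos n0 c2).trans_le c3), fun m h => ?_⟩
  rw [card_filter, Nat.cast_sum, Fintype.sum_sigma]
  calc _ ≤ ∑ j : T, (N / α * (t j * (u - ψ (ρ j m))) + 1) := by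
        refine sum_le_sum fun j _ => ?_
        have d0 := mul_nonneg (t0 j) (sub_nonneg.2 (a1 _ (k4 j m h)))
        dsimp only
        split_ifs with k
        · have d1 := mul_le_mul_of_nonneg_left (le_sub_iff_add_le'.2 (a2 _ k)) (t0 j)
          have d2 := mul_le_mul_of_nonneg_left d1 (div_pos n0 a0).le
          rw [show N / α * (t j * α) = N * t j by field_simp] at d2
          have d3 := Nat.ceil_lt_add_one (mul_nonneg n0.le (t0 j))
          simp only [Nat.cast_one, sum_const, card_univ, Fintype.card_fin, nsmul_eq_mul, mul_one]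
          linarith
        · simp only [Nat.cast_zero, sum_const_zero]
          positivity
    _ ≤ _ := by
        have d1 := mul_le_mul_of_nonneg_left (c1 m h).le (div_pos n0 a0).le
        rw [show N / α * (l / 2 * α * ∑ j, t j) = l / 2 * (N * ∑ j, t j) by field_simp] at d1
        rw [sum_add_distrib, ← mul_sum, sum_const, card_univ, nsmul_eq_mul, mul_one]
        nlinarith

end

variable {Γ : Type} [Group Γ]

/-- The right action on set functions. -/
def act (g : Γ) : (Set Γ → ℝ) →L[ℝ] (Set Γ → ℝ) :=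
  ContinuousLinearMap.pi fun A => ContinuousLinearMap.proj {x | x * g ∈ A}

/-- Set functions that behave like means. -/
def Mn (Γ : Type) : Set (Set Γ → ℝ) := (Set.univ.pi fun _ => Set.Icc 0 1) ∩
  (⋂ A : Set Γ, {m | 1 ≤ m A + m Aᶜ}) ∩
  ⋂ (S : Finset Γ) (A : Γ → Set Γ) (k : ℝ) (_ : ∀ x, ((S.filter fun s => x ∈ A s).card : ℝ) ≤ k),
    {m | ∑ s ∈ S, m (A s) ≤ k}

theorem inv_Mn : Inv act (Mn Γ) := by
  refine ⟨⟨fun A => if 1 ∈ A then 1 else 0, ⟨fun A _ => ?_, Set.mem_iInter.2 fun A => ?_⟩, ?_⟩,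
    ((isCompact_univ_pi fun _ => isCompact_Icc).inter_right (isClosed_iInter fun A =>
      isClosed_le continuous_const (by fun_prop))).inter_right ?_,
    ((convex_pi fun _ _ => convex_Icc _ _).inter (convex_iInter fun A => convex_halfSpace_ge
      ⟨fun _ _ => by simp only [Pi.add_apply]; ring, fun _ _ => by simp [mul_add]⟩ _)).inter ?_,
    fun g m h => ⟨⟨fun A _ => h.1.1 _ trivial,
      Set.mem_iInter.2 fun A => Set.mem_iInter.1 h.1.2 {x | x * g ∈ A}⟩, ?_⟩⟩
  · by_cases h : 1 ∈ A <;> simp [h]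
  · by_cases h : 1 ∈ A <;> simp [h]
  · simp only [Set.mem_iInter, Set.mem_ofPred_eq]
    intro S A k h
    simpa using h 1
  · exact isClosed_iInter fun _ => isClosed_iInter fun _ => isClosed_iInter fun _ =>
      isClosed_iInter fun _ => isClosed_le (by fun_prop) continuous_const
  · exact convex_iInter fun _ => convex_iInter fun _ => convex_iInter fun _ =>
      convex_iInter fun _ => convex_halfSpace_le
        ⟨fun _ _ => by simp [sum_add_distrib], fun _ _ => by simp [mul_sum]⟩ _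
  · have := h.2
    simp only [Set.mem_iInter, Set.mem_ofPred_eq] at this ⊢
    exact fun S A k e => this S (fun s => {x | x * g ∈ A s}) k fun x => e (x * g)

end StepAux

open StepAux in
/-- The step lemma. -/
theorem exists_thick (Γ : Type) [Group Γ] :
    ∃ 𝓦 : Set (Set Γ), Set.univ ∈ 𝓦 ∧
      ∀ W ∈ 𝓦, ∀ (S : Finset Γ) (U : Γ → Set Γ) (k δ : ℝ), 0 < δ →
        (∀ x, ((S.filter (fun s => x ∈ U s)).card : ℝ) ≤ k) →
        (∀ y, ((S.filter (fun s => y * s⁻¹ ∉ U s)).card : ℝ) ≤ k) →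
        ∃ (β : Type) (_ : Fintype β) (_ : Nonempty β) (B : β → Γ) (W' : Set Γ), W' ∈ 𝓦 ∧
          (∀ x ∈ W', ∀ s ∈ S, ∀ i, x * s * B i ∈ W) ∧
          (∀ x, ((univ.filter (fun i => x * B i ∉ W)).card : ℝ) ≤ δ * Fintype.card β) ∧
          (∀ y, ((S.filter (fun s => y * s⁻¹ ∈ W')).card : ℝ) ≤ 4 * k) := by
  obtain ⟨K, hM, hK⟩ := exists_min act (inv_Mn (Γ := Γ))
  obtain ⟨k1, k2, k3, k4⟩ := hK.prop
  obtain ⟨b, hb⟩ := k2.extremePoints_nonempty k1
  have h1 : ∀ m, act (1 : Γ) m = m := fun m => by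
    funext A
    simp [act]
  have hm : ∀ (g h : Γ) m, act (g * h) m = act h (act g m) := fun g h m => by
    funext A
    simp [act, mul_assoc]
  refine ⟨{W | ∃ C, CC K b C ∧ W = {x | act x b ∉ C}},
    ⟨∅, ⟨by simp, isCompact_empty, convex_empty, id⟩, by simp⟩, ?_⟩
  rintro _ ⟨C, hC, rfl⟩ S U k δ hδ u1 u2
  obtain ⟨l, l0, l1, l2⟩ : ∃ l : ℝ, 0 < l ∧ l ≤ δ / 2 ∧ S.card * l ≤ 1 / 2 :=
    ⟨min (δ / 2) (1 / (2 * (S.card + 1))), by positivity, min_le_left _ _,
      (mul_le_mul_of_nonneg_left (min_le_right _ _) (Nat.cast_nonneg _)).trans (by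
        rw [mul_one_div, div_le_iff₀ (by positivity)]; linarith)⟩
  obtain ⟨β, _, B, b0, hB⟩ := push act h1 hm hK hb hC l0
  let β' := {i : β // ∀ s ∈ S, act (s * B i) b ∉ C}
  have c1 : (Fintype.card β : ℝ) ≤ 2 * Fintype.card β' := by
    have d1 : (univ : Finset β) ⊆ (univ.filter fun i => ∀ s ∈ S, act (s * B i) b ∉ C) ∪
        S.biUnion fun s => univ.filter fun i => act (B i) (act s b) ∈ C := fun i _ => by
      by_cases h : ∀ s ∈ S, act (s * B i) b ∉ C
      · exact mem_union_left _ (mem_filter.2 ⟨mem_univ _, h⟩)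
      · push Not at h
        obtain ⟨s, e1, e2⟩ := h
        exact mem_union_right _ (mem_biUnion.2 ⟨s, e1, mem_filter.2 ⟨mem_univ _, hm _ _ _ ▸ e2⟩⟩)
    have d2 := (Nat.cast_le (α := ℝ)).2 ((card_le_card d1).trans ((card_union_le _ _).trans
      (Nat.add_le_add_left card_biUnion_le _)))
    have d3 := sum_le_card_nsmul S _ _ fun s _ => hB _ (k4 s b hb.1)
    rw [card_univ, ← Fintype.card_subtype, Nat.cast_add, Nat.cast_sum] at d2
    rw [nsmul_eq_mul, ← mul_assoc] at d3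
    nlinarith [Nat.cast_nonneg (α := ℝ) (Fintype.card β)]
  obtain ⟨D, d1, d2⟩ := join k3 hb ((S ×ˢ (univ : Finset β')).disjSum S)
    (Sum.elim (fun x => K ∩ act (x.1 * B x.2.1) ⁻¹' C) fun s => K ∩ {m | b (U s) + 1 / 2 ≤ m (U s)})
    (by
      rintro (x | s) h
      · exact ⟨Set.inter_subset_left, k2.inter_right (hC.2.1.isClosed.preimage (act _).continuous),
          k3.inter (hC.2.2.1.linear_preimage (act _).toLinearMap),
          fun e => x.2.2 _ (mem_product.1 (inl_mem_disjSum.1 h)).1 e.2⟩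
      · refine ⟨Set.inter_subset_left, k2.inter_right (isClosed_le continuous_const (by fun_prop)),
          k3.inter (convex_halfSpace_ge ⟨fun _ _ => rfl, fun _ _ => rfl⟩ _), fun e => ?_⟩
        have := e.2
        rw [Set.mem_ofPred_eq] at this
        linarith)
  refine ⟨β', inferInstance, Fintype.card_pos_iff.1 (Nat.cast_pos (α := ℝ).1 (by
      linarith [Nat.cast_pos (α := ℝ).2 b0])), fun i => B i.1, _, ⟨D, d1, rfl⟩,
    fun x hx s hs i e => hx (d2 (.inl (s, i)) (inl_mem_disjSum.2 (mem_product.2 ⟨hs, mem_univ _⟩))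
      ⟨k4 x b hb.1, by rwa [Set.mem_preimage, ← hm, ← mul_assoc]⟩), fun x => ?_, fun y => ?_⟩
  · have e1 := hB _ (k4 x b hb.1)
    refine le_trans (Nat.cast_le.2 (card_le_card_of_injOn Subtype.val (fun i hi => ?_)
      Subtype.val_injective.injOn)) (e1.trans ?_)
    · simpa [hm] using hi
    · nlinarith [Nat.cast_nonneg (α := ℝ) (Fintype.card β)]
  · have m1 := hM hb.1
    have m2 := hM (k4 y b hb.1)
    have e1 := m1.2
    have e2 := m2.2
    simp only [Set.mem_iInter, Set.mem_ofPred_eq] at e1 e2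
    suffices key : ∀ T : Finset Γ, (∀ s ∈ T, s ∈ S ∧ act (y * s⁻¹) b ∉ D) →
        (T.card : ℝ) ≤ 4 * k from key _ fun s hs => by simpa using hs
    intro T hT
    have e3 := card_nsmul_le_sum T
      (fun s => b (U s) + act y b {x | x * s⁻¹ ∉ U s}) (1 / 2) fun s hs => by
        obtain ⟨f1, f2⟩ := hT s hs
        have f3 : act (y * s⁻¹) b (U s) < b (U s) + 1 / 2 := lt_of_not_ge fun e =>
          f2 (d2 (.inr s) (inr_mem_disjSum.2 f1) ⟨k4 _ b hb.1, e⟩)
        have f4 : 1 ≤ act (y * s⁻¹) b (U s) + act (y * s⁻¹) b (U s)ᶜ :=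
          Set.mem_iInter.1 (hM (k4 _ b hb.1)).1.2 (U s)
        rw [hm] at f3 f4
        change _ ≤ _ + act y b {x | x * s⁻¹ ∉ U s} at f4
        linarith
    have e4 := e3.trans (sum_le_sum_of_subset_of_nonneg (fun s hs => (hT s hs).1) fun s _ _ =>
      add_nonneg (m1.1.1 _ trivial).1 (m2.1.1 _ trivial).1)
    rw [sum_add_distrib, nsmul_eq_mul] at e4
    linarith [e1 S U k u1, e2 S (fun s => {x | x * s⁻¹ ∉ U s}) k fun x => by simpa using u2 x]

end Pool.Agent.Lib.MP_040728_al.Q
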