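import Mathlib
import Pool.Agent.Lib.MP_040728_al.QOp

set_option autoImplicit false

namespace Pool.Agent.Lib.MP_040728_al.Q

open Finset Sum
open scoped Classical

variable {Γ L α β τ : Type}

/-- A new front junction followed by copies of an old matrix. -/
noncomputable def join (e : τ → L → α → ℂ) (A : L → L → ℂ) :
    (α × β) ⊕ (β × τ × L) → (α × β) ⊕ (β × τ × L) → ℂ
  | inl _, _ => 0
  | inr a, inl b => if b.2 = a.1 then e a.2.1 a.2.2 b.1 else 0
  | inr a, inr b => if b.1 = a.1 ∧ b.2.1 = a.2.1 then A a.2.2 b.2.2 else 0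

theorem join_ne {e : τ → L → α → ℂ} {A : L → L → ℂ} {a b : (α × β) ⊕ (β × τ × L)}
    (h : join e A a b ≠ 0) : ∃ k t i, a = inr (k, t, i) ∧
      ((∃ s, b = inl (s, k) ∧ e t i s ≠ 0) ∨ ∃ j, b = inr (k, t, j) ∧ A i j ≠ 0) := by
  rcases a with a | ⟨k, t, i⟩
  · exact absurd rfl h
  refine ⟨k, t, i, rfl, ?_⟩
  rcases b with ⟨s, k'⟩ | ⟨k', t', j⟩ <;> simp only [join] at h <;> split_ifs at h with h1
  · exact Or.inl ⟨s, by rw [h1], h⟩
  · exact absurd rfl h
  · exact Or.inr ⟨j, by rw [h1.1, h1.2], h⟩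
  · exact absurd rfl h

variable [Fintype L] [Fintype α] [Fintype β] [Fintype τ]

theorem join_sum2 (e e' : τ → L → α → ℂ) (A A' : L → L → ℂ) (x : (α × β) ⊕ (β × τ × L) → ℂ)
    (k : β) (t : τ) (i : L) :
    ∑ b, join e A (inr (k, t, i)) b * join e' A' (inr (k, t, i)) b * x b =
      ∑ s, e t i s * e' t i s * x (inl (s, k)) + ∑ j, A i j * A' i j * x (inr (k, t, j)) := by
  simp [Fintype.sum_sum_type, Fintype.sum_prod_type, join, ite_and]

theorem join_sum (e : τ → L → α → ℂ) (A : L → L → ℂ) (x : (α × β) ⊕ (β × τ × L) → ℂ)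
    (k : β) (t : τ) (i : L) :
    ∑ b, join e A (inr (k, t, i)) b * x b =
      ∑ s, e t i s * x (inl (s, k)) + ∑ j, A i j * x (inr (k, t, j)) := by
  simp [Fintype.sum_sum_type, Fintype.sum_prod_type, join, ite_and]

/-- Extension by zero off the front. -/
noncomputable def ext0 (F : L → Prop) (n : τ × {i // F i} → α → ℂ) (t : τ) (i : L) (s : α) : ℂ :=
  if h : F i then n (t, ⟨i, h⟩) s else 0

theorem join_blk (ρ : ℂ → ℝ) (ρ0 : ρ 0 = 0) (F : L → Prop) [Fintype {i // F i}]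
    (n : τ × {i // F i} → α → ℂ) (A : L → L → ℂ) (hA : ∀ i j, F i → A i j = 0) (C : ℝ)
    (J : (α × β) ⊕ (β × τ × L) → Prop) (x : (α × β) ⊕ (β × τ × L) → ℂ)
    (h1 : ∀ k, ∑ a : τ × {i // F i}, (if J (inr (k, a.1, a.2.1)) then
      ρ (∑ s, n a s * x (inl (s, k))) else 0) ≤ C * ∑ s, ρ (x (inl (s, k))))
    (h2 : ∀ k t, ∑ i, (if J (inr (k, t, i)) then ρ (∑ j, A i j * x (inr (k, t, j))) else 0) ≤
      C * ∑ j, ρ (x (inr (k, t, j)))) :
    ∑ a, (if J a then ρ (∑ b, join (ext0 F n) A a b * x b) else 0) ≤ C * ∑ b, ρ (x b) := by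
  have a1 : ∑ a : α × β, (if J (inl a) then ρ (∑ b, join (ext0 F n) A (inl a) b * x b) else 0) = 0 := by
    simp [join, ρ0]
  rw [Fintype.sum_sum_type, Fintype.sum_sum_type, a1, zero_add, Fintype.sum_prod_type,
    Fintype.sum_prod_type_right, Fintype.sum_prod_type, ← sum_add_distrib, mul_sum]
  refine sum_le_sum (fun k _ => ?_)
  rw [mul_add, Fintype.sum_prod_type, Fintype.sum_prod_type, mul_sum (univ : Finset τ)]
  refine le_trans ?_ (add_le_add (h1 k) (sum_le_sum (fun t _ => h2 k t)))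
  rw [Fintype.sum_prod_type, ← sum_add_distrib]
  refine sum_le_sum (fun t _ => ?_)
  have a2 : ∑ i : {i // F i}, (if J (inr (k, t, i.1)) then ρ (∑ s, n (t, i) s * x (inl (s, k))) else 0) =
      ∑ i, (if J (inr (k, t, i)) then ρ (∑ s, ext0 F n t i s * x (inl (s, k))) else 0) := by
    rw [← Fintype.sum_subtype_add_sum_subtype F, sum_eq_zero (s := (univ : Finset {i // ¬ F i})),
      add_zero]
    · convert sum_congr rfl (fun i _ => ?_)
      simp only [ext0, dif_pos i.2]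
    · intro i _
      simp [ext0, dif_neg i.2, ρ0]
  rw [a2, ← sum_add_distrib]
  refine sum_le_sum (fun i _ => ?_)
  rw [join_sum]
  split_ifs
  · by_cases hF : F i
    · simp [hA i _ hF, ρ0]
    · simp [ext0, hF, ρ0]
  · simp

section cnt
variable {X Y : Type} [Fintype X] [Fintype Y]

theorem cnt_card (P : X → Prop) [DecidablePred P] : cnt P = (univ.filter P).card := by
  rw [card_filter, Nat.cast_sum]
  exact sum_congr rfl (fun x _ => by split_ifs <;> simp)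

theorem cnt_or (P Q R : X → Prop) (h : ∀ x, P x → Q x ∨ R x) : cnt P ≤ cnt Q + cnt R := by
  rw [cnt, cnt, cnt, ← sum_add_distrib]
  refine sum_le_sum (fun x _ => ?_)
  have := h x
  split_ifs <;> first | tauto | norm_num

theorem cnt_mono {P Q : X → Prop} (h : ∀ x, P x → Q x) : cnt P ≤ cnt Q := by
  refine sum_le_sum (fun x _ => ?_)
  have := h x
  split_ifs <;> first | tauto | norm_num

theorem cnt_prod (P : X × Y → Prop) : cnt P = ∑ x, cnt (fun y => P (x, y)) :=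
  Fintype.sum_prod_type _

theorem cnt_prod' (P : X × Y → Prop) : cnt P = ∑ y, cnt (fun x => P (x, y)) :=
  Fintype.sum_prod_type_right _

theorem cnt_inl (P : X ⊕ Y → Prop) (h : ∀ y, ¬ P (inr y)) : cnt P = cnt (fun x => P (inl x)) := by
  simp only [cnt, Fintype.sum_sum_type, h, if_false, sum_const_zero, add_zero]

theorem cnt_le_one {P : X → Prop} (h : ∀ a b, P a → P b → a = b) : cnt P ≤ 1 := by
  rw [cnt_card]
  exact_mod_cast card_le_one.mpr (fun a ha b hb => h a b (mem_filter.mp ha).2 (mem_filter.mp hb).2)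

theorem cnt_sub (F P : X → Prop) [Fintype {x // F x}] :
    cnt (fun x : {x // F x} => P x.1) = cnt (fun x => F x ∧ P x) := by
  rw [cnt, cnt, ← Fintype.sum_subtype_add_sum_subtype F,
    sum_eq_zero (s := (univ : Finset {i // ¬ F i})), add_zero]
  · convert sum_congr rfl (fun i _ => ?_)
    simp [i.2]
  · intro i _
    simp [i.2]

theorem cnt_true : cnt (fun _ : X => True) = Fintype.card X := by simp [cnt]

end cnt

/-- The front edges from `W` lie in `D`, and few front edges lie outside `D`. -/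
def Fr (d : Dat Γ L) (m : ℕ) (W : Set Γ) (δ : ℝ) : Prop :=
  (∀ x ∈ W, ∀ i, d.ht i = m → d.D x i) ∧
    ∀ x, cnt (fun i => d.ht i = m ∧ ¬ d.D x i) ≤ δ * cnt (fun i => d.ht i = m)

variable [Group Γ]

/-- The system with a new front level. -/
noncomputable def Dat.next (d : Dat Γ L) (m : ℕ) (σ : α → Γ) (B : β → Γ) (U : α → Set Γ)
    (W W' : Set Γ) (κ δ γ : ℝ) (n y : τ × {i // d.ht i = m} → α → ℂ) :
    Dat Γ ((α × β) ⊕ (β × τ × L)) where
  ht := Sum.elim (fun _ => m + 1) (fun a => d.ht a.2.2)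
  g := Sum.elim (fun a => σ a.1 * B a.2) (fun a => d.g a.2.2)
  N := join (ext0 _ n) d.N
  Y := join (ext0 _ y) d.Y
  D x := Sum.elim (fun a => x ∈ W' ∨ (x * (σ a.1 * B a.2) ∈ W ∧ x ∉ U a.1)) (fun a => d.D x a.2.2)
  c := Sum.elim (fun _ => 1) (fun a => γ * d.c a.2.2)
  AI I := (∀ k, cnt (fun s => I (inl (s, k))) ≤ κ) ∧ ∀ k t, d.AI (fun i => I (inr (k, t, i)))
  AJ J := (∀ k, cnt (fun a : τ × {i // d.ht i = m} => J (inr (k, a.1, a.2.1))) ≤
    δ * Fintype.card (τ × {i // d.ht i = m})) ∧ ∀ k t, d.AJ (fun i => J (inr (k, t, i)))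

omit [Fintype L] [Fintype α] [Fintype τ] in
theorem ext0_ne {F : L → Prop} {n : τ × {i // F i} → α → ℂ} {t : τ} {i : L} {s : α}
    (h : ext0 F n t i s ≠ 0) : F i := by
  by_contra hF
  exact h (dif_neg hF)

theorem Sys.step {d : Dat Γ L} {m : ℕ} {r M δ k γ κ : ℝ} {W W' : Set Γ} (h : Sys d m r M) (hr : 0 < r)
    (fr : Fr d m W δ) [Nonempty α] [Nonempty β] (σ : α → Γ) (B : β → Γ) (U : α → Set Γ)
    (w1 : ∀ x ∈ W', ∀ s i, x * σ s * B i ∈ W)
    (w2 : ∀ x, cnt (fun i => x * B i ∉ W) ≤ δ / 2 * Fintype.card β)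
    (w3 : ∀ y, cnt (fun s => y * (σ s)⁻¹ ∈ W') ≤ 4 * k)
    (u1 : ∀ x, cnt (fun s => x ∈ U s) ≤ k) (u2 : ∀ y, cnt (fun s => y * (σ s)⁻¹ ∉ U s) ≤ k)
    (k1 : 5 * k ≤ κ) (k2 : 1 ≤ κ) (k3 : k ≤ δ / 2 * Fintype.card α) (k4 : 1 ≤ δ * Fintype.card τ)
    (n y : τ × {i // d.ht i = m} → α → ℂ) (γ0 : 0 ≤ γ) (j1 : ∀ j, ∑ s, y j s * n j s = γ)
    (j2 : 2 * (Fintype.card α : ℝ) ≤ γ ^ r * Fintype.card (τ × {i // d.ht i = m}))
    (j3 : ∀ x : α → ℂ, ∑ j, ‖∑ s, y j s * x s‖ ^ r ≤ ∑ s, ‖x s‖ ^ r)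
    (j4 : ∀ x : α → ℂ, cnt (fun s => x s ≠ 0) ≤ κ →
      ∑ j, ‖∑ s, n j s * x s‖ ^ 2 ≤ M ^ 2 * ∑ s, ‖x s‖ ^ 2)
    (j5 : ∀ (x : α → ℂ) (J : τ × {i // d.ht i = m} → Prop), cnt (fun s => x s ≠ 0) ≤ κ →
      cnt J ≤ δ * Fintype.card (τ × {i // d.ht i = m}) →
      ∑ j, (if J j then ‖∑ s, n j s * x s‖ ^ 2 else 0) ≤ (1 / 2) ^ 2 * ∑ s, ‖x s‖ ^ 2) :
    Sys (d.next m σ B U W W' κ δ γ n y) (m + 1) r M ∧
      Fr (d.next m σ B U W W' κ δ γ n y) (m + 1) W' δ := by
  have cF : (Fintype.card {i // d.ht i = m} : ℝ) = cnt (fun i => d.ht i = m) := by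
    rw [← cnt_true, cnt_sub (fun i => d.ht i = m) (fun _ => True)]
    simp only [and_true]
  have nN : ∀ i j, d.ht i = m → d.N i j = 0 := fun i j hi => by
    by_contra hn
    have := h.hN i j hn
    have := h.hm j
    omega
  have hlt : ∀ i, d.ht i ≠ m + 1 := fun i => by have := h.hm i; omega
  have nY : ∀ i j, d.ht i = m → d.Y i j = 0 := fun i j hi => by
    by_contra hn
    exact hlt j (hi ▸ h.hY i j hn)
  have sup : ∀ (I : (α × β) ⊕ (β × τ × L) → Prop) (x : (α × β) ⊕ (β × τ × L) → ℂ) (k : β),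
      (∀ j, x j ≠ 0 → I j) → cnt (fun s => I (inl (s, k))) ≤ κ →
      cnt (fun s => x (inl (s, k)) ≠ 0) ≤ κ := fun I x k hx hI =>
    le_trans (cnt_mono (fun s hs => hx _ hs)) hI
  have cN1 : cnt (fun i => (d.next m σ B U W W' κ δ γ n y).ht i = m + 1) =
      Fintype.card α * Fintype.card β := by
    rw [cnt_inl _ (fun a => hlt a.2.2)]
    simp [Dat.next, cnt_true]
  refine ⟨⟨fun a b hab => ?_, fun a b hab => ?_, fun a => ?_, fun x a b hD hab => ?_,
    fun z => ⟨fun k' => ?_, fun k' t => h.inD z⟩, fun z => ⟨fun k' => ?_, fun k' t => h.outU z⟩,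
    fun I hI => ⟨fun k' => ?_, fun k' t => h.inj _ (fun i j hi hj hij => ?_)⟩, fun a ha => ?_,
    fun I J x hI hJ hx => ?_, fun I x hI hx => ?_, fun x => ?_, fun a ha => ?_, fun a ha => ?_,
    ?_, ?_, fun J J' hJ hJ' => ⟨fun k' => (cnt_mono (fun a => hJ' _)).trans (hJ.1 k'),
      fun k' t => h.mono _ _ (hJ.2 k' t) (fun i => hJ' _)⟩⟩, fun x hx a ha => ?_, fun x => ?_⟩
  · obtain ⟨k', t, i, rfl, ⟨s, rfl, hs⟩ | ⟨j, rfl, hj⟩⟩ := join_ne hab
    · exact congrArg (· + 1) (ext0_ne hs).symm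
    · exact h.hN i j hj
  · obtain ⟨k', t, i, rfl, ⟨s, rfl, hs⟩ | ⟨j, rfl, hj⟩⟩ := join_ne hab
    · exact congrArg (· + 1) (ext0_ne hs).symm
    · exact h.hY i j hj
  · rcases a with a | a
    exacts [le_rfl, (h.hm _).trans (Nat.le_succ m)]
  · obtain ⟨k', t, i, rfl, ⟨s, rfl, hs⟩ | ⟨j, rfl, hj⟩⟩ := join_ne hab
    · refine fr.1 _ ?_ i (ext0_ne (F := fun i => d.ht i = m) hs)
      rcases hD with hD | hD
      · exact mul_assoc x (σ s) (B k') ▸ w1 x hD s k'
      · exact hD.1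
    · exact h.fw x i j hD hj
  · refine (cnt_or _ (fun s => z * (B k')⁻¹ * (σ s)⁻¹ ∈ W') (fun s => z * (B k')⁻¹ * (σ s)⁻¹ ∉ U s)
      (fun s hs => ?_)).trans ((add_le_add (w3 _) (u2 _)).trans (by linarith))
    simp only [Dat.next, Sum.elim_inl, mul_inv_rev, ← mul_assoc] at hs
    exact hs.imp id (fun a => a.2)
  · rw [cnt_prod, Fintype.card_prod, Nat.cast_mul, mul_left_comm, ← nsmul_eq_mul, ← card_univ,
      ← sum_const, cF]
    exact sum_le_sum (fun t _ => le_trans (le_of_eq (cnt_sub _ (fun i => ¬ d.D z i))) (fr.2 z))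
  · refine le_trans (cnt_le_one (fun a b ha hb => ?_)) k2
    simpa using hI _ _ ha hb rfl
  · simpa using hI _ _ hi hj hij
  · rcases a with a | ⟨k', t, i⟩
    · exact absurd ha (Nat.succ_ne_zero m)
    obtain ⟨R, r1, r2, r3⟩ := h.anc i ha
    refine ⟨Sum.elim (fun _ => True) (fun a => a.2.1 = t ∧ R a.2.2), ⟨rfl, r1⟩,
      ⟨fun k'' => ?_, fun k'' t' => h.mono _ _ r2 (fun i hi => hi.2)⟩, fun a b ha hab => ?_⟩
    · rw [cnt_prod', Fintype.card_prod, Nat.cast_mul, ← mul_assoc, mul_comm, ← nsmul_eq_mul,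
        ← card_univ, ← sum_const]
      exact sum_le_sum (fun i _ => le_trans (cnt_le_one (fun a b ha hb => ha.1.trans hb.1.symm)) k4)
    · obtain ⟨k', t, i, rfl, ⟨s, rfl, hs⟩ | ⟨j, rfl, hj⟩⟩ := join_ne hab
      exacts [trivial, ⟨ha.1, r3 i j ha.2 hj⟩]
  · exact join_blk (fun z => ‖z‖ ^ 2) (by simp) _ n d.N nN _ J x
      (fun k' => j5 _ _ (sup I x k' hx (hI.1 k')) (hJ.1 k'))
      (fun k' t => h.small _ _ _ (hI.2 k' t) (hJ.2 k' t) (fun j hj => hx _ hj))
  · simpa only [if_true, Dat.next] using join_blk (fun z => ‖z‖ ^ 2) (by simp) _ n d.N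
      nN (M ^ 2) (fun _ => True) x
      (fun k' => by simpa only [if_true] using j4 _ (sup I x k' hx (hI.1 k')))
      (fun k' t => by simpa only [if_true] using h.big _ _ (hI.2 k' t) (fun j hj => hx _ hj))
  · simpa only [if_true, one_mul, Dat.next] using join_blk (fun z => ‖z‖ ^ r) (by simp [hr.ne'])
      _ y d.Y nY 1 (fun _ => True) x
      (fun k' => by simpa only [if_true, one_mul] using j3 _)
      (fun k' t => by simpa only [if_true, one_mul] using h.con _)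
  · rcases a with a | a
    exacts [rfl, absurd ha (hlt _)]
  · rcases a with a | ⟨k', t, i⟩
    · exact absurd ha (lt_irrefl _)
    refine Eq.trans ?_ (join_sum2 _ _ _ _ _ k' t i).symm
    simp only [Dat.next, Sum.elim_inl, Sum.elim_inr, mul_one]
    by_cases hi : d.ht i = m
    · simp [ext0, hi, j1, nN i _ hi, h.c0 i hi]
    · rw [h.c1 i (lt_of_le_of_ne (h.hm i) hi), mul_sum]
      simp [ext0, hi, mul_left_comm]
  · rw [cN1, Fintype.sum_sum_type, Fintype.sum_prod_type (α₁ := β)]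
    have a1 : ∀ t : τ, ∑ i, (if d.ht i = 0 then ‖(γ : ℂ) * d.c i‖ ^ r else 0) =
        γ ^ r * ∑ i, (if d.ht i = 0 then ‖d.c i‖ ^ r else 0) := fun t => by
      rw [mul_sum]
      refine sum_congr rfl (fun i _ => ?_)
      rw [norm_mul, Real.mul_rpow (norm_nonneg _) (norm_nonneg _), Complex.norm_real,
        Real.norm_of_nonneg γ0, mul_ite, mul_zero]
    simp only [Dat.next, Sum.elim_inl, Sum.elim_inr, Nat.succ_ne_zero, if_false, sum_const_zero,
      zero_add, Fintype.sum_prod_type]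
    rw [sum_congr rfl (fun _ _ => sum_congr rfl (fun t _ => a1 t))]
    simp only [sum_const, card_univ, nsmul_eq_mul]
    rw [Fintype.card_prod, Nat.cast_mul, cF] at j2
    have a2 := mul_le_mul_of_nonneg_left h.gain (by positivity : 0 ≤ Fintype.card τ * γ ^ r)
    have a3 := mul_le_mul_of_nonneg_left j2 (by positivity : (0 : ℝ) ≤ 2 ^ m)
    rw [← mul_assoc, mul_comm]
    refine mul_le_mul_of_nonneg_left ?_ (by positivity)
    rw [pow_succ]
    nlinarith
  · rw [cN1]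
    positivity
  · rcases a with a | a
    exacts [Or.inl hx, absurd ha (hlt _)]
  · rw [cN1, cnt_inl _ (fun a ha => hlt a.2.2 ha.1)]
    refine (cnt_or _ (fun a : α × β => x * σ a.1 * B a.2 ∉ W) (fun a : α × β => x ∈ U a.1)
      (fun a ha => ?_)).trans ?_
    · have := ha.2
      simp only [Dat.next, Sum.elim_inl, ← mul_assoc] at this
      tauto
    · rw [cnt_prod, cnt_prod']
      have a1 := sum_le_sum (fun s (_ : s ∈ (univ : Finset α)) => w2 (x * σ s))
      have a2 := sum_le_sum (fun i (_ : i ∈ (univ : Finset β)) => (u1 x).trans k3)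
      simp only [sum_const, card_univ, nsmul_eq_mul] at a1 a2 ⊢
      nlinarith

end Pool.Agent.Lib.MP_040728_al.Q
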