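import Mathlib
import Pool.Agent.Lib.MP_040728_al.QChain
import Pool.Agent.Lib.MP_040728_al.QSys
import Pool.Agent.Lib.MP_040728_al.QJun
import Pool.Agent.Lib.MP_040728_al.QSets
import Pool.Agent.Lib.MP_040728_al.QStep

set_option autoImplicit false

namespace Pool.Agent.Lib.MP_040728_al.Q

open Finset
open scoped Classical

theorem cnt_coe {X : Type} (S : Finset X) (P : X → Prop) [DecidablePred P] :
    cnt (fun s : S => P s) = (S.filter P).card := by
  rw [cnt, card_filter, Nat.cast_sum, ← sum_coe_sort S]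
  exact sum_congr rfl (fun x _ => by split_ifs <;> simp)

variable {Γ : Type} [Group Γ]

/-- The system of depth zero. -/
def Dat.base (Γ : Type) [Group Γ] : Dat Γ Unit where
  ht _ := 0
  g _ := 1
  N _ _ := 0
  Y _ _ := 0
  D _ _ := True
  c _ := 1
  AI _ := True
  AJ _ := True

theorem exists_sys {p q : ℝ} (h1 : 1 < p) (h2 : p ≤ 2) (hq : p⁻¹ + q⁻¹ = 1) (hq2 : 2 ≤ q)
    (f : Γ → ℂ) (g₁ g₂ : Γ → Γ → ℂ) (hf : ∀ x y : Γ, f (x⁻¹ * y) = g₁ x y + g₂ x y)
    (b1 : ∃ C : ℝ, ∀ x : Γ, Summable (fun y => ‖g₁ x y‖) ∧ (∑' y, ‖g₁ x y‖) ≤ C)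
    (b2 : ∃ C : ℝ, ∀ y : Γ, Summable (fun x => ‖g₂ x y‖) ∧ (∑' x, ‖g₂ x y‖) ≤ C)
    (hn : ¬ Summable (fun g => ‖f g‖ ^ q)) :
    ∃ M : ℝ, 0 ≤ M ∧ ∀ m : ℕ, ∃ (L : Type) (_ : Fintype L) (d : Dat Γ L), Sys d m p M := by
  obtain ⟨δ, M, hδ, hM, hJ⟩ := exists_junction h1 h2 hq
  obtain ⟨𝓦, w0, hW⟩ := exists_thick Γ
  have key : ∀ m : ℕ, ∃ (L : Type) (_ : Fintype L) (d : Dat Γ L), ∃ W ∈ 𝓦,
      Sys d m p M ∧ Fr d m W δ := by
    intro m
    induction m with
    | zero =>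
      refine ⟨Unit, inferInstance, Dat.base Γ, _, w0, ⟨fun _ _ h => absurd rfl h,
        fun _ _ h => absurd rfl h, fun _ => le_rfl, fun _ _ _ _ _ => trivial, fun _ => trivial,
        fun _ => trivial, fun _ _ => trivial,
        fun _ _ => ⟨fun _ => True, trivial, trivial, fun _ _ _ _ => trivial⟩,
        fun _ _ _ _ _ _ => by simp [Dat.base], fun _ _ _ _ => by simp [Dat.base]; positivity,
        fun x => by simp [Dat.base, (zero_lt_one.trans h1).ne']; positivity, fun _ _ => rfl,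
        fun _ h => absurd h (lt_irrefl _), by simp [Dat.base, cnt], by simp [Dat.base, cnt],
        fun _ _ _ _ => trivial⟩, fun _ _ _ _ => trivial, fun _ => by simp [Dat.base, cnt, hδ.le]⟩
    | succ m ih =>
      obtain ⟨L, _, d, W, hw, hs, fr⟩ := ih
      have c0 : 0 < Fintype.card {i // d.ht i = m} := by
        have := hs.pos
        rw [cnt_card, ← Fintype.card_subtype] at this
        exact_mod_cast this
      obtain ⟨S, U, k, κ, T, u1, u2, k1, k2, k3, k4, k5, k6, k7⟩ :=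
        exists_sets hq2 f g₁ g₂ hf b1 b2 hn (half_pos hδ) _ c0
      obtain ⟨β, _, _, B, W', hw', w1, w2, w3⟩ := hW W hw S U k (δ / 2) (half_pos hδ) u1 u2
      have t1 : (1 : ℝ) ≤ δ * T := by nlinarith [mul_nonneg hδ.le (Nat.cast_nonneg (α := ℝ) T)]
      have t0 : 0 < T := by
        rcases Nat.eq_zero_or_pos T with h | h
        · rw [h] at t1; norm_num at t1
        · exact h
      have cb : Fintype.card (Fin T × {i // d.ht i = m}) = T * Fintype.card {i // d.ht i = m} := by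
        rw [Fintype.card_prod, Fintype.card_fin]
      obtain ⟨n, y, γ, γ0, j1, j2, j3, j4, j5⟩ := hJ S (Fin T × {i // d.ht i = m}) κ k2
        (by rwa [Fintype.card_coe]) (by rw [cb]; positivity) (by rwa [Fintype.card_coe, cb])
        (by rwa [Fintype.card_coe, cb])
      have : Nonempty S := Fintype.card_pos_iff.mp (by rw [Fintype.card_coe]; omega)
      exact ⟨_, inferInstance, _, W', hw', hs.step (zero_lt_one.trans h1) fr (fun s : S => s.1) B
        (fun s => U s.1) (fun x hx s i => w1 x hx s.1 s.2 i) (fun x => by rw [cnt_card]; exact w2 x)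
        (fun y => by rw [cnt_coe S (fun s => y * s⁻¹ ∈ W')]; exact w3 y)
        (fun x => by rw [cnt_coe S (fun s => x ∈ U s)]; exact u1 x)
        (fun y => by rw [cnt_coe S (fun s => y * s⁻¹ ∉ U s)]; exact u2 y) k1
        (by exact_mod_cast k2) (by rwa [Fintype.card_coe]) (by rwa [Fintype.card_fin]) n y γ0 j1 j2 j3
        (fun x hx => j4 x (by rw [cnt_card] at hx; exact_mod_cast hx))
        (fun x J hx hJ => by
          rw [← sum_filter]
          exact j5 x _ (by rw [cnt_card] at hx; exact_mod_cast hx) (by rwa [cnt_card] at hJ))⟩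
  exact ⟨M, hM, fun m => by obtain ⟨L, _, d, -, -, hs, -⟩ := key m; exact ⟨L, _, d, hs⟩⟩

/-- The system over the group enlarged by a finite group that records the labels used. -/
noncomputable def Dat.lift {L : Type} (d : Dat Γ L) : Dat (Γ × Multiplicative (L → ZMod 2)) L where
  ht := d.ht
  g i := (d.g i, Multiplicative.ofAdd (Pi.single i 1))
  N := d.N
  Y := d.Y
  D x i := d.D x.1 i
  c := d.c
  AI := d.AI
  AJ := d.AJ

theorem Sys.rep {L : Type} [Fintype L] {d : Dat Γ L} {m : ℕ} {r M : ℝ} (h : Sys d m r M) (hr : 0 < r)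
    (hM : 0 ≤ M) : ∃ π : Γ × Multiplicative (L → ZMod 2) →*
      (El ((Γ × Multiplicative (L → ZMod 2)) × L) →L[ℂ] El ((Γ × Multiplicative (L → ZMod 2)) × L)),
      (∀ g, ‖π g‖ ≤ 1 + 3 * M) ∧
        ∀ K Φ, 0 < K → Gauge r K π Φ → (2 : ℝ) ^ m ≤ 2 ^ r * K * (K * (1 + 2 * M) ^ r) := by
  have h' : Sys d.lift m r M := ⟨h.hN, h.hY, h.hm, fun x => h.fw x.1, fun z => h.inD z.1,
    fun z => h.outU z.1, h.inj, h.anc, h.small, h.big, h.con, h.c0, h.c1, h.gain, h.pos, h.mono⟩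
  refine h'.main hr hM (fun j =>
    { carrier := {x | ∀ i, d.ht i ≤ j → Multiplicative.toAdd x.2 i = 0}
      one_mem' := fun _ _ => rfl
      mul_mem' := fun ha hb i hi => by simp [ha i hi, hb i hi]
      inv_mem' := fun ha i hi => by simp [ha i hi] })
    (fun j k hjk x hx i hi => hx i (hi.trans hjk)) (fun i j hij l hl => ?_) (fun i j _ hz => ?_)
  · exact Pi.single_eq_of_ne (fun e : l = i => by subst e; exact absurd hij (not_lt.mpr hl)) _
  · by_contra hne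
    simpa [Dat.lift, hne] using hz i le_rfl

theorem main {p : ENNReal} [Fact (1 ≤ p)] (h1 : 1 < p.toReal) (h2 : p.toReal ≤ 2) {q : ℝ}
    (hq : p.toReal⁻¹ + q⁻¹ = 1) (hq2 : 2 ≤ q) (hiso : Iso p Γ)
    (f : Γ → ℂ) (g₁ g₂ : Γ → Γ → ℂ) (hf : ∀ x y : Γ, f (x⁻¹ * y) = g₁ x y + g₂ x y)
    (b1 : ∃ C : ℝ, ∀ x : Γ, Summable (fun y => ‖g₁ x y‖) ∧ (∑' y, ‖g₁ x y‖) ≤ C)
    (b2 : ∃ C : ℝ, ∀ y : Γ, Summable (fun x => ‖g₂ x y‖) ∧ (∑' x, ‖g₂ x y‖) ≤ C) :
    Summable (fun g => ‖f g‖ ^ q) := by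
  by_contra hn
  have ht : p ≠ ⊤ := fun e => by rw [e] at h1; norm_num at h1
  have hr := zero_lt_one.trans h1
  obtain ⟨M, hM, hs⟩ := exists_sys h1 h2 hq hq2 f g₁ g₂ hf b1 b2 hn
  choose L _ d hs using hs
  choose π p1 p2 using fun m => (hs m).rep hr hM
  obtain ⟨K, hK, hg⟩ := gauge_seq ht hiso _ (fun m => (π m).comp (MonoidHom.inl _ _))
    (fun m g => p1 m _)
  obtain ⟨m, hm⟩ := pow_unbounded_of_one_lt (2 ^ p.toReal * (K * (1 + 3 * M) ^ p.toReal) *
    (K * (1 + 3 * M) ^ p.toReal * (1 + 2 * M) ^ p.toReal)) (one_lt_two (α := ℝ))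
  obtain ⟨Φ, hΦ⟩ := hg m
  obtain ⟨Ψ, hΨ⟩ := gauge_avg hr hK (π m) (by positivity) (p1 m) hΦ
  exact absurd (p2 m _ Ψ (by positivity) hΨ) (not_le.mpr hm)

end Pool.Agent.Lib.MP_040728_al.Q
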