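import Mathlib

set_option autoImplicit false

namespace Pool.Agent.Lib.MP_040728_al.Tree

open Finset

variable {Γ : Type} [Group Γ] [DecidableEq Γ]

/-- A fractional orientation of the weighted Cayley graph with small out-weights. -/
structure Ori (S : Finset Γ) (f : Γ → ℝ) (ε : ℝ) (P : Γ → Γ → ℝ) : Prop where
  nonneg : ∀ x y, 0 ≤ P x y
  out : ∀ x (Y : Finset Γ), ∑ y ∈ Y, P x y ≤ 1 + ε
  sym : ∀ x y, P x y + P y x = f (x⁻¹ * y)
  supp : ∀ g, f g ≠ 0 → g ∈ S
  one : ∀ s ∈ S, 1 ≤ f s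

variable {S : Finset Γ} {f : Γ → ℝ} {ε : ℝ} {P P' : Γ → Γ → ℝ}

omit [DecidableEq Γ] in
theorem Ori.shift (h : Ori S f ε P) (g : Γ) : Ori S f ε (fun x y => P (g * x) (g * y)) := by
  classical
  refine ⟨fun x y => h.nonneg _ _, fun x Y => ?_, fun x y => ?_, h.supp, h.one⟩
  · have := h.out (g * x) (Y.image (fun y => g * y))
    rwa [sum_image (fun a _ b _ hab => mul_left_cancel hab)] at this
  · rw [h.sym]; congr 1; group

omit [DecidableEq Γ] in
theorem Ori.inv_mem (h : Ori S f ε P) {s : Γ} (hs : s ∈ S) : s⁻¹ ∈ S := by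
  have a1 := h.sym 1 s
  have a2 := h.sym s 1
  have a3 := h.one s hs
  simp only [inv_one, one_mul, mul_one] at a1 a2
  exact h.supp _ (by linarith)

omit [DecidableEq Γ] in
theorem Ori.zero (h : Ori S f ε P) {x y : Γ} (hxy : x⁻¹ * y ∉ S) : P x y = 0 := by
  have a1 := h.sym x y
  have a2 : f (x⁻¹ * y) = 0 := by
    by_contra hc; exact hxy (h.supp _ hc)
  linarith [h.nonneg x y, h.nonneg y x]

omit [DecidableEq Γ] in
theorem Ori.le (h : Ori S f ε P) (x y : Γ) : P x y ≤ 1 + ε := by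
  simpa using h.out x {y}

/-- The inner weight of `B` is at least that of a spanning tree. -/
def Conn (P : Γ → Γ → ℝ) (B : Finset Γ) : Prop := (B.card : ℝ) - 1 ≤ ∑ u ∈ B, ∑ v ∈ B, P u v

omit [DecidableEq Γ] in
theorem Ori.conn_single (h : Ori S f ε P) (y : Γ) : Conn P {y} := by
  simp [Conn, h.nonneg]

theorem Ori.conn_union (h : Ori S f ε P) {B N : Finset Γ} (hB : Conn P B) (hd : Disjoint B N)
    (hN : ∀ w ∈ N, ∃ u ∈ B, u⁻¹ * w ∈ S) : Conn P (B ∪ N) := by
  unfold Conn at *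
  rw [card_union_of_disjoint hd, sum_union hd]
  simp only [sum_union hd, sum_add_distrib]
  have a1 : (N.card : ℝ) ≤ ∑ w ∈ N, (∑ u ∈ B, P u w + ∑ u ∈ B, P w u) := by
    rw [card_eq_sum_ones, Nat.cast_sum]
    refine sum_le_sum (fun w hw => ?_)
    obtain ⟨u, hu, hs⟩ := hN w hw
    have b1 := single_le_sum (f := fun u => P u w) (fun u _ => h.nonneg u w) hu
    have b2 := single_le_sum (f := fun u => P w u) (fun u _ => h.nonneg w u) hu
    have b3 := h.sym u w
    have b4 := h.one _ hs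
    push_cast
    linarith
  rw [sum_add_distrib, sum_comm] at a1
  have a2 : 0 ≤ ∑ w ∈ N, ∑ v ∈ N, P w v :=
    sum_nonneg (fun w _ => sum_nonneg (fun v _ => h.nonneg w v))
  push_cast
  linarith

theorem Ori.outflow (h : Ori S f ε P) {B N : Finset Γ} (hB : Conn P B) (hd : Disjoint B N) :
    ∑ u ∈ B, ∑ w ∈ N, P u w ≤ 1 + ε * B.card := by
  have a1 : ∑ u ∈ B, ∑ w ∈ B ∪ N, P u w ≤ ∑ u ∈ B, (1 + ε) :=
    sum_le_sum (fun u _ => h.out u _)
  simp only [sum_union hd, sum_add_distrib, sum_const, nsmul_eq_mul] at a1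
  unfold Conn at hB
  linarith

theorem Ori.diff (h : Ori S f ε P) (h' : Ori S f ε P') {u w : Γ} (hs : u⁻¹ * w ∈ S)
    (X : Finset Γ) : ∑ x ∈ X, |P w x - P' w x| ≤ 2 * ε + 2 * (P u w + P' u w) := by
  have a1 : ∑ x ∈ X, |P w x - P' w x| ≤ ∑ x ∈ insert u (X.erase u), |P w x - P' w x| :=
    sum_le_sum_of_subset_of_nonneg (fun x hx => by
      by_cases hxu : x = u <;> simp [hxu, hx]) (fun _ _ _ => abs_nonneg _)
  have a2 := h.out w (insert u (X.erase u))
  have a3 := h'.out w (insert u (X.erase u))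
  rw [sum_insert (notMem_erase u X)] at a1 a2 a3
  have a4 : ∑ x ∈ X.erase u, |P w x - P' w x| ≤
      ∑ x ∈ X.erase u, P w x + ∑ x ∈ X.erase u, P' w x := by
    rw [← sum_add_distrib]
    refine sum_le_sum (fun x _ => abs_le.mpr ⟨?_, ?_⟩) <;>
      linarith [h.nonneg w x, h'.nonneg w x]
  have b1 := h.sym u w
  have b2 := h'.sym u w
  have b3 := h.one _ hs
  have b4 : |P w u - P' w u| ≤ P u w + P' u w :=
    abs_le.mpr ⟨by linarith [h.nonneg u w, h'.nonneg u w], by linarith [h.nonneg u w, h'.nonneg u w]⟩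
  linarith

/-- One step of growth. -/
def grow (S B : Finset Γ) : Finset Γ := B ∪ image₂ (· * ·) B S

theorem sub_grow (S B : Finset Γ) : B ⊆ grow S B := subset_union_left

theorem mem_grow {B : Finset Γ} {y w : Γ} (hy : y ∈ B) (hw : y⁻¹ * w ∈ S) : w ∈ grow S B :=
  mem_union_right _ (mem_image₂.mpr ⟨y, hy, _, hw, by simp⟩)

theorem card_grow (S B : Finset Γ) : (grow S B).card ≤ (S.card + 1) * B.card := by
  have a1 := card_union_le B (image₂ (· * ·) B S)
  have a2 := card_image₂_le (· * ·) B S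
  unfold grow
  nlinarith

theorem card_ball (S : Finset Γ) (y : Γ) (j : ℕ) :
    ((grow S)^[j] {y}).card ≤ (S.card + 1) ^ j := by
  induction j with
  | zero => simp
  | succ j ih =>
    rw [Function.iterate_succ_apply', pow_succ']
    exact (card_grow _ _).trans (Nat.mul_le_mul_left _ ih)

theorem grow_eq (S B : Finset Γ) : grow S B = B ∪ (grow S B \ B) :=
  (union_sdiff_of_subset (sub_grow S B)).symm

theorem new_nb {B : Finset Γ} {w : Γ} (hw : w ∈ grow S B \ B) : ∃ u ∈ B, u⁻¹ * w ∈ S := by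
  obtain ⟨h1, h2⟩ := mem_sdiff.mp hw
  rcases mem_union.mp h1 with h | h
  · exact absurd h h2
  · obtain ⟨u, hu, s, hs, rfl⟩ := mem_image₂.mp h
    exact ⟨u, hu, by simpa using hs⟩

theorem Ori.conn_ball (h : Ori S f ε P) (y : Γ) (j : ℕ) : Conn P ((grow S)^[j] {y}) := by
  induction j with
  | zero => exact h.conn_single y
  | succ j ih =>
    rw [Function.iterate_succ_apply', grow_eq]
    exact h.conn_union ih disjoint_sdiff (fun w hw => new_nb hw)

theorem Ori.ball_diff (h : Ori S f ε P) (h' : Ori S f ε P') (hε : 0 ≤ ε) (X : Finset Γ) (y : Γ)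
    (j : ℕ) (hj : ε * ((S.card : ℝ) + 1) ^ j ≤ 1) :
    ∑ w ∈ (grow S)^[j] {y}, ∑ x ∈ X, |P w x - P' w x| ≤ 4 + 10 * j := by
  have mono : ∀ i ≤ j, ε * (((grow S)^[i] {y}).card : ℝ) ≤ 1 := by
    intro i hi
    refine le_trans (mul_le_mul_of_nonneg_left ?_ hε) hj
    have a1 : (((grow S)^[i] {y}).card : ℝ) ≤ ((S.card : ℝ) + 1) ^ i := by
      exact_mod_cast card_ball S y i
    exact a1.trans (pow_le_pow_right₀ (by linarith [Nat.cast_nonneg (α := ℝ) S.card]) hi)
  have key : ∀ i ≤ j, ∑ w ∈ (grow S)^[i] {y}, ∑ x ∈ X, |P w x - P' w x| ≤ 4 + 10 * i := by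
    intro i
    induction i with
    | zero =>
      intro _
      have a0 := mono 0 (Nat.zero_le _)
      simp only [Function.iterate_zero, id, sum_singleton, card_singleton, Nat.cast_one, mul_one,
        Nat.cast_zero, mul_zero, add_zero] at a0 ⊢
      have a4 : ∑ x ∈ X, |P y x - P' y x| ≤ ∑ x ∈ X, P y x + ∑ x ∈ X, P' y x := by
        rw [← sum_add_distrib]
        refine sum_le_sum (fun x _ => abs_le.mpr ⟨?_, ?_⟩) <;>
          linarith [h.nonneg y x, h'.nonneg y x]
      linarith [h.out y X, h'.out y X]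
    | succ i ih =>
      intro hi
      have a0 := mono _ hi
      have a1 := mono i (by omega)
      have a2 := ih (by omega)
      rw [Function.iterate_succ_apply'] at a0 ⊢
      set B := (grow S)^[i] {y} with hB
      rw [grow_eq, sum_union disjoint_sdiff]
      have a3 : ∑ w ∈ grow S B \ B, ∑ x ∈ X, |P w x - P' w x| ≤
          ∑ w ∈ grow S B \ B, (2 * ε + 2 * (∑ u ∈ B, P u w + ∑ u ∈ B, P' u w)) := by
        refine sum_le_sum (fun w hw => ?_)
        obtain ⟨u, hu, hs⟩ := new_nb hw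
        have b1 := single_le_sum (f := fun u => P u w) (fun u _ => h.nonneg u w) hu
        have b2 := single_le_sum (f := fun u => P' u w) (fun u _ => h'.nonneg u w) hu
        have b3 := h.diff h' hs X
        linarith
      have a4 := h.outflow (h.conn_ball y i) (disjoint_sdiff (t := grow S B))
      have a5 := h'.outflow (h'.conn_ball y i) (disjoint_sdiff (t := grow S B))
      rw [sum_comm] at a4 a5
      rw [sum_add_distrib, ← mul_sum, ← mul_sum, sum_add_distrib, sum_const, nsmul_eq_mul] at a3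
      have a6 : ((grow S B \ B).card : ℝ) ≤ (grow S B).card := by
        exact_mod_cast card_le_card sdiff_subset
      have a7 := mul_le_mul_of_nonneg_left a6 hε
      rw [← hB] at a4 a5
      push_cast
      nlinarith
  exact key j le_rfl

end Pool.Agent.Lib.MP_040728_al.Tree
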