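import Mathlib
import Pool.Agent.Lib.MP_040728_al.TreeComb

set_option autoImplicit false

namespace Pool.Agent.Lib.MP_040728_al.Tree

open Finset

variable {Γ : Type} [Group Γ] [DecidableEq Γ]

theorem exists_ori (S : Finset Γ) (h1 : (1 : Γ) ∉ S) (hS : ∀ s ∈ S, s⁻¹ ∈ S) (m : ℕ) (hm : 0 < m)
    (hC : ∀ F : Finset Γ, (((F ×ˢ S).filter (fun q => q.1 * q.2 ∈ F)).card : ℝ) ≤
      (2 + 2 / m) * F.card) :
    ∃ P, Ori S (fun g => if g ∈ S then 1 else 0) (1 / m) P := by
  have mp : (0 : ℝ) < m := by exact_mod_cast hm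
  let t : (Γ × S) × Fin m → Finset (Γ × ℕ) :=
    fun a => ({a.1.1, a.1.1 * a.1.2} : Finset Γ) ×ˢ range (2 * m + 2)
  obtain ⟨φ, hφ, hφt⟩ := (all_card_le_biUnion_card_iff_exists_injective t).mp (by
    intro A
    let F : Finset Γ := A.biUnion (fun a => {a.1.1, a.1.1 * a.1.2})
    have e : A.biUnion t = F ×ˢ range (2 * m + 2) := by
      ext ⟨x, i⟩
      simp only [t, F, mem_biUnion, mem_product]
      exact ⟨fun ⟨a, ha, h2, h3⟩ => ⟨⟨a, ha, h2⟩, h3⟩, fun ⟨⟨a, ha, h2⟩, h3⟩ => ⟨a, ha, h2, h3⟩⟩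
    have a1 : A.card ≤ (((F ×ˢ S).filter (fun q => q.1 * q.2 ∈ F)) ×ˢ (univ : Finset (Fin m))).card := by
      refine card_le_card_of_injOn (fun a => ((a.1.1, (a.1.2 : Γ)), a.2)) (fun a ha => ?_) ?_
      · simp only [coe_product, coe_filter, mem_product, Set.mem_prod, Set.mem_ofPred_eq, coe_univ,
          Set.mem_univ, and_true]
        exact ⟨⟨mem_biUnion.mpr ⟨a, ha, by simp⟩, a.1.2.2⟩, mem_biUnion.mpr ⟨a, ha, by simp⟩⟩
      · rintro ⟨⟨x, s⟩, i⟩ _ ⟨⟨y, s'⟩, j⟩ _ hab
        simp only [Prod.mk.injEq] at hab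
        obtain ⟨⟨rfl, h2⟩, rfl⟩ := hab
        rw [Subtype.ext h2]
    rw [card_product, card_univ, Fintype.card_fin] at a1
    rw [e, card_product, card_range]
    have a2 := mul_le_mul_of_nonneg_right (hC F) mp.le
    have a3 : (2 + 2 / (m : ℝ)) * F.card * m = F.card * (2 * m + 2) := by field_simp
    have a4 : (A.card : ℝ) ≤ ((F.card * (2 * m + 2) : ℕ) : ℝ) := by
      have : (A.card : ℝ) ≤ (((F ×ˢ S).filter (fun q => q.1 * q.2 ∈ F)).card : ℝ) * m := by
        exact_mod_cast a1
      push_cast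
      linarith
    exact_mod_cast a4)
  let c : Γ → Γ → Γ → ℕ := fun x s z =>
    if hs : s ∈ S then (univ.filter (fun i : Fin m => (φ ((x, ⟨s, hs⟩), i)).1 = z)).card else 0
  have c2 : ∀ x s, s ∈ S → c x s x + c x s (x * s) = m := by
    intro x s hs
    have ne : x ≠ x * s := fun h => h1 (by
      have : s = 1 := by simpa using h.symm
      rwa [this] at hs)
    simp only [c, dif_pos hs]
    have := card_filter_add_card_filter_not (s := (univ : Finset (Fin m)))
      (fun i : Fin m => (φ ((x, ⟨s, hs⟩), i)).1 = x)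
    rw [card_univ, Fintype.card_fin] at this
    refine Eq.trans ?_ this
    congr 2
    ext i
    have b := (mem_product.mp (hφt ((x, ⟨s, hs⟩), i))).1
    simp only [mem_insert, mem_singleton] at b
    simp only [mem_filter, mem_univ, true_and]
    constructor
    · intro h h'
      exact ne (h'.symm.trans h)
    · intro h
      exact b.resolve_left h
  refine ⟨fun x y => ((c x (x⁻¹ * y) x + c y (y⁻¹ * x) x : ℕ) : ℝ) / (2 * m),
    fun x y => by positivity, fun x Y => ?_, fun x y => ?_, fun g hg => by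
      by_contra hc; simp [hc] at hg, fun s hs => by simp [hs]⟩
  · rw [← sum_div, div_le_iff₀ (by positivity), ← Nat.cast_sum]
    have e : (1 + 1 / (m : ℝ)) * (2 * m) = ((2 * m + 2 : ℕ) : ℝ) := by
      push_cast; field_simp
    rw [e, Nat.cast_le]
    let A : Γ → Finset ((Γ × S) × Fin m) := fun y =>
      ((({x, y} : Finset Γ) ×ˢ (univ : Finset S)) ×ˢ (univ : Finset (Fin m))).filter
        (fun a => (φ a).1 = x ∧ ((a.1.1 = x ∧ x * a.1.2 = y) ∨ (a.1.1 = y ∧ y * a.1.2 = x)))
    have a1 : ∀ y, c x (x⁻¹ * y) x + c y (y⁻¹ * x) x ≤ (A y).card := by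
      intro y
      by_cases hs : x⁻¹ * y ∈ S
      · have hs' : y⁻¹ * x ∈ S := by simpa using hS _ hs
        have ne : x ≠ y := fun h => h1 (by simpa [h] using hs)
        simp only [c, dif_pos hs, dif_pos hs']
        rw [← card_image_of_injective (univ.filter (fun i : Fin m => (φ ((x, ⟨_, hs⟩), i)).1 = x))
          (f := fun i : Fin m => (((x, ⟨_, hs⟩), i) : (Γ × S) × Fin m))
          (fun i j h => (Prod.mk.inj h).2),
          ← card_image_of_injective (univ.filter (fun i : Fin m => (φ ((y, ⟨_, hs'⟩), i)).1 = x))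
          (f := fun i : Fin m => (((y, ⟨_, hs'⟩), i) : (Γ × S) × Fin m))
          (fun i j h => (Prod.mk.inj h).2), ← card_union_of_disjoint]
        · refine card_le_card (fun a ha => ?_)
          rcases mem_union.mp ha with ha | ha <;> obtain ⟨i, hi, rfl⟩ := mem_image.mp ha <;>
            simpa [A] using (mem_filter.mp hi).2
        · rw [disjoint_left]
          intro a ha hb
          obtain ⟨i, _, rfl⟩ := mem_image.mp ha
          obtain ⟨j, _, hj⟩ := mem_image.mp hb
          exact ne (Prod.mk.inj (Prod.mk.inj hj).1).1.symm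
      · have hs' : y⁻¹ * x ∉ S := fun h => hs (by simpa using hS _ h)
        simp [c, hs, hs']
    refine (sum_le_sum (fun y _ => a1 y)).trans ?_
    rw [← card_biUnion]
    · have : (({x} : Finset Γ) ×ˢ range (2 * m + 2)).card = 2 * m + 2 := by simp
      rw [← this]
      refine card_le_card_of_injOn φ (fun a ha => ?_) hφ.injOn
      obtain ⟨y, _, hy⟩ := mem_biUnion.mp ha
      have b1 := (mem_filter.mp hy).2.1
      have b2 := (mem_product.mp (hφt a)).2
      exact mem_coe.mpr (mem_product.mpr ⟨mem_singleton.mpr b1, b2⟩)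
    · intro y _ z _ hyz
      rw [Function.onFun, disjoint_left]
      intro a ha hb
      have ne : ∀ w : Γ, w * a.1.2 ≠ w := fun w h => h1 (by
        have : (a.1.2 : Γ) = 1 := by simpa using h
        exact this ▸ a.1.2.2)
      rcases (mem_filter.mp ha).2.2 with ⟨b1, b2⟩ | ⟨b1, b2⟩ <;>
        rcases (mem_filter.mp hb).2.2 with ⟨b3, b4⟩ | ⟨b3, b4⟩
      · exact hyz (b2.symm.trans b4)
      · exact ne z (by rw [b4, ← b1, b3])
      · exact ne y (by rw [b2, ← b3, b1])
      · exact hyz (b1.symm.trans b3)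
  · by_cases hs : x⁻¹ * y ∈ S
    · have hs' : y⁻¹ * x ∈ S := by simpa using hS _ hs
      have a1 := c2 x _ hs
      have a2 := c2 y _ hs'
      rw [mul_inv_cancel_left] at a1 a2
      rw [if_pos hs, ← add_div, ← Nat.cast_add, div_eq_one_iff_eq (by positivity)]
      have : c x (x⁻¹ * y) x + c y (y⁻¹ * x) x + (c y (y⁻¹ * x) y + c x (x⁻¹ * y) y) = 2 * m := by
        omega
      rw [this]; push_cast; ring
    · have hs' : y⁻¹ * x ∉ S := fun h => hs (by simpa using hS _ h)
      simp [c, hs, hs']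

end Pool.Agent.Lib.MP_040728_al.Tree
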