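import Mathlib
import Pool.Agent.Lib.MP_040728_al.TreeHall

set_option autoImplicit false

namespace Pool.Agent.Lib.MP_040728_al.Tree

open Finset

variable {Γ : Type} [Group Γ] [DecidableEq Γ] {S : Finset Γ} {f : Γ → ℝ} {ε : ℝ} {P : Γ → Γ → ℝ}

theorem Ori.bdry (h : Ori S f ε P) (F : Finset Γ) :
    ((S.card : ℝ) - 2 * (1 + ε)) * F.card ≤ ∑ s ∈ S, ((F.filter (fun u => u * s ∉ F)).card : ℝ) := by
  have a1 : ∀ u, ((S.filter (fun s => u * s ∈ F)).card : ℝ) ≤ ∑ v ∈ F, (P u v + P v u) := by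
    intro u
    rw [card_eq_sum_ones, Nat.cast_sum]
    have b1 : ∑ s ∈ S.filter (fun s => u * s ∈ F), ((1 : ℕ) : ℝ) ≤
        ∑ s ∈ S.filter (fun s => u * s ∈ F), (P u (u * s) + P (u * s) u) :=
      sum_le_sum (fun s hs => by
        rw [h.sym, inv_mul_cancel_left]; exact_mod_cast h.one s (mem_filter.mp hs).1)
    refine b1.trans ?_
    rw [← sum_image (s := S.filter (fun s => u * s ∈ F)) (g := fun s => u * s)
      (f := fun v => P u v + P v u) (fun a _ b _ hab => mul_left_cancel hab)]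
    refine sum_le_sum_of_subset_of_nonneg (fun v hv => ?_)
      (fun v _ _ => add_nonneg (h.nonneg _ _) (h.nonneg _ _))
    obtain ⟨s, hs, rfl⟩ := mem_image.mp hv
    exact (mem_filter.mp hs).2
  have a2 := sum_le_sum (fun u (_ : u ∈ F) => a1 u)
  simp only [sum_add_distrib] at a2
  rw [sum_comm (f := fun u v => P v u)] at a2
  have a3 : ∑ u ∈ F, ∑ v ∈ F, P u v ≤ ∑ u ∈ F, (1 + ε) := sum_le_sum (fun u _ => h.out u F)
  rw [sum_const, nsmul_eq_mul] at a3
  have a4 : ∑ u ∈ F, ((S.filter (fun s => u * s ∈ F)).card : ℝ) =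
      ∑ s ∈ S, ((F.filter (fun u => u * s ∈ F)).card : ℝ) := by
    simp only [card_filter, Nat.cast_sum]
    exact sum_comm
  have a5 : ∑ s ∈ S, ((F.filter (fun u => u * s ∈ F)).card : ℝ) +
      ∑ s ∈ S, ((F.filter (fun u => u * s ∉ F)).card : ℝ) = S.card * F.card := by
    rw [← sum_add_distrib, ← nsmul_eq_mul, ← sum_const]
    refine sum_congr rfl (fun s _ => ?_)
    exact_mod_cast card_filter_add_card_filter_not (s := F) (fun u => u * s ∈ F)
  linarith

theorem Ori.exists_conn (h : Ori S f ε P) (hε : ε ≤ 1 / 4) (h3 : 3 ≤ S.card) (m : ℕ) :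
    ∃ F : Finset Γ, F.card = m + 1 ∧ ∀ x, Conn (fun u v => P (x * u) (x * v)) F := by
  induction m with
  | zero => exact ⟨{1}, by simp, fun x => (h.shift x).conn_single 1⟩
  | succ m ih =>
    obtain ⟨F, h1, h2⟩ := ih
    have a1 := h.bdry F
    have a2 : (3 : ℝ) ≤ S.card := by exact_mod_cast h3
    have a3 : (0 : ℝ) < F.card := by rw [h1]; positivity
    have a4 : ∑ s ∈ S, (0 : ℝ) < ∑ s ∈ S, ((F.filter (fun u => u * s ∉ F)).card : ℝ) := by
      rw [sum_const_zero]
      exact lt_of_lt_of_le (mul_pos (by linarith) a3) a1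
    obtain ⟨s, hs, h4⟩ := exists_lt_of_sum_lt a4
    obtain ⟨u, hu⟩ := card_pos.mp (by exact_mod_cast h4 : 0 < (F.filter (fun u => u * s ∉ F)).card)
    obtain ⟨hu1, hu2⟩ := mem_filter.mp hu
    have d : Disjoint F {u * s} := disjoint_singleton_right.mpr hu2
    refine ⟨F ∪ {u * s}, by rw [card_union_of_disjoint d, h1, card_singleton], fun x => ?_⟩
    refine (h.shift x).conn_union (h2 x) d (fun w hw => ⟨u, hu1, ?_⟩)
    rw [mem_singleton.mp hw]
    simpa using hs

theorem card_bdry_inv (F : Finset Γ) (s : Γ) :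
    (F.filter (fun u => u * s ∉ F)).card = (F.filter (fun u => u * s⁻¹ ∉ F)).card := by
  have a1 := card_filter_add_card_filter_not (s := F) (fun u => u * s ∈ F)
  have a2 := card_filter_add_card_filter_not (s := F) (fun u => u * s⁻¹ ∈ F)
  have a3 : (F.filter (fun u => u * s ∈ F)).card = (F.filter (fun u => u * s⁻¹ ∈ F)).card := by
    refine card_bij (fun u _ => u * s) (fun u hu => ?_) (fun a _ b _ hab => mul_right_cancel hab)
      (fun v hv => ⟨v * s⁻¹, ?_, by simp⟩)
    · simpa using (mem_filter.mp hu).symm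
    · simpa using (mem_filter.mp hv).symm
  omega

theorem Ori.amplify (h : Ori S f ε P) (hε : ε ≤ 1 / 4) (h3 : 3 ≤ S.card) (m : ℕ)
    (hm : ε * (m + 1) ≤ 1) :
    ∃ (S' : Finset Γ) (f' : Γ → ℝ) (P' : Γ → Γ → ℝ), Ori S' f' (ε * (m + 1)) P' ∧ 1 ∉ S' ∧
      m + 1 ≤ 8 * S'.card ∧ S'.card ≤ S.card * (m + 1) := by
  obtain ⟨F, hF, hc⟩ := h.exists_conn hε h3 m
  let B : Γ → Finset Γ := fun s => F.filter (fun u => u * s ∉ F)
  let e : Γ → ℕ → Γ := fun s i =>
    if hi : i < (B s).card then ((B s).equivFin.symm ⟨i, hi⟩ : Γ) else 1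
  have e1 : ∀ s i, i < (B s).card → e s i ∈ F ∧ e s i * s ∉ F := by
    intro s i hi
    simp only [e, dif_pos hi]
    exact mem_filter.mp ((B s).equivFin.symm ⟨i, hi⟩).2
  have e2 : ∀ s i j, i < (B s).card → j < (B s).card → e s i = e s j → i = j := by
    intro s i j hi hj hij
    simp only [e, dif_pos hi, dif_pos hj] at hij
    exact Fin.mk.inj_iff.mp ((B s).equivFin.symm.injective (Subtype.ext hij))
  let J : Finset (Σ _ : Γ, ℕ) := S.sigma (fun s => range (B s).card)
  have hJ : ∀ j : (Σ _ : Γ, ℕ), j ∈ J ↔ j.1 ∈ S ∧ j.2 < (B j.1).card := by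
    intro j; simp [J]
  have hB : ∀ s, (B s⁻¹).card = (B s).card := fun s => (card_bdry_inv F s).symm
  let w : (Σ _ : Γ, ℕ) → Γ := fun j => e j.1 j.2 * j.1 * (e j.1⁻¹ j.2)⁻¹
  let τ : (Σ _ : Γ, ℕ) → (Σ _ : Γ, ℕ) := fun j => ⟨j.1⁻¹, j.2⟩
  have τJ : ∀ j ∈ J, τ j ∈ J := fun j hj =>
    (hJ _).mpr ⟨h.inv_mem ((hJ j).mp hj).1, by simpa [τ, hB] using ((hJ j).mp hj).2⟩
  have f0 : ∀ s ∈ S, 0 ≤ f s := fun s hs => zero_le_one.trans (h.one s hs)
  have ori : Ori (J.image w) (fun g => ∑ j ∈ J, if g = w j then f j.1 else 0) (ε * (m + 1))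
      (fun x y => ∑ j ∈ J, if y = x * w j then P (x * e j.1 j.2) (x * (e j.1 j.2 * j.1)) else 0) := by
    refine ⟨fun x y => sum_nonneg (fun j _ => by split_ifs; exacts [h.nonneg _ _, le_rfl]),
      fun x Y => ?_, fun x y => ?_, fun g hg => ?_, fun s hs => ?_⟩
    · rw [sum_comm]
      have a1 : ∑ j ∈ J, ∑ y ∈ Y, (if y = x * w j then
          P (x * e j.1 j.2) (x * (e j.1 j.2 * j.1)) else 0) ≤
          ∑ j ∈ J, P (x * e j.1 j.2) (x * (e j.1 j.2 * j.1)) := by
        refine sum_le_sum (fun j _ => ?_)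
        rw [sum_ite_eq']
        split_ifs
        exacts [le_rfl, h.nonneg _ _]
      refine a1.trans ?_
      let N := J.image (fun j => e j.1 j.2 * j.1)
      have d : Disjoint F N := by
        rw [disjoint_right]
        intro v hv
        obtain ⟨j, hj, rfl⟩ := mem_image.mp hv
        exact (e1 _ _ ((hJ j).mp hj).2).2
      have a2 := (h.shift x).outflow (hc x) d
      rw [hF, ← sum_product'] at a2
      push_cast at a2
      refine le_trans ?_ a2
      rw [← sum_image (s := J) (g := fun j => (e j.1 j.2, e j.1 j.2 * j.1))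
        (f := fun q : Γ × Γ => P (x * q.1) (x * q.2))]
      · refine sum_le_sum_of_subset_of_nonneg (fun q hq => ?_) (fun q _ _ => h.nonneg _ _)
        obtain ⟨j, hj, rfl⟩ := mem_image.mp hq
        exact mem_product.mpr ⟨(e1 _ _ ((hJ j).mp hj).2).1, mem_image_of_mem _ hj⟩
      · rintro ⟨s, i⟩ hi ⟨s', j⟩ hj hij
        simp only [Prod.mk.injEq] at hij
        obtain ⟨b1, b2⟩ := hij
        rw [b1] at b2
        obtain rfl := mul_left_cancel b2
        rw [e2 s i j ((hJ _).mp hi).2 ((hJ _).mp hj).2 b1]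
    · have a0 := sum_nbij' (s := J) (t := J) τ τ τJ τJ (fun j _ => by simp [τ]) (fun j _ => by simp [τ])
        (f := fun j => if x = y * w (τ j) then
          P (y * e (τ j).1 (τ j).2) (y * (e (τ j).1 (τ j).2 * (τ j).1)) else 0)
        (g := fun j => if x = y * w j then P (y * e j.1 j.2) (y * (e j.1 j.2 * j.1)) else 0)
        (fun j _ => rfl)
      rw [← a0, ← sum_add_distrib]
      refine sum_congr rfl (fun j _ => ?_)
      by_cases hy : y = x * w j
      · have b1 : x = y * w (τ j) := by rw [hy]; simp [w, τ, mul_assoc]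
        have b2 : x⁻¹ * y = w j := by rw [hy]; simp
        have b3 : y * e (τ j).1 (τ j).2 = x * (e j.1 j.2 * j.1) := by
          rw [hy]; simp [w, τ, mul_assoc]
        have b4 : y * (e (τ j).1 (τ j).2 * (τ j).1) = x * e j.1 j.2 := by
          rw [hy]; simp [w, τ, mul_assoc]
        rw [if_pos hy, if_pos b1, if_pos b2, b3, b4, h.sym]
        congr 1; group
      · have b1 : x ≠ y * w (τ j) := fun hx => hy (by rw [hx]; simp [w, τ, mul_assoc])
        have b2 : x⁻¹ * y ≠ w j := fun hx => hy (by rw [← hx]; simp)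
        rw [if_neg hy, if_neg b1, if_neg b2, add_zero]
    · obtain ⟨j, hj, h2⟩ := exists_ne_zero_of_sum_ne_zero hg
      refine mem_image.mpr ⟨j, hj, ?_⟩
      by_contra hne
      exact h2 (if_neg (Ne.symm hne))
    · obtain ⟨j, hj, rfl⟩ := mem_image.mp hs
      have := single_le_sum (f := fun i : (Σ _ : Γ, ℕ) => if w j = w i then f i.1 else 0)
        (fun i hi => by split_ifs; exacts [f0 _ ((hJ i).mp hi).1, le_rfl]) hj
      simp only [if_true] at this
      exact (h.one _ ((hJ j).mp hj).1).trans this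
  have cJ : (J.card : ℝ) = ∑ s ∈ S, ((B s).card : ℝ) := by
    simp [J, card_sigma]
  refine ⟨_, _, _, ori, fun h1 => ?_, ?_, ?_⟩
  · obtain ⟨j, hj, h2⟩ := mem_image.mp h1
    have b1 := ((hJ j).mp hj).2
    have b2 := (e1 j.1⁻¹ j.2 (by rwa [hB])).1
    refine (e1 _ _ b1).2 ?_
    rwa [mul_inv_eq_one.mp h2]
  · have a1 := h.bdry F
    have a2 : (3 : ℝ) ≤ S.card := by exact_mod_cast h3
    have a3 : (J.card : ℝ) ≤ ∑ g ∈ J.image w, ∑ j ∈ J, if g = w j then f j.1 else 0 := by
      rw [sum_comm, card_eq_sum_ones, Nat.cast_sum]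
      refine sum_le_sum (fun j hj => ?_)
      rw [sum_ite_eq', if_pos (mem_image_of_mem _ hj)]
      exact_mod_cast h.one _ ((hJ j).mp hj).1
    have a4 : ∑ g ∈ J.image w, (∑ j ∈ J, if g = w j then f j.1 else 0) ≤ ∑ g ∈ J.image w, (4 : ℝ) := by
      refine sum_le_sum (fun g _ => ?_)
      have b1 := ori.sym 1 g
      have b2 := ori.le 1 g
      have b3 := ori.le g 1
      simp only [inv_one, one_mul g] at b1
      linarith
    rw [sum_const, nsmul_eq_mul] at a4
    rw [hF] at a1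
    have a5 : ((m + 1 : ℕ) : ℝ) ≤ ((8 * (J.image w).card : ℕ) : ℝ) := by
      have a6 : (1 / 2 : ℝ) * ((m + 1 : ℕ) : ℝ) ≤ ((S.card : ℝ) - 2 * (1 + ε)) * ((m + 1 : ℕ) : ℝ) :=
        mul_le_mul_of_nonneg_right (by linarith) (by positivity)
      rw [Nat.cast_mul]
      simp only [B] at cJ
      push_cast at *
      linarith
    exact_mod_cast a5
  · refine card_image_le.trans ?_
    simp only [J, card_sigma, card_range]
    rw [← smul_eq_mul, ← sum_const, ← hF]
    exact sum_le_sum (fun s _ => card_filter_le _ _)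

end Pool.Agent.Lib.MP_040728_al.Tree
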