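import Mathlib
import Pool.Agent.Lib.MP_040728_al.BF
import Pool.Agent.Lib.MP_040728_al.TreeComb

set_option autoImplicit false

namespace Pool.Agent.Lib.MP_040728_al.Tree

open Finset

theorem schur_fin {I : Type*} (k : I → I → ℂ) {C : ℝ} (hC : 0 < C)
    (hr : ∀ x (Y : Finset I), ∑ y ∈ Y, ‖k x y‖ ≤ C) (hc : ∀ y (X : Finset I), ∑ x ∈ X, ‖k x y‖ ≤ C) :
    ∃ P : lp (fun _ : I => ℂ) 2 →L[ℂ] lp (fun _ : I => ℂ) 2, ‖P‖ ≤ C ∧
      ∀ v x, HasSum (fun y => k x y * v y) (P v x) :=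
  schur k hC
    (fun x => ⟨summable_of_sum_le (fun _ => norm_nonneg _) (hr x),
      Real.tsum_le_of_sum_le (fun _ => norm_nonneg _) (hr x)⟩)
    (fun y => ⟨summable_of_sum_le (fun _ => norm_nonneg _) (hc y),
      Real.tsum_le_of_sum_le (fun _ => norm_nonneg _) (hc y)⟩)

theorem norm_le_of_entries {I : Type*} [DecidableEq I]
    (A : lp (fun _ : I => ℂ) 2 →L[ℂ] lp (fun _ : I => ℂ) 2) {C : ℝ} (hC : 0 < C)
    (hr : ∀ y (X : Finset I), ∑ x ∈ X, ‖A (lp.single 2 x 1) y‖ ≤ C)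
    (hc : ∀ x (Y : Finset I), ∑ y ∈ Y, ‖A (lp.single 2 x 1) y‖ ≤ C) : ‖A‖ ≤ C := by
  obtain ⟨P, h1, h2⟩ := schur_fin (fun y x => A (lp.single 2 x 1) y) hC hr hc
  have : A = P := by
    refine lp.ext_continuousLinearMap (by simp) (fun x => ?_)
    refine ContinuousLinearMap.ext_ring (lp.ext (funext (fun y => ?_)))
    change A (lp.single 2 x 1) y = P (lp.single 2 x 1) y
    refine HasSum.unique ?_ (h2 _ y)
    convert hasSum_ite_eq x (A (lp.single 2 x 1) y) using 2 with z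
    by_cases hz : z = x <;> simp [hz]
  rwa [this]

theorem norm_le_of_l1 {I : Type*} (v : lp (fun _ : I => ℂ) 2) {c : ℝ}
    (h : ∀ Y : Finset I, ∑ y ∈ Y, ‖v y‖ ≤ c) : ‖v‖ ≤ c := by
  have c0 : 0 ≤ c := by simpa using h ∅
  refine lp.norm_le_of_forall_sum_le (by simp) c0 (fun Y => ?_)
  simp only [ENNReal.toReal_ofNat, Real.rpow_ofNat]
  exact (sum_sq_le_sq_sum_of_nonneg (fun y _ => norm_nonneg (v y))).trans
    (pow_le_pow_left₀ (sum_nonneg (fun y _ => norm_nonneg _)) (h Y) 2)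

variable {Γ : Type} [Group Γ] [DecidableEq Γ] {S : Finset Γ} {f : Γ → ℝ} {ε : ℝ} {P : Γ → Γ → ℝ}

theorem Ori.stage (h : Ori S f ε P) (h1 : 1 ∉ S) (hε : 0 ≤ ε) {k : ℕ} (hk0 : 0 < k)
    (hk : ε * ((S.card : ℝ) + 1) ^ k ≤ 1) (hk2 : (1 + ε) ^ k ≤ 3)
    (l : Γ →* (lp (fun _ : Γ => ℂ) 2 →L[ℂ] lp (fun _ : Γ => ℂ) 2))
    (hl : ∀ g v x, l g v x = v (g⁻¹ * x)) :
    ∃ (A : lp (fun _ : Γ => ℂ) 2 →L[ℂ] lp (fun _ : Γ => ℂ) 2) (φ : ℝ) (w : lp (fun _ : Γ => ℂ) 2),
      (∀ g j, j ≤ k → ‖A ^ j * (A - l g * A * l g⁻¹)‖ ≤ 30 * (j + 1)) ∧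
      A (lp.single 2 1 1) = 0 ∧
      A (∑ s ∈ S, lp.single 2 s 1) = (φ : ℂ) • lp.single 2 1 1 + w ∧
      (S.card : ℝ) - 2 ≤ φ ∧ φ ≤ 2 * S.card ∧ ∀ j ≤ k, ‖(A ^ j) w‖ ≤ 6 := by
  have S0 : (0 : ℝ) ≤ S.card := Nat.cast_nonneg _
  have mono : ∀ j ≤ k, ε * ((S.card : ℝ) + 1) ^ j ≤ 1 := fun j hj =>
    le_trans (mul_le_mul_of_nonneg_left (pow_le_pow_right₀ (by linarith) hj) hε) hk
  have e1 : ε * ((S.card : ℝ) + 1) ≤ 1 := by simpa using mono 1 hk0
  have e2 : ε ≤ 1 := by simpa using mono 0 (Nat.zero_le _)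
  have p3 : ∀ j ≤ k, (1 + ε) ^ j ≤ 3 := fun j hj =>
    (pow_le_pow_right₀ (by linarith) hj).trans hk2
  let Q : Γ → Γ → ℝ := fun x y => if x = 1 then 0 else P x y
  have Q0 : ∀ x y, 0 ≤ Q x y := fun x y => by
    simp only [Q]; split_ifs; exacts [le_rfl, h.nonneg x y]
  have QP : ∀ x y, Q x y ≤ P x y := fun x y => by
    simp only [Q]; split_ifs; exacts [h.nonneg x y, le_rfl]
  have Qout : ∀ x (Y : Finset Γ), ∑ y ∈ Y, Q x y ≤ 1 + ε := fun x Y =>
    (sum_le_sum (fun y _ => QP x y)).trans (h.out x Y)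
  have Qz : ∀ (B : Finset Γ) y w, y ∈ B → w ∉ grow S B → Q w y = 0 := by
    intro B y w hy hw
    refine le_antisymm ((QP w y).trans (h.zero (fun hs => hw (mem_grow hy ?_))).le) (Q0 w y)
    simpa using h.inv_mem hs
  have nQ : ∀ x y, ‖(Q x y : ℂ)‖ = Q x y := fun x y => by
    rw [Complex.norm_real, Real.norm_of_nonneg (Q0 x y)]
  obtain ⟨A, -, hA⟩ := schur_fin (fun y x => (Q x y : ℂ)) (C := 2 * (S.card + 1)) (by positivity)
    (fun y X => by
      simp only [nQ]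
      have a1 : ∑ x ∈ X, Q x y ≤ ∑ x ∈ X ∪ grow S {y}, Q x y :=
        sum_le_sum_of_subset_of_nonneg subset_union_left (fun x _ _ => Q0 x y)
      rw [← sum_subset subset_union_right (fun x _ hx => Qz {y} y x (mem_singleton_self y) hx)] at a1
      have a2 : ∑ x ∈ grow S {y}, Q x y ≤ ∑ x ∈ grow S {y}, (2 : ℝ) :=
        sum_le_sum (fun x _ => (QP x y).trans ((h.le x y).trans (by linarith)))
      rw [sum_const, nsmul_eq_mul] at a2
      have a3 : ((grow S {y}).card : ℝ) ≤ S.card + 1 := by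
        have := card_grow S {y}
        rw [card_singleton, mul_one] at this
        exact_mod_cast this
      linarith)
    (fun x Y => by simp only [nQ]; linarith [Qout x Y])
  have Af : ∀ (B : Finset Γ) v y, y ∈ B → A v y = ∑ w ∈ grow S B, (Q w y : ℂ) * v w := by
    intro B v y hy
    exact (hA v y).unique (hasSum_sum_of_ne_finset_zero (fun w hw => by rw [Qz B y w hy hw]; simp))
  have Ad : ∀ x y, A (lp.single 2 x 1) y = Q x y := by
    intro x y
    refine (hA _ y).unique ?_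
    convert hasSum_ite_eq x (Q x y : ℂ) using 2 with z
    by_cases hz : z = x <;> simp [hz]
  have ball : ∀ (v : Γ → lp (fun _ : Γ => ℂ) 2) (X : Finset Γ) (j : ℕ) (B : Finset Γ),
      ∑ y ∈ B, ∑ x ∈ X, ‖(A ^ j) (v x) y‖ ≤
        (1 + ε) ^ j * ∑ w ∈ (grow S)^[j] B, ∑ x ∈ X, ‖v x w‖ := by
    intro v X j
    induction j with
    | zero => intro B; simp
    | succ j ih =>
      intro B
      rw [Function.iterate_succ_apply, pow_succ' (1 + ε), mul_assoc]
      refine le_trans ?_ (mul_le_mul_of_nonneg_left (ih (grow S B)) (by linarith))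
      have a1 : ∑ y ∈ B, ∑ x ∈ X, ‖(A ^ (j + 1)) (v x) y‖ ≤
          ∑ y ∈ B, ∑ x ∈ X, ∑ w ∈ grow S B, Q w y * ‖(A ^ j) (v x) w‖ := by
        refine sum_le_sum (fun y hy => sum_le_sum (fun x _ => ?_))
        rw [pow_succ', mul_apply_eq_comp, Af B _ y hy]
        refine (norm_sum_le _ _).trans (le_of_eq (sum_congr rfl (fun w _ => ?_)))
        rw [norm_mul, nQ]
      refine a1.trans ?_
      rw [sum_comm, sum_comm (s := grow S B), mul_sum]
      refine sum_le_sum (fun x _ => ?_)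
      rw [sum_comm, mul_sum]
      refine sum_le_sum (fun w _ => ?_)
      rw [← sum_mul]
      exact mul_le_mul_of_nonneg_right (Qout w B) (norm_nonneg _)
  have l1 : ∀ (v : lp (fun _ : Γ => ℂ) 2) (c : ℝ), (∀ Y : Finset Γ, ∑ y ∈ Y, ‖v y‖ ≤ c) →
      ∀ j ≤ k, ∀ Y : Finset Γ, ∑ y ∈ Y, ‖(A ^ j) v y‖ ≤ 3 * c := by
    intro v c hv j hj Y
    have := ball (fun _ => v) {1} j Y
    simp only [sum_singleton] at this
    exact this.trans (mul_le_mul (p3 j hj) (hv _) (sum_nonneg (fun _ _ => norm_nonneg _))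
      (by norm_num))
  have ld : ∀ g x, l g (lp.single 2 x 1) = lp.single 2 (g * x) 1 := by
    intro g x
    refine lp.ext (funext (fun y => ?_))
    simp [hl, Pi.single_apply, inv_mul_eq_iff_eq_mul]
  let φ : ℝ := ∑ s ∈ S, P s 1
  have φ1 : (S.card : ℝ) - (1 + ε) ≤ φ := by
    have a1 : ∑ s ∈ S, (1 : ℝ) ≤ ∑ s ∈ S, (P 1 s + P s 1) :=
      sum_le_sum (fun s hs => by rw [h.sym]; simpa using h.one s hs)
    rw [sum_add_distrib, sum_const, nsmul_eq_mul, mul_one] at a1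
    linarith [h.out 1 S]
  refine ⟨A, φ, A (∑ s ∈ S, lp.single 2 s 1) - (φ : ℂ) • lp.single 2 1 1, fun g j hj => ?_, ?_,
    by abel, by linarith, ?_, fun j hj => ?_⟩
  · have D : ∀ x w, ‖(A - l g * A * l g⁻¹) (lp.single 2 x 1) w‖ =
        |Q x w - Q (g⁻¹ * x) (g⁻¹ * w)| := by
      intro x w
      rw [sub_apply, mul_apply_eq_comp, mul_apply_eq_comp, ld, lp.coeFn_sub,
        Pi.sub_apply, hl, Ad, Ad, ← Complex.ofReal_sub, Complex.norm_real, Real.norm_eq_abs]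
    have j0 : (0 : ℝ) ≤ j := Nat.cast_nonneg j
    refine norm_le_of_entries _ (by positivity) (fun y X => ?_) (fun x Y => ?_)
    · have a1 := ball (fun x => (A - l g * A * l g⁻¹) (lp.single 2 x 1)) X j {y}
      rw [sum_singleton] at a1
      refine le_trans a1 ?_
      have h' := h.shift g⁻¹
      have a2 := h.ball_diff h' hε X y j (mono j hj)
      set B := (grow S)^[j] {y}
      have a3 : ∀ w, ∑ x ∈ X, |Q x w - Q (g⁻¹ * x) (g⁻¹ * w)| ≤
          ∑ x ∈ X, |P w x - P (g⁻¹ * w) (g⁻¹ * x)| + (P 1 w + P (g⁻¹ * g) (g⁻¹ * w)) := by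
        intro w
        have b1 : ∀ x, |Q x w - Q (g⁻¹ * x) (g⁻¹ * w)| ≤ |P w x - P (g⁻¹ * w) (g⁻¹ * x)| +
            ((if x = 1 then P 1 w else 0) + (if x = g then P (g⁻¹ * g) (g⁻¹ * w) else 0)) := by
          intro x
          have c1 := h.sym x w
          have c2 := h'.sym x w
          have c3 := le_abs_self (P w x - P (g⁻¹ * w) (g⁻¹ * x))
          have c4 := neg_abs_le (P w x - P (g⁻¹ * w) (g⁻¹ * x))
          have c5 := h.nonneg x w
          have c6 := h'.nonneg x w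
          have c7 : g⁻¹ * x = 1 ↔ x = g := by rw [inv_mul_eq_one, eq_comm]
          simp only [Q, c7]
          rw [abs_le]
          split_ifs with d1 d2 d2
          · subst d1; subst d2; constructor <;> linarith
          · subst d1; constructor <;> linarith
          · subst d2; constructor <;> linarith
          · constructor <;> linarith
        refine (sum_le_sum (fun x _ => b1 x)).trans ?_
        rw [sum_add_distrib, sum_add_distrib, sum_ite_eq', sum_ite_eq']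
        have c5 := h.nonneg 1 w
        have c6 := h'.nonneg g w
        split_ifs <;> linarith
      have a4 := sum_le_sum (fun w (_ : w ∈ B) => a3 w)
      rw [sum_add_distrib, sum_add_distrib] at a4
      have a5 := h.out 1 B
      have a6 := h'.out g B
      simp only [D]
      refine (mul_le_mul (p3 j hj) (a4.trans (show _ ≤ 8 + 10 * (j : ℝ) by linarith))
        (sum_nonneg (fun _ _ => sum_nonneg (fun _ _ => abs_nonneg _))) (by norm_num)).trans ?_
      linarith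
    · refine (l1 ((A - l g * A * l g⁻¹) (lp.single 2 x 1)) 4 (fun Y => ?_) j hj Y).trans
        (by linarith)
      simp only [D]
      have a1 : ∑ y ∈ Y, |Q x y - Q (g⁻¹ * x) (g⁻¹ * y)| ≤
          ∑ y ∈ Y, (P x y + P (g⁻¹ * x) (g⁻¹ * y)) := by
        refine sum_le_sum (fun y _ => abs_le.mpr ⟨?_, ?_⟩) <;>
          linarith [Q0 x y, QP x y, Q0 (g⁻¹ * x) (g⁻¹ * y), QP (g⁻¹ * x) (g⁻¹ * y)]
      rw [sum_add_distrib] at a1
      linarith [h.out x Y, (h.shift g⁻¹).out x Y]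
  · refine lp.ext (funext (fun y => ?_))
    rw [Ad]; simp [Q]
  · have : φ ≤ ∑ s ∈ S, (2 : ℝ) := sum_le_sum (fun s _ => (h.le s 1).trans (by linarith))
    rw [sum_const, nsmul_eq_mul] at this
    linarith
  · refine norm_le_of_l1 _ (fun Y => (l1 _ 2 (fun Y => ?_) j hj Y).trans (by norm_num))
    have a1 : ∀ y, ‖(A (∑ s ∈ S, lp.single 2 s 1) - (φ : ℂ) • lp.single 2 1 1 :
        lp (fun _ : Γ => ℂ) 2) y‖ = if y = 1 then 0 else ∑ s ∈ S, P s y := by
      intro y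
      have b1 : (A (∑ s ∈ S, lp.single 2 s 1)) y = ((∑ s ∈ S, P s y : ℝ) : ℂ) := by
        rw [map_sum, lp.coeFn_sum, Finset.sum_apply, Complex.ofReal_sum]
        refine sum_congr rfl (fun s hs => ?_)
        have : s ≠ 1 := fun e => h1 (e ▸ hs)
        rw [Ad]; simp [Q, this]
      rw [lp.coeFn_sub, Pi.sub_apply, b1, lp.coeFn_smul, Pi.smul_apply]
      by_cases hy : y = 1
      · subst hy; simp [φ]
      · rw [lp.single_apply_ne _ _ _ hy, smul_zero, sub_zero, if_neg hy, Complex.norm_real,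
          Real.norm_of_nonneg (sum_nonneg (fun s _ => h.nonneg s y))]
    simp only [a1]
    have a2 : ∑ y ∈ Y, (if y = 1 then 0 else ∑ s ∈ S, P s y) = ∑ y ∈ Y.erase 1, ∑ s ∈ S, P s y := by
      rw [← filter_ne', sum_filter]
      exact sum_congr rfl (fun y _ => by by_cases hy : y = 1 <;> simp [hy])
    rw [a2, sum_comm]
    have a3 : ∑ s ∈ S, ∑ y ∈ Y.erase 1, P s y ≤ ∑ s ∈ S, (1 + ε - P s 1) := by
      refine sum_le_sum (fun s _ => ?_)
      have := h.out s (insert 1 (Y.erase 1))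
      rw [sum_insert (notMem_erase 1 Y)] at this
      linarith
    rw [sum_sub_distrib, sum_const, nsmul_eq_mul] at a3
    change _ ≤ _ - φ at a3
    linarith

end Pool.Agent.Lib.MP_040728_al.Tree
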