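import Mathlib
import Pool.Agent.Lib.MP_040728_al.TreeOp
import Pool.Agent.Lib.MP_040728_al.TreeAmp
import Pool.Agent.Lib.MP_040728_al.TreeSq

set_option autoImplicit false

namespace Pool.Agent.Lib.MP_040728_al.Tree

open Finset

theorem exists_dg {L : Type*} [NormedAddCommGroup L] [NormedSpace ℂ L] :
    ∃ dg : (L →L[ℂ] L) →* (lp (fun _ : ℕ => L) 2 →L[ℂ] lp (fun _ : ℕ => L) 2),
      (∀ B, ‖dg B‖ ≤ ‖B‖) ∧ ∀ B v i, dg B v i = B (v i) := by
  have := fun B : L →L[ℂ] L => exists_op (I := ℕ) (fun v i => B (v i)) (norm_nonneg B)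
    (fun v w i => by rw [lp.coeFn_add, Pi.add_apply, map_add])
    (fun c v i => by simp) (fun v s => by
      have a1 : ∑ i ∈ s, ‖v i‖ ^ 2 ≤ ‖v‖ ^ 2 :=
        sum_le_hasSum s (fun i _ => by positivity) (hasSum_sq v)
      rw [mul_pow]
      refine le_trans ?_ (mul_le_mul_of_nonneg_left a1 (by positivity))
      rw [mul_sum]
      refine sum_le_sum (fun i _ => ?_)
      rw [← mul_pow]
      exact pow_le_pow_left₀ (norm_nonneg _) (B.le_opNorm _) 2)
  choose D h1 h2 using this
  refine ⟨⟨⟨D, ?_⟩, fun g h => ?_⟩, h1, h2⟩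
  · refine ContinuousLinearMap.ext (fun v => lp.ext (funext (fun i => ?_)))
    simp [h2]
  · refine ContinuousLinearMap.ext (fun v => lp.ext (funext (fun i => ?_)))
    simp [h2]

theorem exists_sh {L : Type*} [NormedAddCommGroup L] [NormedSpace ℂ L] (k : ℕ) :
    ∃ N : lp (fun _ : ℕ => L) 2 →L[ℂ] lp (fun _ : ℕ => L) 2,
      ‖N‖ ≤ 1 ∧ ∀ v i, N v i = if i + 1 < k then v (i + 1) else 0 := by
  refine exists_op (fun v i => if i + 1 < k then v (i + 1) else 0) zero_le_one
    (fun v w i => by split_ifs <;> simp) (fun c v i => by split_ifs <;> simp) (fun v s => ?_)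
  have a1 : ∑ i ∈ s.image (· + 1), ‖v i‖ ^ 2 ≤ ‖v‖ ^ 2 :=
    sum_le_hasSum _ (fun i _ => by positivity) (hasSum_sq v)
  rw [sum_image (fun a _ b _ h => Nat.succ_injective h)] at a1
  rw [one_mul]
  refine le_trans (sum_le_sum (fun i _ => ?_)) a1
  split_ifs
  · exact le_rfl
  · simp

theorem levels {Γ L : Type*} [Group Γ] [NormedAddCommGroup L] [NormedSpace ℂ L]
    (l : Γ →* (L →L[ℂ] L)) (hl : ∀ g, ‖l g‖ ≤ 1) (A : L →L[ℂ] L) {k : ℕ} (hk : 0 < k)
    {r C φ τ : ℝ} (r0 : 0 ≤ r) (r1 : r ≤ 1) (hC : ∑ j ∈ range k, r ^ j * (j + 1) ≤ C) (φ0 : 0 ≤ φ)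
    (S : Finset Γ) (δ w : L) (hδ : ‖δ‖ = 1) (hu : ‖∑ s ∈ S, l s δ‖ ≤ τ)
    (h1 : ∀ g j, j ≤ k → ‖A ^ j * (A - l g * A * l g⁻¹)‖ ≤ 30 * (j + 1)) (h2 : A δ = 0)
    (h3 : A (∑ s ∈ S, l s δ) = (φ : ℂ) • δ + w) (h4 : ∀ j ≤ k, ‖(A ^ j) w‖ ≤ 6) :
    ∃ π : Γ →* (lp (fun _ : ℕ => L) 2 →L[ℂ] lp (fun _ : ℕ => L) 2), (∀ g, ‖π g‖ ≤ 1 + 30 * C) ∧
      ∃ ξ, ‖ξ‖ = √k ∧ ‖∑ s ∈ S, π s ξ - (Complex.I * r * φ) • ξ‖ ≤ τ * √k + φ + 6 * C * √k := by
  obtain ⟨dg, d1, d2⟩ := exists_dg (L := L)
  obtain ⟨N, n1, n2⟩ := exists_sh (L := L) k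
  have cm : ∀ B, Commute (dg B) N := by
    intro B
    refine ContinuousLinearMap.ext (fun v => lp.ext (funext (fun i => ?_)))
    simp only [mul_apply_eq_comp, d2, n2]
    split_ifs <;> simp
  have dsub : ∀ B B', dg (B - B') = dg B - dg B' := by
    intro B B'
    refine ContinuousLinearMap.ext (fun v => lp.ext (funext (fun i => ?_)))
    simp [d2]
  have nil : N ^ k = 0 := by
    have : ∀ j v i, k ≤ i + j + 1 → (N ^ (j + 1)) v i = 0 := by
      intro j
      induction j with
      | zero => intro v i hi; rw [zero_add, pow_one, n2, if_neg (by omega)]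
      | succ j ih =>
        intro v i hi
        rw [pow_succ', mul_apply_eq_comp, n2]
        split_ifs
        · exact ih v _ (by omega)
        · rfl
    obtain ⟨j, rfl⟩ : ∃ j, k = j + 1 := ⟨k - 1, by omega⟩
    exact ContinuousLinearMap.ext (fun v => lp.ext (funext (fun i => this j v i (by omega))))
  have np : ∀ j, ‖N ^ j‖ ≤ 1 := by
    intro j
    induction j with
    | zero => exact ContinuousLinearMap.norm_id_le
    | succ j ih =>
      rw [pow_succ]
      exact (norm_mul_le _ _).trans (mul_le_one₀ ih (norm_nonneg _) n1)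
  set z : ℂ := Complex.I * r with hz
  have nz : ‖z‖ = r := by simp [hz, r0]
  set Q := z • (dg A * N) with hQ
  have Qp : ∀ j, Q ^ j = z ^ j • (dg (A ^ j) * N ^ j) := by
    intro j; rw [hQ, smul_pow, (cm A).mul_pow, map_pow]
  have Qk : Q ^ k = 0 := by rw [Qp, nil, mul_zero, smul_zero]
  set R := ∑ j ∈ range k, Q ^ j with hR
  have TR : (1 - Q) * R = 1 := by rw [hR, mul_neg_geom_sum, Qk, sub_zero]
  have RT : R * (1 - Q) = 1 := by rw [hR, geom_sum_mul_neg, Qk, sub_zero]
  have R1 : ∀ v, R v = v + R (Q v) := by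
    intro v
    have := congrArg (fun T => T v) RT
    simp only [mul_apply_eq_comp, sub_apply, one_apply_eq_self, map_sub] at this
    exact sub_eq_iff_eq_add.mp this
  let π : Γ →* (lp (fun _ : ℕ => L) 2 →L[ℂ] lp (fun _ : ℕ => L) 2) :=
    { toFun := fun g => R * dg (l g) * (1 - Q)
      map_one' := by rw [map_one, map_one, mul_one, RT]
      map_mul' := fun g h => by
        rw [map_mul, map_mul]
        calc R * (dg (l g) * dg (l h)) * (1 - Q)
            = R * dg (l g) * ((1 - Q) * R) * dg (l h) * (1 - Q) := by rw [TR]; noncomm_ring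
          _ = _ := by noncomm_ring }
  have πe : ∀ g, π g = R * dg (l g) * (1 - Q) := fun g => rfl
  let E : L → lp (fun _ : ℕ => L) 2 := fun u => ∑ i ∈ range k, lp.single 2 i u
  have E1 : ∀ u i, E u i = if i < k then u else 0 := by
    intro u i
    simp only [E, lp.coeFn_sum, Finset.sum_apply, lp.single_apply, Pi.single_apply]
    rw [sum_ite_eq]; simp
  have E2 : ∀ u, ‖E u‖ = ‖u‖ * √k := by
    intro u
    have := lp.norm_sum_single (p := 2) (E := fun _ : ℕ => L) (by simp) (fun _ => u) (range k)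
    simp only [ENNReal.toReal_ofNat, Real.rpow_ofNat, sum_const, card_range, nsmul_eq_mul] at this
    rw [← sq_eq_sq₀ (norm_nonneg _) (by positivity), mul_pow, Real.sq_sqrt (by positivity), mul_comm]
    exact this
  have E3 : ∀ B u, dg B (E u) = E (B u) := by
    intro B u
    refine lp.ext (funext (fun i => ?_))
    rw [d2, E1, E1]; split_ifs <;> simp
  have E4 : ∀ u, N (E u) = E u - lp.single 2 (k - 1) u := by
    intro u
    refine lp.ext (funext (fun i => ?_))
    rw [n2, lp.coeFn_sub, Pi.sub_apply, E1, E1, lp.single_apply, Pi.single_apply]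
    split_ifs <;> first | omega | simp
  have E0 : E 0 = 0 := lp.ext (funext (fun i => by rw [E1]; simp))
  refine ⟨π, fun g => ?_, E δ, by rw [E2, hδ, one_mul], ?_⟩
  · have li : dg (l g⁻¹) * dg (l g) = 1 := by
      rw [← map_mul, ← map_mul, inv_mul_cancel, map_one, map_one]
    have a1 : π g = dg (l g) + R * (z • (dg (A - l g * A * l g⁻¹) * N)) * dg (l g) := by
      have b1 : z • (dg (A - l g * A * l g⁻¹) * N) * dg (l g) = Q * dg (l g) - dg (l g) * Q := by
        rw [dsub, map_mul, map_mul, hQ, smul_mul_assoc, smul_mul_assoc, mul_smul_comm, ← smul_sub,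
          sub_mul, sub_mul, mul_assoc (dg (l g) * dg A * dg (l g⁻¹)), ← (cm (l g)).eq,
          ← mul_assoc (dg (l g) * dg A * dg (l g⁻¹)), mul_assoc (dg (l g) * dg A), li, mul_one,
          mul_assoc (dg (l g))]
      rw [mul_assoc R, b1, πe]
      calc R * dg (l g) * (1 - Q) = R * (1 - Q) * dg (l g) + R * (Q * dg (l g) - dg (l g) * Q) := by
            noncomm_ring
        _ = _ := by rw [RT, one_mul]
    have a2 : ‖R * (z • (dg (A - l g * A * l g⁻¹) * N))‖ ≤ 30 * C := by
      rw [hR, sum_mul]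
      refine (norm_sum_le _ _).trans (le_trans ?_ (mul_le_mul_of_nonneg_left hC (by norm_num)))
      rw [mul_sum]
      refine sum_le_sum (fun j hj => ?_)
      have b1 : Q ^ j * (z • (dg (A - l g * A * l g⁻¹) * N)) =
          z ^ (j + 1) • (dg (A ^ j * (A - l g * A * l g⁻¹)) * N ^ (j + 1)) := by
        rw [Qp, smul_mul_smul_comm, ← pow_succ, map_mul dg (A ^ j), pow_succ N, mul_assoc,
          ← mul_assoc (N ^ j), ← ((cm _).pow_right j).eq]
        simp only [mul_assoc]
      have b2 := (d1 _).trans (h1 g j (mem_range.mp hj).le)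
      have b3 := (norm_mul_le _ _).trans (mul_le_mul b2 (np (j + 1)) (norm_nonneg _) (by positivity))
      have b4 : r ^ (j + 1) ≤ r ^ j := pow_le_pow_of_le_one r0 r1 (by omega)
      rw [b1, norm_smul, norm_pow, nz]
      refine (mul_le_mul b4 b3 (norm_nonneg _) (by positivity)).trans (le_of_eq (by ring))
    have a3 := (d1 _).trans (hl g)
    rw [a1]
    refine (norm_add_le _ _).trans (add_le_add a3 ((norm_mul_le _ _).trans ?_))
    exact (mul_le_of_le_one_right (norm_nonneg _) a3).trans a2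
  · have QE : ∀ u, Q (E u) = z • N (E (A u)) := by
      intro u
      rw [hQ, (cm A).eq, smul_apply, mul_apply_eq_comp, E3]
    have a1 : ∑ s ∈ S, π s (E δ) = R (E (∑ s ∈ S, l s δ)) := by
      have : E (∑ s ∈ S, l s δ) = ∑ s ∈ S, E (l s δ) := by
        refine lp.ext (funext (fun i => ?_))
        have b1 : (∑ s ∈ S, E (l s δ)) i = ∑ s ∈ S, E (l s δ) i := by
          rw [lp.coeFn_sum, Finset.sum_apply]
        rw [b1, E1, sum_congr rfl (fun s _ => E1 (l s δ) i)]
        split_ifs <;> simp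
      rw [this, map_sum]
      refine sum_congr rfl (fun s _ => ?_)
      rw [πe, mul_apply_eq_comp, mul_apply_eq_comp, sub_apply, QE, h2, E0, map_zero, smul_zero,
        sub_zero, one_apply_eq_self, E3]
    have a2 : R (N (E δ)) = N (E δ) := by
      have : Q (N (E δ)) = 0 := by
        rw [hQ, smul_apply, mul_apply_eq_comp, ← mul_apply_eq_comp (dg A), (cm A).eq,
          mul_apply_eq_comp, ← mul_apply_eq_comp (dg A), (cm A).eq, mul_apply_eq_comp, E3, h2, E0]
        simp
      rw [R1, this, map_zero, add_zero]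
    have a3 : E ((φ : ℂ) • δ + w) = (φ : ℂ) • E δ + E w := by
      refine lp.ext (funext (fun i => ?_))
      rw [lp.coeFn_add, Pi.add_apply, lp.coeFn_smul, Pi.smul_apply]
      simp only [E1]; split_ifs <;> simp
    have a4 : ∑ s ∈ S, π s (E δ) - (z * φ) • E δ = E (∑ s ∈ S, l s δ) -
        (z * φ) • lp.single 2 (k - 1) δ + z • R (N (E w)) := by
      rw [a1, R1, QE, h3, a3, map_add, map_smul, map_smul, map_add, map_smul, a2, E4]
      module
    have a5 : ‖R (N (E w))‖ ≤ 6 * C * √k := by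
      rw [hR, _root_.sum_apply]
      refine (norm_sum_le _ _).trans (le_trans ?_ (mul_le_mul_of_nonneg_right
        (mul_le_mul_of_nonneg_left hC (by norm_num)) (by positivity)))
      rw [mul_sum, sum_mul]
      refine sum_le_sum (fun j hj => ?_)
      have b1 : (Q ^ j) (N (E w)) = z ^ j • (N ^ (j + 1)) (E ((A ^ j) w)) := by
        rw [Qp, smul_apply, ← mul_apply_eq_comp, mul_assoc, ← pow_succ,
          ((cm _).pow_right (j + 1)).eq, mul_apply_eq_comp, E3]
      have b2 := (N ^ (j + 1)).le_of_opNorm_le (np (j + 1)) (E ((A ^ j) w))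
      rw [one_mul, E2] at b2
      have b3 := b2.trans (mul_le_mul_of_nonneg_right (h4 j (mem_range.mp hj).le) (by positivity))
      rw [b1, norm_smul, norm_pow, nz]
      have b4 : r ^ j ≤ r ^ j * (j + 1) := le_mul_of_one_le_right (by positivity) (by simp)
      refine (mul_le_mul b4 b3 (norm_nonneg _) (by positivity)).trans (le_of_eq (by ring))
    rw [a4]
    refine (norm_add_le _ _).trans (add_le_add ((norm_sub_le _ _).trans (add_le_add ?_ ?_)) ?_)
    · rw [E2]; exact mul_le_mul_of_nonneg_right hu (by positivity)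
    · rw [norm_smul, norm_mul, nz, lp.norm_single (by simp), hδ, mul_one, Complex.norm_real,
        Real.norm_of_nonneg φ0]
      exact mul_le_of_le_one_left φ0 r1
    · rw [norm_smul, nz]
      exact (mul_le_of_le_one_left (norm_nonneg _) r1).trans a5

end Pool.Agent.Lib.MP_040728_al.Tree
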