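import Mathlib
import Pool.Agent.Lib.MP_040728_al.TreeRep

set_option autoImplicit false

namespace Pool.Agent.Lib.MP_040728_al.Tree

open Finset

theorem lens {Γ H V : Type*} [Group Γ] [NormedAddCommGroup H] [NormedSpace ℂ H]
    [SeminormedAddCommGroup V] [NormedSpace ℂ V] (U : Γ →* (H →L[ℂ] H)) (T : H →L[ℂ] V)
    (hT : ∀ g v, ‖T (U g v)‖ = ‖T v‖) {J : ℝ}
    (hV : ∀ a b : V, ‖b‖ = ‖a‖ → ‖a + b‖ + ‖a - b‖ ≤ 2 * J * ‖a‖) (S : Finset Γ)
    (hS : ∀ s ∈ S, s⁻¹ ∈ S) (v : H) {c : ℝ} (hc : 0 ≤ c) :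
    ((S.card : ℝ) + c) * ‖T v‖ ≤
      S.card * J * ‖T v‖ + ‖T‖ * ‖∑ s ∈ S, U s v - (Complex.I * c) • v‖ := by
  have a1 : ∀ s, ‖T v - Complex.I • T (U s⁻¹ v)‖ = ‖T v + Complex.I • T (U s v)‖ := by
    intro s
    rw [← map_smul, ← map_sub, ← hT s, map_sub, map_smul, ← mul_apply_eq_comp, ← map_mul,
      mul_inv_cancel, map_one, one_apply_eq_self, map_sub, map_smul]
    have : T v + Complex.I • T (U s v) = Complex.I • (T (U s v) - Complex.I • T v) := by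
      rw [smul_sub, smul_smul, Complex.I_mul_I, neg_one_smul]; abel
    rw [this, norm_smul, Complex.norm_I, one_mul]
  have a2 : ∑ s ∈ S, ‖T v - Complex.I • T (U s v)‖ = ∑ s ∈ S, ‖T v + Complex.I • T (U s v)‖ :=
    (sum_nbij' (fun s => s⁻¹) (fun s => s⁻¹) hS hS (fun s _ => inv_inv s)
      (fun s _ => inv_inv s) (fun s _ => (a1 s).symm)).symm
  have a3 : ∑ s ∈ S, (‖T v + Complex.I • T (U s v)‖ + ‖T v - Complex.I • T (U s v)‖) ≤
      ∑ s ∈ S, 2 * J * ‖T v‖ :=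
    sum_le_sum (fun s _ => hV _ _ (by rw [norm_smul, Complex.norm_I, one_mul, hT]))
  rw [sum_add_distrib, ← a2, sum_const, nsmul_eq_mul] at a3
  set e := ∑ s ∈ S, U s v - (Complex.I * c) • v with he
  have a5 : (((S.card : ℝ) + c : ℝ) : ℂ) • T v =
      ∑ s ∈ S, (T v - Complex.I • T (U s v)) + Complex.I • T e := by
    rw [he, map_sub, map_sum, map_smul, sum_sub_distrib, sum_const, ← smul_sum, smul_sub,
      smul_smul, ← Nat.cast_smul_eq_nsmul ℂ, ← mul_assoc, Complex.I_mul_I]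
    push_cast
    module
  have b1 := congrArg norm a5
  rw [norm_smul, Complex.norm_real, Real.norm_of_nonneg (by positivity)] at b1
  rw [b1]
  refine (norm_add_le _ _).trans (add_le_add ((norm_sum_le _ _).trans (by linarith)) ?_)
  rw [norm_smul, Complex.norm_I, one_mul]
  exact T.le_opNorm e

theorem numeric {r C c1 c2 q τ t x φ e : ℝ} (r0 : 0 ≤ r) (r1 : r < 1) (C0 : 0 ≤ C) (c10 : 0 ≤ c1)
    (c20 : 0 ≤ c2) (q1 : 1 ≤ q) (q2 : q ≤ τ) (q3 : τ * τ = t) (x0 : 0 ≤ x) (s3 : t - 2 ≤ φ)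
    (a4 : e ≤ τ * q + 2 * t + 6 * C * q) (a6 : (t + r * φ) * x ≤ t * (2 * r) * x + c1 * e)
    (a7 : x ≤ c1 * q) (a8 : q ≤ c2 * x) : (1 - r) * q ≤ c1 * c2 * (5 + 6 * C) := by
  have q4 : τ * q ≤ t := by nlinarith
  have q5 : q ≤ t := by nlinarith
  have b1 : r * ((t - 2) * x) ≤ r * (φ * x) :=
    mul_le_mul_of_nonneg_left (mul_le_mul_of_nonneg_right s3 x0) r0
  have b2 : e ≤ (3 + 6 * C) * t := by nlinarith
  have b3 := mul_le_mul_of_nonneg_left b2 c10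
  have b4 : r * x ≤ c1 * t :=
    (mul_le_of_le_one_left x0 r1.le).trans (a7.trans (mul_le_mul_of_nonneg_left q5 c10))
  have b5 : (1 - r) * x * t ≤ c1 * (5 + 6 * C) * t := by nlinarith
  have b6 : (1 - r) * x ≤ c1 * (5 + 6 * C) := le_of_mul_le_mul_right b5 (by linarith)
  have b7 := mul_le_mul_of_nonneg_left a8 (show 0 ≤ 1 - r by linarith)
  have b8 := mul_le_mul_of_nonneg_left b6 c20
  nlinarith

theorem assemble {p : ENNReal} [Fact (1 ≤ p)] (h1 : 1 < p) (h2 : p ≤ 2) {Γ : Type} [Group Γ]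
    (hiso : Iso p Γ) {K : Type} [NormedAddCommGroup K] [InnerProductSpace ℂ K] [CompleteSpace K]
    {r C : ℝ} (hr : r = 2 ^ p.toReal⁻¹ / 2) (r0 : 0 ≤ r) (r1 : r < 1) (C0 : 0 ≤ C)
    (st : ∀ n : ℕ, ∃ (S : Finset Γ) (φ : ℝ) (π : Γ →* (K →L[ℂ] K)) (ξ : K),
      (∀ s ∈ S, s⁻¹ ∈ S) ∧ n + 1 ≤ S.card ∧ (S.card : ℝ) - 2 ≤ φ ∧ (∀ g, ‖π g‖ ≤ 1 + 30 * C) ∧
      ‖ξ‖ = √(n + 1 : ℕ) ∧ ‖∑ s ∈ S, π s ξ - (Complex.I * r * φ) • ξ‖ ≤
        √S.card * √(n + 1 : ℕ) + 2 * S.card + 6 * C * √(n + 1 : ℕ) ∧ 0 ≤ φ) : False := by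
  choose S φ π ξ s1 s2 s3 s4 s5 s6 s7 using st
  obtain ⟨U, u1, u2⟩ := exists_rep (1 : Γ →* Equiv.Perm ℕ) (fun g n => π n g)
    (show 0 ≤ 1 + 30 * C by positivity) (fun g n => s4 n g) (fun n => map_one _)
    (fun g h n => map_mul _ _ _)
  obtain ⟨V, _, _, hV, T, hT⟩ : ∃ (V : Type) (_ : SeminormedAddCommGroup V) (_ : NormedSpace ℂ V),
      (∀ a b : V, ‖b‖ = ‖a‖ → ‖a + b‖ + ‖a - b‖ ≤ 2 * 2 ^ p.toReal⁻¹ * ‖a‖) ∧
      ∃ T : lp (fun _ : ℕ => K) 2 ≃L[ℂ] V,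
        ∀ g v, ‖T (U g v)‖ = ‖T v‖ := by
    obtain ⟨X, _, μ, Y, Z, T, -, -, hT⟩ := hiso _ U.toHomUnits ⟨_, u1⟩
    exact ⟨↥Y ⧸ Z, _, Submodule.Quotient.normedSpace Z ℂ, nonsq h1 h2 Y Z, T, hT⟩
  set c1 := ‖T.toContinuousLinearMap‖ with hc1
  set c2 := ‖T.symm.toContinuousLinearMap‖ with hc2
  have t1 : ∀ v, ‖T v‖ ≤ c1 * ‖v‖ := fun v => T.toContinuousLinearMap.le_opNorm v
  have t2 : ∀ v, ‖v‖ ≤ c2 * ‖T v‖ := fun v => by
    simpa using T.symm.toContinuousLinearMap.le_opNorm (T v)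
  have c10 : 0 ≤ c1 := T.toContinuousLinearMap.opNorm_nonneg
  have c20 : 0 ≤ c2 := T.symm.toContinuousLinearMap.opNorm_nonneg
  have key : ∀ n : ℕ, (1 - r) * √(n + 1 : ℕ) ≤ c1 * c2 * (5 + 6 * C) := by
    intro n
    set v : lp (fun _ : ℕ => K) 2 :=
      lp.single 2 n (ξ n) with hv
    have Uv : ∀ g, U g v = lp.single 2 n (π n g (ξ n)) := by
      intro g
      refine lp.ext (funext (fun i => ?_))
      rw [u2, MonoidHom.one_apply, Equiv.Perm.one_apply, hv]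
      by_cases hi : i = n
      · subst hi; rw [lp.single_apply_self, lp.single_apply_self]
      · rw [lp.single_apply_ne _ _ _ hi, lp.single_apply_ne _ _ _ hi, map_zero]
    have nv : ‖v‖ = √(n + 1 : ℕ) := by rw [hv, lp.norm_single (by simp), s5]
    have a4 : ‖∑ s ∈ S n, U s v - (Complex.I * (r * φ n : ℝ)) • v‖ ≤
        √(S n).card * √(n + 1 : ℕ) + 2 * (S n).card + 6 * C * √(n + 1 : ℕ) := by
      have : ∑ s ∈ S n, U s v - (Complex.I * (r * φ n : ℝ)) • v =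
          lp.single 2 n (∑ s ∈ S n, π n s (ξ n) - (Complex.I * r * φ n) • ξ n) := by
        change _ = lp.singleContinuousLinearMap ℂ _ 2 n _
        rw [map_sub, map_sum, map_smul, Complex.ofReal_mul, ← mul_assoc]
        simp only [Uv]
        rfl
      rw [this, lp.norm_single (by simp)]
      exact s6 n
    have a6 := lens U T.toContinuousLinearMap hT hV (S n) (s1 n) v (mul_nonneg r0 (s7 n))
    have a7 := t1 v
    have a8 := t2 v
    rw [nv] at a7 a8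
    have e2 : (2 : ℝ) ^ p.toReal⁻¹ = 2 * r := by rw [hr]; ring
    rw [e2] at a6
    exact numeric r0 r1 C0 c10 c20 (Real.one_le_sqrt.mpr (by exact_mod_cast Nat.succ_pos n))
      (Real.sqrt_le_sqrt (by exact_mod_cast s2 n)) (Real.mul_self_sqrt (Nat.cast_nonneg _))
      (norm_nonneg _) (s3 n) a4 a6 a7 a8
  obtain ⟨n, hn⟩ := exists_nat_gt ((c1 * c2 * (5 + 6 * C) / (1 - r)) ^ 2)
  have a1 := key n
  rw [mul_comm, ← le_div_iff₀ (by linarith)] at a1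
  have a2 := pow_le_pow_left₀ (Real.sqrt_nonneg _) a1 2
  rw [Real.sq_sqrt (by positivity)] at a2
  push_cast at a2
  linarith

theorem core {p : ENNReal} [Fact (1 ≤ p)] (h1 : 1 < p) (h2 : p ≤ 2) {Γ : Type} [Group Γ]
    [DecidableEq Γ] (hiso : Iso p Γ)
    (H : ∀ n : ℕ, ∃ (S : Finset Γ) (f : Γ → ℝ) (ε : ℝ) (P : Γ → Γ → ℝ), Ori S f ε P ∧ 1 ∉ S ∧
      0 ≤ ε ∧ n + 1 ≤ S.card ∧ ε * ((S.card : ℝ) + 1) ^ (n + 1) ≤ 1) : False := by
  have ht : p ≠ ⊤ := (lt_of_le_of_lt h2 ENNReal.ofNat_lt_top).ne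
  have p1 : 1 < p.toReal := by
    rw [← ENNReal.toReal_one]; exact (ENNReal.toReal_lt_toReal ENNReal.one_ne_top ht).mpr h1
  set r : ℝ := 2 ^ p.toReal⁻¹ / 2 with hr
  have r0 : 0 ≤ r := by positivity
  have r1 : r < 1 := by
    have := Real.rpow_lt_rpow_of_exponent_lt (x := 2) (by norm_num) (inv_lt_one_of_one_lt₀ p1)
    rw [Real.rpow_one] at this
    rw [hr]; linarith
  have sm : Summable (fun j : ℕ => r ^ j * (j + 1)) := by
    have a1 := summable_pow_mul_geometric_of_norm_lt_one (R := ℝ) 1 (r := r)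
      (by rwa [Real.norm_of_nonneg r0])
    have a2 := summable_geometric_of_lt_one r0 r1
    refine (a1.add a2).congr (fun j => by ring)
  set C := ∑' j : ℕ, r ^ j * (j + 1) with hC
  have C0 : 0 ≤ C := tsum_nonneg (fun j => by positivity)
  obtain ⟨l, l1, l2⟩ := exists_rep (K := ℂ) (MulAction.toPermHom Γ Γ) (fun _ _ => 1) zero_le_one
    (fun _ _ => ContinuousLinearMap.norm_id_le) (fun _ => rfl) (fun _ _ _ => (mul_one _).symm)
  simp only [MulAction.toPermHom_apply, MulAction.toPerm_apply, smul_eq_mul,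
    one_apply_eq_self] at l2
  have ld : ∀ g, l g (lp.single 2 1 1) = lp.single 2 g 1 := by
    intro g
    refine lp.ext (funext (fun y => ?_))
    simp [l2, Pi.single_apply, inv_mul_eq_one, eq_comm]
  have st : ∀ n : ℕ, ∃ (S : Finset Γ) (φ : ℝ)
      (π : Γ →* (lp (fun _ : ℕ => lp (fun _ : Γ => ℂ) 2) 2 →L[ℂ]
        lp (fun _ : ℕ => lp (fun _ : Γ => ℂ) 2) 2)) (ξ : lp (fun _ : ℕ => lp (fun _ : Γ => ℂ) 2) 2),
      (∀ s ∈ S, s⁻¹ ∈ S) ∧ n + 1 ≤ S.card ∧ (S.card : ℝ) - 2 ≤ φ ∧ (∀ g, ‖π g‖ ≤ 1 + 30 * C) ∧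
      ‖ξ‖ = √(n + 1 : ℕ) ∧ ‖∑ s ∈ S, π s ξ - (Complex.I * r * φ) • ξ‖ ≤
        √S.card * √(n + 1 : ℕ) + 2 * S.card + 6 * C * √(n + 1 : ℕ) ∧ 0 ≤ φ := by
    intro n
    obtain ⟨S, f, ε, P, h, hS, hε, hn, hk⟩ := H (n + 1)
    have S2 : (n : ℝ) + 2 ≤ S.card := by exact_mod_cast hn
    have n0 : (0 : ℝ) ≤ n := Nat.cast_nonneg n
    have hk' : ε * ((S.card : ℝ) + 1) ^ (n + 1) ≤ 1 :=
      le_trans (mul_le_mul_of_nonneg_left (pow_le_pow_right₀ (by linarith) (by omega)) hε) hk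
    have a1 : ε * ((S.card : ℝ) + 1) ≤ 1 :=
      le_trans (mul_le_mul_of_nonneg_left (le_self_pow₀ (by linarith) (by omega)) hε) hk'
    have a2 : (1 + ε) ^ (n + 1) ≤ 3 := by
      have b1 : (1 + ε) ^ (n + 1) ≤ Real.exp ε ^ (n + 1) :=
        pow_le_pow_left₀ (by linarith) (by linarith [Real.add_one_le_exp ε]) _
      rw [← Real.exp_nat_mul] at b1
      have b2 : ((n + 1 : ℕ) : ℝ) * ε ≤ 1 := by push_cast; nlinarith
      exact b1.trans ((Real.exp_le_exp.mpr b2).trans Real.exp_one_lt_three.le)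
    obtain ⟨A, φ, w, b1, b2, b3, b4, b5, b6⟩ := h.stage hS hε (Nat.succ_pos n) hk' a2 l l2
    have a3 : ‖∑ s ∈ S, l s (lp.single 2 1 1)‖ ≤ √S.card := by
      simp only [ld]
      have := lp.norm_sum_single (p := 2) (E := fun _ : Γ => ℂ) (by simp) (fun _ => 1) S
      simp only [ENNReal.toReal_ofNat, Real.rpow_ofNat, sum_const, nsmul_eq_mul, norm_one,
        one_pow, mul_one] at this
      exact Real.le_sqrt_of_sq_le this.le
    obtain ⟨π, c1, ξ, c2, c3⟩ := levels l l1 A (Nat.succ_pos n) r0 r1.le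
      (sm.sum_le_tsum _ (fun j _ => by positivity)) (show 0 ≤ φ by linarith) S (lp.single 2 1 1) w
      (by rw [lp.norm_single (by simp), norm_one]) a3 b1 b2 (by simpa only [ld] using b3) b6
    exact ⟨S, φ, π, ξ, fun s hs => h.inv_mem hs, by omega, b4, c1, c2, c3.trans (by linarith),
      by linarith⟩
  exact assemble h1 h2 hiso hr r0 r1 C0 st

theorem gap {p : ENNReal} [Fact (1 ≤ p)] (h1 : 1 < p) (h2 : p ≤ 2) {Γ : Type} [Group Γ]
    [DecidableEq Γ] (hiso : Iso p Γ) :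
    ∃ ε : ℝ, 0 < ε ∧ ∀ S : Finset Γ, 1 ∉ S → (∀ s ∈ S, s⁻¹ ∈ S) → 3 ≤ S.card →
      ∃ F : Finset Γ, (2 + ε) * F.card < (((F ×ˢ S).filter (fun q => q.1 * q.2 ∈ F)).card : ℝ) := by
  by_contra hc
  push Not at hc
  refine core h1 h2 hiso (fun n => ?_)
  set m := 8 * (n + 1) with hm
  set M := 4 * (m + 1) * (6 * (m + 1) + 1) ^ (n + 1) with hM
  have M0 : 0 < M := by positivity
  have M1 : (0 : ℝ) < M := by exact_mod_cast M0
  obtain ⟨S, a1, a2, a3, a4⟩ := hc (2 / M) (by positivity)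
  obtain ⟨T, b1, b2⟩ := exists_subset_card_eq a3
  let S0 := T ∪ T.image (fun s => s⁻¹)
  have c1 : S0 ⊆ S := union_subset b1 (fun s hs => by
    obtain ⟨t, ht, rfl⟩ := mem_image.mp hs
    exact a2 t (b1 ht))
  have c2 : ∀ s ∈ S0, s⁻¹ ∈ S0 := by
    intro s hs
    rcases mem_union.mp hs with h | h
    · exact mem_union_right _ (mem_image_of_mem _ h)
    · obtain ⟨t, ht, rfl⟩ := mem_image.mp h
      exact mem_union_left _ (by simpa using ht)
  have c3 : 3 ≤ S0.card := b2 ▸ card_le_card subset_union_left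
  have c4 : S0.card ≤ 6 := by
    have d1 := card_union_le T (T.image (fun s => s⁻¹))
    have d2 := card_image_le (s := T) (f := fun s => s⁻¹)
    exact d1.trans (by omega)
  obtain ⟨P, hP⟩ := exists_ori S0 (fun h => a1 (c1 h)) c2 M M0 (fun F => le_trans (by
    exact_mod_cast card_le_card (filter_subset_filter _ (product_subset_product_right c1))) (a4 F))
  have e0 : (1 : ℝ) ≤ (6 * (m + 1) + 1) ^ (n + 1) := one_le_pow₀ (by
    have : (0 : ℝ) ≤ m := Nat.cast_nonneg m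
    linarith)
  have e1 : 1 / (M : ℝ) * (m + 1) * (6 * (m + 1) + 1) ^ (n + 1) = 1 / 4 := by
    rw [hM]; push_cast; field_simp
  have e2 : 1 / (M : ℝ) * (m + 1) ≤ 1 / 4 := by
    rw [← e1]; exact le_mul_of_one_le_right (by positivity) e0
  have e3 : 1 / (M : ℝ) ≤ 1 / 4 :=
    le_trans (le_mul_of_one_le_right (by positivity) (by simp)) e2
  obtain ⟨S', f', P', d1, d2, d3, d4⟩ := hP.amplify e3 c3 m (by linarith)
  refine ⟨S', f', _, P', d1, d2, by positivity, by omega, ?_⟩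
  have e4 : (S'.card : ℝ) ≤ 6 * (m + 1) := by
    exact_mod_cast d4.trans (Nat.mul_le_mul_right _ c4)
  refine le_trans (mul_le_mul_of_nonneg_left (pow_le_pow_left₀ (by positivity)
    (show (S'.card : ℝ) + 1 ≤ 6 * (m + 1) + 1 by linarith) _) (by positivity)) ?_
  rw [e1]; norm_num

end Pool.Agent.Lib.MP_040728_al.Tree
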