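import Mathlib
import Pool.Agent.Lib.MP_040728_al.DQuad

set_option autoImplicit false

namespace Pool.Agent.Lib.MP_040728_al.VarDixmier

open Pool.Agent.Lib.MP_040728_al

/-- `π` is a uniformly bounded representation of `Γ` by bounded operators on `H`. -/
def IsUnifBddRep (Γ : Type) [Group Γ] (H : Type) [NormedAddCommGroup H] [NormedSpace ℂ H]
    (π : Γ → H →L[ℂ] H) : Prop :=
  (∀ v : H, π 1 v = v) ∧ (∀ (g h : Γ) (v : H), π (g * h) v = π g (π h v)) ∧
    ∃ C : ℝ, ∀ g : Γ, ‖π g‖ ≤ C

/-- `T` is a unitary operator: it is onto and preserves inner products. -/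
def IsUnitary (H : Type) [NormedAddCommGroup H] [InnerProductSpace ℂ H] (T : H → H) : Prop :=
  Function.Surjective T ∧ ∀ v w : H, inner ℂ (T v) (T w) = inner ℂ v w

/-- The family `π` is similar to a family of unitary operators. -/
def SimilarToUnitary (Γ : Type) (H : Type) [NormedAddCommGroup H] [InnerProductSpace ℂ H]
    (π : Γ → H →L[ℂ] H) : Prop :=
  ∃ S : H ≃L[ℂ] H, ∀ g : Γ, IsUnitary H (fun v => S (π g (S.symm v)))

/-- Every uniformly bounded representation of `Γ` on a complex Hilbert space is similar to a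
unitary representation. -/
def Unitarisable (Γ : Type) [Group Γ] : Prop :=
  ∀ (H : Type) [NormedAddCommGroup H] [InnerProductSpace ℂ H] [CompleteSpace H]
    (π : Γ → H →L[ℂ] H), IsUnifBddRep Γ H π → SimilarToUnitary Γ H π

/-- `Γ` carries a left invariant finitely additive probability measure on all its subsets. -/
def Amenable (Γ : Type) [Group Γ] : Prop :=
  ∃ m : Set Γ → ℝ, (∀ A : Set Γ, 0 ≤ m A) ∧ m Set.univ = 1 ∧
    (∀ A B : Set Γ, Disjoint A B → m (A ∪ B) = m A + m B) ∧
    ∀ (g : Γ) (A : Set Γ), m ((fun x => g * x) '' A) = m A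

theorem amenable (Γ : Type) [Group Γ] (h : Unitarisable Γ) : Amenable Γ := by
  obtain ⟨M, h1, h2⟩ := Dix.quad_mean (Γ := Γ) (Dix.quad_of_norm (fun H _ _ _ π C hπ => by
    obtain ⟨S, hS⟩ := h H (fun g => π g) ⟨fun v => by simp, fun g h v => by simp, C, hπ⟩
    refine ⟨H, inferInstance, inferInstance, S, fun a b => ?_, fun g v => ?_⟩
    · exact (parallelogram_law_with_norm ℂ a b).le
    · have := (hS g).2 (S v) (S v)
      simp only [ContinuousLinearEquiv.symm_apply_apply] at this
      rw [norm_eq_sqrt_re_inner (𝕜 := ℂ), this, ← norm_eq_sqrt_re_inner]))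
  exact Dix.measure_of_mean h1 h2

end Pool.Agent.Lib.MP_040728_al.VarDixmier
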